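import Mathlib

/-!
MP_ff9ca0_nt: the ring of integers modulo `p^2`, reduction modulo `p`, and the objects which occur in
all files.
-/

namespace Pool.Agent.Lib.MP_ff9ca0_nt

open Finset Polynomial

/-- the integers modulo `p^2` -/
abbrev RR (p : ℕ) : Type := ZMod (p ^ 2)

/-- reduction modulo `p` -/
def red (p : ℕ) : RR p →+* ZMod p := ZMod.castHom (dvd_pow_self p two_ne_zero) (ZMod p)

theorem pp (p : ℕ) : (p : RR p) ^ 2 = 0 := by
  have := ZMod.natCast_self (p ^ 2)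
  push_cast at this
  exact this

theorem pp' (p : ℕ) : (p : RR p) * (p : RR p) = 0 := by
  rw [← pow_two]; exact pp p

theorem int_eq_zero_iff {p : ℕ} {a : ℤ} : (a : RR p) = 0 ↔ (p : ℤ) ^ 2 ∣ a := by
  rw [ZMod.intCast_zmod_eq_zero_iff_dvd]
  push_cast
  rfl

theorem int_eq_iff {p : ℕ} {a b : ℤ} : (a : RR p) = (b : RR p) ↔ (p : ℤ) ^ 2 ∣ a - b := by
  rw [← int_eq_zero_iff, Int.cast_sub, sub_eq_zero]

theorem exists_int {p : ℕ} (x : RR p) : ∃ a : ℤ, (a : RR p) = x := ZMod.intCast_surjective x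

theorem red_int {p : ℕ} (a : ℤ) : red p (a : RR p) = (a : ZMod p) := map_intCast _ a

theorem red_nat {p : ℕ} (a : ℕ) : red p (a : RR p) = (a : ZMod p) := map_natCast _ a

/-- multiplication by `p` only sees the residue modulo `p` -/
theorem p_mul_eq {p : ℕ} {x y : RR p} (h : red p x = red p y) : (p : RR p) * x = p * y := by
  obtain ⟨a, rfl⟩ := exists_int x
  obtain ⟨b, rfl⟩ := exists_int y
  rw [red_int, red_int, ← sub_eq_zero, ← Int.cast_sub, ZMod.intCast_zmod_eq_zero_iff_dvd] at h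
  obtain ⟨c, hc⟩ := h
  have : (a : ℤ) = b + p * c := by linarith
  rw [this]
  push_cast
  linear_combination (c : RR p) * pp p

theorem p_mul_inj {p : ℕ} (hp : p ≠ 0) {x y : RR p} (h : (p : RR p) * x = p * y) :
    red p x = red p y := by
  obtain ⟨a, rfl⟩ := exists_int x
  obtain ⟨b, rfl⟩ := exists_int y
  rw [red_int, red_int, ← sub_eq_zero, ← Int.cast_sub, ZMod.intCast_zmod_eq_zero_iff_dvd]
  have h2 : (((p * a : ℤ)) : RR p) = ((p * b : ℤ) : RR p) := by push_cast; exact h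
  rw [int_eq_iff] at h2
  obtain ⟨c, hc⟩ := h2
  refine ⟨c, ?_⟩
  have hp' : (p : ℤ) ≠ 0 := by exact_mod_cast hp
  apply mul_left_cancel₀ hp'
  linear_combination hc

theorem isUnit_int {p : ℕ} (hp : p.Prime) {a : ℤ} (h : ¬ (p : ℤ) ∣ a) : IsUnit (a : RR p) := by
  have hc : IsCoprime a ((p : ℤ) ^ 2) := by
    apply IsCoprime.pow_right
    exact ((Nat.prime_iff_prime_int.mp hp).coprime_iff_not_dvd.mpr h).symm
  obtain ⟨u, v, huv⟩ := hc
  have e := congrArg (Int.cast : ℤ → RR p) huv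
  push_cast at e
  rw [pp, mul_zero, add_zero] at e
  exact IsUnit.of_mul_eq_one _ (by rw [mul_comm]; exact e)

theorem isUnit_nat {p : ℕ} (hp : p.Prime) {a : ℕ} (h : ¬ p ∣ a) : IsUnit (a : RR p) := by
  have := isUnit_int hp (a := (a : ℤ)) (by exact_mod_cast h)
  exact_mod_cast this

theorem isUnit_red {p : ℕ} (hp : p.Prime) {x : RR p} (h : red p x ≠ 0) : IsUnit x := by
  obtain ⟨a, rfl⟩ := exists_int x
  apply isUnit_int hp
  rw [red_int] at h
  intro hd
  exact h ((ZMod.intCast_zmod_eq_zero_iff_dvd a p).mpr hd)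

theorem eq_of_red_zero {p : ℕ} {x : RR p} (h : red p x = 0) : ∃ y : RR p, x = p * y := by
  obtain ⟨a, rfl⟩ := exists_int x
  rw [red_int, ZMod.intCast_zmod_eq_zero_iff_dvd] at h
  obtain ⟨c, hc⟩ := h
  exact ⟨c, by rw [hc]; push_cast; ring⟩

theorem not_dvd_choose {p m k : ℕ} (hp : p.Prime) (h : m < p) (hk : k ≤ m) : ¬ p ∣ m.choose k := by
  intro hd
  have h1 : p ∣ m.factorial := by
    rw [← Nat.choose_mul_factorial_mul_factorial hk, mul_assoc]
    exact Dvd.dvd.mul_right hd _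
  rw [hp.dvd_factorial] at h1
  omega

/-- the summand of `Sg` -/
def Fq {A : Type*} [CommRing A] (q4 : A) (j k : ℕ) : A :=
  ((2 * j).choose j : A) * q4 ^ j * ((2 * j + k).choose (2 * k) : A)

/-- `Σ_k = ∑_{j < p} C(2j, j) 4^(-j) C(2j + k, 2k)`, with `q4` the inverse of `4` -/
def Sg {A : Type*} [CommRing A] (q4 : A) (p k : ℕ) : A := ∑ j ∈ range p, Fq q4 j k

/-- the coefficients `(-1)^j C(n+j, j) C(e, n-j)` -/
def ct {A : Type*} [CommRing A] (e n j : ℕ) : A :=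
  (-1) ^ j * ((n + j).choose j : A) * (e.choose (n - j) : A)

/-- the Fermat quotient, as an integer -/
def qf (p a : ℕ) : ℤ := ((a : ℤ) ^ (p - 1) - 1) / p

/-- `H = ∑_{i=1}^N (-1)^(N+i) C(2N,N+i)/i` modulo `p` -/
noncomputable def H1 (p N : ℕ) [Fact p.Prime] : ZMod p :=
  ∑ i ∈ Icc 1 N, (-1) ^ (N + i) * ((2 * N).choose (N + i) : ZMod p) / (i : ZMod p)

end Pool.Agent.Lib.MP_ff9ca0_nt
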