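import Pool.Agent.Lib.MP_ff9ca0_nt.Basic

/-!
Binomial coefficients modulo `p^2`.
-/

namespace Pool.Agent.Lib.MP_ff9ca0_nt

open Finset Polynomial

private theorem p4_fact_two_mul (N : ℕ) :
    (2 * N).factorial = 2 ^ N * N.factorial * ∏ i ∈ range N, (2 * i + 1) := by
  induction N with
  | zero => simp
  | succ n ih =>
    have : 2 * (n + 1) = (2 * n + 1) + 1 := by ring
    rw [this, Nat.factorial_succ, Nat.factorial_succ, ih, Finset.prod_range_succ,
      Nat.factorial_succ n]
    ring

private theorem p4_choose (N : ℕ) :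
    N.factorial * (2 * N).choose N = 2 ^ N * ∏ i ∈ range N, (2 * i + 1) := by
  have h1 := p4_fact_two_mul N
  have h2 := Nat.choose_mul_factorial_mul_factorial (n := 2 * N) (k := N) (by omega)
  have h3 : 2 * N - N = N := by omega
  rw [h3] at h2
  apply Nat.eq_of_mul_eq_mul_right N.factorial_pos
  calc N.factorial * (2 * N).choose N * N.factorial
      = (2 * N).choose N * N.factorial * N.factorial := by ring
    _ = 2 ^ N * N.factorial * ∏ i ∈ range N, (2 * i + 1) := by rw [h2, h1]
    _ = 2 ^ N * (∏ i ∈ range N, (2 * i + 1)) * N.factorial := by ring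

private theorem p4_fact_mul_choose (N : ℕ) :
    (2 * N).factorial * (2 * N).choose N = 4 ^ N * (∏ i ∈ range N, (2 * i + 1)) ^ 2 := by
  have h4 : (4 : ℕ) ^ N = 2 ^ N * 2 ^ N := by rw [← mul_pow]; norm_num
  calc (2 * N).factorial * (2 * N).choose N
      = 2 ^ N * (∏ i ∈ range N, (2 * i + 1)) * (N.factorial * (2 * N).choose N) := by
        rw [p4_fact_two_mul]; ring
    _ = _ := by rw [p4_choose, h4]; ring

/-- `C(b,N) = C(-1/2,N)` modulo `p^2`, `b = (p^2-1)/2` -/
theorem choose_half {p N b : ℕ} (hp : p.Prime) (hN : p = 4 * N + 1) (hb : p ^ 2 = 2 * b + 1) :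
    (b.choose N : RR p) * 4 ^ N = (-1) ^ N * ((2 * N).choose N : RR p) := by
  have h2b : 2 * (b : RR p) = -1 := by
    have := congrArg (Nat.cast : ℕ → RR p) hb
    push_cast at this
    rw [pp] at this
    linear_combination -this
  have h1 : (N.factorial : RR p) * (b.choose N : RR p) = ∏ i ∈ range N, ((b : RR p) - i) := by
    rw [← descPochhammer_eval_eq_prod_range, descPochhammer_eval_eq_descFactorial,
      Nat.descFactorial_eq_factorial_mul_choose, Nat.cast_mul]
  have h2 : (2 : RR p) ^ N * ∏ i ∈ range N, ((b : RR p) - i)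
      = (-1) ^ N * ∏ i ∈ range N, (2 * (i : RR p) + 1) := by
    have hc : (2 : RR p) ^ N = ∏ _i ∈ range N, (2 : RR p) := by simp
    have hc' : (-1 : RR p) ^ N = ∏ _i ∈ range N, (-1 : RR p) := by simp
    rw [hc, hc', ← Finset.prod_mul_distrib, ← Finset.prod_mul_distrib]
    refine Finset.prod_congr rfl fun i _ => ?_
    linear_combination h2b
  have h3 : (N.factorial : RR p) * ((2 * N).choose N : RR p)
      = 2 ^ N * ∏ i ∈ range N, (2 * (i : RR p) + 1) := by
    have := congrArg (Nat.cast : ℕ → RR p) (p4_choose N)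
    push_cast at this
    exact this
  have hu : IsUnit (N.factorial : RR p) := by
    apply isUnit_nat hp
    rw [hp.dvd_factorial]
    omega
  apply hu.mul_left_cancel
  have h4 : (4 : RR p) ^ N = 2 ^ N * 2 ^ N := by rw [← mul_pow]; norm_num
  rw [← h1] at h2
  rw [h4]
  linear_combination 2 ^ N * h2 - (-1) ^ N * h3

/-- `C(n+k,2k) (-16)^k = C(2k,k)` modulo `p^2`, `p = 2n+1`, `k ≤ n` -/
theorem choose_mid {p n k : ℕ} (hp : p.Prime) (hn : p = 2 * n + 1) (hk : k ≤ n) :
    ((n + k).choose (2 * k) : RR p) * (-16) ^ k = ((2 * k).choose k : RR p) := by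
  have h2n : 2 * (n : RR p) = (p : RR p) - 1 := by
    have := congrArg (Nat.cast : ℕ → RR p) hn
    push_cast at this
    rw [this]; ring
  have h1 : ((2 * k).factorial : RR p) * ((n + k).choose (2 * k) : RR p)
      = ∏ i ∈ range (2 * k), (((n + k : ℕ) : RR p) - i) := by
    rw [← descPochhammer_eval_eq_prod_range, descPochhammer_eval_eq_descFactorial,
      Nat.descFactorial_eq_factorial_mul_choose, Nat.cast_mul]
  have h2 : (4 : RR p) ^ k * ∏ i ∈ range (2 * k), (((n + k : ℕ) : RR p) - i)
      = (-1) ^ k * (∏ i ∈ range k, (2 * (i : RR p) + 1)) ^ 2 := by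
    rw [two_mul k, Finset.prod_range_add, ← Finset.prod_range_reflect,
      ← Finset.prod_mul_distrib, ← Finset.prod_pow]
    have hc : (4 : RR p) ^ k = ∏ _i ∈ range k, (4 : RR p) := by simp
    have hc' : (-1 : RR p) ^ k = ∏ _i ∈ range k, (-1 : RR p) := by simp
    rw [hc, hc', ← Finset.prod_mul_distrib, ← Finset.prod_mul_distrib]
    refine Finset.prod_congr rfl fun i hi => ?_
    have hi' := Finset.mem_range.mp hi
    have e1 : ((k - 1 - i : ℕ) : RR p) = (k : RR p) - 1 - i := by
      rw [Nat.cast_sub (by omega), Nat.cast_sub (by omega), Nat.cast_one]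
    rw [e1]
    push_cast
    have e2 : 2 * ((n : RR p) + k - ((k : RR p) - 1 - i)) = (p : RR p) + (2 * i + 1) := by
      linear_combination h2n
    have e3 : 2 * ((n : RR p) + k - (k + i)) = (p : RR p) - (2 * i + 1) := by
      linear_combination h2n
    have e4 : 4 * (((n : RR p) + k - ((k : RR p) - 1 - i)) * ((n : RR p) + k - (k + i)))
        = (2 * ((n : RR p) + k - ((k : RR p) - 1 - i))) * (2 * ((n : RR p) + k - (k + i))) := by
      ring
    rw [e4, e2, e3]
    linear_combination pp p
  have h3 : ((2 * k).factorial : RR p) * ((2 * k).choose k : RR p)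
      = 4 ^ k * (∏ i ∈ range k, (2 * (i : RR p) + 1)) ^ 2 := by
    have := congrArg (Nat.cast : ℕ → RR p) (p4_fact_mul_choose k)
    push_cast at this
    exact this
  have hu : IsUnit ((2 * k).factorial : RR p) := by
    apply isUnit_nat hp
    rw [hp.dvd_factorial]
    omega
  apply hu.mul_left_cancel
  have h4 : (-16 : RR p) ^ k = (-1) ^ k * (4 ^ k * 4 ^ k) := by
    rw [← mul_pow, ← mul_pow]; norm_num
  have h5 : ((-1 : RR p) ^ k) * (-1) ^ k = 1 := by rw [← mul_pow]; simp
  rw [← h1] at h2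
  rw [h4]
  linear_combination (-1) ^ k * 4 ^ k * h2 - h3
    + 4 ^ k * (∏ i ∈ range k, (2 * (i : RR p) + 1)) ^ 2 * h5

end Pool.Agent.Lib.MP_ff9ca0_nt
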