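import Pool.Agent.Lib.MP_ff9ca0_nt.Basic

/-!
Exchange of sums.
-/

namespace Pool.Agent.Lib.MP_ff9ca0_nt

open Finset Polynomial

private theorem Sig2_sq {p m : ℕ} (h : p ∣ m) : (m : RR p) ^ 2 = 0 := by
  obtain ⟨c, rfl⟩ := h
  push_cast
  linear_combination (c : RR p) ^ 2 * pp p

private theorem Sig2_lo {p n k : ℕ} (hp : p.Prime) (hn : p = 2 * n + 1) (h1 : n < k)
    (h2 : k < p) : ((2 * k).choose k : RR p) ^ 2 = 0 := by
  apply Sig2_sq
  have := Fact.mk hp
  have h6 := Choose.choose_modEq_choose_mod_mul_choose_div_nat (n := 2 * k) (k := k) (p := p)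
  have e1 : (2 * k) % p = 2 * k - p := by
    rw [Nat.mod_eq_sub_mod (by omega), Nat.mod_eq_of_lt (by omega)]
  have e2 : k % p = k := Nat.mod_eq_of_lt h2
  rw [e1, e2, Nat.choose_eq_zero_of_lt (show 2 * k - p < k by omega), zero_mul] at h6
  exact Nat.modEq_zero_iff_dvd.1 h6

private theorem Sig2_hi {p n a : ℕ} (hp : p.Prime) (hn : p = 2 * n + 1) (h1 : n < a)
    (h2 : a < p) : ((2 * (p + a)).choose (p + a) : RR p) ^ 2 = 0 := by
  apply Sig2_sq
  have := Fact.mk hp
  have h6 := Choose.choose_modEq_choose_mod_mul_choose_div_nat (n := 2 * (p + a)) (k := p + a)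
    (p := p)
  have e1 : (2 * (p + a)) % p = 2 * a - p := by
    have : 2 * (p + a) = (2 * a - p) + 3 * p := by omega
    rw [this, Nat.add_mul_mod_self_right, Nat.mod_eq_of_lt (by omega)]
  have e2 : (p + a) % p = a := by
    rw [Nat.add_mod_left, Nat.mod_eq_of_lt h2]
  rw [e1, e2, Nat.choose_eq_zero_of_lt (show 2 * a - p < a by omega), zero_mul] at h6
  exact Nat.modEq_zero_iff_dvd.1 h6

/-- exchange of the sums and removal of the terms which vanish modulo `p^2`
(`C(2k,k)^2 = 0` for `n < k < p` and for `p + n < k < 2p`). -/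
theorem S_split {p n : ℕ} (hp : p.Prime) (hn : p = 2 * n + 1) (q4 z : RR p) :
    ∑ j ∈ range p, ((2 * j).choose j : RR p) * q4 ^ j *
      (∑ k ∈ range (2 * j + 1), ((2 * j + k).choose (2 * k) : RR p) *
        ((2 * k).choose k : RR p) ^ 2 * z ^ k) =
      (∑ k ∈ range (n + 1), ((2 * k).choose k : RR p) ^ 2 * z ^ k * Sg q4 p k) +
      ∑ a ∈ range (n + 1), ((2 * (p + a)).choose (p + a) : RR p) ^ 2 * z ^ (p + a) *
        Sg q4 p (p + a) := by
  have h1 : ∀ j ∈ range p, ((2 * j).choose j : RR p) * q4 ^ j *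
      (∑ k ∈ range (2 * j + 1), ((2 * j + k).choose (2 * k) : RR p) *
        ((2 * k).choose k : RR p) ^ 2 * z ^ k) =
      ∑ k ∈ range (p + p), ((2 * k).choose k : RR p) ^ 2 * z ^ k * Fq q4 j k := by
    intro j hj
    rw [mem_range] at hj
    have h2 : ∑ k ∈ range (2 * j + 1), ((2 * j + k).choose (2 * k) : RR p) *
        ((2 * k).choose k : RR p) ^ 2 * z ^ k = ∑ k ∈ range (p + p),
        ((2 * j + k).choose (2 * k) : RR p) * ((2 * k).choose k : RR p) ^ 2 * z ^ k := by
      apply Finset.sum_subset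
      · intro k hk
        rw [mem_range] at hk ⊢
        omega
      · intro k _ hk
        rw [mem_range] at hk
        rw [Nat.choose_eq_zero_of_lt (show 2 * j + k < 2 * k by omega)]
        simp
    rw [h2, Finset.mul_sum]
    refine Finset.sum_congr rfl (fun k _ => ?_)
    unfold Fq
    ring
  rw [Finset.sum_congr rfl h1, Finset.sum_comm]
  have h3 : ∀ k, ∑ j ∈ range p, ((2 * k).choose k : RR p) ^ 2 * z ^ k * Fq q4 j k =
      ((2 * k).choose k : RR p) ^ 2 * z ^ k * Sg q4 p k := by
    intro k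
    unfold Sg
    rw [Finset.mul_sum]
  rw [Finset.sum_congr rfl (fun k _ => h3 k), Finset.sum_range_add]
  congr 1
  · symm
    apply Finset.sum_subset
    · intro k hk
      rw [mem_range] at hk ⊢
      omega
    · intro k hk hk'
      rw [mem_range] at hk hk'
      rw [Sig2_lo hp hn (by omega) hk]
      ring
  · symm
    apply Finset.sum_subset
    · intro k hk
      rw [mem_range] at hk ⊢
      omega
    · intro k hk hk'
      rw [mem_range] at hk hk'
      rw [Sig2_hi hp hn (by omega) hk]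
      ring

end Pool.Agent.Lib.MP_ff9ca0_nt
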