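import Pool.Agent.Lib.MP_ff9ca0_nt.Sig1
import Pool.Agent.Lib.MP_ff9ca0_nt.Sig2

/-!
The case `p = 4N+1`.
-/

namespace Pool.Agent.Lib.MP_ff9ca0_nt

open Finset Polynomial

private theorem dvd_of_lucas {p m k : ℕ} (hp : p.Prime) (h : (m % p).choose (k % p) = 0) :
    p ∣ m.choose k := by
  have : Fact p.Prime := ⟨hp⟩
  have h1 := Choose.choose_modEq_choose_mod_mul_choose_div_nat (n := m) (k := k) (p := p)
  rw [h, zero_mul] at h1
  exact (Nat.modEq_zero_iff_dvd).mp h1

private theorem Fq_zero {p N : ℕ} (hp : p.Prime) (hN : p = 4 * N + 1) (q4 : RR p)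
    {j : ℕ} (hj : j < p) : Fq q4 j (p + 2 * N) = 0 := by
  unfold Fq
  by_cases h : 2 * j + (p + 2 * N) < 2 * (p + 2 * N)
  · rw [Nat.choose_eq_zero_of_lt h]
    simp
  · have hN0 : 0 < N := by
      rcases Nat.eq_zero_or_pos N with h0 | h0
      · subst h0
        exact absurd hN (by simpa using hp.one_lt.ne')
      · exact h0
    have h1 : p ∣ (2 * j).choose j := by
      apply dvd_of_lucas hp
      apply Nat.choose_eq_zero_of_lt
      rw [Nat.mod_eq_of_lt hj]
      have e : 2 * j = (2 * j - p) + p := by omega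
      rw [e, Nat.add_mod_right, Nat.mod_eq_of_lt (by omega)]
      omega
    have h2 : p ∣ (2 * j + (p + 2 * N)).choose (2 * (p + 2 * N)) := by
      apply dvd_of_lucas hp
      apply Nat.choose_eq_zero_of_lt
      obtain ⟨r, e1, hr⟩ : ∃ r, 2 * j + (p + 2 * N) = r + p * 3 ∧ r < p - 1 :=
        ⟨2 * j + (p + 2 * N) - p * 3, by omega, by omega⟩
      have e2 : 2 * (p + 2 * N) = (p - 1) + p * 2 := by omega
      rw [e1, e2, Nat.add_mul_mod_self_left, Nat.add_mul_mod_self_left,
        Nat.mod_eq_of_lt (by omega), Nat.mod_eq_of_lt (by omega)]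
      exact hr
    obtain ⟨u, hu⟩ := h1
    obtain ⟨v, hv⟩ := h2
    rw [hu, hv]
    push_cast
    linear_combination (u : RR p) * q4 ^ j * v * pp p

private theorem Sg_hi_aux {p N : ℕ} (hp : p.Prime) (hN : p = 4 * N + 1) {q4 : RR p}
    (h4 : 4 * q4 = 1) (d : ℕ) : ∀ a : ℕ, a + d = 2 * N → Sg q4 p (p + a) = 0 := by
  induction d with
  | zero =>
    intro a ha
    rw [add_zero] at ha
    subst ha
    unfold Sg
    apply Finset.sum_eq_zero
    intro j hj
    exact Fq_zero hp hN q4 (Finset.mem_range.mp hj)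
  | succ d ih =>
    intro a ha
    have h1 := ih (a + 1) (by omega)
    have h2 := Sg_step_hi hp (n := 2 * N) (by omega) h4 (k := p + a) (by omega) (by omega)
    rw [show p + a + 1 = p + (a + 1) by ring, h1, mul_zero] at h2
    have hu : IsUnit ((p + a + 1 : ℕ) : RR p) := by
      apply isUnit_nat hp
      intro hd
      have h3 : p ∣ a + 1 := by
        rw [add_assoc] at hd
        exact (Nat.dvd_add_right (dvd_refl p)).mp hd
      have := Nat.le_of_dvd (by omega) h3
      omega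
    apply hu.mul_left_cancel
    rw [mul_zero]
    push_cast at h2 ⊢
    linear_combination h2

/-- for `p = 4N+1` the second part vanishes: `Sg q4 p (p + n) = 0` (each term is zero: the binomial
coefficient `C(2j+p+n, 3p-1)` and `C(2j,j)` are both divisible by `p`, `2j = 2p-1-n` being odd is
impossible), then downward by `Sg_step_hi`. -/
theorem Sg_hi_zero {p N : ℕ} (hp : p.Prime) (hN : p = 4 * N + 1) {q4 : RR p} (h4 : 4 * q4 = 1)
    {a : ℕ} (ha : a ≤ 2 * N) : Sg q4 p (p + a) = 0 :=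
  Sg_hi_aux hp hN h4 (2 * N - a) a (by omega)

/-- for `p = 4N+1` -/
theorem S_one {p N : ℕ} (hp : p.Prime) (hN : p = 4 * N + 1) {q4 : RR p} (h4 : 4 * q4 = 1)
    (z : RR p) :
    ∑ j ∈ range p, ((2 * j).choose j : RR p) * q4 ^ j *
      (∑ k ∈ range (2 * j + 1), ((2 * j + k).choose (2 * k) : RR p) *
        ((2 * k).choose k : RR p) ^ 2 * z ^ k) =
      ∑ k ∈ range (2 * N + 1), ((2 * k).choose k : RR p) ^ 2 * z ^ k * Sg q4 p k := by
  rw [S_split hp (n := 2 * N) (by omega) q4 z]
  rw [Finset.sum_eq_zero (s := range (2 * N + 1)) (f := fun a =>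
    ((2 * (p + a)).choose (p + a) : RR p) ^ 2 * z ^ (p + a) * Sg q4 p (p + a)), add_zero]
  intro a ha
  rw [mem_range] at ha
  rw [Sg_hi_zero hp hN h4 (by omega), mul_zero]

end Pool.Agent.Lib.MP_ff9ca0_nt
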