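import Pool.Agent.Lib.MP_ff9ca0_nt.TD
import Pool.Agent.Lib.MP_ff9ca0_nt.Sig3
import Pool.Agent.Lib.MP_ff9ca0_nt.Prod4

/-!
The value at `z = -1/4`.
-/

namespace Pool.Agent.Lib.MP_ff9ca0_nt

open Finset Polynomial

private theorem CZero_q4 {A : Type*} [CommRing A] {q4 : A} (h4 : 4 * q4 = 1) {k m : ℕ}
    (hk : k ≤ m) : (4 : A) ^ (m - k) * q4 ^ m = q4 ^ k := by
  obtain ⟨l, rfl⟩ := Nat.exists_eq_add_of_le hk
  rw [Nat.add_sub_cancel_left, pow_add, mul_left_comm, ← mul_pow, h4, one_pow, mul_one]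

private theorem CZero_P0 {p : ℕ} {q4 : RR p} (h4 : 4 * q4 = 1) (j : ℕ) :
    ∑ k ∈ range (2 * j + 1), ((2 * j + k).choose (2 * k) : RR p) *
      ((2 * k).choose k : RR p) ^ 2 * (-q4) ^ k = ((2 * j).choose j : RR p) ^ 2 * q4 ^ (2 * j) := by
  have h := congrArg (Int.cast : ℤ → RR p) (P0_sq j)
  push_cast at h
  rw [← h, Finset.sum_mul]
  refine Finset.sum_congr rfl (fun k hk => ?_)
  rw [mem_range] at hk
  have h5 := CZero_q4 h4 (show k ≤ 2 * j by omega)
  rw [neg_pow q4 k]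
  linear_combination (-((2 * j + k).choose (2 * k) : RR p) * ((2 * k).choose k : RR p) ^ 2 *
    (-1) ^ k) * h5

private theorem CZero_cube {p N j : ℕ} (hp : p.Prime) (hN : p = 4 * N + 1) (h1 : 2 * N < j)
    (h2 : j < p) : ((2 * j).choose j : RR p) ^ 2 = 0 := by
  have := Fact.mk hp
  have h6 := Choose.choose_modEq_choose_mod_mul_choose_div_nat (n := 2 * j) (k := j) (p := p)
  have e1 : (2 * j) % p = 2 * j - p := by
    rw [Nat.mod_eq_sub_mod (by omega), Nat.mod_eq_of_lt (by omega)]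
  have e2 : j % p = j := Nat.mod_eq_of_lt h2
  rw [e1, e2, Nat.choose_eq_zero_of_lt (show 2 * j - p < j by omega), zero_mul] at h6
  obtain ⟨c, hc⟩ := Nat.modEq_zero_iff_dvd.1 h6
  rw [hc]
  push_cast
  linear_combination (c : RR p) ^ 2 * pp p

/-- Proof.  By `S_one` at `z = -q4` and `P0_sq` the left side is `16^N ∑_{j<p} C(2j,j)^3 q4^(3j)`,
where the terms `j > 2N` vanish (`p ∣ C(2j,j)`).  By `P0_sq` with `j = N` and `choose_mid` (with
`n = 2N`) `C(2N,N)^2 q4^(2N) = ∑_{k≤2N} C(2k,k)^3 q4^(3k)`. -/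
theorem c_zero_eq {p N : ℕ} (hp : p.Prime) (hN : p = 4 * N + 1) {q4 : RR p} (h4 : 4 * q4 = 1) :
    (∑ k ∈ range (2 * N + 1), ((2 * k).choose k : RR p) ^ 2 * (-q4) ^ k * Sg q4 p k) * 16 ^ N =
      ((2 * N).choose N : RR p) ^ 2 := by
  rw [← S_one hp hN h4 (-q4)]
  have h1 : ∀ j ∈ range p, ((2 * j).choose j : RR p) * q4 ^ j *
      (∑ k ∈ range (2 * j + 1), ((2 * j + k).choose (2 * k) : RR p) *
        ((2 * k).choose k : RR p) ^ 2 * (-q4) ^ k) =
      ((2 * j).choose j : RR p) ^ 3 * q4 ^ (3 * j) := by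
    intro j _
    rw [CZero_P0 h4 j]
    ring
  rw [Finset.sum_congr rfl h1]
  have h2 : ∑ j ∈ range p, ((2 * j).choose j : RR p) ^ 3 * q4 ^ (3 * j) =
      ∑ j ∈ range (2 * N + 1), ((2 * j).choose j : RR p) ^ 3 * q4 ^ (3 * j) := by
    symm
    apply Finset.sum_subset
    · intro j hj
      rw [mem_range] at hj ⊢
      omega
    · intro j hj hj'
      rw [mem_range] at hj hj'
      have := CZero_cube hp hN (j := j) (by omega) hj
      linear_combination (((2 * j).choose j : RR p) * q4 ^ (3 * j)) * this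
  have h3 : ∑ j ∈ range (2 * N + 1), ((2 * j).choose j : RR p) ^ 3 * q4 ^ (3 * j) =
      ((2 * N).choose N : RR p) ^ 2 * q4 ^ (2 * N) := by
    rw [← CZero_P0 h4 N]
    refine Finset.sum_congr rfl (fun k hk => ?_)
    rw [mem_range] at hk
    have h5 := choose_mid (n := 2 * N) (k := k) hp (by omega) (by omega)
    rw [← h5]
    have h6 : (-16 : RR p) ^ k * q4 ^ (2 * k) = (-1) ^ k := by
      rw [pow_mul, ← mul_pow]
      congr 1
      linear_combination (-(4 * q4) - 1) * h4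
    have h7 : (-16 : RR p) ^ k * q4 ^ (3 * k) = (-q4) ^ k := by
      have : q4 ^ (3 * k) = q4 ^ (2 * k) * q4 ^ k := by rw [← pow_add]; congr 1; ring
      rw [this, ← mul_assoc, h6, neg_pow q4 k]
    linear_combination (((2 * N + k).choose (2 * k) : RR p) ^ 3 * ((-16 : RR p) ^ k) ^ 2) * h7
  rw [h2, h3, mul_assoc, pow_mul, ← mul_pow]
  have h8 : q4 ^ 2 * 16 = (1 : RR p) := by
    linear_combination (4 * q4 + 1) * h4
  rw [h8, one_pow, mul_one]

end Pool.Agent.Lib.MP_ff9ca0_nt
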