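import Pool.Agent.Lib.MP_ff9ca0_nt.Main

/-!
The three parts of the conjecture.
-/

namespace Pool.Agent.Lib.MP_ff9ca0_nt

open Finset Polynomial

/-- a root of unity of order dividing 2 is determined by its reduction -/
theorem sq_eq_one {p : ℕ} (hp : p.Prime) (h2 : p ≠ 2) {w : RR p} (h : w ^ 2 = 1) {s : ℤ}
    (hs : s = 1 ∨ s = -1) (hr : red p w = s) : w = s := by
  have h0 : red p (w - s) = 0 := by
    rw [map_sub, hr, red_int, sub_self]
  obtain ⟨y, hy⟩ := eq_of_red_zero h0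
  have hs2 : (s : RR p) * s = 1 := by
    rcases hs with rfl | rfl <;> norm_num
  have hu : IsUnit (2 : RR p) := by
    have := isUnit_nat hp (a := 2) (fun hd => h2 ((Nat.prime_dvd_prime_iff_eq hp Nat.prime_two).mp hd))
    exact_mod_cast this
  have hw : w = s + p * y := by linear_combination hy
  have e : 2 * ((p : RR p) * y) = 0 := by
    have h3 : (s : RR p) * (s + p * y) ^ 2 = s := by rw [← hw, h, mul_one]
    linear_combination h3 - (s + 2 * (p * y)) * hs2 - s * y ^ 2 * pp p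
  have e2 := hu.mul_right_eq_zero.mp e
  rw [hw, e2, add_zero]

theorem natAbs_cast_sq {A : Type*} [CommRing A] (a : ℤ) : ((a.natAbs : ℕ) : A) ^ 2 = (a : A) ^ 2 := by
  rw [← Int.cast_natCast, ← Int.cast_pow, Int.natAbs_sq, Int.cast_pow]

theorem part_a {p : ℕ} (hp : p.Prime) (h20 : p % 20 = 1 ∨ p % 20 = 9) {x y : ℤ}
    (h : (p : ℤ) = x ^ 2 + 25 * y ^ 2) : CongSq p (S p) ((4 * x ^ 2 - 2 * p : ℤ) : ℚ) := by
  have hF : Fact p.Prime := ⟨hp⟩
  have hp1 : p ≠ 1 := hp.one_lt.ne'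
  have hp9 : p ≠ 9 := by rintro rfl; norm_num at hp
  have h7 : 7 ≤ p := by omega
  obtain ⟨N, hN⟩ : ∃ N, p = 4 * N + 1 := ⟨p / 4, by omega⟩
  obtain ⟨q4, h4⟩ := exists_q4 hp (by omega)
  apply congSq_of hp (by omega) h4
  -- the sign
  have key : ∀ {a b : ℤ} {s : ℤ}, a ^ 2 + b ^ 2 = p → Odd a → (s = 1 ∨ s = -1) →
      (5 : ZMod p) ^ N = s → SR p q4 = s * (4 * (a : RR p) ^ 2 - 2 * p) := by
    intro a b s hab ha hs h5
    have hnat : a.natAbs ^ 2 + b.natAbs ^ 2 = p := by
      have : ((a.natAbs ^ 2 + b.natAbs ^ 2 : ℕ) : ℤ) = p := by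
        push_cast
        rw [sq_abs, sq_abs, hab]
      exact_mod_cast this
    obtain ⟨ζ, hz4, hzr, hS⟩ := main_one hp hN h7 h4 hnat (Int.natAbs_odd.mpr ha)
    have hw : ζ ^ 2 = ((1 : ℤ) : RR p) := by
      apply sq_eq_one hp (by omega) (by rw [← hz4]; ring) (Or.inl rfl)
      rw [map_pow, hzr, h5]
      rcases hs with rfl | rfl <;> norm_num
    have hz : ζ = s := by
      apply sq_eq_one hp (by omega) (by rw [hw]; norm_num) hs
      rw [hzr, h5]
    rw [hS, hz, natAbs_cast_sq]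
  have hp5 : p ≠ 5 := by omega
  rcases Int.even_or_odd x with hx | hx
  · have hy : Odd y := by
      rcases Int.even_or_odd y with hy | hy
      · exfalso
        obtain ⟨a, rfl⟩ := hx
        obtain ⟨b, rfl⟩ := hy
        have : (p : ℤ) = 2 * (2 * a ^ 2 + 50 * b ^ 2) := by rw [h]; ring
        omega
      · exact hy
    have h1 : (5 * y) ^ 2 + x ^ 2 = (p : ℤ) := by rw [h]; ring
    have ho : Odd (5 * y) := (by decide : Odd (5 : ℤ)).mul hy
    have := key h1 ho (Or.inr rfl) (by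
      rw [quartic_x hN h1 ho (dvd_mul_right 5 y) hp5]; norm_num)
    rw [this]
    have e := congrArg (Int.cast : ℤ → RR p) h
    push_cast at e ⊢
    linear_combination 4 * e
  · have h1 : x ^ 2 + (5 * y) ^ 2 = (p : ℤ) := by rw [h]; ring
    have := key h1 hx (Or.inl rfl) (by
      rw [quartic_y hN h1 hx (dvd_mul_right 5 y) hp5]; norm_num)
    rw [this]
    push_cast
    ring

theorem part_b {p : ℕ} (hp : p.Prime) (h20 : p % 20 = 13 ∨ p % 20 = 17) {x y : ℤ}
    (h : (p : ℤ) = x ^ 2 + y ^ 2) (hx : Odd x) (h5 : x * y % 5 = 1) :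
    CongSq p (S p) ((4 * x * y * jacobiSym x 5 : ℤ) : ℚ) := by
  have hF : Fact p.Prime := ⟨hp⟩
  have h7 : 7 ≤ p := by omega
  obtain ⟨N, hN⟩ : ∃ N, p = 4 * N + 1 := ⟨p / 4, by omega⟩
  obtain ⟨q4, h4⟩ := exists_q4 hp (by omega)
  apply congSq_of hp (by omega) h4
  have hnat : x.natAbs ^ 2 + y.natAbs ^ 2 = p := by
    have : ((x.natAbs ^ 2 + y.natAbs ^ 2 : ℕ) : ℤ) = p := by
      push_cast
      rw [sq_abs, sq_abs, h]
    exact_mod_cast this
  obtain ⟨ζ, hz4, hzr, hS⟩ := main_one hp hN h7 h4 hnat (Int.natAbs_odd.mpr hx)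
  have hq := quartic_xy hN h.symm hx (by omega)
  set χ : ℤ := jacobiSym x 5 with hχ
  have hχ2 : χ * χ = 1 := by
    have hg : Int.gcd x 5 = 1 := by
      have h1 : IsCoprime x 5 := by
        rw [Int.isCoprime_iff_gcd_eq_one]
        by_contra hne
        have h2 : Int.gcd x 5 ∣ 5 := by
          have := Int.gcd_dvd_right x 5
          exact_mod_cast this
        have h3 : Int.gcd x 5 = 5 := by
          rcases (Nat.dvd_prime (by norm_num : Nat.Prime 5)).mp h2 with h4 | h4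
          · exact absurd h4 hne
          · exact h4
        have h6 : (5 : ℤ) ∣ x := by
          have := Int.gcd_dvd_left x 5
          rw [h3] at this
          exact_mod_cast this
        obtain ⟨c, rfl⟩ := h6
        have : 5 * c * y = 5 * (c * y) := by ring
        omega
      rwa [Int.isCoprime_iff_gcd_eq_one] at h1
    rcases jacobiSym.eq_one_or_neg_one hg with h1 | h1
    · rw [hχ, h1]; norm_num
    · rw [hχ, h1]; norm_num
  have hxy := congrArg (Int.cast : ℤ → ZMod p) h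
  push_cast at hxy
  rw [ZMod.natCast_self] at hxy
  have hχz : (χ : ZMod p) * χ = 1 := by
    have := congrArg (Int.cast : ℤ → ZMod p) hχ2
    push_cast at this; exact this
  have hy0 : (y : ZMod p) ≠ 0 := by
    intro h0
    rw [ZMod.intCast_zmod_eq_zero_iff_dvd] at h0
    have h1 : y ≠ 0 := by rintro rfl; simp at h5
    have h2 : (p : ℤ) ≤ |y| := Int.le_of_dvd (by positivity) ((dvd_abs _ _).mpr h0)
    have h3 : |y| * |y| = y ^ 2 := by rw [abs_mul_abs_self]; ring
    have h6 : (7 : ℤ) ≤ p := by exact_mod_cast h7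
    nlinarith [sq_nonneg x]
  have h52 : (5 : ZMod p) ^ (2 * N) = -1 := by
    have h1 : (y : ZMod p) ^ 2 * ((5 : ZMod p) ^ (2 * N) + 1) = 0 := by
      have e1 : (x : ZMod p) = -(y * χ * 5 ^ N) := by linear_combination hq
      rw [mul_comm 2 N, pow_mul]
      rw [e1] at hxy
      linear_combination (-(1 : ZMod p)) * hxy - (y : ZMod p) ^ 2 * (5 ^ N) ^ 2 * hχz
    rcases mul_eq_zero.mp h1 with h2 | h2
    · exact absurd ((pow_eq_zero_iff two_ne_zero).mp h2) hy0
    · linear_combination h2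
  have hζ2 : ζ ^ 2 = ((-1 : ℤ) : RR p) := by
    apply sq_eq_one hp (by omega) (by rw [← hz4]; ring) (Or.inr rfl)
    rw [map_pow, hzr, ← pow_mul, mul_comm N 2, h52]; norm_num
  push_cast at hζ2
  obtain ⟨t, ht⟩ := eq_of_red_zero (x := (x : RR p) + (y : RR p) * (χ : RR p) * ζ) (by
    simp only [map_add, map_mul, red_int]
    rw [hzr]
    exact hq)
  have hχR : (χ : RR p) * χ = 1 := by
    have := congrArg (Int.cast : ℤ → RR p) hχ2
    push_cast at this; exact this
  rw [hS, natAbs_cast_sq]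
  have hpR := congrArg (Int.cast : ℤ → RR p) h
  push_cast at hpR ⊢
  have hsq : ((x : RR p) + y * χ * ζ) ^ 2 = 0 := by
    rw [ht]; linear_combination t ^ 2 * pp p
  linear_combination (-2 * ζ) * hpR + 2 * ζ * hsq -
    (2 * y ^ 2 * χ ^ 2 * ζ + 4 * x * y * χ) * hζ2 + (2 * y ^ 2 * ζ) * hχR

theorem part_c {p : ℕ} (hp : p.Prime) (h4 : p % 4 = 3) : CongSq p (S p) ((0 : ℤ) : ℚ) := by
  obtain ⟨q4, hq⟩ := exists_q4 hp (by omega)
  apply congSq_of hp (by omega) hq
  rw [Int.cast_zero]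
  rcases Nat.lt_or_ge p 7 with h7 | h7
  · have hp3 : p = 3 := by
      interval_cases p <;> first | rfl | (exfalso; omega)
    subst hp3
    rw [SR_eq]
    have hq7 : q4 = 7 := by
      revert hq
      revert q4
      decide
    rw [hq7]
    decide
  · obtain ⟨r, hr⟩ : ∃ r, p = 4 * r + 3 := ⟨p / 4, by omega⟩
    exact main_three hp hr h7 hq

end Pool.Agent.Lib.MP_ff9ca0_nt
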