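import Pool.Agent.Lib.MP_ff9ca0_nt.KDef

/-!
The polynomials `E_c`.
-/

namespace Pool.Agent.Lib.MP_ff9ca0_nt

open Finset Polynomial

variable {p : ℕ} [hp : Fact p.Prime]

private theorem KA1_dvd (c : ℕ) : (p : ℤ) ∣ (c : ℤ) ^ p - c := by
  rw [← ZMod.intCast_zmod_eq_zero_iff_dvd]
  push_cast
  rw [ZMod.pow_card, sub_self]

theorem Ez_spec (hodd : p ≠ 2) (c : ℕ) : C (p : ℤ) * Ez p c = X ^ p - C (c : ℤ) - (X - C (c : ℤ)) ^ p := by
  have hp0 : 0 < p := hp.out.pos
  have ho : Odd p := hp.out.odd_of_ne_two hodd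
  have h1 : range p = insert 0 (Ioo 0 p) := by
    ext i
    simp only [mem_range, mem_insert, mem_Ioo]
    omega
  have h2 : (X - C (c : ℤ)) ^ p = X ^ p + (-C (c : ℤ) ^ p + ∑ i ∈ Ioo 0 p,
      X ^ i * (-C (c : ℤ)) ^ (p - i) * ((p.choose i : ℕ) : ℤ[X])) := by
    rw [sub_eq_add_neg, add_pow, Finset.sum_range_succ, h1, Finset.sum_insert (by simp)]
    simp only [pow_zero, Nat.sub_zero, Nat.choose_zero_right, Nat.sub_self, Nat.choose_self,
      Nat.cast_one, one_mul, mul_one, ho.neg_pow]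
    ring
  rw [h2, Ez, mul_sub, ← C_mul, Int.mul_ediv_cancel' (KA1_dvd c), Finset.mul_sum]
  have h3 : ∀ i ∈ Ioo 0 p, C (p : ℤ) * (C (((p.choose i / p : ℕ) : ℤ) * (-(c : ℤ)) ^ (p - i)) * X ^ i) =
      X ^ i * (-C (c : ℤ)) ^ (p - i) * ((p.choose i : ℕ) : ℤ[X]) := by
    intro i hi
    rw [mem_Ioo] at hi
    have h4 : p ∣ p.choose i := hp.out.dvd_choose_self (by omega) hi.2
    obtain ⟨d, hd⟩ := h4
    rw [hd, Nat.mul_div_cancel_left _ hp0]
    simp only [C_mul, C_pow, C_neg, Nat.cast_mul, map_natCast]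
    ring
  rw [Finset.sum_congr rfl h3]
  simp only [C_sub, C_pow]
  ring

theorem Ez_natDegree (c : ℕ) : (Ez p c).natDegree < p := by
  have hp0 : 0 < p := hp.out.pos
  have h : (Ez p c).natDegree ≤ p - 1 := by
    unfold Ez
    refine (natDegree_sub_le_of_le (m := p - 1) (n := p - 1) ?_ ?_).trans (by simp)
    · rw [natDegree_C]
      omega
    · refine natDegree_sum_le_of_forall_le _ _ (fun i hi => ?_)
      rw [mem_Ioo] at hi
      refine (natDegree_C_mul_X_pow_le _ _).trans (by omega)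
  omega

theorem Ep_natDegree (c : ℕ) : (Ep p c).natDegree < p :=
  (natDegree_map_le).trans_lt (Ez_natDegree c)

theorem Ep_deriv (hodd : p ≠ 2) (c : ℕ) :
    derivative (Ep p c) = X ^ (p - 1) - (X - C (c : ZMod p)) ^ (p - 1) := by
  have h1 := congrArg derivative (Ez_spec (p := p) hodd c)
  have hp0 : (C (p : ℤ) : ℤ[X]) ≠ 0 := by
    rw [ne_eq, C_eq_zero]
    exact_mod_cast hp.out.ne_zero
  have h2 : derivative (Ez p c) = X ^ (p - 1) - (X - C (c : ℤ)) ^ (p - 1) := by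
    apply mul_left_cancel₀ hp0
    rw [derivative_C_mul] at h1
    rw [h1]
    simp only [derivative_sub, derivative_C, derivative_pow, derivative_X]
    ring
  unfold Ep
  rw [derivative_map, h2]
  simp

/-- value at an integer -/
theorem Ep_eval (hodd : p ≠ 2) (c a : ℕ) :
    (Ep p c).eval (a : ZMod p) = ((((a : ℤ) ^ p - c - ((a : ℤ) - c) ^ p) / p : ℤ) : ZMod p) := by
  have h1 := congrArg (eval (a : ℤ)) (Ez_spec (p := p) hodd c)
  simp only [eval_mul, eval_C, eval_sub, eval_pow, eval_X] at h1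
  have hp0 : (p : ℤ) ≠ 0 := by exact_mod_cast hp.out.ne_zero
  rw [← h1, Int.mul_ediv_cancel_left _ hp0]
  unfold Ep
  rw [eval_map]
  have h2 : (a : ZMod p) = Int.castRingHom (ZMod p) (a : ℤ) := by simp
  rw [h2, eval₂_at_apply]
  rfl

end Pool.Agent.Lib.MP_ff9ca0_nt
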