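import Pool.Agent.Lib.MP_ff9ca0_nt.KA1

/-!
The `E`-part of the numerator modulo `q`.
-/

namespace Pool.Agent.Lib.MP_ff9ca0_nt

open Finset Polynomial

variable {p : ℕ} [hp : Fact p.Prime]

/-- an integer polynomial which vanishes modulo `p` is divisible by `p` -/
theorem ka2_dvd {f : ℤ[X]} (h : f.map (Int.castRingHom (ZMod p)) = 0) :
    ∃ r : ℤ[X], f = (p : ℤ[X]) * r := by
  have h1 : C (p : ℤ) ∣ f := by
    rw [C_dvd_iff_dvd_coeff]
    intro i
    have h2 := congrArg (fun g => coeff g i) h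
    simp only [coeff_map, coeff_zero, eq_intCast] at h2
    exact (ZMod.intCast_zmod_eq_zero_iff_dvd _ p).1 h2
  obtain ⟨r, hr⟩ := h1
  refine ⟨r, ?_⟩
  rw [hr]
  simp

/-- Modulo `q` the `E`-part of the numerator vanishes. -/
theorem q_dvd_E (h7 : 7 ≤ p) : qq2 (ZMod p) ∣
    (X ^ p - C 6) * Ep p 81 + 4 * ((X ^ p - C 81) * Ep p 6) +
      C (qf p 50000 : ZMod p) * ((X ^ p - C 6) * (X ^ p - C 81)) := by
  have hodd : p ≠ 2 := by omega
  have hpp := hp.out
  have hoddp : Odd p := hpp.odd_of_ne_two hodd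
  -- equations in `ℤ[X]`
  set E6 := Ez p 6 with hE6
  set E81 := Ez p 81 with hE81
  have h6 : (p : ℤ[X]) * E6 = X ^ p - 6 - (X - 6) ^ p := by
    have := Ez_spec (p := p) hodd 6
    simpa using this
  have h81 : (p : ℤ[X]) * E81 = X ^ p - 81 - (X - 81) ^ p := by
    have := Ez_spec (p := p) hodd 81
    simpa using this
  obtain ⟨r1, hr1⟩ : ∃ r1 : ℤ[X], (X ^ p - 1) - (X - 1) ^ p = (p : ℤ[X]) * r1 := by
    apply ka2_dvd (p := p)
    simp only [Polynomial.map_sub, Polynomial.map_pow, map_X, Polynomial.map_one]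
    rw [sub_pow_char, one_pow, sub_self]
  obtain ⟨r2, hr2⟩ : ∃ r2 : ℤ[X], ((X ^ p) ^ 2 - 52 * X ^ p - 324) -
      (X ^ 2 - 52 * X - 324) ^ p = (p : ℤ[X]) * r2 := by
    apply ka2_dvd (p := p)
    have e52 : (52 : (ZMod p)[X]) ^ p = 52 := by
      have : (52 : (ZMod p)[X]) = C 52 := (map_ofNat C 52).symm
      rw [this, ← C_pow, ZMod.pow_card]
    have e324 : (324 : (ZMod p)[X]) ^ p = 324 := by
      have : (324 : (ZMod p)[X]) = C 324 := (map_ofNat C 324).symm
      rw [this, ← C_pow, ZMod.pow_card]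
    simp only [Polynomial.map_sub, Polynomial.map_pow, Polynomial.map_mul, map_X,
      Polynomial.map_ofNat]
    rw [sub_pow_char, sub_pow_char, mul_pow, e52, e324]
    ring
  obtain ⟨r, hr⟩ := exists_add_pow_prime_eq hpp (-(50000 : ℤ[X]) * X ^ 2)
    ((X - 1) * (X ^ 2 - 52 * X - 324) ^ 2)
  -- the Fermat quotient
  have hqf : ((50000 : ℤ) ^ p - 50000) = p * (50000 * qf p 50000) := by
    have h5 : ¬ (p : ℤ) ∣ 50000 := by
      intro hd
      have hd' : p ∣ 50000 := by exact_mod_cast hd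
      have : (50000 : ℕ) = 2 ^ 4 * 5 ^ 5 * 1 := by norm_num
      rw [this, mul_one] at hd'
      rcases (Nat.Prime.dvd_mul hpp).1 hd' with h | h
      · have := Nat.le_of_dvd (by norm_num) (hpp.dvd_of_dvd_pow h)
        omega
      · have := Nat.le_of_dvd (by norm_num) (hpp.dvd_of_dvd_pow h)
        omega
    have hz : ((50000 : ℤ) : ZMod p) ≠ 0 := by
      rw [Ne, ZMod.intCast_zmod_eq_zero_iff_dvd]
      exact h5
    have hd : (p : ℤ) ∣ (50000 : ℤ) ^ (p - 1) - 1 := by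
      rw [← ZMod.intCast_zmod_eq_zero_iff_dvd]
      push_cast
      push_cast at hz
      rw [ZMod.pow_card_sub_one_eq_one hz, sub_self]
    have he : (p : ℤ) * qf p 50000 = (50000 : ℤ) ^ (p - 1) - 1 := by
      unfold qf
      push_cast
      exact Int.mul_ediv_cancel' hd
    have hpow : (50000 : ℤ) ^ p = 50000 ^ (p - 1) * 50000 := by
      rw [← pow_succ]
      congr 1
      omega
    rw [hpow]
    linear_combination (-50000 : ℤ) * he
  have hqf' : ((50000 : ℤ[X]) ^ p - 50000) = p * (50000 * C (qf p 50000)) := by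
    have := congrArg (fun n : ℤ => (C n : ℤ[X])) hqf
    simpa using this
  have hMp : (X - 81) ^ p * ((X - 6) ^ p) ^ 4 =
      (-(50000 : ℤ[X]) * X ^ 2 + (X - 1) * (X ^ 2 - 52 * X - 324) ^ 2) ^ p := by
    rw [← pow_mul, mul_comm p 4, pow_mul, ← mul_pow]
    congr 1
    ring
  have hyp : (-(50000 : ℤ[X]) * X ^ 2) ^ p = -(50000 ^ p) * (X ^ p) ^ 2 := by
    rw [mul_pow, hoddp.neg_pow, ← pow_mul, ← pow_mul, mul_comm 2 p]
  have hzp : ((X - 1) * (X ^ 2 - 52 * X - 324) ^ 2 : ℤ[X]) ^ p =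
      (X - 1) ^ p * ((X ^ 2 - 52 * X - 324) ^ p) ^ 2 := by
    rw [mul_pow, ← pow_mul, ← pow_mul, mul_comm 2 p]
  rw [hr, hyp, hzp] at hMp
  have hp0 : (p : ℤ[X]) ≠ 0 := by
    exact_mod_cast hpp.ne_zero
  have hPm : (p : ℤ[X]).map (Int.castRingHom (ZMod p)) = 0 := by
    rw [Polynomial.map_natCast]
    exact CharP.cast_eq_zero _ _
  generalize (p : ℤ[X]) = P at h6 h81 hr1 hr2 hqf' hMp hp0 hPm
  set a : ℤ[X] := (X - 6) ^ p with ha
  set b : ℤ[X] := (X - 81) ^ p with hb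
  set T : ℤ[X] := X ^ p with hT
  set u : ℤ[X] := (X - 1) ^ p with hu
  set Q : ℤ[X] := (X ^ 2 - 52 * X - 324) ^ p with hQ
  have key : P * (a ^ 4 * E81 + 4 * b * a ^ 3 * E6 + P * (6 * b * a ^ 2 * E6 ^ 2 +
      4 * b * a * P * E6 ^ 3 + b * P ^ 2 * E6 ^ 4 + E81 * (4 * a ^ 3 * E6 + 6 * a ^ 2 * P * E6 ^ 2 +
      4 * a * P ^ 2 * E6 ^ 3 + P ^ 3 * E6 ^ 4))) =
      P * (50000 * C (qf p 50000) * T ^ 2 + r1 * Q ^ 2 + 2 * u * Q * r2 +
        P * (2 * r1 * Q * r2 + u * r2 ^ 2 + P * r1 * r2 ^ 2) -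
        (-(50000 : ℤ[X]) * X ^ 2) * ((X - 1) * (X ^ 2 - 52 * X - 324) ^ 2) * r) := by
    have e1 : T - 6 = a + P * E6 := by rw [h6]; ring
    have e2 : T - 81 = b + P * E81 := by rw [h81]; ring
    have e3 : T - 1 = u + P * r1 := by rw [← hr1]; ring
    have e4 : T ^ 2 - 52 * T - 324 = Q + P * r2 := by rw [← hr2]; ring
    have e5 : (T - 81) * (T - 6) ^ 4 = -50000 * T ^ 2 + (T - 1) * (T ^ 2 - 52 * T - 324) ^ 2 := by
      ring
    rw [e1, e2, e3, e4] at e5
    linear_combination e5 - hMp + T ^ 2 * hqf'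
  have key2 := mul_left_cancel₀ hp0 key
  clear key
  -- reduce modulo `p`
  have hEp6 : E6.map (Int.castRingHom (ZMod p)) = Ep p 6 := rfl
  have hEp81 : E81.map (Int.castRingHom (ZMod p)) = Ep p 81 := rfl
  have key3 := congrArg (Polynomial.map (Int.castRingHom (ZMod p))) key2
  have h6' := congrArg (Polynomial.map (Int.castRingHom (ZMod p))) h6
  have h81' := congrArg (Polynomial.map (Int.castRingHom (ZMod p))) h81
  have hMp' := congrArg (Polynomial.map (Int.castRingHom (ZMod p))) hMp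
  have hqf2 := congrArg (Polynomial.map (Int.castRingHom (ZMod p))) hqf'
  simp only [Polynomial.map_mul, Polynomial.map_add, Polynomial.map_sub, Polynomial.map_neg,
    Polynomial.map_pow, hPm, hEp6, hEp81, Polynomial.map_ofNat, eq_intCast, zero_mul,
    mul_zero, add_zero] at key3 h6' h81' hMp' hqf2
  have hTm : T.map (Int.castRingHom (ZMod p)) = X ^ p := by
    rw [hT, Polynomial.map_pow, map_X]
  have h52 : (C 52 : (ZMod p)[X]) = 52 := map_ofNat C 52
  have h324 : (C 324 : (ZMod p)[X]) = 324 := map_ofNat C 324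
  have h46 : (C 46 : (ZMod p)[X]) = 46 := map_ofNat C 46
  have h6c : (C 6 : (ZMod p)[X]) = 6 := map_ofNat C 6
  have h81c : (C 81 : (ZMod p)[X]) = 81 := map_ofNat C 81
  have h600c : (C 600 : (ZMod p)[X]) = 600 := map_ofNat C 600
  have hqc : (C (qf p 50000 : ZMod p) : (ZMod p)[X]) =
      ((qf p 50000 : ℤ) : (ZMod p)[X]) := map_intCast C _
  have hqm : ((qf p 50000 : ℤ) : ℤ[X]).map (Int.castRingHom (ZMod p)) =
      ((qf p 50000 : ℤ) : (ZMod p)[X]) := Polynomial.map_intCast _ _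
  have hQm : Q.map (Int.castRingHom (ZMod p)) = qq2 (ZMod p) * qq2 (ZMod p) ^ (p - 1) := by
    rw [← pow_succ', Nat.sub_add_cancel (by omega : 1 ≤ p), hQ]
    unfold qq2
    rw [h52, h324]
    simp
  rw [hTm] at key3 h6' h81' hMp'
  rw [hQm] at key3 hMp'
  have hqd : (X ^ 2 - 52 * X - 324 : (ZMod p)[X]) = qq2 (ZMod p) := by
    unfold qq2
    rw [h52, h324]
  simp only [map_X, Polynomial.map_one] at key3
  rw [hqd] at key3
  generalize a.map (Int.castRingHom (ZMod p)) = A at *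
  generalize b.map (Int.castRingHom (ZMod p)) = B at *
  generalize r1.map (Int.castRingHom (ZMod p)) = s1 at *
  generalize r2.map (Int.castRingHom (ZMod p)) = s2 at *
  generalize r.map (Int.castRingHom (ZMod p)) = s at *
  generalize u.map (Int.castRingHom (ZMod p)) = U at *
  have hcop : IsCoprime (qq2 (ZMod p)) (X ^ p - C 6) := by
    have e6 : (X ^ p - C 6 : (ZMod p)[X]) = (X - C 6) ^ p := by
      rw [sub_pow_char, ← C_pow, ZMod.pow_card]
    rw [e6]
    apply IsCoprime.pow_right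
    have h600 : (600 : ZMod p) ≠ 0 := by
      have h5 : ¬ p ∣ 600 := by
        intro hd'
        have : (600 : ℕ) = 2 ^ 3 * (3 * 5 ^ 2) := by norm_num
        rw [this] at hd'
        rcases (Nat.Prime.dvd_mul hpp).1 hd' with h | h
        · have := Nat.le_of_dvd (by norm_num) (hpp.dvd_of_dvd_pow h)
          omega
        · rcases (Nat.Prime.dvd_mul hpp).1 h with h | h
          · have := Nat.le_of_dvd (by norm_num) h
            omega
          · have := Nat.le_of_dvd (by norm_num) (hpp.dvd_of_dvd_pow h)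
            omega
      intro h
      apply h5
      rw [← ZMod.natCast_eq_zero_iff]
      exact_mod_cast h
    refine ⟨-C (600⁻¹ : ZMod p), C (600⁻¹ : ZMod p) * (X - C 46), ?_⟩
    have hc : (C (600⁻¹ : ZMod p) * C 600 : (ZMod p)[X]) = 1 := by
      rw [← C_mul, inv_mul_cancel₀ h600, C_1]
    unfold qq2
    rw [h600c] at hc
    rw [h52, h324, h46, h6c]
    linear_combination hc
  have hcop3 : IsCoprime (qq2 (ZMod p)) ((X ^ p - C 6) ^ 3) := hcop.pow_right
  refine hcop3.dvd_of_dvd_mul_left ?_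
  rw [hqm] at key3
  rw [hqc, h6c, h81c]
  have hA : A = X ^ p - 6 := by linear_combination h6'
  have hB : B = X ^ p - 81 := by linear_combination h81'
  rw [hA, hB] at key3 hMp'
  refine ⟨s1 * qq2 (ZMod p) * (qq2 (ZMod p) ^ (p - 1)) ^ 2 +
    2 * U * qq2 (ZMod p) ^ (p - 1) * s2 +
    50000 * X ^ 2 * (X - 1) * qq2 (ZMod p) * s +
    ((qf p 50000 : ℤ) : (ZMod p)[X]) * U * qq2 (ZMod p) * (qq2 (ZMod p) ^ (p - 1)) ^ 2, ?_⟩
  linear_combination key3 + ((qf p 50000 : ℤ) : (ZMod p)[X]) * hMp' -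
    ((qf p 50000 : ℤ) : (ZMod p)[X]) * (X ^ p) ^ 2 * hqf2

end Pool.Agent.Lib.MP_ff9ca0_nt
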