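import Pool.Agent.Lib.MP_ff9ca0_nt.KDef

/-!
Derivative of `Hp`.
-/

namespace Pool.Agent.Lib.MP_ff9ca0_nt

open Finset Polynomial

variable {p N : ℕ} [hp : Fact p.Prime]

/-- Proof.  `Y_j' = X^(6N-2j)(X-6)^(4j)(X-81)^(3N+j) [(6N+1-2j)(X-6)(X-81)+(4j+1)X(X-81)+(3N+1+j)X(X-6)]`
and modulo `p = 4N+1` the bracket is `(j-N) (-2(X-6)(X-81)+4X(X-81)+X(X-6)) = (j-N) 3 q`. -/
theorem Yj_deriv (hN : p = 4 * N + 1) (j : ℕ) (hj : j ≤ 2 * N) :
    derivative (Yj p N j) = C (((j : ZMod p) - N) * 3) * qq2 (ZMod p) *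
      (X ^ (6 * N - 2 * j) * (X - C 6) ^ (4 * j) * (X - C 81) ^ (3 * N + j)) := by
  have h0 : (4 : ZMod p) * N + 1 = 0 := by
    have := congrArg (Nat.cast : ℕ → ZMod p) hN
    rw [ZMod.natCast_self] at this
    push_cast at this
    exact this.symm
  obtain ⟨a, ha⟩ : ∃ a, a = 6 * N - 2 * j := ⟨_, rfl⟩
  have e1 : 6 * N + 1 - 2 * j = a + 1 := by omega
  have e2 : 3 * N + 1 + j = 3 * N + j + 1 := by ring
  unfold Yj
  rw [← ha, e1, e2, derivative_mul, derivative_mul, derivative_X_pow, derivative_X_sub_C_pow,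
    derivative_X_sub_C_pow, Nat.add_sub_cancel, Nat.add_sub_cancel, Nat.add_sub_cancel]
  have c1 : (C ((a + 1 : ℕ) : ZMod p) : (ZMod p)[X]) = -2 * C ((j : ZMod p) - N) := by
    rw [← map_ofNat C 2, ← map_neg, ← map_mul]
    congr 1
    have h1 : a + 1 + 2 * j = 6 * N + 1 := by omega
    have h2 := congrArg (Nat.cast : ℕ → ZMod p) h1
    push_cast at h2 ⊢
    linear_combination h2 + h0
  have c2 : (C ((4 * j + 1 : ℕ) : ZMod p) : (ZMod p)[X]) = 4 * C ((j : ZMod p) - N) := by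
    rw [← map_ofNat C 4, ← map_mul]
    congr 1
    push_cast
    linear_combination h0
  have c3 : (C ((3 * N + j + 1 : ℕ) : ZMod p) : (ZMod p)[X]) = C ((j : ZMod p) - N) := by
    congr 1
    push_cast
    linear_combination h0
  rw [c1, c2, c3, map_mul]
  unfold qq2
  simp only [map_ofNat]
  ring

/-- Proof.  Sum `Yj_deriv`: `∑_j (-1)^N C(2N,j) 50000^(2N-j) X^(6N-2j)(X-6)^(4j)(X-81)^(3N+j) =
(-1)^N X^(2N) (X-81)^(3N) (50000 X^2 + (X-6)^4 (X-81))^(2N)` and
`50000 X^2 + (X-6)^4 (X-81) = (X-1) q^2`; the term `j = N` is subtracted. -/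
theorem Hp_deriv (h7 : 7 ≤ p) (hN : p = 4 * N + 1) :
    derivative (Hp p N) = 3 * qq2 (ZMod p) * (P0 p N * qq2 (ZMod p) ^ (4 * N) -
      C (A0 p N) * (X * (X - C 6) * (X - C 81)) ^ (4 * N)) := by
  set F : ℕ → (ZMod p)[X] := fun j => C ((-1) ^ N * ((2 * N).choose j : ZMod p) * 50000 ^ (2 * N - j)) *
    (X ^ (6 * N - 2 * j) * (X - C 6) ^ (4 * j) * (X - C 81) ^ (3 * N + j)) with hF
  have e : derivative (Hp p N) = 3 * qq2 (ZMod p) * ∑ j ∈ (range (2 * N + 1)).erase N, F j := by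
    unfold Hp
    rw [derivative_sum, Finset.mul_sum]
    refine Finset.sum_congr rfl fun j hj => ?_
    rw [Finset.mem_erase, Finset.mem_range] at hj
    rw [derivative_C_mul, Yj_deriv hN j (by omega), hF]
    have hne : (j : ZMod p) - N ≠ 0 := by
      intro h
      rw [sub_eq_zero, ZMod.natCast_eq_natCast_iff, Nat.modEq_iff_dvd] at h
      obtain ⟨c, hc⟩ := h
      have hc0 : c ≠ 0 := by
        rintro rfl
        apply hj.1
        have : (N : ℤ) - j = 0 := by rw [hc]; simp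
        omega
      have h1 : (p : ℤ) ≤ |(N : ℤ) - j| := by
        rw [hc, abs_mul]
        have : 1 ≤ |c| := Int.one_le_abs hc0
        have hp0 : (0 : ℤ) ≤ |(p : ℤ)| := abs_nonneg _
        have hp1 : |(p : ℤ)| = p := abs_of_nonneg (by positivity)
        nlinarith
      have h2 : |(N : ℤ) - j| < p := by
        rw [abs_lt]
        omega
      omega
    have hC : C ((-1) ^ N * ((2 * N).choose j : ZMod p) * 50000 ^ (2 * N - j) / ((j : ZMod p) - N)) *
        C (((j : ZMod p) - N) * 3) =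
        3 * C ((-1) ^ N * ((2 * N).choose j : ZMod p) * 50000 ^ (2 * N - j)) := by
      rw [← map_mul, ← map_ofNat C 3, ← map_mul]
      congr 1
      field_simp
    linear_combination (qq2 (ZMod p) *
      (X ^ (6 * N - 2 * j) * (X - C 6) ^ (4 * j) * (X - C 81) ^ (3 * N + j))) * hC
  have hNmem : N ∈ range (2 * N + 1) := by
    rw [Finset.mem_range]; omega
  have hfull : ∑ j ∈ range (2 * N + 1), F j = P0 p N * qq2 (ZMod p) ^ (4 * N) := by
    have hid : ((X - C 6) ^ 4 * (X - C 81) + C 50000 * X ^ 2 : (ZMod p)[X]) =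
        (X - 1) * (qq2 (ZMod p)) ^ 2 := by
      unfold qq2
      simp only [map_ofNat]
      ring
    have e1 : ∀ j ∈ range (2 * N + 1), F j = ((-1) ^ N * (X ^ (2 * N) * (X - C 81) ^ (3 * N))) *
        (((X - C 6) ^ 4 * (X - C 81)) ^ j * (C 50000 * X ^ 2) ^ (2 * N - j) *
          ((2 * N).choose j : (ZMod p)[X])) := by
      intro j hj
      rw [Finset.mem_range] at hj
      rw [hF]
      have e2 : 6 * N - 2 * j = 2 * N + 2 * (2 * N - j) := by omega
      simp only [e2, map_mul, map_pow, map_neg, map_one, map_natCast, mul_pow, ← pow_mul]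
      simp only [pow_add]
      ring
    rw [Finset.sum_congr rfl e1, ← Finset.mul_sum, ← add_pow, hid]
    unfold P0
    have e3 : (1 - X : (ZMod p)[X]) = (-1) * (X - 1) := by ring
    have e4 : (C 81 - X : (ZMod p)[X]) = (-1) * (X - C 81) := by ring
    have e5 : ((-1 : (ZMod p)[X])) ^ (2 * N) = 1 := by
      rw [pow_mul]; simp
    have e6 : ((-1 : (ZMod p)[X])) ^ (3 * N) = (-1) ^ N := by
      have : 3 * N = 2 * N + N := by ring
      rw [this, pow_add, e5, one_mul]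
    rw [e3, e4, mul_pow (-1) (X - 1), mul_pow (-1) (X - C 81), e5, e6, mul_pow, ← pow_mul]
    have e7 : 2 * (2 * N) = 4 * N := by ring
    rw [e7]
    ring
  have hterm : F N = C (A0 p N) * (X * (X - C 6) * (X - C 81)) ^ (4 * N) := by
    rw [hF]
    unfold A0
    have e2 : 6 * N - 2 * N = 4 * N := by omega
    have e3 : 2 * N - N = N := by omega
    have e4 : 3 * N + N = 4 * N := by omega
    simp only [e2, e3, e4, mul_pow]
    rw [mul_comm ((-1 : ZMod p) ^ N * _) (50000 ^ N)]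
  rw [e, ← hfull, ← hterm, ← Finset.add_sum_erase _ _ hNmem]
  ring

end Pool.Agent.Lib.MP_ff9ca0_nt
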