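import Pool.Agent.Lib.MP_ff9ca0_nt.KDef

/-!
Divisibility, degree and values of `Hp`.
-/

namespace Pool.Agent.Lib.MP_ff9ca0_nt

open Finset Polynomial

variable {p N : ℕ} [hp : Fact p.Prime]

/-- symmetry `j ↦ 2N - j` -/
private theorem KB2_sym : ∑ j ∈ (range (2 * N + 1)).erase N,
    (-1 : ZMod p) ^ N * ((2 * N).choose j : ZMod p) * (-1) ^ j / ((j : ZMod p) - N) = 0 := by
  refine Finset.sum_involution (fun j _ => 2 * N - j) ?_ ?_ ?_ ?_
  · intro j hj
    rw [Finset.mem_erase, Finset.mem_range] at hj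
    have hj' : j ≤ 2 * N := by omega
    rw [Nat.choose_symm hj', Nat.cast_sub hj']
    have e1 : (-1 : ZMod p) ^ (2 * N - j) = (-1) ^ j := by
      have h1 : (-1 : ZMod p) ^ (2 * N - j) * (-1) ^ j = 1 := by
        rw [← pow_add, Nat.sub_add_cancel hj', pow_mul]
        simp
      have h2 : (-1 : ZMod p) ^ j * (-1) ^ j = 1 := by
        rw [← mul_pow]; simp
      calc (-1 : ZMod p) ^ (2 * N - j) = (-1) ^ (2 * N - j) * ((-1) ^ j * (-1) ^ j) := by
            rw [h2, mul_one]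
        _ = ((-1) ^ (2 * N - j) * (-1) ^ j) * (-1) ^ j := by ring
        _ = (-1) ^ j := by rw [h1, one_mul]
    have e2 : (((2 * N : ℕ) : ZMod p) - j - N) = -((j : ZMod p) - N) := by
      push_cast
      ring
    rw [e1, e2, div_neg]
    ring
  · intro j hj _ h
    rw [Finset.mem_erase, Finset.mem_range] at hj
    have h' : 2 * N - j = j := h
    omega
  · intro j hj
    rw [Finset.mem_erase, Finset.mem_range] at hj ⊢
    omega
  · intro j hj
    rw [Finset.mem_erase, Finset.mem_range] at hj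
    omega

private theorem KB2_term (j : ℕ) (hj : j ≤ 2 * N) :
    C ((-1) ^ N * ((2 * N).choose j : ZMod p) * 50000 ^ (2 * N - j) / ((j : ZMod p) - N)) * Yj p N j =
    (X ^ (2 * N + 1) * (X - C 6) * (X - C 81) ^ (3 * N + 1)) *
      (((X - C 6) ^ 4 * (X - C 81)) ^ j * (C 50000 * X ^ 2) ^ (2 * N - j)) *
      C ((-1 : ZMod p) ^ N * ((2 * N).choose j : ZMod p) / ((j : ZMod p) - N)) := by
  unfold Yj
  have e1 : C ((-1) ^ N * ((2 * N).choose j : ZMod p) * 50000 ^ (2 * N - j) / ((j : ZMod p) - N)) =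
      C ((-1 : ZMod p) ^ N * ((2 * N).choose j : ZMod p) / ((j : ZMod p) - N)) *
        C 50000 ^ (2 * N - j) := by
    rw [← map_pow, ← map_mul]
    congr 1
    ring
  have e2 : 6 * N + 1 - 2 * j = 2 * N + 1 + 2 * (2 * N - j) := by omega
  rw [e1, e2]
  simp only [mul_pow, ← pow_mul, pow_add, pow_one]
  ring

/-- Proof.  `50000^(2N-j) Y_j = X^(2N+1) (X-6) (X-81)^(3N+1) (50000 X^2)^(2N-j) ((X-6)^4 (X-81))^j`, and
modulo `q` one has `(X-6)^4 (X-81) = -50000 X^2`; so it is `(-1)^j W`, `W` independent of `j`, and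
`∑_{j≠N} C(2N,j) (-1)^j/(j-N) = 0` by the symmetry `j ↦ 2N-j`. -/
theorem q_dvd_Hp (h7 : 7 ≤ p) (hN : p = 4 * N + 1) : qq2 (ZMod p) ∣ Hp p N := by
  set u : (ZMod p)[X] := (X - C 6) ^ 4 * (X - C 81) with hu
  set v : (ZMod p)[X] := C 50000 * X ^ 2 with hv
  set W : (ZMod p)[X] := X ^ (2 * N + 1) * (X - C 6) * (X - C 81) ^ (3 * N + 1) with hW
  have huv : qq2 (ZMod p) ∣ u - (-v) := by
    refine ⟨(X - 1) * qq2 (ZMod p), ?_⟩
    rw [hu, hv]
    unfold qq2
    simp only [map_ofNat]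
    ring
  have hsum : Hp p N = ∑ j ∈ (range (2 * N + 1)).erase N,
      (W * C ((-1 : ZMod p) ^ N * ((2 * N).choose j : ZMod p) / ((j : ZMod p) - N)) * v ^ (2 * N - j) *
        (u ^ j - (-v) ^ j)) + W * v ^ (2 * N) * C (∑ j ∈ (range (2 * N + 1)).erase N,
        (-1 : ZMod p) ^ N * ((2 * N).choose j : ZMod p) * (-1) ^ j / ((j : ZMod p) - N)) := by
    unfold Hp
    rw [map_sum, Finset.mul_sum, ← Finset.sum_add_distrib]
    refine Finset.sum_congr rfl fun j hj => ?_
    rw [Finset.mem_erase, Finset.mem_range] at hj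
    rw [KB2_term j (by omega), ← hu, ← hv, ← hW]
    have e1 : v ^ (2 * N) = v ^ j * v ^ (2 * N - j) := by
      rw [← pow_add]; congr 1; omega
    have e2 : C ((-1 : ZMod p) ^ N * ((2 * N).choose j : ZMod p) * (-1) ^ j / ((j : ZMod p) - N)) =
        C ((-1 : ZMod p) ^ N * ((2 * N).choose j : ZMod p) / ((j : ZMod p) - N)) * (-1) ^ j := by
      rw [← map_one C, ← map_neg, ← map_pow, ← map_mul]
      congr 1
      ring
    have e3 : (-v) ^ j = (-1) ^ j * v ^ j := by rw [← mul_pow, neg_one_mul]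
    rw [e1, e2, e3]
    ring
  rw [hsum, KB2_sym, map_zero, mul_zero, add_zero]
  refine Finset.dvd_sum fun j _ => Dvd.dvd.mul_left ?_ _
  exact huv.trans (sub_dvd_pow_sub_pow _ _ j)

theorem Hp_natDegree (hN : p = 4 * N + 1) : (Hp p N).natDegree ≤ 15 * N + 3 := by
  unfold Hp
  refine natDegree_sum_le_of_forall_le _ _ fun j hj => ?_
  rw [Finset.mem_erase, Finset.mem_range] at hj
  refine (natDegree_C_mul_le _ _).trans ?_
  unfold Yj
  refine natDegree_mul_le.trans ?_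
  have h1 : (X ^ (6 * N + 1 - 2 * j) * (X - C 6) ^ (4 * j + 1) : (ZMod p)[X]).natDegree ≤
      (6 * N + 1 - 2 * j) + (4 * j + 1) := by
    refine natDegree_mul_le.trans (add_le_add (natDegree_X_pow_le _) ?_)
    refine natDegree_pow_le.trans ?_
    have := natDegree_X_sub_C_le (6 : ZMod p)
    nlinarith
  have h2 : ((X - C 81) ^ (3 * N + 1 + j) : (ZMod p)[X]).natDegree ≤ 3 * N + 1 + j := by
    refine natDegree_pow_le.trans ?_
    have := natDegree_X_sub_C_le (81 : ZMod p)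
    nlinarith
  omega

/-- same symmetry as in `q_dvd_Hp` (`50000 = 625 * 80`) -/
theorem Hp_eval_one (h7 : 7 ≤ p) (hN : p = 4 * N + 1) : (Hp p N).eval 1 = 0 := by
  have hsum : (Hp p N).eval 1 = ((1 - 6) * (1 - 81) ^ (3 * N + 1) * 50000 ^ (2 * N)) *
      ∑ j ∈ (range (2 * N + 1)).erase N,
        (-1 : ZMod p) ^ N * ((2 * N).choose j : ZMod p) * (-1) ^ j / ((j : ZMod p) - N) := by
    unfold Hp
    rw [eval_finsetSum, Finset.mul_sum]
    refine Finset.sum_congr rfl fun j hj => ?_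
    rw [Finset.mem_erase, Finset.mem_range] at hj
    rw [KB2_term j (by omega)]
    simp only [eval_mul, eval_pow, eval_sub, eval_X, eval_C, one_pow, one_mul, mul_one]
    have e1 : ((1 - 6 : ZMod p) ^ 4 * (1 - 81)) = (-1) * 50000 := by norm_num
    have e2 : (50000 : ZMod p) ^ (2 * N) = 50000 ^ j * 50000 ^ (2 * N - j) := by
      rw [← pow_add]; congr 1; omega
    rw [e1, e2, mul_pow]
    ring
  rw [hsum, KB2_sym, mul_zero]

theorem Hp_eval_six (hN : p = 4 * N + 1) : (Hp p N).eval 6 = 0 := by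
  unfold Hp
  rw [eval_finsetSum]
  refine Finset.sum_eq_zero fun j _ => ?_
  unfold Yj
  simp only [eval_mul, eval_pow, eval_sub, eval_X, eval_C, sub_self]
  rw [zero_pow (by omega)]
  ring

theorem Hp_eval_81 (hN : p = 4 * N + 1) : (Hp p N).eval 81 = 0 := by
  unfold Hp
  rw [eval_finsetSum]
  refine Finset.sum_eq_zero fun j _ => ?_
  unfold Yj
  simp only [eval_mul, eval_pow, eval_sub, eval_X, eval_C, sub_self]
  rw [zero_pow (by omega : 3 * N + 1 + j ≠ 0)]
  ring

end Pool.Agent.Lib.MP_ff9ca0_nt
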