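import Pool.Agent.Lib.MP_ff9ca0_nt.KDef

/-!
Low and high coefficients of `Hp`.
-/

namespace Pool.Agent.Lib.MP_ff9ca0_nt

open Finset Polynomial

variable {p N : ℕ} [hp : Fact p.Prime]

theorem hh_natDegree (hN : p = 4 * N + 1) : (hh p N).natDegree < 2 * p := by
  have h : (hh p N).natDegree ≤ p + 3 * N := by
    rw [hh]
    refine natDegree_sum_le_of_forall_le _ _ fun i hi => ?_
    rw [mem_Icc] at hi
    refine (natDegree_C_mul_le _ _).trans ?_
    refine (natDegree_mul_le).trans ?_
    have h1 : (X ^ (p - 2 * i) * (X - C 6) ^ (4 * i) : (ZMod p)[X]).natDegree ≤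
        (p - 2 * i) + 4 * i := by
      refine (natDegree_mul_le).trans (Nat.add_le_add (natDegree_X_pow_le _) ?_)
      refine (natDegree_pow_le).trans ?_
      rw [natDegree_X_sub_C, mul_one]
    have h2 : ((X - C 81 : (ZMod p)[X]) ^ i).natDegree ≤ i := by
      refine (natDegree_pow_le).trans ?_
      rw [natDegree_X_sub_C, mul_one]
    omega
  omega

theorem hh_coeff_zero (hN : p = 4 * N + 1) (h7 : 7 ≤ p) : (hh p N).coeff 0 = 0 := by
  rw [coeff_zero_eq_eval_zero, hh, eval_finsetSum]
  refine sum_eq_zero fun i hi => ?_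
  rw [mem_Icc] at hi
  have h0 : p - 2 * i ≠ 0 := by omega
  rw [eval_mul, eval_mul, eval_mul, eval_pow, eval_X, zero_pow h0]
  ring

/-- the high part of `Y_j` -/
theorem KB3_Yj (hN : p = 4 * N + 1) (i : ℕ) (hi : i ≤ N) :
    Yj p N (N + i) = (X ^ p - C 6) * (X ^ p - C 81) *
      (X ^ (p - 2 * i) * (X - C 6) ^ (4 * i) * (X - C 81) ^ i) := by
  have e1 : (X - C 6 : (ZMod p)[X]) ^ p = X ^ p - C 6 := by
    rw [sub_pow_char, ← C_pow]
    have h := ZMod.pow_card (6 : ZMod p)
    rw [h]
  have e2 : (X - C 81 : (ZMod p)[X]) ^ p = X ^ p - C 81 := by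
    rw [sub_pow_char, ← C_pow]
    have h := ZMod.pow_card (81 : ZMod p)
    rw [h]
  have f1 : 6 * N + 1 - 2 * (N + i) = p - 2 * i := by omega
  have f2 : 4 * (N + i) + 1 = p + 4 * i := by omega
  have f3 : 3 * N + 1 + (N + i) = p + i := by omega
  rw [Yj, f1, f2, f3, pow_add, pow_add, e1, e2]
  ring

/-- the low part of `Hp` -/
noncomputable def KB3_L (p N : ℕ) [Fact p.Prime] : (ZMod p)[X] :=
  ∑ j ∈ range N,
    C ((-1) ^ N * ((2 * N).choose j : ZMod p) * 50000 ^ (2 * N - j) / ((j : ZMod p) - N)) * Yj p N j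

theorem KB3_split (hN : p = 4 * N + 1) :
    Hp p N = KB3_L p N + (X ^ p - C 6) * (X ^ p - C 81) * hh p N := by
  have e : (range (2 * N + 1)).erase N = range N ∪ (Icc 1 N).image (fun i => N + i) := by
    ext x
    simp only [mem_erase, mem_range, mem_union, mem_image, mem_Icc]
    constructor
    · rintro ⟨h1, h2⟩
      rcases lt_or_gt_of_ne h1 with h | h
      · exact Or.inl h
      · exact Or.inr ⟨x - N, by omega, by omega⟩
    · rintro (h | ⟨y, h1, h2⟩)
      · omega
      · omega
  have hd : Disjoint (range N) ((Icc 1 N).image (fun i => N + i)) := by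
    rw [disjoint_left]
    intro x hx hx'
    rw [mem_range] at hx
    rw [mem_image] at hx'
    obtain ⟨y, _, h2⟩ := hx'
    omega
  rw [Hp, e, sum_union hd, sum_image (by intro a _ b _ h; simpa using h), KB3_L]
  congr 1
  rw [hh, mul_sum]
  refine sum_congr rfl fun i hi => ?_
  rw [mem_Icc] at hi
  have f : 2 * N - (N + i) = N - i := by omega
  have g : ((N + i : ℕ) : ZMod p) - N = i := by
    rw [Nat.cast_add]
    ring
  rw [KB3_Yj hN i hi.2, f, g]
  ring

/-- low digits: only `j > N` contributes below `X^p`.  (`Y_j` for `j ≤ N` is divisible by `X^p`; for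
`j = N + i > N` one has `Y_j = (X^p-6)(X^p-81) X^(p-2i)(X-6)^(4i)(X-81)^i`, and `486 = 6*81`.) -/
theorem Hp_coeff_low (hN : p = 4 * N + 1) (i : ℕ) (hi : i < p) :
    (Hp p N).coeff i = 486 * (hh p N).coeff i := by
  have hL : (KB3_L p N).coeff i = 0 := by
    rw [KB3_L, finsetSum_coeff]
    refine sum_eq_zero fun j hj => ?_
    rw [mem_range] at hj
    rw [coeff_C_mul, Yj, mul_assoc (X ^ _), coeff_X_pow_mul', if_neg (by omega), mul_zero]
  have e : (X ^ p - C 6) * (X ^ p - C 81) * hh p N =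
      X ^ p * (X ^ p * hh p N) - C 87 * (X ^ p * hh p N) + C 486 * hh p N := by
    have h87 : (C 87 : (ZMod p)[X]) = C 6 + C 81 := by
      rw [← C_add]
      norm_num
    have h486 : (C 486 : (ZMod p)[X]) = C 6 * C 81 := by
      rw [← C_mul]
      norm_num
    rw [h87, h486]
    ring
  have z : ∀ r : (ZMod p)[X], (X ^ p * r).coeff i = 0 := fun r => by
    rw [coeff_X_pow_mul', if_neg (by omega)]
  rw [KB3_split hN, coeff_add, hL, zero_add, e, coeff_add, coeff_sub, coeff_C_mul, coeff_C_mul,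
    z, z, mul_zero, sub_zero, zero_add]

/-- high digits: only `j > N` contributes from `X^(3p)` on (`deg Y_j = 9N+3+3j < 3p` for `j < N`). -/
theorem Hp_coeff_high (hN : p = 4 * N + 1) (i : ℕ) (hi : i < p) :
    (Hp p N).coeff (3 * p + i) = (hh p N).coeff (p + i) := by
  have hL : (KB3_L p N).coeff (3 * p + i) = 0 := by
    refine coeff_eq_zero_of_natDegree_lt ?_
    have h : (KB3_L p N).natDegree ≤ 12 * N := by
      rw [KB3_L]
      refine natDegree_sum_le_of_forall_le _ _ fun j hj => ?_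
      rw [mem_range] at hj
      refine (natDegree_C_mul_le _ _).trans ?_
      rw [Yj]
      refine (natDegree_mul_le).trans ?_
      have h1 : (X ^ (6 * N + 1 - 2 * j) * (X - C 6) ^ (4 * j + 1) : (ZMod p)[X]).natDegree ≤
          (6 * N + 1 - 2 * j) + (4 * j + 1) := by
        refine (natDegree_mul_le).trans (Nat.add_le_add (natDegree_X_pow_le _) ?_)
        refine (natDegree_pow_le).trans ?_
        rw [natDegree_X_sub_C, mul_one]
      have h2 : ((X - C 81 : (ZMod p)[X]) ^ (3 * N + 1 + j)).natDegree ≤ 3 * N + 1 + j := by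
        refine (natDegree_pow_le).trans ?_
        rw [natDegree_X_sub_C, mul_one]
      omega
    omega
  have e : (X ^ p - C 6) * (X ^ p - C 81) * hh p N =
      X ^ p * (X ^ p * hh p N) - C 87 * (X ^ p * hh p N) + C 486 * hh p N := by
    have h87 : (C 87 : (ZMod p)[X]) = C 6 + C 81 := by
      rw [← C_add]
      norm_num
    have h486 : (C 486 : (ZMod p)[X]) = C 6 * C 81 := by
      rw [← C_mul]
      norm_num
    rw [h87, h486]
    ring
  have hd := hh_natDegree hN
  have g1 : (hh p N).coeff (3 * p + i) = 0 := coeff_eq_zero_of_natDegree_lt (by omega)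
  have g2 : (hh p N).coeff (2 * p + i) = 0 := coeff_eq_zero_of_natDegree_lt (by omega)
  have s1 : 3 * p + i = p + i + p + p := by ring
  have s2 : p + i + p = 2 * p + i := by ring
  rw [KB3_split hN, coeff_add, hL, zero_add, e, coeff_add, coeff_sub, coeff_C_mul, coeff_C_mul, g1]
  rw [s1, coeff_X_pow_mul, coeff_X_pow_mul, coeff_X_pow_mul, s2, g2]
  ring

end Pool.Agent.Lib.MP_ff9ca0_nt
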