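import Pool.Agent.Lib.MP_ff9ca0_nt.KDef

/-!
Values of `hh`.
-/

namespace Pool.Agent.Lib.MP_ff9ca0_nt

open Finset Polynomial

variable {p N : ℕ} [hp : Fact p.Prime]

theorem hh_eval_one (h7 : 7 ≤ p) (hN : p = 4 * N + 1) :
    (hh p N).eval 1 = 50000 ^ N * H1 p N := by
  unfold hh H1
  rw [eval_finsetSum, mul_sum]
  apply sum_congr rfl
  intro i hi
  rw [mem_Icc] at hi
  have e1 : (50000 : ZMod p) ^ N = 50000 ^ (N - i) * 50000 ^ i := by
    rw [← pow_add]; congr 1; omega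
  have e2 : ((1 : ZMod p) - 6) ^ (4 * i) * (1 - 81) ^ i = (-1) ^ i * 50000 ^ i := by
    rw [pow_mul, ← mul_pow, ← mul_pow]; congr 1; norm_num
  simp only [eval_mul, eval_pow, eval_sub, eval_X, eval_C, one_pow, one_mul]
  rw [e2, e1, pow_add]
  ring

theorem hh_eval_six (hN : p = 4 * N + 1) : (hh p N).eval 6 = 0 := by
  unfold hh
  rw [eval_finsetSum]
  apply sum_eq_zero
  intro i hi
  rw [mem_Icc] at hi
  have : 4 * i ≠ 0 := by omega
  simp [this]

theorem hh_eval_81 (hN : p = 4 * N + 1) : (hh p N).eval 81 = 0 := by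
  unfold hh
  rw [eval_finsetSum]
  apply sum_eq_zero
  intro i hi
  rw [mem_Icc] at hi
  have : i ≠ 0 := by omega
  simp [this]

end Pool.Agent.Lib.MP_ff9ca0_nt
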