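import Pool.Agent.Lib.MP_ff9ca0_nt.KA1
import Pool.Agent.Lib.MP_ff9ca0_nt.KB1

/-!
Derivative of `Num`.
-/

namespace Pool.Agent.Lib.MP_ff9ca0_nt

open Finset Polynomial

variable {p N : ℕ} [hp : Fact p.Prime]

private theorem KC1_C_pow (a : ZMod p) : (C a : (ZMod p)[X]) ^ p = C a := by
  rw [← C_pow, ZMod.pow_card]

private theorem KC1_deriv_X_pow : derivative ((X : (ZMod p)[X]) ^ p) = 0 := by
  rw [derivative_X_pow]
  simp

private theorem KC1_num (k : ℕ) : ((k : (ZMod p)[X])) ^ p = (k : (ZMod p)[X]) := by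
  have := KC1_C_pow (p := p) (k : ZMod p)
  simpa using this

private theorem KC1_qq :
    3 * qq2 (ZMod p) = X * (X - C 6) + 4 * (X * (X - C 81)) - 2 * ((X - C 6) * (X - C 81)) := by
  have e1 : (C 6 : (ZMod p)[X]) = 6 := rfl
  have e2 : (C 81 : (ZMod p)[X]) = 81 := rfl
  have e3 : (C 52 : (ZMod p)[X]) = 52 := rfl
  have e4 : (C 324 : (ZMod p)[X]) = 324 := rfl
  unfold qq2
  rw [e1, e2, e3, e4]
  ring

private theorem KC1_qq_pow :
    3 * qq2 (ZMod p) ^ p = X ^ p * (X - C 6) ^ p + 4 * (X ^ p * (X - C 81) ^ p) -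
      2 * ((X - C 6) ^ p * (X - C 81) ^ p) := by
  have h : (3 * qq2 (ZMod p)) ^ p = _ := congrArg (fun f => f ^ p) (KC1_qq (p := p))
  have h3 : (3 : (ZMod p)[X]) ^ p = 3 := by exact_mod_cast KC1_num (p := p) 3
  have h4 : (4 : (ZMod p)[X]) ^ p = 4 := by exact_mod_cast KC1_num (p := p) 4
  have h2 : (2 : (ZMod p)[X]) ^ p = 2 := by exact_mod_cast KC1_num (p := p) 2
  rw [sub_pow_char, add_pow_char, mul_pow, mul_pow, mul_pow 4, mul_pow 2, mul_pow, mul_pow,
    h3, h4, h2] at h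
  exact h

/-- Proof.  By `Hp_deriv`, `Ep_deriv`; the powers `X^p` are constants, `X^p - c = (X-c)^p`, and
`3 q = X(X-6) + 4X(X-81) - 2(X-6)(X-81)`. -/
theorem Num_deriv (h7 : 7 ≤ p) (hN : p = 4 * N + 1) :
    derivative (Num p N) = 3 * qq2 (ZMod p) ^ p * (P0 p N - C (A0 p N) * X ^ (p - 1)) := by
  have hodd : p ≠ 2 := by omega
  have e6 : (X : (ZMod p)[X]) ^ p - C 6 = (X - C 6) ^ p := by
    rw [sub_pow_char, KC1_C_pow]
  have e81 : (X : (ZMod p)[X]) ^ p - C 81 = (X - C 81) ^ p := by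
    rw [sub_pow_char, KC1_C_pow]
  have d6 : derivative ((X : (ZMod p)[X]) ^ p - C 6) = 0 := by
    rw [derivative_sub, KC1_deriv_X_pow, derivative_C, sub_zero]
  have d81 : derivative ((X : (ZMod p)[X]) ^ p - C 81) = 0 := by
    rw [derivative_sub, KC1_deriv_X_pow, derivative_C, sub_zero]
  have hD : derivative (Num p N) = derivative (Hp p N) -
      C (A0 p N) * (X ^ p * (X ^ p - C 6) * derivative (Ep p 81) +
        4 * (X ^ p * (X ^ p - C 81) * derivative (Ep p 6))) := by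
    have d4 : derivative (4 : (ZMod p)[X]) = 0 := by
      have : (4 : (ZMod p)[X]) = C 4 := rfl
      rw [this, derivative_C]
    unfold Num
    simp only [derivative_sub, derivative_add, derivative_mul, derivative_C, KC1_deriv_X_pow, d4]
    ring
  rw [hD, Hp_deriv h7 hN, Ep_deriv hodd, Ep_deriv hodd, e6, e81]
  have h81 : (C ((81 : ℕ) : ZMod p) : (ZMod p)[X]) = C 81 := by norm_num
  have h6 : (C ((6 : ℕ) : ZMod p) : (ZMod p)[X]) = C 6 := by norm_num
  rw [h81, h6]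
  have h4N : 4 * N = p - 1 := by omega
  rw [h4N]
  have hp1 : ∀ a : (ZMod p)[X], a ^ p = a * a ^ (p - 1) := by
    intro a
    rw [← pow_succ']
    congr 1
    have := hp.out.two_le
    omega
  have hq := KC1_qq (p := p)
  have hqp := KC1_qq_pow (p := p)
  rw [mul_pow, mul_pow]
  have key : 3 * qq2 (ZMod p) ^ p * (X ^ (p - 1)) =
      3 * qq2 (ZMod p) * (X ^ (p - 1) * (X - C 6) ^ (p - 1) * (X - C 81) ^ (p - 1)) +
      (X ^ p * (X - C 6) ^ p * (X ^ (p - 1) - (X - C 81) ^ (p - 1)) +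
        4 * (X ^ p * (X - C 81) ^ p * (X ^ (p - 1) - (X - C 6) ^ (p - 1)))) := by
    rw [hqp, hq, hp1 X, hp1 (X - C 6), hp1 (X - C 81)]
    ring
  have hqq : qq2 (ZMod p) ^ p = qq2 (ZMod p) * qq2 (ZMod p) ^ (p - 1) := hp1 _
  linear_combination (-C (A0 p N)) * key * (-1) - 3 * P0 p N * hqq

end Pool.Agent.Lib.MP_ff9ca0_nt
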