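import Pool.Agent.Lib.MP_ff9ca0_nt.KC1
import Pool.Agent.Lib.MP_ff9ca0_nt.KA2
import Pool.Agent.Lib.MP_ff9ca0_nt.KB2

/-!
The polynomial `k` with `3 q^p k = Num`.
-/

namespace Pool.Agent.Lib.MP_ff9ca0_nt

open Finset Polynomial

variable {p N : ℕ} [hp : Fact p.Prime]

private theorem KC2_cast_ne {a : ℕ} (h0 : ¬ p ∣ a) : (a : ZMod p) ≠ 0 := by
  rwa [Ne, ZMod.natCast_eq_zero_iff]

omit hp in
private theorem KC2_not_dvd (h7 : 7 ≤ p) {a : ℕ} (h0 : 0 < a) (h1 : a < 7) : ¬ p ∣ a := by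
  intro hd
  have := Nat.le_of_dvd h0 hd
  omega

private theorem KC2_qq2_deriv : derivative (qq2 (ZMod p)) = 2 * X - C 52 := by
  unfold qq2
  simp only [derivative_sub, derivative_X_pow, derivative_C_mul, derivative_X, derivative_C]
  simp only [Nat.cast_ofNat, C_ofNat]
  ring

private theorem KC2_coprime (h7 : 7 ≤ p) : IsCoprime (qq2 (ZMod p)) (derivative (qq2 (ZMod p))) := by
  have h4000 : (4000 : ZMod p) ≠ 0 := by
    have : ((4000 : ℕ) : ZMod p) ≠ 0 := by
      apply KC2_cast_ne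
      rw [show (4000 : ℕ) = 2 ^ 5 * 5 ^ 3 by norm_num]
      intro h
      rcases (hp.out.dvd_mul).mp h with h | h
      · exact KC2_not_dvd h7 (by norm_num) (by norm_num) (hp.out.dvd_of_dvd_pow h)
      · exact KC2_not_dvd h7 (by norm_num) (by norm_num) (hp.out.dvd_of_dvd_pow h)
    exact_mod_cast this
  refine ⟨C (-4 / 4000), C (1 / 4000) * (2 * X - C 52), ?_⟩
  rw [KC2_qq2_deriv]
  have h1 : (C (4000 : ZMod p) : (ZMod p)[X]) ≠ 0 := by
    rwa [Ne, C_eq_zero]
  apply mul_left_cancel₀ h1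
  have e1 : (C (4000 : ZMod p) : (ZMod p)[X]) * (C (-4 / 4000) * qq2 (ZMod p)) =
      -C 4 * qq2 (ZMod p) := by
    rw [← mul_assoc, ← C_mul, mul_div_cancel₀ _ h4000, C_neg]
  have e2 : (C (4000 : ZMod p) : (ZMod p)[X]) * (C (1 / 4000) * (2 * X - C 52) * (2 * X - C 52)) =
      (2 * X - C 52) * (2 * X - C 52) := by
    rw [← mul_assoc, ← mul_assoc, ← C_mul, mul_div_cancel₀ _ h4000, C_1, one_mul]
  rw [mul_add, e1, e2]
  unfold qq2
  simp only [C_ofNat]
  ring

private theorem KC2_qq2_monic : (qq2 (ZMod p)).Monic := by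
  unfold qq2
  monicity!

private theorem KC2_qq2_natDegree : (qq2 (ZMod p)).natDegree = 2 := by
  unfold qq2
  compute_degree!

private theorem KC2_dvd_one (h7 : 7 ≤ p) (hN : p = 4 * N + 1) : qq2 (ZMod p) ∣ Num p N := by
  have e : Num p N = Hp p N - C (A0 p N) * X ^ p * ((X ^ p - C 6) * Ep p 81 +
      4 * ((X ^ p - C 81) * Ep p 6) +
      C (qf p 50000 : ZMod p) * ((X ^ p - C 6) * (X ^ p - C 81))) := by
    unfold Num
    rw [C_mul]
    ring
  rw [e]
  exact dvd_sub (q_dvd_Hp h7 hN) (Dvd.dvd.mul_left (q_dvd_E h7) _)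

private theorem KC2_dvd_pow (h7 : 7 ≤ p) (hN : p = 4 * N + 1) (j : ℕ) (hj : j + 1 ≤ p) :
    qq2 (ZMod p) ^ (j + 1) ∣ Num p N := by
  induction j with
  | zero => simpa using KC2_dvd_one h7 hN
  | succ j ih =>
    obtain ⟨W, hW⟩ := ih (by omega)
    have hq0 : qq2 (ZMod p) ≠ 0 := KC2_qq2_monic.ne_zero
    have hd := Num_deriv h7 hN
    rw [hW, derivative_mul, derivative_pow] at hd
    simp only [Nat.add_sub_cancel] at hd
    have hpe : qq2 (ZMod p) ^ p = qq2 (ZMod p) ^ j * qq2 (ZMod p) * qq2 (ZMod p) ^ (p - (j + 1)) := by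
      rw [← pow_succ, ← pow_add]
      congr 1
      omega
    have h1 : C ((j + 1 : ℕ) : ZMod p) * (derivative (qq2 (ZMod p)) * W) =
        qq2 (ZMod p) * (3 * qq2 (ZMod p) ^ (p - (j + 1)) * (P0 p N - C (A0 p N) * X ^ (p - 1)) -
          derivative W) := by
      apply mul_left_cancel₀ (pow_ne_zero j hq0)
      rw [hpe] at hd
      linear_combination hd
    have h2 : qq2 (ZMod p) ∣ C ((j + 1 : ℕ) : ZMod p) * (derivative (qq2 (ZMod p)) * W) := by
      rw [h1]; exact dvd_mul_right _ _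
    have hu : IsUnit (C ((j + 1 : ℕ) : ZMod p) : (ZMod p)[X]) := by
      rw [isUnit_C, isUnit_iff_ne_zero]
      apply KC2_cast_ne
      intro h
      have := Nat.le_of_dvd (by omega) h
      omega
    have h3 : qq2 (ZMod p) ∣ derivative (qq2 (ZMod p)) * W := (hu.dvd_mul_left).mp h2
    have h4 : qq2 (ZMod p) ∣ W := (KC2_coprime h7).dvd_of_dvd_mul_left h3
    obtain ⟨V, hV⟩ := h4
    rw [hW, hV, ← mul_assoc, ← pow_succ]
    exact dvd_mul_right _ _

private theorem KC2_three (h7 : 7 ≤ p) : (3 : ZMod p) ≠ 0 := by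
  have : ((3 : ℕ) : ZMod p) ≠ 0 := KC2_cast_ne (KC2_not_dvd h7 (by norm_num) (by norm_num))
  exact_mod_cast this

private theorem KC2_three' (h7 : 7 ≤ p) : (3 : (ZMod p)[X]) ≠ 0 := by
  rw [← C_ofNat, Ne, C_eq_zero]
  exact KC2_three h7

/-- Proof.  `q ∣ Num` by `q_dvd_Hp`, `q_dvd_E`.  If `q^j ∣ Num`, `1 ≤ j < p`, `Num = q^j W`, then
`q^p ∣ Num' = j q^(j-1) q' W + q^j W'` gives `q ∣ j q' W`, and `q, q'` are coprime
(`4q - q'^2 = -4000`), so `q ∣ W`. -/
theorem exists_k (h7 : 7 ≤ p) (hN : p = 4 * N + 1) :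
    ∃ k : (ZMod p)[X], Num p N = 3 * qq2 (ZMod p) ^ p * k := by
  have h := KC2_dvd_pow h7 hN (p - 1) (by omega)
  rw [show p - 1 + 1 = p by omega] at h
  obtain ⟨W, hW⟩ := h
  refine ⟨C (3⁻¹) * W, ?_⟩
  have e : (3 : (ZMod p)[X]) * C (3⁻¹) = 1 := by
    rw [← C_ofNat, ← C_mul, mul_inv_cancel₀ (KC2_three h7), C_1]
  rw [hW]
  linear_combination (-(qq2 (ZMod p) ^ p * W)) * e

theorem k_deriv (h7 : 7 ≤ p) (hN : p = 4 * N + 1) {k : (ZMod p)[X]}
    (hk : Num p N = 3 * qq2 (ZMod p) ^ p * k) :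
    derivative k = P0 p N - C (A0 p N) * X ^ (p - 1) := by
  have hq0 : qq2 (ZMod p) ≠ 0 := KC2_qq2_monic.ne_zero
  have hd := Num_deriv h7 hN
  have h3 : derivative ((3 : (ZMod p)[X]) * qq2 (ZMod p) ^ p) = 0 := by
    rw [derivative_mul, derivative_pow, CharP.cast_eq_zero (ZMod p) p]
    simp
  rw [hk, derivative_mul, h3, zero_mul, zero_add] at hd
  exact mul_left_cancel₀ (mul_ne_zero (KC2_three' h7) (pow_ne_zero _ hq0)) hd

/-- degree of `Num` is at most `15N+3` (and `q^p` is monic of degree `2p`). -/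
theorem k_natDegree (h7 : 7 ≤ p) (hN : p = 4 * N + 1) {k : (ZMod p)[X]}
    (hk : Num p N = 3 * qq2 (ZMod p) ^ p * k) : k.natDegree < 2 * p := by
  have hX : ∀ c : ZMod p, (X ^ p - C c : (ZMod p)[X]).natDegree ≤ p := fun c => by
    refine (natDegree_sub_le _ _).trans ?_
    simp
  have hE81 := (Ep_natDegree (p := p) 81).le
  have hE6 := (Ep_natDegree (p := p) 6).le
  have hXp : (X ^ p : (ZMod p)[X]).natDegree ≤ p := by simp
  have hNum : (Num p N).natDegree ≤ 15 * N + 3 := by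
    unfold Num
    refine (natDegree_sub_le _ _).trans (max_le ((natDegree_sub_le _ _).trans
      (max_le (Hp_natDegree hN) ?_)) ?_)
    · refine (natDegree_C_mul_le _ _).trans ?_
      refine (natDegree_mul_le_of_le (natDegree_mul_le_of_le hXp (hX 6)) (hX 81)).trans ?_
      omega
    · refine (natDegree_C_mul_le _ _).trans ?_
      refine (natDegree_add_le _ _).trans (max_le ?_ ?_)
      · refine (natDegree_mul_le_of_le (natDegree_mul_le_of_le hXp (hX 6)) hE81).trans ?_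
        omega
      · rw [← C_ofNat]
        refine (natDegree_C_mul_le _ _).trans ?_
        refine (natDegree_mul_le_of_le (natDegree_mul_le_of_le hXp (hX 81)) hE6).trans ?_
        omega
  by_cases hk0 : k = 0
  · rw [hk0, natDegree_zero]; omega
  have hq0 : qq2 (ZMod p) ≠ 0 := KC2_qq2_monic.ne_zero
  have hdeg : (3 * qq2 (ZMod p) ^ p * k).natDegree = 2 * p + k.natDegree := by
    rw [natDegree_mul (mul_ne_zero (KC2_three' h7) (pow_ne_zero _ hq0)) hk0,
      natDegree_mul (KC2_three' h7) (pow_ne_zero _ hq0), natDegree_pow, KC2_qq2_natDegree]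
    have : (3 : (ZMod p)[X]).natDegree = 0 := by
      rw [← C_ofNat]; exact natDegree_C _
    rw [this]; ring
  rw [hk, hdeg] at hNum
  omega

end Pool.Agent.Lib.MP_ff9ca0_nt
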