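import Pool.Agent.Lib.MP_ff9ca0_nt.KC2
import Pool.Agent.Lib.MP_ff9ca0_nt.KB3

/-!
Coefficients of `k`.
-/

namespace Pool.Agent.Lib.MP_ff9ca0_nt

open Finset Polynomial

variable {p N : ℕ} [hp : Fact p.Prime]

private theorem KC3_qpow : qq2 (ZMod p) ^ p = X ^ (2 * p) - C 52 * X ^ p - C 324 := by
  unfold qq2
  rw [sub_pow_char, sub_pow_char, mul_pow, ← pow_mul, ← C_pow, ← C_pow]
  have h1 : (52 : ZMod p) ^ p = 52 := ZMod.pow_card _
  have h2 : (324 : ZMod p) ^ p = 324 := ZMod.pow_card _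
  rw [h1, h2]

private theorem KC3_small (h7 : 7 ≤ p) : (486 : ZMod p) ≠ 0 := by
  have h : ((486 : ℕ) : ZMod p) ≠ 0 := by
    rw [Ne, ZMod.natCast_eq_zero_iff]
    intro hd
    have h3 : (486 : ℕ) = 2 * 3 ^ 5 := by norm_num
    rw [h3, hp.out.dvd_mul] at hd
    rcases hd with h | h
    · have := Nat.le_of_dvd (by norm_num) h
      omega
    · have := Nat.le_of_dvd (by norm_num) (hp.out.dvd_of_dvd_pow h)
      omega
  exact_mod_cast h

/-- `q^p = X^(2p) - 52 X^p - 324`; compare coefficients below `X^p` -/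
theorem k_coeff_low (h7 : 7 ≤ p) (hN : p = 4 * N + 1) {k : (ZMod p)[X]}
    (hk : Num p N = 3 * qq2 (ZMod p) ^ p * k) (i : ℕ) (hi : i < p) :
    2 * k.coeff i = -(hh p N).coeff i := by
  have h1 : (Num p N).coeff i = 486 * (hh p N).coeff i := by
    have e : Num p N = Hp p N + X ^ p * (-(C (A0 p N * (qf p 50000 : ZMod p)) *
        ((X ^ p - C 6) * (X ^ p - C 81))) -
        C (A0 p N) * ((X ^ p - C 6) * Ep p 81 + 4 * ((X ^ p - C 81) * Ep p 6))) := by
      unfold Num; ring
    rw [e, coeff_add, coeff_X_pow_mul', if_neg (by omega), add_zero, Hp_coeff_low hN i hi]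
  have h2 : (3 * qq2 (ZMod p) ^ p * k).coeff i = -(972 * k.coeff i) := by
    have e : 3 * qq2 (ZMod p) ^ p * k = X ^ p * (C 3 * (X ^ p - C 52) * k) - C 972 * k := by
      rw [KC3_qpow, show (972 : ZMod p) = 3 * 324 by norm_num, C_mul, ← C_ofNat]
      rw [show 2 * p = p + p by ring, pow_add]
      ring
    rw [e, coeff_sub, coeff_X_pow_mul', if_neg (by omega), coeff_C_mul, zero_sub]
  rw [hk, h2] at h1
  have h3 : (486 : ZMod p) * (2 * k.coeff i + (hh p N).coeff i) = 0 := by
    linear_combination -h1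
  rcases mul_eq_zero.mp h3 with h | h
  · exact absurd h (KC3_small h7)
  · linear_combination h

/-- compare coefficients of `X^(3p+i)` -/
theorem k_coeff_high (h7 : 7 ≤ p) (hN : p = 4 * N + 1) {k : (ZMod p)[X]}
    (hk : Num p N = 3 * qq2 (ZMod p) ^ p * k) (i : ℕ) (hi : i < p) :
    3 * k.coeff (p + i) = (hh p N).coeff (p + i) -
      if i = 0 then A0 p N * (qf p 50000 : ZMod p) else 0 := by
  have hkd := k_natDegree h7 hN hk
  have hEdeg : ∀ a c : ℕ, (X ^ p * (X ^ p - C (a : ZMod p)) * Ep p c).coeff (3 * p + i) = 0 := by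
    intro a c
    have e : X ^ p * (X ^ p - C (a : ZMod p)) * Ep p c =
        X ^ (2 * p) * Ep p c - C (a : ZMod p) * (X ^ p * Ep p c) := by
      rw [show 2 * p = p + p by ring, pow_add]; ring
    rw [e, coeff_sub, coeff_C_mul, coeff_X_pow_mul', coeff_X_pow_mul', if_pos (by omega),
      if_pos (by omega), coeff_eq_zero_of_natDegree_lt, coeff_eq_zero_of_natDegree_lt]
    · simp
    · have := Ep_natDegree (p := p) c; omega
    · have := Ep_natDegree (p := p) c; omega
  have h1 : (Num p N).coeff (3 * p + i) = (hh p N).coeff (p + i) -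
      if i = 0 then A0 p N * (qf p 50000 : ZMod p) else 0 := by
    have e : Num p N = Hp p N - C (A0 p N * (qf p 50000 : ZMod p)) *
        (X ^ (3 * p) - C 87 * X ^ (2 * p) + C 486 * X ^ p) -
        C (A0 p N) * (X ^ p * (X ^ p - C ((6 : ℕ) : ZMod p)) * Ep p 81 +
          C 4 * (X ^ p * (X ^ p - C ((81 : ℕ) : ZMod p)) * Ep p 6)) := by
      unfold Num
      have h6 : ((6 : ℕ) : ZMod p) = 6 := by norm_num
      have h81 : ((81 : ℕ) : ZMod p) = 81 := by norm_num
      have h4 : (4 : (ZMod p)[X]) = C 4 := (C_ofNat 4).symm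
      rw [h6, h81, h4, show (87 : ZMod p) = 6 + 81 by norm_num,
        show (486 : ZMod p) = 6 * 81 by norm_num, C_add, C_mul (a := (6 : ZMod p)),
        show 3 * p = p + p + p by ring, show 2 * p = p + p by ring, pow_add, pow_add]
      ring
    have hE : (X ^ p * (X ^ p - C ((6 : ℕ) : ZMod p)) * Ep p 81 +
          C 4 * (X ^ p * (X ^ p - C ((81 : ℕ) : ZMod p)) * Ep p 6)).coeff (3 * p + i) = 0 := by
      rw [coeff_add, coeff_C_mul, hEdeg, hEdeg]; simp
    rw [e, coeff_sub, coeff_sub, coeff_C_mul, coeff_C_mul, hE,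
      Hp_coeff_high hN i hi, coeff_add, coeff_sub, coeff_C_mul, coeff_C_mul, coeff_X_pow,
      coeff_X_pow, coeff_X_pow]
    have h2p : ¬ (3 * p + i = 2 * p) := by have := hp.out.pos; omega
    have h1p : ¬ (3 * p + i = p) := by have := hp.out.pos; omega
    rw [if_neg h2p, if_neg h1p]
    by_cases h0 : i = 0
    · subst h0; simp
    · have : ¬ (3 * p + i = 3 * p) := by omega
      rw [if_neg this, if_neg h0]; simp
  have h2 : (3 * qq2 (ZMod p) ^ p * k).coeff (3 * p + i) = 3 * k.coeff (p + i) := by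
    have e : 3 * qq2 (ZMod p) ^ p * k = C 3 * (X ^ (2 * p) * k) - C 156 * (X ^ p * k) -
        C 972 * k := by
      rw [KC3_qpow, show (972 : ZMod p) = 3 * 324 by norm_num,
        show (156 : ZMod p) = 3 * 52 by norm_num, C_mul (b := (324 : ZMod p)),
        C_mul (b := (52 : ZMod p)), ← C_ofNat]
      ring
    rw [e, coeff_sub, coeff_sub, coeff_C_mul, coeff_C_mul, coeff_C_mul, coeff_X_pow_mul',
      coeff_X_pow_mul', if_pos (by omega), if_pos (by omega)]
    rw [coeff_eq_zero_of_natDegree_lt (n := 3 * p + i - p) (by omega),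
      coeff_eq_zero_of_natDegree_lt (n := 3 * p + i) (by omega),
      show 3 * p + i - 2 * p = p + i by omega]
    ring
  rw [hk, h2] at h1
  exact h1

end Pool.Agent.Lib.MP_ff9ca0_nt
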