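import Pool.Agent.Lib.MP_ff9ca0_nt.Basic

/-!
Fermat quotients.
-/

namespace Pool.Agent.Lib.MP_ff9ca0_nt

open Finset Polynomial

theorem qf_spec {p : ℕ} (hp : p.Prime) {a : ℕ} (ha : ¬ p ∣ a) :
    (p : ℤ) * qf p a = (a : ℤ) ^ (p - 1) - 1 := by
  have := Fact.mk hp
  unfold qf
  apply Int.mul_ediv_cancel'
  rw [← ZMod.intCast_zmod_eq_zero_iff_dvd]
  push_cast
  have h1 : (a : ZMod p) ≠ 0 := by
    rw [ne_eq, ZMod.natCast_eq_zero_iff]
    exact ha
  rw [ZMod.pow_card_sub_one_eq_one h1, sub_self]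

theorem qf_RR {p : ℕ} (hp : p.Prime) {a : ℕ} (ha : ¬ p ∣ a) :
    (a : RR p) ^ (p - 1) = 1 + p * (qf p a : RR p) := by
  have h := congrArg (Int.cast : ℤ → RR p) (qf_spec hp ha)
  push_cast at h
  linear_combination -h

theorem qf_mul {p : ℕ} (hp : p.Prime) {a b : ℕ} (ha : ¬ p ∣ a) (hb : ¬ p ∣ b) :
    (qf p (a * b) : ZMod p) = qf p a + qf p b := by
  have hab : ¬ p ∣ a * b := by
    rw [hp.dvd_mul]
    tauto
  have h1 := qf_spec hp ha
  have h2 := qf_spec hp hb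
  have h3 := qf_spec hp hab
  have hp0 : (p : ℤ) ≠ 0 := by exact_mod_cast hp.ne_zero
  have h4 : qf p (a * b) = qf p a + qf p b + p * (qf p a * qf p b) := by
    apply mul_left_cancel₀ hp0
    rw [h3]
    push_cast
    rw [mul_pow]
    linear_combination (-(b : ℤ) ^ (p - 1)) * h1 - (1 + p * qf p a) * h2
  rw [h4]
  push_cast
  rw [ZMod.natCast_self]
  ring

end Pool.Agent.Lib.MP_ff9ca0_nt
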