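import Pool.Agent.Lib.MP_ff9ca0_nt.KA1
import Pool.Agent.Lib.MP_ff9ca0_nt.KB2
import Pool.Agent.Lib.MP_ff9ca0_nt.Prod1

/-!
Values of `k`.
-/

namespace Pool.Agent.Lib.MP_ff9ca0_nt

open Finset Polynomial

variable {p N : ℕ} [hp : Fact p.Prime]

private theorem KC4_small (h7 : 7 ≤ p) {a : ℕ} (ha : 0 < a) (h6 : a ≤ 6) : ¬ p ∣ a := by
  intro h
  have := Nat.le_of_dvd ha h
  omega

private theorem KC4_mul (a b : ℕ) (ha : ¬ p ∣ a) (hb : ¬ p ∣ b) : ¬ p ∣ a * b := by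
  rw [Nat.Prime.dvd_mul hp.out]
  tauto

private theorem KC4_num (x : ZMod p) : (Num p N).eval x = (Hp p N).eval x -
    A0 p N * (qf p 50000 : ZMod p) * (x * (x - 6) * (x - 81)) -
    A0 p N * (x * (x - 6) * (Ep p 81).eval x + 4 * (x * (x - 81) * (Ep p 6).eval x)) := by
  unfold Num
  simp only [eval_sub, eval_mul, eval_add, eval_C, eval_pow, eval_X, ZMod.pow_card, eval_ofNat]

private theorem KC4_rhs (x : ZMod p) (k : (ZMod p)[X]) :
    (3 * qq2 (ZMod p) ^ p * k).eval x = 3 * (x ^ 2 - 52 * x - 324) * k.eval x := by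
  unfold qq2
  simp only [eval_sub, eval_mul, eval_C, eval_pow, eval_X, ZMod.pow_card, eval_ofNat]

private theorem KC4_div (h7 : 7 ≤ p) {A B : ℤ} (h : A = (p : ℤ) * B) : A / (p : ℤ) = B := by
  rw [h]
  exact Int.mul_ediv_cancel_left _ (by omega)

private theorem KC4_ne (a : ℕ) (ha : ¬ p ∣ a) : (a : ZMod p) ≠ 0 := by
  rw [Ne, ZMod.natCast_eq_zero_iff]
  exact ha

private theorem KC4_pow (h7 : 7 ≤ p) (a : ℤ) : a ^ p = a * a ^ (p - 1) := by
  rw [← pow_succ']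
  congr 1
  omega

theorem k_eval_one (h7 : 7 ≤ p) (hN : p = 4 * N + 1) {k : (ZMod p)[X]}
    (hk : Num p N = 3 * qq2 (ZMod p) ^ p * k) : k.eval 1 = 0 := by
  have hodd : p ≠ 2 := by omega
  have hodd' : Odd p := hp.out.odd_of_ne_two hodd
  have h2 : ¬ p ∣ 2 := KC4_small h7 (by norm_num) (by norm_num)
  have h3 : ¬ p ∣ 3 := KC4_small h7 (by norm_num) (by norm_num)
  have h5 : ¬ p ∣ 5 := KC4_small h7 (by norm_num) (by norm_num)
  have h25 : ¬ p ∣ 25 := KC4_mul 5 5 h5 h5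
  have h625 : ¬ p ∣ 625 := KC4_mul 25 25 h25 h25
  have h4 : ¬ p ∣ 4 := KC4_small h7 (by norm_num) (by norm_num)
  have h16 : ¬ p ∣ 16 := KC4_mul 4 4 h4 h4
  have h80 : ¬ p ∣ 80 := KC4_mul 16 5 h16 h5
  have hq : (qf p 50000 : ZMod p) = qf p 80 + 4 * qf p 5 := by
    have e1 := qf_mul hp.out h80 h625
    have e2 := qf_mul hp.out h25 h25
    have e3 := qf_mul hp.out h5 h5
    norm_num at e1 e2 e3
    rw [e1, e2, e3]
    ring
  have hE81 : (Ep p 81).eval (1 : ZMod p) = 80 * (qf p 80 : ZMod p) := by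
    have e := Ep_eval (p := p) hodd 81 1
    rw [Nat.cast_one] at e
    rw [e]
    have e2 : ((((1 : ℕ) : ℤ)) ^ p - ((81 : ℕ) : ℤ) - (((1 : ℕ) : ℤ) - ((81 : ℕ) : ℤ)) ^ p) =
        (p : ℤ) * (80 * qf p 80) := by
      have e3 := qf_spec hp.out h80
      have e4 : (((1 : ℕ) : ℤ) - ((81 : ℕ) : ℤ)) = -80 := by norm_num
      rw [e4, hodd'.neg_pow, KC4_pow h7 80]
      push_cast at e3 ⊢
      rw [one_pow]
      linear_combination (-80) * e3
    rw [KC4_div h7 e2]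
    push_cast
    ring
  have hE6 : (Ep p 6).eval (1 : ZMod p) = 5 * (qf p 5 : ZMod p) := by
    have e := Ep_eval (p := p) hodd 6 1
    rw [Nat.cast_one] at e
    rw [e]
    have e2 : ((((1 : ℕ) : ℤ)) ^ p - ((6 : ℕ) : ℤ) - (((1 : ℕ) : ℤ) - ((6 : ℕ) : ℤ)) ^ p) =
        (p : ℤ) * (5 * qf p 5) := by
      have e3 := qf_spec hp.out h5
      have e4 : (((1 : ℕ) : ℤ) - ((6 : ℕ) : ℤ)) = -5 := by norm_num
      rw [e4, hodd'.neg_pow, KC4_pow h7 5]
      push_cast at e3 ⊢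
      rw [one_pow]
      linear_combination (-5) * e3
    rw [KC4_div h7 e2]
    push_cast
    ring
  have h := congrArg (Polynomial.eval (1 : ZMod p)) hk
  rw [KC4_num, KC4_rhs, Hp_eval_one h7 hN, hE81, hE6, hq] at h
  have hne : (1125 : ZMod p) ≠ 0 := by
    have h9 : ¬ p ∣ 9 := KC4_mul 3 3 h3 h3
    have h125 : ¬ p ∣ 125 := KC4_mul 25 5 h25 h5
    exact_mod_cast KC4_ne 1125 (KC4_mul 9 125 h9 h125)
  apply mul_left_cancel₀ hne
  linear_combination h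

theorem k_eval_six (h7 : 7 ≤ p) (hN : p = 4 * N + 1) {k : (ZMod p)[X]}
    (hk : Num p N = 3 * qq2 (ZMod p) ^ p * k) : k.eval 6 = -(6 * A0 p N * (qf p 6 : ZMod p)) := by
  have hodd : p ≠ 2 := by omega
  have h6 : ¬ p ∣ 6 := KC4_small h7 (by norm_num) (by norm_num)
  have h3 : ¬ p ∣ 3 := KC4_small h7 (by norm_num) (by norm_num)
  have h5 : ¬ p ∣ 5 := KC4_small h7 (by norm_num) (by norm_num)
  have h4 : ¬ p ∣ 4 := KC4_small h7 (by norm_num) (by norm_num)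
  have hE6 : (Ep p 6).eval (6 : ZMod p) = 6 * (qf p 6 : ZMod p) := by
    have e := Ep_eval (p := p) hodd 6 6
    rw [show ((6 : ℕ) : ZMod p) = 6 from by norm_num] at e
    rw [e]
    have e2 : ((((6 : ℕ) : ℤ)) ^ p - ((6 : ℕ) : ℤ) - (((6 : ℕ) : ℤ) - ((6 : ℕ) : ℤ)) ^ p) =
        (p : ℤ) * (6 * qf p 6) := by
      have e3 := qf_spec hp.out h6
      rw [sub_self, zero_pow (by omega), KC4_pow h7]
      push_cast at e3 ⊢
      linear_combination (-6) * e3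
    rw [KC4_div h7 e2]
    push_cast
    ring
  have h := congrArg (Polynomial.eval (6 : ZMod p)) hk
  rw [KC4_num, KC4_rhs, Hp_eval_six hN, hE6] at h
  have hne : (1800 : ZMod p) ≠ 0 := by
    have h30 : ¬ p ∣ 30 := KC4_mul 6 5 h6 h5
    have h20 : ¬ p ∣ 20 := KC4_mul 4 5 h4 h5
    have h60 : ¬ p ∣ 60 := KC4_mul 20 3 h20 h3
    exact_mod_cast KC4_ne 1800 (KC4_mul 30 60 h30 h60)
  apply mul_left_cancel₀ hne
  linear_combination h

theorem k_eval_81 (h7 : 7 ≤ p) (hN : p = 4 * N + 1) {k : (ZMod p)[X]}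
    (hk : Num p N = 3 * qq2 (ZMod p) ^ p * k) :
    k.eval 81 = -(81 * A0 p N * (qf p 81 : ZMod p)) := by
  have hodd : p ≠ 2 := by omega
  have h3 : ¬ p ∣ 3 := KC4_small h7 (by norm_num) (by norm_num)
  have h5 : ¬ p ∣ 5 := KC4_small h7 (by norm_num) (by norm_num)
  have h9 : ¬ p ∣ 9 := KC4_mul 3 3 h3 h3
  have h81 : ¬ p ∣ 81 := KC4_mul 9 9 h9 h9
  have hE : (Ep p 81).eval (81 : ZMod p) = 81 * (qf p 81 : ZMod p) := by
    have e := Ep_eval (p := p) hodd 81 81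
    rw [show ((81 : ℕ) : ZMod p) = 81 from by norm_num] at e
    rw [e]
    have e2 : ((((81 : ℕ) : ℤ)) ^ p - ((81 : ℕ) : ℤ) - (((81 : ℕ) : ℤ) - ((81 : ℕ) : ℤ)) ^ p) =
        (p : ℤ) * (81 * qf p 81) := by
      have e3 := qf_spec hp.out h81
      rw [sub_self, zero_pow (by omega), KC4_pow h7]
      push_cast at e3 ⊢
      linear_combination (-81) * e3
    rw [KC4_div h7 e2]
    push_cast
    ring
  have h := congrArg (Polynomial.eval (81 : ZMod p)) hk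
  rw [KC4_num, KC4_rhs, Hp_eval_81 hN, hE] at h
  have hne : (6075 : ZMod p) ≠ 0 := by
    have h25 : ¬ p ∣ 25 := KC4_mul 5 5 h5 h5
    have h75 : ¬ p ∣ 75 := KC4_mul 3 25 h3 h25
    exact_mod_cast KC4_ne 6075 (KC4_mul 81 75 h81 h75)
  apply mul_left_cancel₀ hne
  linear_combination -h

end Pool.Agent.Lib.MP_ff9ca0_nt
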