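import Pool.Agent.Lib.MP_ff9ca0_nt.Prod1

/-!
Powers of `-4` and the harmonic type sum.
-/

namespace Pool.Agent.Lib.MP_ff9ca0_nt

open Finset Polynomial

/-- Proof.  Let `μ = ∑_{j=N+1}^{2N} 1/j` in `RR p`.  From `∏_{i=1}^N (2i-1) = ∏_{j=N+1}^{2N} (p-2j)`
and `(2N)!/N! = 2^N ∏ (2i-1)` one gets `1 = (-4)^N (1 - (p/2) μ)` in `RR p`.  (`2/p ↦` use the inverse
of `2` in `RR p`.) -/
theorem neg_four_pow {p N : ℕ} (hp : p.Prime) (hN : p = 4 * N + 1) : (-4 : ZMod p) ^ N = 1 := by
  have : Fact p.Prime := ⟨hp⟩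
  obtain ⟨i, hi⟩ := (ZMod.exists_sq_eq_neg_one_iff (p := p)).mpr (by omega)
  have h4 : (-4 : ZMod p) = (1 + i) ^ 4 := by
    linear_combination (i ^ 2 + 4 * i + 5) * hi
  have hne : (1 + i : ZMod p) ≠ 0 := by
    intro h
    rw [h] at h4
    have h5 : (4 : ZMod p) = 0 := by linear_combination -h4
    have h6 : ((4 : ℕ) : ZMod p) = 0 := by exact_mod_cast h5
    rw [ZMod.natCast_eq_zero_iff] at h6
    have h7 : p ≤ 4 := Nat.le_of_dvd (by norm_num) h6
    have h8 : N = 0 := by omega
    rw [h8] at hN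
    exact hp.one_lt.ne' hN
  rw [h4, ← pow_mul]
  have h5 : 4 * N = p - 1 := by omega
  rw [h5]
  exact ZMod.pow_card_sub_one_eq_one hne

/-- expansion of a product modulo `p^2` -/
theorem Prod2_prod_add {p : ℕ} (s : Finset ℕ) (a b : ℕ → RR p) (h : ∀ i ∈ s, a i * b i = 1) :
    ∏ i ∈ s, (a i + p) = (∏ i ∈ s, a i) * (1 + p * ∑ i ∈ s, b i) := by
  induction s using Finset.induction_on with
  | empty => simp
  | insert j s hj ih =>
    rw [prod_insert hj, prod_insert hj, sum_insert hj, ih fun i hi => h i (mem_insert_of_mem hi)]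
    have h1 := h j (mem_insert_self j s)
    linear_combination (p * (∏ i ∈ s, a i) * (-1) : RR p) * h1 + 0 * pp p +
      (∏ i ∈ s, a i) * (∑ i ∈ s, b i) * pp p

theorem Prod2_choose {p : ℕ} [hp : Fact p.Prime] (k : ℕ) (hk : k < p) :
    ((p - 1).choose k : ZMod p) = (-1) ^ k := by
  induction k with
  | zero => simp
  | succ k ih =>
    have h1 := ih (by omega)
    have h2 : (p - 1).choose (k + 1) + (p - 1).choose k = p.choose (k + 1) := by
      obtain ⟨q, hq⟩ : ∃ q, p = q + 1 := ⟨p - 1, by have := hp.out.one_lt; omega⟩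
      have e : p - 1 = q := by omega
      rw [e, hq, Nat.choose_succ_succ]
      ring
    have h3 : (p.choose (k + 1) : ZMod p) = 0 := by
      rw [ZMod.natCast_eq_zero_iff]
      exact hp.out.dvd_choose_self (by omega) hk
    have h4 := congrArg (Nat.cast : ℕ → ZMod p) h2
    rw [h3, Nat.cast_add, h1] at h4
    rw [pow_succ]
    linear_combination h4

theorem Prod2_odd (N : ℕ) :
    (2 * N).descFactorial N = 2 ^ N * ∏ i ∈ range N, (2 * i + 1) := by
  have h : ∀ n : ℕ, (2 * n).factorial = n.factorial * (2 ^ n * ∏ i ∈ range n, (2 * i + 1)) := by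
    intro n
    induction n with
    | zero => simp
    | succ n ih =>
      have e : 2 * (n + 1) = 2 * n + 1 + 1 := by ring
      rw [e, Nat.factorial_succ, Nat.factorial_succ, ih, prod_range_succ, Nat.factorial_succ]
      ring
  have h1 := Nat.factorial_mul_descFactorial (show N ≤ 2 * N by omega)
  have e : 2 * N - N = N := by omega
  rw [e, h N] at h1
  exact Nat.eq_of_mul_eq_mul_left (Nat.factorial_pos N) h1

/-- Proof.  With `μ` as in `neg_four_pow`, squaring gives `2^(p-1) = 1 + p μ`, so `μ = qf p 2` modulo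
`p`.  And `H1 = -(-1)^N C(2N,N) μ` modulo `p`: in `RR p`, `C(2N+p,N) = C(2N,N) (1 + p μ)`, while
`C(2N+p,N) (-1)^N = [X^N] (1-X)^(2N) (1-X)^p` and `(1-X)^p = 1 - p ∑_{0<m<p} X^m/m - X^p` (because
`C(p,m) (-1)^m = -p/m` in `RR p`), so that `(-1)^N (C(2N+p,N) - C(2N,N)) =
-p ∑_{m=1}^N (-1)^(N-m) C(2N,N-m)/m = -p H1`. -/
theorem H1_eq {p N : ℕ} [hp : Fact p.Prime] (hN : p = 4 * N + 1) :
    H1 p N = -((-1) ^ N * ((2 * N).choose N : ZMod p) * (qf p 2 : ZMod p)) := by
  have hp2 := hp.out.two_le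
  -- inverses
  have hunit : ∀ a : ℕ, 0 < a → a < p → IsUnit (a : RR p) := by
    intro a h0 h1
    exact isUnit_nat hp.out (Nat.not_dvd_of_pos_of_lt h0 h1)
  let c : ℕ → RR p := fun a => Ring.inverse (a : RR p)
  have hc : ∀ a : ℕ, 0 < a → a < p → (a : RR p) * c a = 1 := fun a h0 h1 =>
    Ring.mul_inverse_cancel _ (hunit a h0 h1)
  have hcr : ∀ a : ℕ, 0 < a → a < p → red p (c a) = (a : ZMod p)⁻¹ := by
    intro a h0 h1
    have h2 := congrArg (red p) (hc a h0 h1)
    rw [map_mul, red_nat, map_one] at h2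
    exact eq_inv_of_mul_eq_one_right h2
  set μ : RR p := ∑ i ∈ range N, c (2 * N - i) with hμ
  -- first: C(2N+p, N)
  have hpos : ∀ i ∈ range N, 0 < 2 * N - i ∧ 2 * N - i < p := by
    intro i hi
    rw [mem_range] at hi
    omega
  have hdesc : (((2 * N + p).descFactorial N : ℕ) : RR p) =
      (((2 * N).descFactorial N : ℕ) : RR p) * (1 + p * μ) := by
    rw [Nat.descFactorial_eq_prod_range, Nat.descFactorial_eq_prod_range, Nat.cast_prod,
      Nat.cast_prod, hμ, ← Prod2_prod_add (range N) (fun i => ((2 * N - i : ℕ) : RR p))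
        (fun i => c (2 * N - i)) (fun i hi => hc _ (hpos i hi).1 (hpos i hi).2)]
    refine prod_congr rfl fun i hi => ?_
    rw [mem_range] at hi
    have e : 2 * N + p - i = (2 * N - i) + p := by omega
    rw [e, Nat.cast_add]
  have hfac : IsUnit ((N.factorial : ℕ) : RR p) := by
    refine isUnit_nat hp.out ?_
    rw [hp.out.dvd_factorial]
    omega
  have hch : (((2 * N + p).choose N : ℕ) : RR p) = (((2 * N).choose N : ℕ) : RR p) * (1 + p * μ) := by
    rw [Nat.descFactorial_eq_factorial_mul_choose, Nat.descFactorial_eq_factorial_mul_choose,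
      Nat.cast_mul, Nat.cast_mul, mul_assoc] at hdesc
    exact hfac.mul_left_cancel hdesc
  -- second: Vandermonde
  have hcp : ∀ m : ℕ, 0 < m → m < p → ((p.choose m : ℕ) : RR p) = -(p * ((-1) ^ m * c m)) := by
    intro m h0 h1
    have h2 : p * (p - 1).choose (m - 1) = p.choose m * m := by
      obtain ⟨q, hq⟩ : ∃ q, p = q + 1 := ⟨p - 1, by omega⟩
      obtain ⟨l, hl⟩ : ∃ l, m = l + 1 := ⟨m - 1, by omega⟩
      have e1 : p - 1 = q := by omega
      have e2 : m - 1 = l := by omega
      rw [e1, e2, hq, hl]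
      exact Nat.add_one_mul_choose_eq q l
    have h3 := congrArg (Nat.cast : ℕ → RR p) h2
    rw [Nat.cast_mul, Nat.cast_mul] at h3
    have h4 : (p : RR p) * (((p - 1).choose (m - 1) : ℕ) : RR p) = p * (-(-1) ^ m) := by
      refine p_mul_eq ?_
      rw [red_nat, Prod2_choose _ (by omega), map_neg, map_pow, map_neg, map_one]
      obtain ⟨l, hl⟩ : ∃ l, m = l + 1 := ⟨m - 1, by omega⟩
      have e2 : m - 1 = l := by omega
      rw [e2, hl, pow_succ]
      ring
    rw [h4] at h3
    linear_combination (-((p.choose m : ℕ) : RR p)) * (hc m h0 h1) - c m * h3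
  have hv : (((2 * N + p).choose N : ℕ) : RR p) = (((2 * N).choose N : ℕ) : RR p) +
      ∑ m ∈ Icc 1 N, (((2 * N).choose (N + m) : ℕ) : RR p) * (-(p * ((-1) ^ m * c m))) := by
    rw [add_comm (2 * N) p, Nat.add_choose_eq, Nat.cast_sum,
      Finset.Nat.sum_antidiagonal_eq_sum_range_succ_mk, sum_range_succ']
    rw [add_comm]
    congr 1
    · simp
    · have e : Icc 1 N = (range N).image (fun i => i + 1) := by
        ext x
        simp only [mem_Icc, mem_image, mem_range]
        constructor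
        · intro h
          exact ⟨x - 1, by omega, by omega⟩
        · rintro ⟨y, h1, h2⟩
          omega
      rw [e, sum_image (by intro a _ b _ h; simpa using h)]
      refine sum_congr rfl fun i hi => ?_
      rw [mem_range] at hi
      rw [Nat.cast_mul, hcp (i + 1) (by omega) (by omega), mul_comm]
      congr 2
      rw [← Nat.choose_symm (show N - (i + 1) ≤ 2 * N by omega)]
      congr 1
      omega
  have hmain : (p : RR p) * ((((2 * N).choose N : ℕ) : RR p) * μ) =
      p * (-∑ m ∈ Icc 1 N, (((2 * N).choose (N + m) : ℕ) : RR p) * ((-1) ^ m * c m)) := by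
    have e : (p : RR p) * (-∑ m ∈ Icc 1 N, (((2 * N).choose (N + m) : ℕ) : RR p) *
        ((-1) ^ m * c m)) = ∑ m ∈ Icc 1 N, (((2 * N).choose (N + m) : ℕ) : RR p) *
          (-(p * ((-1) ^ m * c m))) := by
      rw [← sum_neg_distrib, mul_sum]
      refine sum_congr rfl fun m _ => ?_
      ring
    rw [e]
    linear_combination hv - hch
  have hmain2 := p_mul_inj (by omega) hmain
  rw [map_mul, map_neg, red_nat] at hmain2
  have hH : H1 p N = (-1) ^ N * ∑ m ∈ Icc 1 N, red p ((((2 * N).choose (N + m) : ℕ) : RR p) *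
      ((-1) ^ m * c m)) := by
    rw [H1, mul_sum]
    refine sum_congr rfl fun m hm => ?_
    rw [mem_Icc] at hm
    rw [map_mul, map_mul, red_nat, map_pow, map_neg, map_one, hcr m (by omega) (by omega), pow_add,
      div_eq_mul_inv]
    ring
  -- third: μ is the Fermat quotient of 2
  have hodd := Prod2_odd N
  have h2u : IsUnit ((2 : ℕ) : RR p) := hunit 2 (by norm_num) (by omega)
  have hh : (2 : RR p) * c 2 = 1 := by
    have := hc 2 (by norm_num) (by omega)
    exact_mod_cast this
  set P : RR p := ∏ i ∈ range N, ((2 * i + 1 : ℕ) : RR p) with hP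
  have hPu : IsUnit P := by
    rw [hP, IsUnit.prod_iff]
    intro i hi
    rw [mem_range] at hi
    exact hunit _ (by omega) (by omega)
  have hD : (((2 * N).descFactorial N : ℕ) : RR p) = 2 ^ N * P := by
    rw [hodd, Nat.cast_mul, Nat.cast_pow, Nat.cast_prod, hP, Nat.cast_ofNat]
  have hP2 : P = (-2) ^ N * (2 ^ N * P) * (1 - p * (c 2 * μ)) := by
    have h1 : P = ∏ i ∈ range N, ((-2) * ((2 * N - i : ℕ) : RR p) + p) := by
      rw [hP]
      refine prod_congr rfl fun i hi => ?_
      rw [mem_range] at hi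
      have e : ((2 * i + 1 : ℕ) : ℤ) = (-2) * ((2 * N - i : ℕ) : ℤ) + p := by
        rw [Nat.cast_sub (by omega)]
        push_cast
        rw [hN]
        push_cast
        ring
      have e2 := congrArg (Int.cast : ℤ → RR p) e
      push_cast at e2
      push_cast
      exact e2
    have h3 : ∏ i ∈ range N, ((-2) * ((2 * N - i : ℕ) : RR p)) = (-2) ^ N * (2 ^ N * P) := by
      rw [prod_mul_distrib, prod_const, card_range, ← hD, Nat.descFactorial_eq_prod_range,
        Nat.cast_prod]
    have h4 := Prod2_prod_add (p := p) (range N) (fun i => (-2) * ((2 * N - i : ℕ) : RR p))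
      (fun i => -(c 2 * c (2 * N - i))) (by
        intro i hi
        have h5 := hc _ (hpos i hi).1 (hpos i hi).2
        linear_combination (((2 * N - i : ℕ) : RR p) * c (2 * N - i)) * hh + h5)
    rw [h3, ← h1, sum_neg_distrib, ← mul_sum, ← hμ] at h4
    exact h4.trans (by ring)
  have hone : (1 : RR p) = (-4) ^ N * (1 - p * (c 2 * μ)) := by
    have e : ((-2 : RR p)) ^ N * 2 ^ N = (-4) ^ N := by
      rw [← mul_pow]
      norm_num
    refine hPu.mul_left_cancel ?_
    rw [mul_one]
    calc P = (-2) ^ N * (2 ^ N * P) * (1 - p * (c 2 * μ)) := hP2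
      _ = P * (((-2) ^ N * 2 ^ N) * (1 - p * (c 2 * μ))) := by ring
      _ = _ := by rw [e]
  have hq : (2 : RR p) ^ (p - 1) = 1 + p * (qf p 2 : RR p) := by
    have h1 : ¬ p ∣ 2 := fun h => by
      have := Nat.le_of_dvd (by norm_num) h
      omega
    have := qf_RR hp.out h1
    exact_mod_cast this
  have hsq : (1 : RR p) = (1 + p * (qf p 2 : RR p)) * (1 - p * μ) := by
    have e1 : ((-4 : RR p) ^ N) * (-4) ^ N = 2 ^ (p - 1) := by
      have e2 : p - 1 = 4 * N := by omega
      rw [e2, pow_mul, ← mul_pow]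
      norm_num
    have h1 : (1 : RR p) = ((-4) ^ N * (-4) ^ N) * ((1 - p * (c 2 * μ)) * (1 - p * (c 2 * μ))) := by
      calc (1 : RR p) = 1 * 1 := by ring
        _ = ((-4) ^ N * (1 - p * (c 2 * μ))) * ((-4) ^ N * (1 - p * (c 2 * μ))) := by
          rw [← hone]
        _ = _ := by ring
    rw [e1, hq] at h1
    have h2 : (1 - p * (c 2 * μ)) * (1 - p * (c 2 * μ)) = (1 - p * μ : RR p) := by
      linear_combination (c 2 * μ) * (c 2 * μ) * pp p - p * μ * hh
    rw [h2] at h1
    exact h1
  have hpm : (p : RR p) * μ = p * (qf p 2 : RR p) := by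
    linear_combination hsq + (qf p 2 : RR p) * μ * pp p * (-1)
  have hred := p_mul_inj (by omega) hpm
  rw [red_int] at hred
  rw [hH]
  rw [hred, map_sum] at hmain2
  linear_combination (-1) ^ N * hmain2

end Pool.Agent.Lib.MP_ff9ca0_nt
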