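import Pool.Agent.Lib.MP_ff9ca0_nt.KC3
import Pool.Agent.Lib.MP_ff9ca0_nt.KC4
import Pool.Agent.Lib.MP_ff9ca0_nt.KB4
import Pool.Agent.Lib.MP_ff9ca0_nt.Prod2

/-!
The functional `kl`.
-/

namespace Pool.Agent.Lib.MP_ff9ca0_nt

open Finset Polynomial

variable {p N : ℕ} [hp : Fact p.Prime]

private theorem KC5_choose_sub_one (j : ℕ) (hj : j < p) :
    (((p - 1).choose j : ℕ) : ZMod p) = (-1) ^ j := by
  induction j with
  | zero => simp
  | succ j ih =>
    have h1 := ih (by omega)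
    have h2 : p.choose (j + 1) = (p - 1).choose j + (p - 1).choose (j + 1) := by
      conv_lhs => rw [show p = (p - 1) + 1 by have := hp.out.one_lt; omega]
      exact Nat.choose_succ_succ _ _
    have h3 : ((p.choose (j + 1) : ℕ) : ZMod p) = 0 := by
      rw [ZMod.natCast_eq_zero_iff]
      exact hp.out.dvd_choose_self (by omega) hj
    rw [h2] at h3
    push_cast at h3
    rw [h1] at h3
    rw [pow_succ]
    linear_combination h3

private theorem KC5_choose_div (j : ℕ) (h0 : 0 < j) (hj : j < p) :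
    (j : ZMod p) * ((p.choose j / p : ℕ) : ZMod p) = (-1) ^ (j - 1) := by
  have h1 : p ∣ p.choose j := hp.out.dvd_choose_self (by omega) hj
  have h2 : p * (p - 1).choose (j - 1) = p.choose j * j := by
    have := Nat.add_one_mul_choose_eq (p - 1) (j - 1)
    rwa [show p - 1 + 1 = p by have := hp.out.one_lt; omega, show j - 1 + 1 = j by omega] at this
  have h3 : (p.choose j / p) * j = (p - 1).choose (j - 1) := by
    apply Nat.eq_of_mul_eq_mul_left hp.out.pos
    rw [h2, ← mul_assoc, Nat.mul_div_cancel' h1]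
  rw [← KC5_choose_sub_one (j - 1) (by omega), ← h3]
  push_cast
  ring

/-- `[X^(p-1)] P₀ = A₀` (coefficient of `X^(p-1)` in `k_deriv`). -/
theorem P0_coeff (h7 : 7 ≤ p) (hN : p = 4 * N + 1) : (P0 p N).coeff (p - 1) = A0 p N := by
  obtain ⟨k, hk⟩ := exists_k h7 hN
  have h := congrArg (fun q => q.coeff (p - 1)) (k_deriv h7 hN hk)
  simp only [coeff_derivative, coeff_sub, coeff_C_mul, coeff_X_pow, if_true, mul_one] at h
  have h2 : (((p - 1 : ℕ) : ZMod p) + 1) = 0 := by
    have : (((p - 1 + 1 : ℕ)) : ZMod p) = 0 := by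
      rw [show p - 1 + 1 = p by omega]; exact ZMod.natCast_self p
    rw [← this]; push_cast; ring
  rw [h2, mul_zero] at h
  linear_combination -h

/-- `kl c = ∑_{i<p} k_i c^i`: by `k_deriv` `i k_i = [X^(i-1)] P₀` for `1 ≤ i < p`, `k_0 = 0` by
`k_coeff_low` and `hh_coeff_zero`, and `C(p,j)/p = (-1)^(j-1)/j` modulo `p`. -/
theorem kl_eq (h7 : 7 ≤ p) (hN : p = 4 * N + 1) {k : (ZMod p)[X]}
    (hk : Num p N = 3 * qq2 (ZMod p) ^ p * k) (c : ℕ) :
    kl p N c = ∑ i ∈ range p, k.coeff i * (c : ZMod p) ^ i := by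
  have h2ne : (2 : ZMod p) ≠ 0 := by
    have : ((2 : ℕ) : ZMod p) ≠ 0 := by
      rw [Ne, ZMod.natCast_eq_zero_iff]
      intro h
      have := Nat.le_of_dvd (by norm_num) h
      omega
    exact_mod_cast this
  have hk0 : k.coeff 0 = 0 := by
    have h := k_coeff_low h7 hN hk 0 (by omega)
    rw [hh_coeff_zero hN h7, neg_zero] at h
    exact (mul_eq_zero.mp h).resolve_left h2ne
  have hcoef : ∀ i, 0 < i → i < p → (P0 p N).coeff (i - 1) = k.coeff i * (i : ZMod p) := by
    intro i h0 hi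
    have h := congrArg (fun q => q.coeff (i - 1)) (k_deriv h7 hN hk)
    simp only [coeff_derivative, coeff_sub, coeff_C_mul, coeff_X_pow] at h
    rw [if_neg (by omega), mul_zero, sub_zero] at h
    rw [← h, show i - 1 + 1 = i by omega]
    congr 1
    have : ((i - 1 + 1 : ℕ) : ZMod p) = (i : ZMod p) := by rw [show i - 1 + 1 = i by omega]
    rw [← this]; push_cast; ring
  have hkl : kl p N c = ∑ j ∈ Ioo 0 p, (((p.choose j / p : ℕ) : ZMod p) * (-1) ^ j *
      (c : ZMod p) ^ (p - j)) * (P0 p N).coeff (p - 1 - j) := by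
    unfold kl ellc
    rw [Finset.mul_sum, finsetSum_coeff]
    refine Finset.sum_congr rfl fun j hj => ?_
    rw [mem_Ioo] at hj
    rw [mul_left_comm, coeff_C_mul, coeff_mul_X_pow', if_pos (by omega)]
  rw [hkl]
  have hterm : ∀ j ∈ Ioo 0 p, (((p.choose j / p : ℕ) : ZMod p) * (-1) ^ j *
      (c : ZMod p) ^ (p - j)) * (P0 p N).coeff (p - 1 - j) =
      k.coeff (p - j) * (c : ZMod p) ^ (p - j) := by
    intro j hj
    rw [mem_Ioo] at hj
    have e1 := hcoef (p - j) (by omega) (by omega)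
    rw [show p - j - 1 = p - 1 - j by omega] at e1
    rw [e1]
    have e2 : (((p - j : ℕ)) : ZMod p) = -(j : ZMod p) := by
      rw [Nat.cast_sub hj.2.le, ZMod.natCast_self]; ring
    rw [e2]
    have e3 := KC5_choose_div (p := p) j hj.1 hj.2
    have e4 : ((-1 : ZMod p)) ^ j * (-1) ^ (j - 1) = -1 := by
      obtain ⟨m, rfl⟩ : ∃ m, j = m + 1 := ⟨j - 1, by omega⟩
      simp only [Nat.add_sub_cancel]
      rw [← pow_add, show m + 1 + m = 2 * m + 1 by ring, pow_succ, pow_mul]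
      simp
    calc (((p.choose j / p : ℕ) : ZMod p) * (-1) ^ j * (c : ZMod p) ^ (p - j)) *
          (k.coeff (p - j) * -(j : ZMod p))
        = -(((-1) ^ j * ((j : ZMod p) * ((p.choose j / p : ℕ) : ZMod p))) *
            (k.coeff (p - j) * (c : ZMod p) ^ (p - j))) := by ring
      _ = k.coeff (p - j) * (c : ZMod p) ^ (p - j) := by rw [e3, e4]; ring
  rw [Finset.sum_congr rfl hterm]
  have hrange : ∑ i ∈ range p, k.coeff i * (c : ZMod p) ^ i =
      ∑ i ∈ Ioo 0 p, k.coeff i * (c : ZMod p) ^ i := by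
    rw [Finset.range_eq_Ico, Finset.sum_eq_sum_Ico_succ_bot hp.out.pos, hk0, zero_mul, zero_add]
    rfl
  rw [hrange]
  refine Finset.sum_nbij' (fun j => p - j) (fun j => p - j) ?_ ?_ ?_ ?_ ?_
  · intro j hj; rw [mem_Ioo] at hj ⊢; constructor <;> omega
  · intro j hj; rw [mem_Ioo] at hj ⊢; constructor <;> omega
  · intro j hj; rw [mem_Ioo] at hj; omega
  · intro j hj; rw [mem_Ioo] at hj; omega
  · intro j hj; rfl

private theorem KC5_eval {f : (ZMod p)[X]} (hf : f.natDegree < 2 * p) (c : ℕ) :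
    f.eval (c : ZMod p) = ∑ i ∈ range p, f.coeff i * (c : ZMod p) ^ i +
      c * ∑ i ∈ range p, f.coeff (p + i) * (c : ZMod p) ^ i := by
  rw [eval_eq_sum_range' hf, two_mul, Finset.sum_range_add, Finset.mul_sum]
  congr 1
  refine Finset.sum_congr rfl fun i _ => ?_
  rw [pow_add, ZMod.pow_card]
  ring

/-- `5 kl(c) = 3 k(c) - h(c) + c A₀ qf(50000)` -/
theorem five_kl (h7 : 7 ≤ p) (hN : p = 4 * N + 1) {k : (ZMod p)[X]}
    (hk : Num p N = 3 * qq2 (ZMod p) ^ p * k) (c : ℕ) :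
    5 * kl p N c = 3 * k.eval (c : ZMod p) - (hh p N).eval (c : ZMod p) +
      c * (A0 p N * (qf p 50000 : ZMod p)) := by
  rw [KC5_eval (k_natDegree h7 hN hk) c, KC5_eval (hh_natDegree hN) c, ← kl_eq h7 hN hk c]
  have hlow : ∑ i ∈ range p, (hh p N).coeff i * (c : ZMod p) ^ i = -2 * kl p N c := by
    rw [kl_eq h7 hN hk c, Finset.mul_sum]
    refine Finset.sum_congr rfl fun i hi => ?_
    have := k_coeff_low h7 hN hk i (mem_range.mp hi)
    linear_combination ((c : ZMod p) ^ i) * this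
  have hhigh : 3 * ∑ i ∈ range p, k.coeff (p + i) * (c : ZMod p) ^ i =
      ∑ i ∈ range p, (hh p N).coeff (p + i) * (c : ZMod p) ^ i -
        A0 p N * (qf p 50000 : ZMod p) := by
    rw [Finset.mul_sum]
    have : ∀ i ∈ range p, 3 * (k.coeff (p + i) * (c : ZMod p) ^ i) =
        (hh p N).coeff (p + i) * (c : ZMod p) ^ i -
          (if i = 0 then A0 p N * (qf p 50000 : ZMod p) else 0) := by
      intro i hi
      have h := k_coeff_high h7 hN hk i (mem_range.mp hi)
      by_cases h0 : i = 0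
      · subst h0
        simp only [if_true] at h ⊢
        simp only [pow_zero, mul_one]
        exact h
      · rw [if_neg h0] at h ⊢
        linear_combination ((c : ZMod p) ^ i) * h
    rw [Finset.sum_congr rfl this, Finset.sum_sub_distrib]
    congr 1
    rw [Finset.sum_ite_eq' (range p) 0, if_pos (mem_range.mpr hp.out.pos)]
  rw [hlow]
  linear_combination (-(c : ZMod p)) * hhigh

/-- the main result on the functional, with `J = -qf(2)/2 - (5/4) qf(5)`:
`3 kl(81) - 486 kl(1) - 162 kl(6) = 972 A₀ J`. -/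
theorem kl_main (h7 : 7 ≤ p) (hN : p = 4 * N + 1) :
    3 * kl p N 81 - 486 * kl p N 1 - 162 * kl p N 6 =
      -(A0 p N * (486 * (qf p 2 : ZMod p) + 1215 * (qf p 5 : ZMod p))) := by
  obtain ⟨k, hk⟩ := exists_k h7 hN
  have hp' := hp.out
  have hnd : ∀ a : ℕ, 0 < a → a < 7 → ¬ p ∣ a := by
    intro a h0 ha hd
    have := Nat.le_of_dvd h0 hd
    omega
  have hmul : ∀ {a b : ℕ}, ¬ p ∣ a → ¬ p ∣ b → ¬ p ∣ a * b := by
    intro a b ha hb h
    exact (hp'.dvd_mul.mp h).elim ha hb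
  have n2 := hnd 2 (by norm_num) (by norm_num)
  have n3 := hnd 3 (by norm_num) (by norm_num)
  have n5 := hnd 5 (by norm_num) (by norm_num)
  have q6 : (qf p 6 : ZMod p) = qf p 2 + qf p 3 := by
    rw [show (6 : ℕ) = 2 * 3 by norm_num, qf_mul hp' n2 n3]
  have q9 : (qf p 9 : ZMod p) = 2 * qf p 3 := by
    rw [show (9 : ℕ) = 3 * 3 by norm_num, qf_mul hp' n3 n3]; ring
  have n9 : ¬ p ∣ 9 := by rw [show (9 : ℕ) = 3 * 3 by norm_num]; exact hmul n3 n3
  have q81 : (qf p 81 : ZMod p) = 4 * qf p 3 := by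
    rw [show (81 : ℕ) = 9 * 9 by norm_num, qf_mul hp' n9 n9, q9]; ring
  have n10 : ¬ p ∣ 10 := by rw [show (10 : ℕ) = 2 * 5 by norm_num]; exact hmul n2 n5
  have q10 : (qf p 10 : ZMod p) = qf p 2 + qf p 5 := by
    rw [show (10 : ℕ) = 2 * 5 by norm_num, qf_mul hp' n2 n5]
  have n100 : ¬ p ∣ 100 := by rw [show (100 : ℕ) = 10 * 10 by norm_num]; exact hmul n10 n10
  have q100 : (qf p 100 : ZMod p) = 2 * (qf p 2 + qf p 5) := by
    rw [show (100 : ℕ) = 10 * 10 by norm_num, qf_mul hp' n10 n10, q10]; ring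
  have n10000 : ¬ p ∣ 10000 := by
    rw [show (10000 : ℕ) = 100 * 100 by norm_num]; exact hmul n100 n100
  have q10000 : (qf p 10000 : ZMod p) = 4 * (qf p 2 + qf p 5) := by
    rw [show (10000 : ℕ) = 100 * 100 by norm_num, qf_mul hp' n100 n100, q100]; ring
  have q50000 : (qf p 50000 : ZMod p) = 4 * qf p 2 + 5 * qf p 5 := by
    rw [show (50000 : ℕ) = 10000 * 5 by norm_num, qf_mul hp' n10000 n5, q10000]; ring
  have e81 := five_kl h7 hN hk 81
  have e1 := five_kl h7 hN hk 1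
  have e6 := five_kl h7 hN hk 6
  push_cast at e81 e1 e6
  rw [k_eval_81 h7 hN hk, hh_eval_81 hN, q81, q50000] at e81
  rw [k_eval_one h7 hN hk, hh_eval_one h7 hN, H1_eq hN, q50000] at e1
  rw [k_eval_six h7 hN hk, hh_eval_six hN, q6, q50000] at e6
  have hA : (50000 : ZMod p) ^ N * -((-1) ^ N * ((2 * N).choose N : ZMod p) * (qf p 2 : ZMod p)) =
      -(A0 p N * (qf p 2 : ZMod p)) := by
    unfold A0; ring
  rw [hA] at e1
  have h5 : (5 : ZMod p) ≠ 0 := by
    have : ((5 : ℕ) : ZMod p) ≠ 0 := by rwa [Ne, ZMod.natCast_eq_zero_iff]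
    exact_mod_cast this
  apply mul_left_cancel₀ h5
  linear_combination 3 * e81 - 486 * e1 - 162 * e6

end Pool.Agent.Lib.MP_ff9ca0_nt
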