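import Pool.Agent.Lib.MP_ff9ca0_nt.Basic

/-!
Definitions for the polynomial part (`p = 4N+1`), over `ZMod p`.
-/

namespace Pool.Agent.Lib.MP_ff9ca0_nt

open Finset Polynomial

variable (p N : ℕ) [Fact p.Prime]

/-- `q = X^2 - 52 X - 324` -/
noncomputable def qq2 (A : Type*) [CommRing A] : A[X] := X ^ 2 - C 52 * X - C 324

/-- `P₀ = X^(2N) (1-X)^(2N) (81-X)^(3N)` -/
noncomputable def P0 : (ZMod p)[X] := X ^ (2 * N) * (1 - X) ^ (2 * N) * (C 81 - X) ^ (3 * N)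

/-- `A₀ = 50000^N (-1)^N C(2N,N)` -/
def A0 : ZMod p := 50000 ^ N * ((-1) ^ N * ((2 * N).choose N : ZMod p))

/-- the `j`-th monomial -/
noncomputable def Yj (j : ℕ) : (ZMod p)[X] :=
  X ^ (6 * N + 1 - 2 * j) * (X - C 6) ^ (4 * j + 1) * (X - C 81) ^ (3 * N + 1 + j)

/-- `∑_{j ≠ N, j ≤ 2N} (-1)^N C(2N,j) 50000^(2N-j)/(j-N) Y_j` -/
noncomputable def Hp : (ZMod p)[X] :=
  ∑ j ∈ (range (2 * N + 1)).erase N,
    C ((-1) ^ N * ((2 * N).choose j : ZMod p) * 50000 ^ (2 * N - j) / ((j : ZMod p) - N)) * Yj p N j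

/-- `E_c`: the integer polynomial with `p E_c = X^p - c - (X-c)^p` -/
noncomputable def Ez (c : ℕ) : ℤ[X] :=
  C (((c : ℤ) ^ p - c) / p) -
    ∑ i ∈ Ioo 0 p, C (((p.choose i / p : ℕ) : ℤ) * (-(c : ℤ)) ^ (p - i)) * X ^ i

/-- reduction of `E_c` modulo `p` -/
noncomputable def Ep (c : ℕ) : (ZMod p)[X] := (Ez p c).map (Int.castRingHom (ZMod p))

/-- the numerator polynomial -/
noncomputable def Num : (ZMod p)[X] :=
  Hp p N - C (A0 p N * (qf p 50000 : ZMod p)) * (X ^ p * (X ^ p - C 6) * (X ^ p - C 81)) -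
    C (A0 p N) * (X ^ p * (X ^ p - C 6) * Ep p 81 + 4 * (X ^ p * (X ^ p - C 81) * Ep p 6))

/-- `ell_c = ∑_{0<j<p} (C(p,j)/p) (-1)^j c^(p-j) X^j` -/
noncomputable def ellc (A : Type*) [CommRing A] (c : ℕ) : A[X] :=
  ∑ j ∈ Ioo 0 p, C (((p.choose j / p : ℕ) : A) * (-1) ^ j * (c : A) ^ (p - j)) * X ^ j

/-- the functional -/
noncomputable def kl (c : ℕ) : ZMod p := (P0 p N * ellc p (ZMod p) c).coeff (p - 1)

/-- the part `j > N`, divided by `(X^p-6)(X^p-81)` -/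
noncomputable def hh (p N : ℕ) [Fact p.Prime] : (ZMod p)[X] :=
  ∑ i ∈ Icc 1 N, C ((-1) ^ N * ((2 * N).choose (N + i) : ZMod p) * 50000 ^ (N - i) / (i : ZMod p)) *
    (X ^ (p - 2 * i) * (X - C 6) ^ (4 * i) * (X - C 81) ^ i)

/-- the polynomial `W = (81-X)^(N+b) (6-X)^p (1-X)^b` -/
noncomputable def WW (p N b : ℕ) : (RR p)[X] :=
  (C 81 - X) ^ (N + b) * (C 6 - X) ^ p * (1 - X) ^ b

end Pool.Agent.Lib.MP_ff9ca0_nt
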