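import Pool.Agent.Lib.MP_ff9ca0_nt.Lemn4

/-!
The sign in the congruence for the square of the central binomial coefficient.
-/

namespace Pool.Agent.Lib.MP_ff9ca0_nt

open Finset

variable {p : ℕ} [hpf : Fact p.Prime]

theorem sum_pow_all {k : ℕ} (hk : k ≠ 0) :
    ∑ x : ZMod p, x ^ k = if p - 1 ∣ k then -1 else 0 := by
  classical
  have h := FiniteField.sum_pow_units (ZMod p) k
  rw [ZMod.card] at h
  rw [← h]
  have h2 : ∑ x : ZMod p, x ^ k = ∑ x ∈ univ.filter (fun x : ZMod p => x ≠ 0), x ^ k := by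
    symm
    apply Finset.sum_subset (filter_subset _ _)
    intro x _ hx
    rw [mem_filter] at hx
    have : x = 0 := by
      by_contra h3
      exact hx ⟨mem_univ _, h3⟩
    rw [this, zero_pow hk]
  rw [h2]
  symm
  apply Finset.sum_bij (fun (u : (ZMod p)ˣ) _ => (u : ZMod p))
  · intro u _
    rw [mem_filter]
    exact ⟨mem_univ _, u.ne_zero⟩
  · intro u _ v _ h
    exact Units.ext h
  · intro x hx
    rw [mem_filter] at hx
    exact ⟨Units.mk0 x hx.2, mem_univ _, rfl⟩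
  · intro u _
    rfl

/-- the character sum `∑ χ(x^4 + 1)` modulo `p` -/
theorem char_sum_mod {N : ℕ} (hN : p = 4 * N + 1) (hN1 : 1 ≤ N) :
    ((∑ x : ZMod p, quadraticChar (ZMod p) (x ^ 4 + 1) : ℤ) : ZMod p) =
      -((2 * N).choose N : ZMod p) - 1 := by
  have hchar : ringChar (ZMod p) ≠ 2 := by
    rw [ZMod.ringChar_zmod_n]; omega
  have hcard : Fintype.card (ZMod p) / 2 = 2 * N := by
    rw [ZMod.card]; omega
  push_cast
  have e1 : ∑ x : ZMod p, ((quadraticChar (ZMod p) (x ^ 4 + 1) : ℤ) : ZMod p) =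
      ∑ x : ZMod p, ∑ j ∈ range (2 * N + 1), ((2 * N).choose j : ZMod p) * x ^ (4 * j) := by
    apply Finset.sum_congr rfl
    intro x _
    rw [quadraticChar_eq_pow_of_char_ne_two' hchar, hcard, add_pow]
    apply Finset.sum_congr rfl
    intro j _
    rw [one_pow, mul_one, pow_mul, mul_comm]
  rw [e1, Finset.sum_comm]
  have e2 : ∀ j ∈ range (2 * N + 1), ∑ x : ZMod p, ((2 * N).choose j : ZMod p) * x ^ (4 * j) =
      (if j = N then -((2 * N).choose N : ZMod p) else 0) + (if j = 2 * N then -1 else 0) := by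
    intro j hj
    rw [mem_range] at hj
    rw [← Finset.mul_sum]
    rcases Nat.eq_zero_or_pos j with rfl | hj0
    · rw [if_neg (by omega), if_neg (by omega)]
      simp
    · rw [sum_pow_all (by omega)]
      have hiff : p - 1 ∣ 4 * j ↔ N ∣ j := by
        rw [hN, Nat.add_sub_cancel, Nat.mul_dvd_mul_iff_left (by norm_num)]
      rw [if_congr hiff rfl rfl]
      by_cases h1 : j = N
      · subst h1
        rw [if_pos (dvd_refl _), if_pos rfl, if_neg (by omega)]
        ring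
      · by_cases h2 : j = 2 * N
        · subst h2
          rw [if_pos (Dvd.intro_left 2 rfl), if_neg (by omega), if_pos rfl, Nat.choose_self]
          push_cast
          ring
        · rw [if_neg h1, if_neg h2, if_neg, mul_zero, add_zero]
          rintro ⟨c, rfl⟩
          have hc1 : c ≠ 1 := by rintro rfl; exact h1 (mul_one _)
          have hc2 : c ≠ 2 := by rintro rfl; exact h2 (mul_comm _ _)
          have hc0 : c ≠ 0 := by rintro rfl; omega
          have : 3 ≤ c := by omega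
          have : N * 3 ≤ N * c := Nat.mul_le_mul_left N this
          omega
  rw [Finset.sum_congr rfl e2, Finset.sum_add_distrib, Finset.sum_ite_eq', Finset.sum_ite_eq',
    if_pos (mem_range.mpr (by omega)), if_pos (mem_range.mpr (by omega))]
  ring

theorem char_sum_bound :
    |∑ x : ZMod p, quadraticChar (ZMod p) (x ^ 4 + 1)| ≤ p := by
  refine le_trans (Finset.abs_sum_le_sum_abs _ _) ?_
  have : ∀ x ∈ (univ : Finset (ZMod p)), |quadraticChar (ZMod p) (x ^ 4 + 1)| ≤ 1 := by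
    intro x _
    by_cases h : x ^ 4 + 1 = 0
    · rw [h, quadraticChar_zero]; norm_num
    · rcases quadraticChar_dichotomy h with h | h <;> rw [h] <;> norm_num
  refine le_trans (Finset.sum_le_sum this) ?_
  simp [ZMod.card]

theorem char_sum_form {N : ℕ} (hN : p = 4 * N + 1) (h7 : 7 ≤ p) :
    ∃ t : ℤ, ∑ x : ZMod p, quadraticChar (ZMod p) (x ^ 4 + 1) = 1 + 4 * t := by
  obtain ⟨t, ht⟩ := four_dvd_sum hN h7 (fun y => quadraticChar (ZMod p) (y + 1))
  refine ⟨t, ?_⟩
  rw [← ht]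
  have h1 : (univ : Finset (ZMod p)) = insert 0 (univ.filter (fun x : ZMod p => x ≠ 0)) := by
    ext x
    simp only [mem_univ, mem_insert, mem_filter, true_and, true_iff]
    exact em _
  conv_lhs => rw [h1]
  rw [Finset.sum_insert (by simp)]
  congr 1
  simp

theorem cde_int {N m n : ℕ} (hN : p = 4 * N + 1) (h7 : 7 ≤ p)
    (h : m ^ 2 + n ^ 2 = p) (hm : Odd m) :
    (p : ℤ) ^ 2 ∣ ((2 * N).choose N : ℤ) ^ 2 - (16 ^ N * (4 * (m : ℤ) ^ 2 - 2 * p)) := by
  have hm1 : 1 ≤ m := hm.pos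
  have hpodd : p % 2 = 1 := by omega
  have hn0 : n ≠ 0 := by
    rintro rfl
    have hp := hpf.out
    rw [← h] at hp
    rw [zero_pow two_ne_zero, add_zero] at hp
    exact (Nat.Prime.not_prime_pow le_rfl) hp
  have hn1 : 1 ≤ n := by omega
  have hneven : Even n := by
    by_contra hno
    rw [Nat.not_even_iff_odd] at hno
    have h1 : Odd (m ^ 2) := hm.pow
    have h2 : Odd (n ^ 2) := hno.pow
    have h3 : Even (m ^ 2 + n ^ 2) := h1.add_odd h2
    rw [h] at h3
    obtain ⟨k, hk⟩ := h3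
    omega
  obtain ⟨c, hc, hdiv⟩ := cde_sign hN h7 hm1 hn1 h
  rcases hc with rfl | rfl
  · rwa [one_mul] at hdiv
  exfalso
  obtain ⟨t, ht⟩ := char_sum_form (p := p) hN h7
  have hmod := char_sum_mod (p := p) hN (by omega)
  have hbd := char_sum_bound (p := p)
  rw [ht] at hmod hbd
  set C : ℤ := ((2 * N).choose N : ℤ) with hC
  -- p ∣ 4 e^2 - C^2, e = 1 + 2 t
  have hd1 : (p : ℤ) ∣ 2 * (1 + 2 * t) + C := by
    rw [← ZMod.intCast_zmod_eq_zero_iff_dvd]
    rw [hC]
    push_cast at hmod ⊢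
    linear_combination hmod
  have h16 : (p : ℤ) ∣ 16 ^ N - 1 := by
    rw [← ZMod.intCast_zmod_eq_zero_iff_dvd]
    push_cast
    have h2 : (2 : ZMod p) ≠ 0 := by
      intro h
      have : ((2 : ℕ) : ZMod p) = 0 := by exact_mod_cast h
      rw [ZMod.natCast_eq_zero_iff] at this
      exact absurd (Nat.le_of_dvd (by norm_num) this) (by omega)
    have := ZMod.pow_card_sub_one_eq_one h2
    rw [show p - 1 = 4 * N by omega, pow_mul] at this
    norm_num at this
    rw [this, sub_self]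
  have hd2 : (p : ℤ) ∣ C ^ 2 + 16 ^ N * (4 * (m : ℤ) ^ 2 - 2 * p) := by
    have : (p : ℤ) ∣ (p : ℤ) ^ 2 := Dvd.intro_left ((p : ℤ) ^ 1) (by ring)
    refine (this.trans hdiv).trans ?_
    rw [show C ^ 2 - -1 * (16 ^ N * (4 * (m : ℤ) ^ 2 - 2 * p)) =
      C ^ 2 + 16 ^ N * (4 * (m : ℤ) ^ 2 - 2 * p) by ring]
  have hmn : (m : ℤ) ^ 2 + (n : ℤ) ^ 2 = p := by exact_mod_cast h
  -- p ∣ 4 (e^2 - n^2)
  have hd3 : (p : ℤ) ∣ 4 * ((1 + 2 * t - n) * (1 + 2 * t + n)) := by
    obtain ⟨a, ha⟩ := hd1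
    obtain ⟨b, hb⟩ := h16
    obtain ⟨d, hd⟩ := hd2
    refine ⟨a * (2 * (1 + 2 * t) - C) + d - b * (4 * (m : ℤ) ^ 2 - 2 * p) + 2 - 4, ?_⟩
    linear_combination (2 * (1 + 2 * t) - C) * ha + hd - (4 * (m : ℤ) ^ 2 - 2 * p) * hb -
      4 * hmn
  have hpp : Prime (p : ℤ) := Nat.prime_iff_prime_int.mp hpf.out
  have hd4 : (p : ℤ) ∣ (1 + 2 * t - n) * (1 + 2 * t + n) := by
    rcases hpp.dvd_or_dvd hd3 with h4 | h4
    · exfalso
      have := Int.le_of_dvd (by norm_num) h4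
      omega
    · exact h4
  obtain ⟨n2, hn2⟩ := hneven
  have hnn : n ^ 2 < p := by
    have : 1 ≤ m ^ 2 := Nat.one_le_pow _ _ hm1
    omega
  have hnb : 2 * n + 1 < p := by
    rcases Nat.lt_or_ge n 3 with h5 | h5
    · omega
    · nlinarith
  rw [abs_le] at hbd
  rcases hpp.dvd_or_dvd hd4 with h5 | h5
  · have h6 : (1 + 2 * t - n : ℤ) ≠ 0 := by omega
    have h7' := Int.le_of_dvd (abs_pos.mpr h6) ((dvd_abs _ _).mpr h5)
    rcases abs_cases (1 + 2 * t - n : ℤ) with ⟨h8, _⟩ | ⟨h8, _⟩ <;> rw [h8] at h7' <;> omega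
  · have h6 : (1 + 2 * t + n : ℤ) ≠ 0 := by omega
    have h7' := Int.le_of_dvd (abs_pos.mpr h6) ((dvd_abs _ _).mpr h5)
    rcases abs_cases (1 + 2 * t + n : ℤ) with ⟨h8, _⟩ | ⟨h8, _⟩ <;> rw [h8] at h7' <;> omega

end Pool.Agent.Lib.MP_ff9ca0_nt
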