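import Pool.Agent.Lib.MP_ff9ca0_nt.Basic
import Pool.Agent.Lib.MP_ff9ca0_nt.Lemn5

/-!
The square of the congruence of Chowla, Dwork and Evans.
-/

namespace Pool.Agent.Lib.MP_ff9ca0_nt

open Finset Polynomial

theorem cde {p N m n : ℕ} (hp : p.Prime) (hN : p = 4 * N + 1) (h : m ^ 2 + n ^ 2 = p)
    (hm : Odd m) :
    ((2 * N).choose N : RR p) ^ 2 = 16 ^ N * (4 * (m : RR p) ^ 2 - 2 * p) := by
  have key : (p : ℤ) ^ 2 ∣
      ((2 * N).choose N : ℤ) ^ 2 - (16 ^ N * (4 * (m : ℤ) ^ 2 - 2 * p)) := by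
    rcases Nat.lt_or_ge p 7 with h7 | h7
    · have hp2 := hp.two_le
      have hN1 : N = 1 := by omega
      subst hN1
      have hp5 : p = 5 := by omega
      subst hp5
      have hm3 : m < 3 := by nlinarith
      have hm1 : m = 1 := by
        obtain ⟨k, hk⟩ := hm
        omega
      subst hm1
      norm_num [Nat.choose]
    · haveI : Fact p.Prime := ⟨hp⟩
      exact cde_int hN h7 h hm
  have := int_eq_iff.mpr key
  push_cast at this
  exact this

end Pool.Agent.Lib.MP_ff9ca0_nt
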