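import Pool.Agent.Lib.MP_ff9ca0_nt.Basic
import Pool.Agent.Lib.MP_945b72_nt.P3

/-!
Numerator and denominator of the product of the endomorphisms `m + n i` and `m - n i` of the
Jacobi quartic with `x = 0`.
-/

namespace Pool.Agent.Lib.MP_ff9ca0_nt

open Polynomial Pool.Agent.Lib.MP_945b72_nt

section Gen

variable {K : Type*} [Field K]

theorem ev_neg (P : K[X]) : ev (-PowerSeries.X) P = cp (cjP (RingHom.id K) P) := by
  have : ev (-PowerSeries.X : PowerSeries K) = (cp : K[X] →+* PowerSeries K).comp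
      (cjP (RingHom.id K)) := by
    apply Polynomial.ringHom_ext
    · intro r
      simp only [RingHom.comp_apply, cjP, coe_mapRingHom, map_C, coe_compRingHom_apply, C_comp,
        cp_C, ev_C, RingHom.id_apply]
    · simp only [RingHom.comp_apply, cjP, coe_mapRingHom, map_X, coe_compRingHom_apply, X_comp,
        cp_X, map_neg, ev_X]
  exact congrArg (fun f => f P) this

theorem reflect_cjP {N : ℕ} {P : K[X]} (h : P.natDegree ≤ N) :
    reflect N (cjP (RingHom.id K) P) = C ((-1) ^ N) * cjP (RingHom.id K) (reflect N P) := by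
  ext i
  rw [coeff_C_mul, coeff_reflect, coeff_cjP, coeff_cjP, coeff_reflect]
  by_cases hi : i ≤ N
  · rw [revAt_le hi]
    have : ((-1 : K)) ^ N = (-1) ^ (N - i) * (-1) ^ i := by rw [← pow_add]; congr 1; omega
    rw [this]
    have h2 : ((-1 : K)) ^ i * (-1) ^ i = 1 := by rw [← mul_pow]; norm_num
    simp only [RingHom.id_apply]
    linear_combination (-((-1 : K)) ^ (N - i) * P.coeff (N - i)) * h2
  · rw [revAt_eq_self_of_lt (by omega), coeff_eq_zero_of_natDegree_lt (by omega)]
    simp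

theorem base_i {s : K} (hs : s ^ 2 = -1) :
    Pt 0 s (-PowerSeries.X) (PowerSeries.C s) := by
  have hsC : (PowerSeries.C s : PowerSeries K) ^ 2 = -1 := by
    rw [← map_pow, hs, map_neg, map_one]
  refine ⟨?_, ?_, ?_, ?_⟩
  · simp
  · simp
  · rw [map_neg, PowerSeries.derivative_X]
    linear_combination -hsC
  · simp only [qq, map_zero]
    linear_combination (PowerSeries.X * (1 - 2 * 0 * PowerSeries.X + PowerSeries.X ^ 2)) * hsC

end Gen

theorem numdenI {K : Type*} [Field K] [CharZero K] {s : K} (hs : s ^ 2 = -1) {m n p : ℕ}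
    (hm1 : 1 ≤ m) (hn1 : 1 ≤ n) (hp : m ^ 2 + n ^ 2 = p) (hodd : Odd p) :
    ∃ (num den : K[X]) (u v zu zv : PowerSeries K), num.natDegree = p ∧ num ≠ 0 ∧
      den.natDegree + 1 = p ∧ den ≠ 0 ∧
      Pt 0 ((m : K) + n * s) u zu ∧ Pt 0 ((m : K) - n * s) v zv ∧
      IsRat u ∧ IsRat v ∧ u * v * cp den ^ 2 = cp num ^ 2 := by
  have hp0 : p ≠ 0 := by rintro rfl; simp at hodd
  have hpK : (p : K) ≠ 0 := by exact_mod_cast hp0
  have hmK : (m : K) ≠ 0 := by exact_mod_cast (show m ≠ 0 by omega)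
  have hnK : (n : K) ≠ 0 := by exact_mod_cast (show n ≠ 0 by omega)
  have hs0 : s ≠ 0 := by
    rintro rfl
    have : (1 : K) = 0 := by linear_combination hs
    norm_num at this
  have hnsK : (n : K) * s ≠ 0 := mul_ne_zero hnK hs0
  have hpar : (Odd m ∧ Even n) ∨ (Even m ∧ Odd n) := by
    rw [Nat.odd_iff] at hodd
    rcases Nat.even_or_odd m with h | h <;> rcases Nat.even_or_odd n with h' | h'
    · exfalso
      obtain ⟨i, rfl⟩ := h; obtain ⟨j, rfl⟩ := h'
      have : (i + i) ^ 2 + (j + j) ^ 2 = 2 * (2 * i ^ 2 + 2 * j ^ 2) := by ring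
      omega
    · right; exact ⟨h, h'⟩
    · left; exact ⟨h, h'⟩
    · exfalso
      obtain ⟨i, rfl⟩ := h; obtain ⟨j, rfl⟩ := h'
      have : (2 * i + 1) ^ 2 + (2 * j + 1) ^ 2 =
        2 * (2 * i ^ 2 + 2 * i + 2 * j ^ 2 + 2 * j + 1) := by ring
      omega
  -- the points
  obtain ⟨um, zm, hPm, hrm, hom, hem⟩ := multiples (K := K) one_ne_zero (Pt.one 0) IsRat.X
    ⟨1, IsRat.one, by ring⟩ m hm1
  rw [mul_one] at hPm
  have hPs := base_i hs
  have hrs : IsRat (-PowerSeries.X : PowerSeries K) := IsRat.X.neg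
  have hts : TyO (-PowerSeries.X : PowerSeries K) := by
    refine ⟨PowerSeries.C s, IsRat.C s, ?_⟩
    rw [← map_pow, hs, map_neg, map_one]; ring
  obtain ⟨un, zn, hPn, hrn, hon, hen⟩ := multiples (K := K) hs0 hPs hrs hts n hn1
  -- the polynomials
  obtain ⟨Um, Vm, hMm⟩ := exists_mulPoly (0 : K) m hm1
  obtain ⟨Un, Vn, hMn⟩ := exists_mulPoly (0 : K) n hn1
  have cm : cp Vm * um = cp Um := by
    obtain ⟨u', z', h1, h2⟩ := hMm.pt 1 one_ne_zero _ _ (Pt.one 0)
    rw [mul_one] at h1
    rw [h1.sol.unique hmK hPm.sol, ← cp_eq_ev, ← cp_eq_ev] at h2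
    exact h2
  set A := cjP (RingHom.id K) Un with hA
  set B := cjP (RingHom.id K) Vn with hB
  have cn : cp B * un = cp A := by
    obtain ⟨u', z', h1, h2⟩ := hMn.pt s hs0 _ _ hPs
    rw [h1.sol.unique hnsK hPn.sol, ev_neg, ev_neg] at h2
    exact h2
  have cn0 : B.coeff 0 = 1 := by
    rw [hB, coeff_cjP, hMn.V0]; simp
  have dUns : A.natDegree ≤ n ^ 2 := by rw [hA, natDegree_cjP]; exact hMn.dU
  have dVns : B.natDegree ≤ n ^ 2 := by rw [hB, natDegree_cjP]; exact hMn.dV
  have rU : reflect (n ^ 2) A = C ((-1) ^ (n ^ 2)) * cjP (RingHom.id K) (reflect (n ^ 2) Un) :=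
    reflect_cjP hMn.dU
  have rV : reflect (n ^ 2) B = C ((-1) ^ (n ^ 2)) * cjP (RingHom.id K) (reflect (n ^ 2) Vn) :=
    reflect_cjP hMn.dV
  obtain ⟨m0, m1⟩ := first_coeffs hPm.sol cm hMm.V0
  obtain ⟨n0, n1⟩ := first_coeffs hPn.sol cn cn0
  -- numerator and denominator
  set num := Um * B - A * Vm with hnum
  set den := Vm * B - Um * A with hden
  have drefl : reflect p num = den := by
    have e1 : reflect p (Um * B) = reflect (m ^ 2) Um * reflect (n ^ 2) B := by
      rw [← hp]; exact reflect_mul _ _ hMm.dU dVns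
    have e2 : reflect p (A * Vm) = reflect (n ^ 2) A * reflect (m ^ 2) Vm := by
      rw [← hp, add_comm]; exact reflect_mul _ _ dUns hMm.dV
    rw [hnum, reflect_sub, e1, e2, rU, rV]
    rcases hpar with ⟨ho, he⟩ | ⟨he, ho⟩
    · have a2 : reflect (m ^ 2) Vm = Um := by rw [← hMm.odd ho, reflect_reflect]
      have a3 : ((-1 : K)) ^ (n ^ 2) = 1 := Even.neg_one_pow (he.pow_of_ne_zero two_ne_zero)
      rw [hMm.odd ho, a2, hMn.evenU he, hMn.evenV he, a3, C_1, hden, ← hA, ← hB]; ring
    · have a2 : reflect (n ^ 2) Vn = Un := by rw [← hMn.odd ho, reflect_reflect]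
      have a3 : ((-1 : K)) ^ (n ^ 2) = -1 := Odd.neg_one_pow (ho.pow)
      rw [hMm.evenU he, hMm.evenV he, a2, hMn.odd ho, a3, C_neg, C_1, hden, ← hA, ← hB]; ring
  have den0 : den.coeff 0 = 1 := by
    rw [hden, coeff_sub, mul_coeff_zero, mul_coeff_zero, hMm.V0, cn0, m0]; ring
  have num0 : num.coeff 0 = 0 := by
    rw [hnum, coeff_sub, mul_coeff_zero, mul_coeff_zero, m0, n0]; ring
  have num1 : num.coeff 1 = p := by
    rw [hnum, coeff_sub, mul_coeff_one, mul_coeff_one, m0, n0, hMm.V0, cn0, m1, n1, ← hp]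
    push_cast
    linear_combination (-(n : K) ^ 2) * hs
  have dnum : num.natDegree ≤ p := by
    have a1 : (Um * B).natDegree ≤ p := by
      refine le_trans natDegree_mul_le ?_
      have := hMm.dU; omega
    have a2 : (A * Vm).natDegree ≤ p := by
      refine le_trans natDegree_mul_le ?_
      have := hMm.dV; omega
    exact le_trans (natDegree_sub_le _ _) (max_le a1 a2)
  have hc1 : ∀ i ≤ p, num.coeff (p - i) = den.coeff i := by
    intro i hi
    rw [← drefl, coeff_reflect, revAt_le hi]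
  have nump : num.coeff p ≠ 0 := by
    intro h0
    have := hc1 0 (by omega)
    rw [Nat.sub_zero, h0, den0] at this
    norm_num at this
  have numne : num ≠ 0 := by
    intro h; rw [h] at nump; simp at nump
  have denne : den ≠ 0 := by
    intro h; rw [h] at den0; simp at den0
  have dden : den.natDegree ≤ p := by
    rw [← drefl]
    exact le_trans natDegree_reflect_le (max_le le_rfl dnum)
  have hdnum : num.natDegree = p := le_antisymm dnum (le_natDegree_of_ne_zero nump)
  have denp : den.coeff p = 0 := by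
    have := hc1 p le_rfl
    rw [Nat.sub_self, num0] at this
    exact this.symm
  have denp1 : den.coeff (p - 1) ≠ 0 := by
    intro h0
    have := hc1 (p - 1) (by omega)
    rw [show p - (p - 1) = 1 by omega, num1, h0] at this
    exact hpK this
  have hdden : den.natDegree + 1 = p := by
    have h1 : p - 1 ≤ den.natDegree := le_natDegree_of_ne_zero denp1
    have h2 : den.natDegree ≠ p := by
      intro h
      rw [← h, coeff_natDegree, leadingCoeff_eq_zero] at denp
      exact denne denp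
    omega
  -- the sum and the difference
  obtain ⟨J, hJ⟩ := unit_of_zero (D := 1 - um * un) (by simp [hPm.u0])
  have hadd := hPm.add hmK hnsK hPn hJ
  have hsub := hPm.add hmK (neg_ne_zero.mpr hnsK) hPn.neg hJ
  have hmem := (IsRat.add_pt hmK hnsK hPm hPn hrm hrn hJ).2
  have hmem' := (IsRat.add_pt hmK (neg_ne_zero.mpr hnsK) hPm hPn.neg hrm hrn hJ).2
  refine ⟨num, den, _, _, _, _, hdnum, numne, hdden, denne, hadd,
    by rw [← sub_eq_add_neg] at hsub; exact hsub, hmem, hmem', ?_⟩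
  rw [add_mul_sub _ _ _ _ _ _ _ hPm.ez hPn.ez hJ]
  have e1 : cp num = cp Vm * cp B * (um - un) := by
    rw [hnum, map_sub, map_mul, map_mul, ← cm, ← cn]; ring
  have e2 : cp den = cp Vm * cp B * (1 - um * un) := by
    rw [hden, map_sub, map_mul, map_mul, ← cm, ← cn]; ring
  rw [e1, e2]
  have hJ2 : ((1 - um * un) * J) ^ 2 = 1 := by rw [hJ]; ring
  linear_combination (cp Vm * cp B) ^ 2 * (um - un) ^ 2 * hJ2

end Pool.Agent.Lib.MP_ff9ca0_nt
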