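import Pool.Agent.Lib.MP_ff9ca0_nt.Lemn1
import Pool.Agent.Lib.MP_945b72_nt.K5

/-!
Reduced form of the endomorphism `m + n i`.
-/

namespace Pool.Agent.Lib.MP_ff9ca0_nt

open Polynomial Pool.Agent.Lib.MP_945b72_nt

theorem Sol_conj0 {K : Type*} [Field K] {σ : K →+* K} {a : K} {u : PowerSeries K}
    (h : Sol 0 a u) : Sol 0 (σ a) (-(cj σ u)) := by
  refine ⟨?_, ?_, ?_⟩
  · rw [← PowerSeries.coeff_zero_eq_constantCoeff_apply, map_neg, coeff_cj,
      PowerSeries.coeff_zero_eq_constantCoeff_apply, h.u0]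
    simp
  · rw [map_neg, coeff_cj, h.u1, map_pow]; ring
  · have e := congrArg (cj σ) h.eu
    simp only [qq, map_mul, map_pow, map_add, map_sub, map_one, map_ofNat, cj_C, cj_X, cj_deriv,
      map_zero] at e
    simp only [qq, map_neg, map_pow, map_zero]
    linear_combination -e

theorem klevelI {K : Type*} [Field K] [CharZero K] {s : K} (hs : s ^ 2 = -1) (σ : K →+* K)
    (hσ : σ s = -s) {m n p : ℕ}
    (hm1 : 1 ≤ m) (hn1 : 1 ≤ n) (hp : m ^ 2 + n ^ 2 = p) (hodd : Odd p) :
    ∃ (U V : K[X]) (u z : PowerSeries K) (c : K), U.coeff 0 = 0 ∧ V.coeff 0 = 1 ∧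
      U.natDegree ≤ p ∧ V.natDegree ≤ U.natDegree ∧ c ^ 2 = 1 ∧ reflect U.natDegree U = C c * V ∧
      Pt 0 ((m : K) + n * s) u z ∧ cp V * u = cp U := by
  obtain ⟨num, den, u, v, zu, zv, hdnum, numne, hdden, denne, hPu, hPv, hru, hrv, hprod⟩ :=
    numdenI hs hm1 hn1 hp hodd
  have hp0 : p ≠ 0 := by rintro rfl; simp at hodd
  have hpK : (p : K) ≠ 0 := by exact_mod_cast hp0
  have hnorm : ((m : K) + n * s) * ((m : K) - n * s) = p := by
    rw [← hp]; push_cast; linear_combination (-(n : K) ^ 2) * hs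
  have ha : (m : K) + n * s ≠ 0 := by
    intro h0; rw [h0, zero_mul] at hnorm; exact hpK hnorm.symm
  have hb : (m : K) - n * s ≠ 0 := by
    intro h0; rw [h0, mul_zero] at hnorm; exact hpK hnorm.symm
  obtain ⟨U, V, hUV, hV0, h⟩ := hru.reduced
  obtain ⟨u0, u1⟩ := first_coeffs hPu.sol h hV0
  have hUne : U ≠ 0 := by
    rintro rfl
    rw [coeff_zero] at u1
    exact ha ((pow_eq_zero_iff two_ne_zero).mp u1.symm)
  have hVne : V ≠ 0 := by rintro rfl; simp at hV0
  -- the conjugate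
  have hv : v = -(cj σ u) := by
    have h1 := Sol_conj0 (σ := σ) hPu.sol
    have h2 : σ ((m : K) + n * s) = (m : K) - n * s := by
      rw [map_add, map_mul, map_natCast, map_natCast, hσ]; ring
    rw [h2] at h1
    exact hPv.sol.unique hb h1
  set U' : K[X] := - cjP σ U with hU'
  set V' : K[X] := cjP σ V with hV'
  have h' : cp V' * v = cp U' := by
    rw [hv, hU', hV', map_neg, cp_cjP, cp_cjP, ← h, map_mul]; ring
  have hV0' : V'.coeff 0 = 1 := by rw [hV', coeff_cjP, hV0]; simp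
  have dU' : U'.natDegree = U.natDegree := by rw [hU', natDegree_neg, natDegree_cjP]
  have dV' : V'.natDegree = V.natDegree := by rw [hV', natDegree_cjP]
  have hUV' : IsCoprime U' V' := by
    rw [hU', hV']
    exact (hUV.map (cjP σ)).neg_left
  have hUne' : U' ≠ 0 := by
    rw [hU', neg_ne_zero]
    intro h0
    rw [map_eq_zero_iff _ (RingHom.injective_iff_ker_eq_bot _ |>.mpr ?_)] at h0
    · exact hUne h0
    · rw [RingHom.ker_eq_bot_iff_eq_zero]
      intro P hP
      by_contra hPne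
      have hd : (cjP σ P).coeff P.natDegree ≠ 0 := by
        rw [coeff_cjP]
        apply mul_ne_zero (pow_ne_zero _ (by norm_num))
        rw [_root_.map_ne_zero, coeff_natDegree, Ne, leadingCoeff_eq_zero]
        exact hPne
      rw [hP] at hd
      simp at hd
  have hVne' : V' ≠ 0 := by
    intro h0; rw [h0] at hV0'; simp at hV0'
  -- the polynomial identity
  have hpoly : U * U' * den ^ 2 = num ^ 2 * (V * V') := by
    apply cp_inj
    simp only [map_mul, map_pow]
    rw [← hprod, ← h, ← h']; ring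
  have hdeg : U.natDegree = V.natDegree + 1 := by
    have e := congrArg natDegree hpoly
    rw [natDegree_mul (mul_ne_zero hUne hUne') (pow_ne_zero 2 denne),
      natDegree_mul hUne hUne', natDegree_mul (pow_ne_zero 2 numne) (mul_ne_zero hVne hVne'),
      natDegree_mul hVne hVne', natDegree_pow, natDegree_pow, dU', dV', hdnum] at e
    omega
  have hcop1 : IsCoprime U V' :=
    coprime_aux ha hb hPu.sol hPv.sol hUV h hV0 hUV' h' hV0' rfl hUne (by omega) (by omega)
      (by omega)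
  have hcop2 : IsCoprime U' V :=
    coprime_aux hb ha hPv.sol hPu.sol hUV' h' hV0' hUV h hV0 dU' hUne' (by omega) (by omega)
      (by omega)
  have hle : U.natDegree ≤ p := by
    have h1 : IsCoprime (U * U') (V * V') :=
      IsCoprime.mul_left (IsCoprime.mul_right hUV hcop1) (IsCoprime.mul_right hcop2 hUV')
    have h2 : U * U' ∣ num ^ 2 := by
      apply h1.dvd_of_dvd_mul_right
      rw [← hpoly]; exact dvd_mul_right _ _
    have h3 := natDegree_le_of_dvd h2 (pow_ne_zero 2 numne)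
    rw [natDegree_mul hUne hUne', natDegree_pow, dU', hdnum] at h3
    omega
  -- reciprocity
  set k := U.natDegree with hk
  have hc0 : U.coeff k ≠ 0 := by
    rw [hk, coeff_natDegree, Ne, leadingCoeff_eq_zero]; exact hUne
  set c := U.coeff k with hc
  have hP := hPu.sol.pode h
  have hPr := (hP.reflect (k := k) le_rfl (by omega)).smul c⁻¹
  have e0 : (C c⁻¹ * reflect k V).coeff 0 = 0 := by
    rw [coeff_C_mul, coeff_reflect, revAt_le (by omega), Nat.sub_zero,
      coeff_eq_zero_of_natDegree_lt (by omega), mul_zero]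
  have e1 : (C c⁻¹ * reflect k V).coeff 1 ≠ 0 := by
    rw [coeff_C_mul, coeff_reflect, revAt_le (by omega), show k - 1 = V.natDegree by omega,
      coeff_natDegree]
    exact mul_ne_zero (inv_ne_zero hc0) (by rw [Ne, leadingCoeff_eq_zero]; exact hVne)
  have e2 : (C c⁻¹ * reflect k U).coeff 0 = 1 := by
    rw [coeff_C_mul, coeff_reflect, revAt_le (by omega), Nat.sub_zero, ← hc, inv_mul_cancel₀ hc0]
  obtain ⟨I, hI⟩ := unit_of_zero (D := cp (C c⁻¹ * reflect k U)) (by rw [constantCoeff_cp, e2])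
  have hw : cp (C c⁻¹ * reflect k U) * (I * cp (C c⁻¹ * reflect k V)) =
      cp (C c⁻¹ * reflect k V) := by rw [← mul_assoc, hI, one_mul]
  have hwu := (hPr.sol e0 e1 e2 hw).unique ha hPu.sol
  rw [hwu] at hw
  have hne : C c⁻¹ * reflect k V ≠ 0 := by
    intro h0; rw [h0] at e1; simp at e1
  have hdr : (C c⁻¹ * reflect k V).natDegree ≤ U.natDegree := by
    refine le_trans (natDegree_C_mul_le _ _) (le_trans natDegree_reflect_le ?_)
    exact max_le le_rfl (by omega)
  obtain ⟨r1, r2⟩ := reduced_unique hUV hV0 h hdr hne e2 hw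
  have r1' : reflect k V = C c * U := by
    rw [← r1, ← mul_assoc, ← C_mul, mul_inv_cancel₀ hc0, C_1, one_mul]
  have r2' : reflect k U = C c * V := by
    rw [← r2, ← mul_assoc, ← C_mul, mul_inv_cancel₀ hc0, C_1, one_mul]
  have hcc : c ^ 2 = 1 := by
    have e3 : U = C (c * c) * U := by
      conv_lhs => rw [← reflect_reflect (N := k) (p := U), r2', reflect_C_mul, r1']
      rw [C_mul]; ring
    have e4 := congrArg (fun P => P.coeff k) e3
    simp only [coeff_C_mul] at e4
    rw [← hc] at e4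
    apply mul_right_cancel₀ hc0
    linear_combination -e4
  exact ⟨U, V, u, zu, c, u0, hV0, hle, by omega, hcc, r2', hPu, h⟩

instance factQ1 : Fact (∀ r : ℚ, r ^ 2 ≠ (-1 : ℚ) + 0 * r) :=
  ⟨fun r h => by nlinarith [sq_nonneg r]⟩

/-- the field `ℚ(i)` -/
abbrev Ki : Type := QuadraticAlgebra ℚ (-1) 0

/-- the square root of `-1` -/
def si : Ki := ⟨0, 1⟩

theorem si_sq : si ^ 2 = -1 := by
  rw [pow_two]
  ext
  · rw [QuadraticAlgebra.re_mul, QuadraticAlgebra.re_neg, QuadraticAlgebra.re_one]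
    simp [si]
  · rw [QuadraticAlgebra.im_mul, QuadraticAlgebra.im_neg, QuadraticAlgebra.im_one]
    simp [si]

theorem klevelI_field {L : Type*} [Field L] [CharZero L] {s : L} (hs : s ^ 2 = -1) {m n p : ℕ}
    (hm1 : 1 ≤ m) (hn1 : 1 ≤ n) (hp : m ^ 2 + n ^ 2 = p) (hodd : Odd p) :
    ∃ (U V : L[X]) (u z : PowerSeries L) (c : L), U.coeff 0 = 0 ∧ V.coeff 0 = 1 ∧
      U.natDegree ≤ p ∧ V.natDegree ≤ U.natDegree ∧ c ^ 2 = 1 ∧ reflect U.natDegree U = C c * V ∧
      Pt 0 ((m : L) + n * s) u z ∧ cp V * u = cp U := by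
  haveI : CharZero Ki := charZero_of_injective_algebraMap
    (QuadraticAlgebra.algebraMap_injective (R := ℚ) (a := -1) (b := 0))
  have h1 : (-si) * (-si) = (-1 : ℚ) • (1 : Ki) + (0 : ℚ) • (-si) := by
    rw [neg_mul_neg, ← pow_two, si_sq, zero_smul, add_zero, neg_smul, one_smul]
  have h2 : s * s = (-1 : ℚ) • (1 : L) + (0 : ℚ) • s := by
    rw [← pow_two, hs, zero_smul, add_zero, Algebra.smul_def, mul_one]
    simp
  let σ : Ki →ₐ[ℚ] Ki := QuadraticAlgebra.lift ⟨-si, h1⟩
  let φ : Ki →ₐ[ℚ] L := QuadraticAlgebra.lift ⟨s, h2⟩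
  have hσ : (σ : Ki →+* Ki) si = - si := by
    have : σ si = (0 : ℚ) • (1 : Ki) + (1 : ℚ) • (-si) := rfl
    rw [zero_smul, one_smul, zero_add] at this
    exact this
  have hφ : (φ : Ki →+* L) si = s := by
    have : φ si = (0 : ℚ) • (1 : L) + (1 : ℚ) • s := rfl
    rw [zero_smul, one_smul, zero_add] at this
    exact this
  obtain ⟨U, V, u, z, c, hU0, hV0, hUp, hVU, hcc, hrefl, hPt, h⟩ :=
    klevelI si_sq (σ : Ki →+* Ki) hσ hm1 hn1 hp hodd
  refine ⟨U.map (φ : Ki →+* L), V.map (φ : Ki →+* L), PowerSeries.map (φ : Ki →+* L) u,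
    PowerSeries.map (φ : Ki →+* L) z, (φ : Ki →+* L) c, ?_, ?_, ?_, ?_, ?_, ?_, ?_, ?_⟩
  · rw [coeff_map, hU0, map_zero]
  · rw [coeff_map, hV0, map_one]
  · rw [natDegree_map]; exact hUp
  · rw [natDegree_map, natDegree_map]; exact hVU
  · rw [← map_pow, hcc, map_one]
  · rw [natDegree_map, reflect_map, hrefl, Polynomial.map_mul, map_C]
  · have := hPt.map (φ : Ki →+* L)
    rwa [map_zero, map_add, map_natCast, map_mul, map_natCast, hφ] at this
  · rw [cp_map, cp_map, ← map_mul, h]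

end Pool.Agent.Lib.MP_ff9ca0_nt
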