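import Pool.Agent.Lib.MP_ff9ca0_nt.Lemn2

/-!
The congruence for `P_n(0)^2` modulo `p^2`, up to a sign.
-/

namespace Pool.Agent.Lib.MP_ff9ca0_nt

open Polynomial Finset Pool.Agent.Lib.MP_945b72_nt

variable {p : ℕ} [hpf : Fact p.Prime]

theorem henselI {m n : ℕ} (hm : 1 ≤ m) (hn : 1 ≤ n) (h : m ^ 2 + n ^ 2 = p) (h5 : 5 ≤ p) :
    ∃ s : ℤ_[p], s ^ 2 = -1 ∧ (p : ℤ_[p]) ∣ m + n * s := by
  have hnp : n < p := by nlinarith
  have hmp : m < p := by nlinarith
  obtain ⟨t, ht⟩ := isUnit_iff_exists_inv.mp (MP_945b72_nt.isUnit_nat (p := p) (by omega) hnp)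
  have hunit2 : IsUnit (2 : ℤ_[p]) := by
    have := MP_945b72_nt.isUnit_nat (p := p) (n := 2) (by omega) (by omega)
    exact_mod_cast this
  have hum : IsUnit (m : ℤ_[p]) := MP_945b72_nt.isUnit_nat (by omega) hmp
  have hut : IsUnit t := IsUnit.of_mul_eq_one (n : ℤ_[p]) (by rw [mul_comm]; exact ht)
  set F : ℤ_[p][X] := X ^ 2 + C 1 with hF
  set a : ℤ_[p] := -(m * t) with ha
  have hpm : (m : ℤ_[p]) ^ 2 + (n : ℤ_[p]) ^ 2 = p := by exact_mod_cast congrArg (Nat.cast) h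
  have e1 : F.aeval a = (p : ℤ_[p]) * t ^ 2 := by
    rw [hF, ha]
    simp only [map_add, map_pow, aeval_X, aeval_C, Algebra.algebraMap_self, RingHom.id_apply]
    rw [← hpm]
    linear_combination (-(n * t + 1)) * ht
  have e2 : F.derivative.aeval a = 2 * a := by
    rw [hF, derivative_add, derivative_C, add_zero, pow_two, derivative_mul, derivative_X]
    simp only [one_mul, mul_one, map_add, aeval_X]
    ring
  have n2 : ‖F.derivative.aeval a‖ = 1 := by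
    rw [e2, ← PadicInt.isUnit_iff, ha]
    exact hunit2.mul (hum.mul hut).neg
  have n1 : ‖F.aeval a‖ < ‖F.derivative.aeval a‖ ^ 2 := by
    rw [n2, one_pow, PadicInt.norm_lt_one_iff_dvd, e1]
    exact dvd_mul_right _ _
  obtain ⟨s, hs, hsa, -⟩ := hensels_lemma n1
  refine ⟨s, ?_, ?_⟩
  · rw [hF] at hs
    simp only [map_add, map_pow, aeval_X, aeval_C, Algebra.algebraMap_self, RingHom.id_apply] at hs
    linear_combination hs
  · rw [n2, PadicInt.norm_lt_one_iff_dvd] at hsa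
    have : (m : ℤ_[p]) + n * s = n * (s - a) := by
      rw [ha]; linear_combination -(m : ℤ_[p]) * ht
    rw [this]
    exact hsa.mul_left _

/-- version of `top_coeff` with a sign -/
theorem top_coeffI {u : PowerSeries ℤ_[p]} {U V : ℚ_[p][X]} {k : ℕ} {c : ℚ_[p]} (hc : c ^ 2 = 1)
    (hlow : ∀ i < p, (p : ℤ_[p]) ∣ PowerSeries.coeff i u) (hk : k ≤ p)
    (hU : U.natDegree ≤ k) (hV : V.natDegree ≤ k)
    (hUV : reflect k U = C c * V) (hV0 : V.coeff 0 = 1)
    (h : cp V * PowerSeries.map (algebraMap ℤ_[p] ℚ_[p]) u = cp U) :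
    ∃ c' : ℤ, (c' = 1 ∨ c' = -1) ∧ (p : ℤ_[p]) ^ 2 ∣ PowerSeries.coeff p u - c' := by
  have hcc : (c - 1) * (c + 1) = 0 := by linear_combination hc
  rcases mul_eq_zero.mp hcc with h1 | h1
  · have hc1 : c = 1 := by linear_combination h1
    rw [hc1, C_1, one_mul] at hUV
    refine ⟨1, Or.inl rfl, ?_⟩
    have := top_coeff hlow hk hU hV hUV hV0 h
    push_cast
    exact this
  · have hc1 : c = -1 := by linear_combination h1
    rw [hc1, C_neg, C_1] at hUV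
    refine ⟨-1, Or.inr rfl, ?_⟩
    have hUV' : reflect k (-U) = V := by
      rw [reflect_neg, hUV]; ring
    have := top_coeff (u := -u) (U := -U) (V := V) (k := k) (fun i hi => by
      rw [map_neg]; exact (hlow i hi).neg_right) hk (by rw [natDegree_neg]; exact hU) hV hUV' hV0
      (by rw [map_neg, map_neg, ← h]; ring)
    rw [map_neg] at this
    push_cast
    have e : PowerSeries.coeff p u - -1 = -(-PowerSeries.coeff p u - 1) := by ring
    rw [e]
    exact this.neg_right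

theorem main_congI {m n N : ℕ} (hm : 1 ≤ m) (hn : 1 ≤ n) (h : m ^ 2 + n ^ 2 = p) (h7 : 7 ≤ p)
    (hN : p = 2 * N + 1) {s z0 : ℤ_[p]} (hs : s ^ 2 = -1) (hdiv : (p : ℤ_[p]) ∣ m + n * s)
    (hz0 : 1 + 2 * z0 = 0) :
    ∃ c : ℤ, (c = 1 ∨ c = -1) ∧
    ‖(yy (z0 : ℚ_[p]) N (N + 1)) ^ 2 - c * ((m : ℚ_[p]) - n * s) ^ 2‖ ≤ ‖(p : ℚ_[p])‖ ^ 2 := by
  have hodd : Odd p := ⟨N, hN⟩
  have hnp : n < p := by nlinarith
  have hmp : m < p := by nlinarith
  have hs0 : s ≠ 0 := by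
    rintro rfl
    have : (1 : ℤ_[p]) = 0 := by linear_combination hs
    norm_num at this
  have hmZ : (m : ℤ_[p]) ≠ 0 := by exact_mod_cast (show m ≠ 0 by omega)
  have hnZ : (n : ℤ_[p]) ≠ 0 := by exact_mod_cast (show n ≠ 0 by omega)
  -- the base point
  have hbase : Pt (0 : ℤ_[p]) s (-PowerSeries.X) (PowerSeries.C s) := by
    have hsC : (PowerSeries.C s : PowerSeries ℤ_[p]) ^ 2 = -1 := by
      rw [← map_pow, hs, map_neg, map_one]
    refine ⟨?_, ?_, ?_, ?_⟩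
    · simp
    · simp
    · rw [map_neg, PowerSeries.derivative_X]
      linear_combination -hsC
    · simp only [qq, map_zero]
      linear_combination (PowerSeries.X * (1 - 2 * 0 * PowerSeries.X + PowerSeries.X ^ 2)) * hsC
  -- the series over `ℤ_p`
  obtain ⟨Um, Vm, hMm⟩ := exists_mulPoly (0 : ℤ_[p]) m hm
  obtain ⟨Un, Vn, hMn⟩ := exists_mulPoly (0 : ℤ_[p]) n hn
  obtain ⟨um, zm, hPm, -⟩ := hMm.pt 1 one_ne_zero _ _ (Pt.one 0)
  obtain ⟨un, zn, hPn, -⟩ := hMn.pt s hs0 _ _ hbase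
  rw [mul_one] at hPm
  obtain ⟨J, hJ⟩ := unit_of_zero (D := 1 - um * un) (by simp [hPm.u0])
  have hadd := hPm.add hmZ (mul_ne_zero hnZ hs0) hPn hJ
  obtain ⟨u, hu⟩ : ∃ u, u = addA (PowerSeries.C (0 : ℤ_[p])) (PowerSeries.X *
    qq (PowerSeries.C (0 : ℤ_[p])) PowerSeries.X) um zm un zn * J ^ 2 := ⟨_, rfl⟩
  obtain ⟨z, hz⟩ : ∃ z, z = addZ (PowerSeries.C (0 : ℤ_[p])) um zm un zn * J ^ 3 := ⟨_, rfl⟩
  rw [← hu, ← hz] at hadd
  -- the series over `ℚ_p`
  have hsQ : (s : ℚ_[p]) ^ 2 = -1 := by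
    have := congrArg (fun y : ℤ_[p] => (y : ℚ_[p])) hs
    push_cast at this
    exact this
  obtain ⟨U, V, ul, zl, c0, hU0, hV0, hUp, hVU, hcc, hrefl, hPt, hUV⟩ :=
    klevelI_field hsQ hm hn h hodd
  have hmap := hadd.map (algebraMap ℤ_[p] ℚ_[p])
  have e4 : algebraMap ℤ_[p] ℚ_[p] (m + n * s) = (m : ℚ_[p]) + n * (s : ℚ_[p]) := by
    rw [PadicInt.algebraMap_apply]; push_cast; rfl
  rw [map_zero, e4] at hmap
  have hpQ : (p : ℚ_[p]) ≠ 0 := by exact_mod_cast hpf.out.ne_zero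
  have hnorm : ((m : ℚ_[p]) + n * s) * ((m : ℚ_[p]) - n * s) = p := by
    have hc : (m : ℚ_[p]) ^ 2 + (n : ℚ_[p]) ^ 2 = (p : ℚ_[p]) := by
      exact_mod_cast congrArg (Nat.cast (R := ℚ_[p])) h
    linear_combination hc + (-(n : ℚ_[p]) ^ 2) * hsQ
  have ha : (m : ℚ_[p]) + n * (s : ℚ_[p]) ≠ 0 := by
    intro h0; rw [h0, zero_mul] at hnorm; exact hpQ hnorm.symm
  have huniq := hPt.sol.unique ha hmap.sol
  rw [huniq] at hUV
  have hlow := low_coeffs hadd hdiv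
  obtain ⟨c', hc', htop⟩ := top_coeffI hcc hlow hUp le_rfl hVU hrefl hV0 hUV
  have hpow := pow_coeff hlow hadd.u0
  refine ⟨c', hc', ?_⟩
  -- the logarithm
  have hz0Q : 1 + 2 * (z0 : ℚ_[p]) = 0 := by
    have := congrArg (fun y : ℤ_[p] => (y : ℚ_[p])) hz0
    push_cast at this
    exact this
  have hsol := hmap.sol
  rw [← hz0Q] at hsol
  have hlog := congrArg (PowerSeries.coeff p) (lam_subst ha hsol)
  rw [coeff_subst_sum hsol.u0, PowerSeries.coeff_C_mul] at hlog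
  set q : ℝ := ‖(p : ℚ_[p])‖ with hq
  have hq0 : 0 < q := norm_pos_iff.mpr hpQ
  have hq1 : q ≤ 1 := by
    have := Padic.norm_int_le_one (p := p) (p : ℤ)
    rw [hq]; exact_mod_cast this
  set P := yy (z0 : ℚ_[p]) N (N + 1) with hP
  -- bounds for the coefficients of the logarithm
  have hr : ∀ a, PowerSeries.coeff a (LL (z0 : ℚ_[p])) = yy (z0 : ℚ_[p]) a (a + 1) / (2 * a + 1) := by
    intro a; rw [LL, PowerSeries.coeff_mk]
  have hr1 : ∀ a, a < p → a ≠ N → ‖PowerSeries.coeff a (LL (z0 : ℚ_[p]))‖ ≤ 1 := by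
    intro a ha1 ha2
    rw [hr, norm_div]
    have hnd : ¬ p ∣ 2 * a + 1 := by
      rintro ⟨c, hc⟩
      rcases c with _ | _ | c
      · omega
      · omega
      · have : 2 * p ≤ p * (c + 1 + 1) := by nlinarith
        omega
    have h1 : ‖(2 * (a : ℚ_[p]) + 1)‖ = 1 := by
      have h2 : ‖((2 * a + 1 : ℕ) : ℚ_[p])‖ = 1 := by
        rw [Padic.norm_natCast_eq_one_iff]
        exact (Nat.Prime.coprime_iff_not_dvd hpf.out).mpr hnd
      push_cast at h2
      exact h2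
    rw [h1, div_one]
    exact norm_yy_le a (a + 1)
  have hrN : PowerSeries.coeff N (LL (z0 : ℚ_[p])) = P / p := by
    have hc : 2 * (N : ℚ_[p]) + 1 = (p : ℚ_[p]) := by
      exact_mod_cast congrArg (Nat.cast (R := ℚ_[p])) hN.symm
    rw [hr, hP, hc]
  have hP1 : ‖P‖ ≤ 1 := norm_yy_le N (N + 1)
  have hr2 : ∀ a, a < p → ‖PowerSeries.coeff a (LL (z0 : ℚ_[p]))‖ ≤ q⁻¹ := by
    intro a ha1
    have hqi : 1 ≤ q⁻¹ := (one_le_inv₀ hq0).mpr hq1
    by_cases haN : a = N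
    · rw [haN, hrN, norm_div, ← hq, div_eq_mul_inv]
      exact mul_le_of_le_one_left (by positivity) hP1
    · exact le_trans (hr1 a ha1 haN) hqi
  have hlamc : ∀ d, PowerSeries.coeff (d + 1) (lam (z0 : ℚ_[p])) =
      ∑ ab ∈ antidiagonal d, PowerSeries.coeff ab.1 (LL (z0 : ℚ_[p])) *
        PowerSeries.coeff ab.2 (LL (z0 : ℚ_[p])) := by
    intro d
    rw [lam, PowerSeries.coeff_succ_X_mul, pow_two, PowerSeries.coeff_mul]
  have hlam1 : ∀ d, 1 ≤ d → d ≤ N → ‖PowerSeries.coeff d (lam (z0 : ℚ_[p]))‖ ≤ 1 := by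
    intro d h1 h2
    obtain ⟨e, rfl⟩ : ∃ e, d = e + 1 := ⟨d - 1, by omega⟩
    rw [hlamc]
    apply IsUltrametricDist.norm_sum_le_of_forall_le_of_nonneg (by norm_num)
    intro ab hab
    rw [HasAntidiagonal.mem_antidiagonal] at hab
    rw [norm_mul]
    exact mul_le_one₀ (hr1 _ (by omega) (by omega)) (norm_nonneg _) (hr1 _ (by omega) (by omega))
  have hlam2 : ∀ d, 1 ≤ d → d ≤ p → ‖PowerSeries.coeff d (lam (z0 : ℚ_[p]))‖ ≤ q⁻¹ * q⁻¹ := by
    intro d h1 h2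
    obtain ⟨e, rfl⟩ : ∃ e, d = e + 1 := ⟨d - 1, by omega⟩
    rw [hlamc]
    apply IsUltrametricDist.norm_sum_le_of_forall_le_of_nonneg (by positivity)
    intro ab hab
    rw [HasAntidiagonal.mem_antidiagonal] at hab
    rw [norm_mul]
    exact mul_le_mul (hr2 _ (by omega)) (hr2 _ (by omega)) (norm_nonneg _) (by positivity)
  have hlamp : ∃ R : ℚ_[p], ‖R‖ ≤ 1 ∧ PowerSeries.coeff p (lam (z0 : ℚ_[p])) = (P / p) ^ 2 + R := by
    have hmem : (N, N) ∈ antidiagonal (2 * N) := by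
      rw [HasAntidiagonal.mem_antidiagonal]; ring
    refine ⟨∑ ab ∈ (antidiagonal (2 * N)).erase (N, N),
      PowerSeries.coeff ab.1 (LL (z0 : ℚ_[p])) * PowerSeries.coeff ab.2 (LL (z0 : ℚ_[p])), ?_, ?_⟩
    · apply IsUltrametricDist.norm_sum_le_of_forall_le_of_nonneg (by norm_num)
      intro ab hab
      rw [mem_erase, HasAntidiagonal.mem_antidiagonal] at hab
      have hne : ab.1 ≠ N := by
        intro h0
        apply hab.1
        ext
        · exact h0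
        · simp only; omega
      rw [norm_mul]
      exact mul_le_one₀ (hr1 _ (by omega) hne) (norm_nonneg _) (hr1 _ (by omega) (by omega))
    · have hpe : PowerSeries.coeff p (lam (z0 : ℚ_[p])) =
          PowerSeries.coeff (2 * N + 1) (lam (z0 : ℚ_[p])) :=
        congrArg (fun i => PowerSeries.coeff i (lam (z0 : ℚ_[p]))) hN
      rw [hpe, hlamc, ← add_sum_erase _ _ hmem, hrN]
      ring
  -- the terms of the substituted series
  have hcoe : ∀ d, PowerSeries.coeff p ((PowerSeries.map (algebraMap ℤ_[p] ℚ_[p]) u) ^ d) =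
      ((PowerSeries.coeff p (u ^ d) : ℤ_[p]) : ℚ_[p]) := by
    intro d
    rw [← map_pow, PowerSeries.coeff_map, PadicInt.algebraMap_apply]
  have hnormdvd : ∀ (y : ℤ_[p]) (d : ℕ), (p : ℤ_[p]) ^ d ∣ y → ‖(y : ℚ_[p])‖ ≤ q ^ d := by
    rintro y d ⟨c, rfl⟩
    push_cast
    rw [norm_mul, norm_pow]
    exact mul_le_of_le_one_right (by positivity) c.2
  have hterm : ∀ d, d ∈ (range (p + 1)).erase 1 →
      ‖PowerSeries.coeff d (lam (z0 : ℚ_[p])) *
        PowerSeries.coeff p ((PowerSeries.map (algebraMap ℤ_[p] ℚ_[p]) u) ^ d)‖ ≤ q ^ 2 := by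
    intro d hd
    rw [mem_erase, mem_range] at hd
    rcases Nat.eq_zero_or_pos d with h0 | h0
    · subst h0
      rw [PowerSeries.coeff_zero_eq_constantCoeff_apply, lam_zero, zero_mul, norm_zero]
      positivity
    · have h2 : 2 ≤ d := by omega
      rw [norm_mul, hcoe]
      have hb := hnormdvd _ d (hpow d h2)
      rcases Nat.lt_or_ge N d with h3 | h3
      · have hN4 : 3 ≤ N := by omega
        calc ‖PowerSeries.coeff d (lam (z0 : ℚ_[p]))‖ *
            ‖((PowerSeries.coeff p (u ^ d) : ℤ_[p]) : ℚ_[p])‖ ≤ (q⁻¹ * q⁻¹) * q ^ d :=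
              mul_le_mul (hlam2 d (by omega) (by omega)) hb (norm_nonneg _) (by positivity)
          _ = q ^ (d - 2) := by
              obtain ⟨e, rfl⟩ : ∃ e, d = e + 2 := ⟨d - 2, by omega⟩
              rw [Nat.add_sub_cancel, pow_add]
              field_simp
          _ ≤ q ^ 2 := pow_le_pow_of_le_one hq0.le hq1 (by omega)
      · calc ‖PowerSeries.coeff d (lam (z0 : ℚ_[p]))‖ *
            ‖((PowerSeries.coeff p (u ^ d) : ℤ_[p]) : ℚ_[p])‖ ≤ 1 * q ^ d :=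
              mul_le_mul (hlam1 d (by omega) h3) hb (norm_nonneg _) (by norm_num)
          _ = q ^ d := one_mul _
          _ ≤ q ^ 2 := pow_le_pow_of_le_one hq0.le hq1 (by omega)
  have hmem1 : 1 ∈ range (p + 1) := by rw [mem_range]; omega
  rw [← add_sum_erase _ _ hmem1, lam_one, one_mul] at hlog
  have hrest := IsUltrametricDist.norm_sum_le_of_forall_le_of_nonneg (by positivity) hterm
  set rest := ∑ d ∈ (range (p + 1)).erase 1, PowerSeries.coeff d (lam (z0 : ℚ_[p])) *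
        PowerSeries.coeff p ((PowerSeries.map (algebraMap ℤ_[p] ℚ_[p]) u) ^ d) with hrestdef
  obtain ⟨R, hR1, hR⟩ := hlamp
  rw [hR, hcoe, pow_one] at hlog
  have htop' : ‖((PowerSeries.coeff p u - c' : ℤ_[p]) : ℚ_[p])‖ ≤ q ^ 2 := hnormdvd _ 2 htop
  push_cast at htop'
  have hpi : ‖(m : ℚ_[p]) + n * (s : ℚ_[p])‖ ≤ q := by
    have := hnormdvd (m + n * s) 1 (by rw [pow_one]; exact hdiv)
    rw [pow_one] at this
    push_cast at this
    exact this
  have hpb : ‖(m : ℚ_[p]) - n * (s : ℚ_[p])‖ ≤ 1 := by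
    have := ((m : ℤ_[p]) - n * s).2
    push_cast at this
    exact this
  set a := (m : ℚ_[p]) + n * (s : ℚ_[p]) with hadef
  set b := (m : ℚ_[p]) - n * (s : ℚ_[p]) with hbdef
  have key : P ^ 2 - c' * b ^ 2 = b ^ 2 * (((PowerSeries.coeff p u : ℤ_[p]) : ℚ_[p]) - c' + rest -
      a ^ 2 * R) := by
    have h1 : a ^ 2 * b ^ 2 = (p : ℚ_[p]) ^ 2 := by rw [← hnorm]; ring
    have h2 : ((PowerSeries.coeff p u : ℤ_[p]) : ℚ_[p]) + rest - a ^ 2 * R = a ^ 2 * (P / p) ^ 2 := by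
      linear_combination hlog
    have h3 : b ^ 2 * (a ^ 2 * (P / p) ^ 2) = P ^ 2 := by
      rw [← mul_assoc, mul_comm (b ^ 2), h1, div_pow]
      field_simp
    calc P ^ 2 - c' * b ^ 2 = b ^ 2 * (a ^ 2 * (P / p) ^ 2) - c' * b ^ 2 := by rw [h3]
      _ = _ := by rw [← h2]; ring
  rw [key, norm_mul, norm_pow]
  have hn1 : ‖(((PowerSeries.coeff p u : ℤ_[p]) : ℚ_[p]) - c' + rest - a ^ 2 * R)‖ ≤ q ^ 2 := by
    rw [sub_eq_add_neg _ (a ^ 2 * R)]
    refine le_trans (IsUltrametricDist.norm_add_le_max _ _) (max_le ?_ ?_)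
    · refine le_trans (IsUltrametricDist.norm_add_le_max _ _) (max_le ?_ hrest)
      convert htop' using 2
    · rw [norm_neg, norm_mul, norm_pow]
      calc ‖a‖ ^ 2 * ‖R‖ ≤ q ^ 2 * 1 :=
            mul_le_mul (pow_le_pow_left₀ (norm_nonneg _) hpi 2) hR1 (norm_nonneg _) (by positivity)
        _ = q ^ 2 := mul_one _
  calc ‖b‖ ^ 2 * ‖(((PowerSeries.coeff p u : ℤ_[p]) : ℚ_[p]) - c' + rest - a ^ 2 * R)‖ ≤
      1 * q ^ 2 := mul_le_mul (pow_le_one₀ (norm_nonneg _) hpb) hn1 (norm_nonneg _) (by norm_num)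
    _ = q ^ 2 := one_mul _

end Pool.Agent.Lib.MP_ff9ca0_nt
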