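import Pool.Agent.Lib.MP_ff9ca0_nt.Lemn3

/-!
Congruence for the square of the central binomial coefficient, up to sign.
-/

namespace Pool.Agent.Lib.MP_ff9ca0_nt

open Polynomial Finset Pool.Agent.Lib.MP_945b72_nt

theorem yy_half {L : Type*} [Field L] [CharZero L] {z : L} (hz : 1 + 2 * z = 0) (j : ℕ) :
    yy z (2 * j) (2 * j + 1) * 4 ^ j = (-1) ^ j * ((2 * j).choose j : L) := by
  induction j with
  | zero => simp [yy, tt]
  | succ j ih =>
    have h := yy_rec z (2 * j)
    rw [hz, mul_zero, zero_mul, zero_sub] at h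
    have h1 : ((j : L) + 1) * ((2 * (j + 1)).choose (j + 1) : L) =
        2 * (2 * j + 1) * ((2 * j).choose j : L) := by
      have := Nat.succ_mul_centralBinom_succ j
      unfold Nat.centralBinom at this
      have e := congrArg (Nat.cast : ℕ → L) this
      push_cast at e
      exact e
    have hj : (2 * ((j : L) + 1)) ≠ 0 := by
      have : ((2 * (j + 1) : ℕ) : L) ≠ 0 := by exact_mod_cast (show 2 * (j + 1) ≠ 0 by omega)
      push_cast at this
      exact this
    apply mul_left_cancel₀ hj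
    rw [show 2 * (j + 1) = 2 * j + 2 by ring, show 2 * j + 2 + 1 = 2 * j + 3 by ring]
    rw [show 2 * (j + 1) = 2 * j + 2 by ring] at h1
    push_cast at h
    linear_combination 4 ^ (j + 1) * h + (-4 * (2 * (j : L) + 1)) * ih +
      (-2 * (-1) ^ (j + 1)) * h1

variable {p : ℕ} [hpf : Fact p.Prime]

theorem cde_sign {N m n : ℕ} (hN : p = 4 * N + 1) (h7 : 7 ≤ p) (hm : 1 ≤ m) (hn : 1 ≤ n)
    (h : m ^ 2 + n ^ 2 = p) :
    ∃ c : ℤ, (c = 1 ∨ c = -1) ∧
      (p : ℤ) ^ 2 ∣ ((2 * N).choose N : ℤ) ^ 2 - c * (16 ^ N * (4 * (m : ℤ) ^ 2 - 2 * p)) := by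
  obtain ⟨s, hs, hdiv⟩ := henselI hm hn h (by omega)
  have hu2 : IsUnit (2 : ℤ_[p]) := by
    have := MP_945b72_nt.isUnit_nat (p := p) (n := 2) (by omega) (by omega)
    exact_mod_cast this
  obtain ⟨t, ht⟩ := isUnit_iff_exists_inv.mp hu2
  have hz0 : 1 + 2 * (-t) = 0 := by linear_combination -ht
  obtain ⟨c, hc, hcong⟩ := main_congI hm hn h h7 (N := 2 * N) (by omega) hs hdiv hz0
  refine ⟨c, hc, ?_⟩
  set P := yy (((-t : ℤ_[p])) : ℚ_[p]) (2 * N) (2 * N + 1) with hP
  have hz0Q : 1 + 2 * (((-t : ℤ_[p])) : ℚ_[p]) = 0 := by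
    have := congrArg (fun y : ℤ_[p] => (y : ℚ_[p])) hz0
    push_cast at this ⊢
    exact this
  have hPv := yy_half hz0Q N
  rw [← hP] at hPv
  have hPsq : P ^ 2 * 16 ^ N = ((2 * N).choose N : ℚ_[p]) ^ 2 := by
    have h16 : (16 : ℚ_[p]) ^ N = 4 ^ N * 4 ^ N := by rw [← mul_pow]; norm_num
    have h1 : ((-1 : ℚ_[p]) ^ N) * (-1) ^ N = 1 := by rw [← mul_pow]; norm_num
    rw [h16]
    linear_combination (P * 4 ^ N + (-1) ^ N * ((2 * N).choose N : ℚ_[p])) * hPv +
      ((2 * N).choose N : ℚ_[p]) ^ 2 * h1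
  have hsQ : (s : ℚ_[p]) ^ 2 = -1 := by
    have := congrArg (fun y : ℤ_[p] => (y : ℚ_[p])) hs
    push_cast at this
    exact this
  have hpi : ‖((m : ℚ_[p]) + n * s) ^ 2‖ ≤ ‖(p : ℚ_[p])‖ ^ 2 := by
    obtain ⟨d, hd⟩ := hdiv
    have hd' : (m : ℚ_[p]) + n * s = (p : ℚ_[p]) * (d : ℚ_[p]) := by
      have := congrArg (fun y : ℤ_[p] => (y : ℚ_[p])) hd
      push_cast at this
      exact this
    rw [hd', norm_pow, norm_mul]
    apply pow_le_pow_left₀ (by positivity)
    exact mul_le_of_le_one_right (norm_nonneg _) d.2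
  have hn16 : ‖(16 : ℚ_[p]) ^ N‖ ≤ 1 := by
    have := Padic.norm_int_le_one (p := p) (16 ^ N)
    push_cast at this
    exact this
  have hcn : ‖(c : ℚ_[p])‖ ≤ 1 := Padic.norm_int_le_one c
  have hfin : ‖((((2 * N).choose N : ℤ) ^ 2 - c * (16 ^ N * (4 * (m : ℤ) ^ 2 - 2 * p)) : ℤ) :
      ℚ_[p])‖ ≤ ‖(p : ℚ_[p])‖ ^ 2 := by
    have hmn : (m : ℚ_[p]) ^ 2 + (n : ℚ_[p]) ^ 2 = (p : ℚ_[p]) := by
      exact_mod_cast congrArg (Nat.cast (R := ℚ_[p])) h
    have e : ((((2 * N).choose N : ℤ) ^ 2 - c * (16 ^ N * (4 * (m : ℤ) ^ 2 - 2 * p)) : ℤ) :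
        ℚ_[p]) = 16 ^ N * (P ^ 2 - c * ((m : ℚ_[p]) - n * s) ^ 2) +
          (-(c * (16 ^ N * ((m : ℚ_[p]) + n * s) ^ 2))) := by
      push_cast
      rw [← hPsq]
      linear_combination (-2 * (c : ℚ_[p]) * 16 ^ N) * hmn +
        (2 * (c : ℚ_[p]) * 16 ^ N * (n : ℚ_[p]) ^ 2) * hsQ
    rw [e]
    refine le_trans (IsUltrametricDist.norm_add_le_max _ _) (max_le ?_ ?_)
    · rw [norm_mul]
      calc _ ≤ 1 * ‖(p : ℚ_[p])‖ ^ 2 := mul_le_mul hn16 hcong (norm_nonneg _) (by norm_num)
        _ = _ := one_mul _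
    · rw [norm_neg, norm_mul, norm_mul]
      calc _ ≤ 1 * (1 * ‖(p : ℚ_[p])‖ ^ 2) := by
            apply mul_le_mul hcn _ (by positivity) (by norm_num)
            exact mul_le_mul hn16 hpi (norm_nonneg _) (by norm_num)
        _ = _ := by ring
  have hq : ‖(p : ℚ_[p])‖ ^ 2 = (p : ℝ) ^ (-(2 : ℕ) : ℤ) := by
    rw [Padic.norm_p, zpow_neg, zpow_natCast, inv_pow]
  rw [hq, Padic.norm_int_le_pow_iff_dvd] at hfin
  exact_mod_cast hfin

/-- a sum over nonzero elements of a function of `x^4` is divisible by `4` -/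
theorem four_dvd_sum {N : ℕ} (hN : p = 4 * N + 1) (h7 : 7 ≤ p) (g : ZMod p → ℤ) :
    (4 : ℤ) ∣ ∑ x ∈ univ.filter (fun x : ZMod p => x ≠ 0), g (x ^ 4) := by
  classical
  have h1 : p % 4 ≠ 3 := by omega
  obtain ⟨ι, hι⟩ := ZMod.exists_sq_eq_neg_one_iff.mpr h1
  have hι2 : ι ^ 2 = -1 := by rw [hι]; ring
  have h2 : (2 : ZMod p) ≠ 0 := by
    intro h
    have : ((2 : ℕ) : ZMod p) = 0 := by exact_mod_cast h
    rw [ZMod.natCast_eq_zero_iff] at this
    exact absurd (Nat.le_of_dvd (by norm_num) this) (by omega)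
  have hι0 : ι ≠ 0 := by
    rintro rfl
    apply h2
    have : (1 : ZMod p) = 0 := by linear_combination hι2
    linear_combination 2 * this
  rw [← Finset.sum_fiberwise_of_maps_to (s := univ.filter (fun x : ZMod p => x ≠ 0))
    (t := univ) (g := fun x => x ^ 4) (fun x _ => mem_univ _)]
  apply Finset.dvd_sum
  intro v _
  have hconst : ∑ x ∈ (univ.filter (fun x : ZMod p => x ≠ 0)).filter (fun x => x ^ 4 = v),
      g (x ^ 4) = ((univ.filter (fun x : ZMod p => x ≠ 0)).filter (fun x => x ^ 4 = v)).card *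
        g v := by
    rw [Finset.sum_congr rfl (g := fun _ => g v)]
    · rw [Finset.sum_const, nsmul_eq_mul]
    · intro x hx
      rw [mem_filter] at hx
      rw [hx.2]
  rw [hconst]
  apply Dvd.dvd.mul_right
  rcases Finset.eq_empty_or_nonempty
    ((univ.filter (fun x : ZMod p => x ≠ 0)).filter (fun x => x ^ 4 = v)) with h | ⟨y, hy⟩
  · rw [h]; simp
  · rw [mem_filter, mem_filter] at hy
    obtain ⟨⟨-, hy0⟩, hyv⟩ := hy
    have hset : (univ.filter (fun x : ZMod p => x ≠ 0)).filter (fun x => x ^ 4 = v) =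
        {y, -y, ι * y, -(ι * y)} := by
      ext x
      rw [mem_filter, mem_filter]
      simp only [mem_univ, true_and, mem_insert, mem_singleton]
      constructor
      · rintro ⟨-, hx⟩
        have e : (x - y) * ((x + y) * ((x - ι * y) * (x + ι * y))) = 0 := by
          linear_combination hx - hyv + (-(y ^ 2 * (x ^ 2 - y ^ 2))) * hι2
        rcases mul_eq_zero.mp e with h3 | h3
        · left; linear_combination h3
        · rcases mul_eq_zero.mp h3 with h3 | h3
          · right; left; linear_combination h3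
          · rcases mul_eq_zero.mp h3 with h3 | h3
            · right; right; left; linear_combination h3
            · right; right; right; linear_combination h3
      · have hι4 : ι ^ 4 = 1 := by
          rw [show (4 : ℕ) = 2 * 2 by norm_num, pow_mul, hι2]; norm_num
        rintro (rfl | rfl | rfl | rfl)
        · exact ⟨hy0, hyv⟩
        · exact ⟨neg_ne_zero.mpr hy0, by rw [Even.neg_pow (by decide)]; exact hyv⟩
        · exact ⟨mul_ne_zero hι0 hy0, by rw [mul_pow, hι4, one_mul]; exact hyv⟩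
        · exact ⟨neg_ne_zero.mpr (mul_ne_zero hι0 hy0), by
            rw [Even.neg_pow (by decide), mul_pow, hι4, one_mul]; exact hyv⟩
    have hne : ∀ a : ZMod p, a ≠ 0 → a ≠ -a := by
      intro a ha h3
      have : 2 * a = 0 := by linear_combination h3
      rcases mul_eq_zero.mp this with h4 | h4
      · exact h2 h4
      · exact ha h4
    have hι1 : ι ≠ 1 := by
      rintro rfl
      apply h2
      linear_combination hι2
    have hιm1 : ι ≠ -1 := by
      rintro rfl
      apply h2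
      linear_combination hι2
    have n1 : y ≠ -y := hne y hy0
    have n2 : y ≠ ι * y := by
      intro h3
      apply hι1
      apply mul_right_cancel₀ hy0
      linear_combination -h3
    have n3 : y ≠ -(ι * y) := by
      intro h3
      apply hιm1
      apply mul_right_cancel₀ hy0
      linear_combination h3
    have n4 : -y ≠ ι * y := by
      intro h3
      apply hιm1
      apply mul_right_cancel₀ hy0
      linear_combination -h3
    have n5 : -y ≠ -(ι * y) := by
      intro h3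
      apply hι1
      apply mul_right_cancel₀ hy0
      linear_combination h3
    have n6 : ι * y ≠ -(ι * y) := hne _ (mul_ne_zero hι0 hy0)
    rw [hset, card_insert_of_notMem, card_insert_of_notMem, card_insert_of_notMem, card_singleton]
    · norm_num
    · rw [mem_singleton]; exact n6
    · rw [mem_insert, mem_singleton]; push Not; exact ⟨n4, n5⟩
    · rw [mem_insert, mem_insert, mem_singleton]; push Not; exact ⟨n1, n2, n3⟩

end Pool.Agent.Lib.MP_ff9ca0_nt
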