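import Pool.Agent.Lib.MP_ff9ca0_nt.Basic

/-!
Expansion of a hypergeometric polynomial in powers of `1 + 4z`.
-/

namespace Pool.Agent.Lib.MP_ff9ca0_nt

open Finset Polynomial

private theorem Ode1_choose {A : Type*} [CommRing A] (k j : ℕ) :
    ((j : A) + 1) * (k.choose (j + 1) : A) = ((k : A) - j) * (k.choose j : A) := by
  rcases le_or_gt j k with h | h
  · have h1 := congrArg (Nat.cast : ℕ → A) (Nat.choose_succ_right_eq k j)
    push_cast [Nat.cast_sub h] at h1
    linear_combination h1
  · rw [Nat.choose_eq_zero_of_lt h, Nat.choose_eq_zero_of_lt (by omega)]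
    simp

private theorem Ode1_pred {A : Type*} [CommRing A] (k j : ℕ) :
    ((k : A) + 1) * (k.choose j : A) = ((k : A) + 1 - j) * ((k + 1).choose j : A) := by
  rcases le_or_gt j (k + 1) with h | h
  · have h1 := congrArg (Nat.cast : ℕ → A) (Nat.choose_mul_succ_eq k j)
    push_cast [Nat.cast_sub h] at h1
    linear_combination h1
  · rw [Nat.choose_eq_zero_of_lt h, Nat.choose_eq_zero_of_lt (by omega)]
    simp

/-- Let `f(z) = ∑_{k≤n} u_k z^k` with `(k+1)(4k+5) u_{k+1} = -4 (2k+1)^2 u_k` for `k < n` and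
`(2n+1)^2 u_n = 0`.  Then `4X(1+4X) f'' + (5+32X) f' + 4 f = 0`, and for `g = f.comp (C q4 * (X-1))`
(so `f = g.comp (1+4X)`) one gets `4X(X-1) g'' + (8X-3) g' + g = 0`; the coefficients `c_j` of `g` are
the required ones. -/
theorem expand_w {A : Type*} [CommRing A] {q4 : A} (h4 : 4 * q4 = 1) (n : ℕ) (u : ℕ → A)
    (hu : ∀ k < n, ((k : A) + 1) * (4 * k + 5) * u (k + 1) = -(4 * (2 * k + 1) ^ 2 * u k))
    (htop : (2 * (n : A) + 1) ^ 2 * u n = 0) :
    ∃ c : ℕ → A, (∀ z : A, ∑ k ∈ range (n + 1), u k * z ^ k =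
        ∑ j ∈ range (n + 1), c j * (1 + 4 * z) ^ j) ∧
      ∀ j < n, ((j : A) + 1) * (4 * j + 3) * c (j + 1) = (2 * j + 1) ^ 2 * c j := by
  set s : ℕ → A := fun k => u k * (-q4) ^ k with hs
  have hs1 : ∀ k < n, ((k : A) + 1) * (4 * k + 5) * s (k + 1) = (2 * k + 1) ^ 2 * s k := by
    intro k hk
    simp only [hs, pow_succ]
    linear_combination (-q4) ^ k * (-q4) * hu k hk + (2 * (k : A) + 1) ^ 2 * u k * (-q4) ^ k * h4
  have hs2 : (2 * (n : A) + 1) ^ 2 * s n = 0 := by
    simp only [hs]
    linear_combination (-q4) ^ n * htop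
  refine ⟨fun j => (-1) ^ j * ∑ k ∈ range (n + 1), s k * (k.choose j : A), ?_, ?_⟩
  · intro z
    have h1 : ∀ k ∈ range (n + 1), u k * z ^ k =
        ∑ j ∈ range (n + 1), s k * (k.choose j : A) * (-(1 + 4 * z)) ^ j := by
      intro k hk
      rw [mem_range] at hk
      have h2 : u k * z ^ k = s k * (-(1 + 4 * z) + 1) ^ k := by
        simp only [hs]
        have h3 : (-(1 + 4 * z) + 1 : A) = -(4 * z) := by ring
        rw [h3, mul_assoc, ← mul_pow]
        congr 2
        linear_combination (-z) * h4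
      rw [h2, add_pow, Finset.mul_sum]
      have h5 : ∑ i ∈ range (k + 1), s k * ((-(1 + 4 * z)) ^ i * 1 ^ (k - i) * (k.choose i : A)) =
          ∑ i ∈ range (k + 1), s k * (k.choose i : A) * (-(1 + 4 * z)) ^ i := by
        refine Finset.sum_congr rfl (fun i _ => ?_)
        rw [one_pow]
        ring
      rw [h5]
      apply Finset.sum_subset
      · intro i hi
        rw [mem_range] at hi ⊢
        omega
      · intro i _ hi
        rw [mem_range] at hi
        rw [Nat.choose_eq_zero_of_lt (by omega)]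
        simp
    rw [Finset.sum_congr rfl h1, Finset.sum_comm]
    refine Finset.sum_congr rfl (fun j _ => ?_)
    rw [← Finset.sum_mul, neg_pow (1 + 4 * z) j]
    ring
  · intro j hj
    have key : ∑ k ∈ range (n + 1), s k * (((2 * (j : A) + 1) ^ 2) * (k.choose j : A) +
        ((j : A) + 1) * (4 * j + 3) * (k.choose (j + 1) : A)) = 0 := by
      have h1 : ∀ k : ℕ, ((2 * (j : A) + 1) ^ 2) * (k.choose j : A) +
          ((j : A) + 1) * (4 * j + 3) * (k.choose (j + 1) : A) =
          ((2 * (k : A) + 1) ^ 2 - ((k : A) - j) * (4 * k + 1)) * (k.choose j : A) := by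
        intro k
        linear_combination (4 * (j : A) + 3) * Ode1_choose (A := A) k j
      simp only [h1]
      have h2 : ∑ k ∈ range (n + 1), s k * (((2 * (k : A) + 1) ^ 2 - ((k : A) - j) * (4 * k + 1)) *
          (k.choose j : A)) = ∑ k ∈ range (n + 1), ((2 * (k : A) + 1) ^ 2 * s k * (k.choose j : A)) -
          ∑ k ∈ range (n + 1), s k * (4 * k + 1) * (((k : A) - j) * (k.choose j : A)) := by
        rw [← Finset.sum_sub_distrib]
        refine Finset.sum_congr rfl (fun k _ => ?_)
        ring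
      rw [h2, Finset.sum_range_succ, hs2, zero_mul, add_zero,
        Finset.sum_range_succ' (fun k : ℕ => s k * (4 * (k : A) + 1) *
          (((k : A) - j) * (k.choose j : A)))]
      have h3 : (s 0 * (4 * ((0 : ℕ) : A) + 1) * ((((0 : ℕ) : A) - j) * ((0 : ℕ).choose j : A))) = 0 := by
        rcases Nat.eq_zero_or_pos j with rfl | hj0
        · simp
        · rw [Nat.choose_eq_zero_of_lt hj0]
          simp
      rw [h3, add_zero, ← Finset.sum_sub_distrib]
      apply Finset.sum_eq_zero
      intro k hk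
      rw [mem_range] at hk
      have h4 := hs1 k hk
      have h5 := Ode1_pred (A := A) k j
      push_cast
      linear_combination (-(k.choose j : A)) * h4 +
        s (k + 1) * (4 * (k : A) + 5) * h5
    have h6 : (2 * (j : A) + 1) ^ 2 * (∑ k ∈ range (n + 1), s k * (k.choose j : A)) +
        ((j : A) + 1) * (4 * j + 3) * (∑ k ∈ range (n + 1), s k * (k.choose (j + 1) : A)) = 0 := by
      rw [← key, Finset.mul_sum, Finset.mul_sum, ← Finset.sum_add_distrib]
      refine Finset.sum_congr rfl (fun k _ => ?_)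
      ring
    simp only [pow_succ (-1 : A) j]
    linear_combination (-(-1 : A) ^ j) * h6

end Pool.Agent.Lib.MP_ff9ca0_nt
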