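import Pool.Agent.Lib.MP_ff9ca0_nt.Basic

/-!
Comparison of two solutions of the recurrence.
-/

namespace Pool.Agent.Lib.MP_ff9ca0_nt

open Finset Polynomial

theorem compare_up {A : Type*} [CommRing A] {n : ℕ} {c d : ℕ → A}
    (hc : ∀ j < n, ((j : A) + 1) * (4 * j + 3) * c (j + 1) = (2 * j + 1) ^ 2 * c j)
    (hd : ∀ j < n, ((j : A) + 1) * (4 * j + 3) * d (j + 1) = (2 * j + 1) ^ 2 * d j)
    (hunit : ∀ j < n, IsUnit (((j : A) + 1) * (4 * j + 3))) (j : ℕ) (hj : j ≤ n) :
    c j * d 0 = c 0 * d j := by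
  induction j with
  | zero => rfl
  | succ j ih =>
    have h := ih (by omega)
    have h1 := hc j (by omega)
    have h2 := hd j (by omega)
    have h3 := hunit j (by omega)
    apply h3.mul_left_cancel
    linear_combination d 0 * h1 - c 0 * h2 + (2 * (j : A) + 1) ^ 2 * h

theorem compare_down {A : Type*} [CommRing A] {n : ℕ} {c d : ℕ → A}
    (hc : ∀ j < n, ((j : A) + 1) * (4 * j + 3) * c (j + 1) = (2 * j + 1) ^ 2 * c j)
    (hd : ∀ j < n, ((j : A) + 1) * (4 * j + 3) * d (j + 1) = (2 * j + 1) ^ 2 * d j)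
    (hunit : ∀ j < n, IsUnit ((2 * (j : A) + 1) ^ 2)) (j : ℕ) (hj : j ≤ n) :
    c j * d n = c n * d j := by
  obtain ⟨m, rfl⟩ := Nat.exists_eq_add_of_le hj
  induction m generalizing j with
  | zero => simp
  | succ m ih =>
    have e : j + (m + 1) = (j + 1) + m := by ring
    have h : c (j + 1) * d (j + (m + 1)) = c (j + (m + 1)) * d (j + 1) := by
      rw [e] at hc hd hunit ⊢
      exact ih (j := j + 1) hc hd hunit (by omega)
    have h1 := hc j (by omega)
    have h2 := hd j (by omega)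
    have h3 := hunit j (by omega)
    apply h3.mul_left_cancel
    linear_combination (-d (j + (m + 1))) * h1 + c (j + (m + 1)) * h2 +
      ((j : A) + 1) * (4 * j + 3) * h

/-- `ct e n` satisfies the recurrence -/
theorem ct_rec {A : Type*} [CommRing A] {e n : ℕ} (he : 4 * (e : A) = 4 * n - 1)
    (hn : (2 * (n : A) + 1) ^ 2 = 0) (j : ℕ) (hj : j < n) :
    ((j : A) + 1) * (4 * j + 3) * ct e n (j + 1) = (2 * j + 1) ^ 2 * ct e n j := by
  obtain ⟨m, rfl⟩ := Nat.exists_eq_add_of_lt hj
  have e1 : j + m + 1 - (j + 1) = m := by omega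
  have e2 : j + m + 1 - j = m + 1 := by omega
  unfold ct
  rw [e1, e2]
  have h1 : ((j : A) + 1) * ((j + m + 1 + (j + 1)).choose (j + 1) : A) =
      ((j + m + 1 + j : ℕ) + 1 : A) * ((j + m + 1 + j).choose j : A) := by
    have := congrArg (Nat.cast : ℕ → A) (Nat.add_one_mul_choose_eq (j + m + 1 + j) j)
    push_cast at this ⊢
    have e3 : ((j + m + 1 + (j + 1)).choose (j + 1) : A) =
      ((j + m + 1 + j + 1).choose (j + 1) : A) := rfl
    rw [e3]
    linear_combination -this
  have h2 : ((m : A) + 1) * (e.choose (m + 1) : A) = ((e : A) - m) * (e.choose m : A) := by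
    rcases le_or_gt m e with h | h
    · have h1 := congrArg (Nat.cast : ℕ → A) (Nat.choose_succ_right_eq e m)
      push_cast [Nat.cast_sub h] at h1
      linear_combination h1
    · rw [Nat.choose_eq_zero_of_lt h, Nat.choose_eq_zero_of_lt (by omega)]
      simp
  push_cast at he hn h1 ⊢
  have h3 : (4 * (j : A) + 3) * (e.choose m : A) = 4 * ((m : A) + 1) * (e.choose (m + 1) : A) := by
    linear_combination (-4 : A) * h2 - (e.choose m : A) * he
  rw [pow_succ]
  linear_combination (-(-1 : A) ^ j) * (4 * (j : A) + 3) * (e.choose m : A) * h1 -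
    (-1 : A) ^ j * ((j : A) + m + 1 + j + 1) * ((j + m + 1 + j).choose j : A) * h3 -
    (-1 : A) ^ j * ((j + m + 1 + j).choose j : A) * (e.choose (m + 1) : A) * hn

end Pool.Agent.Lib.MP_ff9ca0_nt
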