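import Pool.Agent.Lib.MP_ff9ca0_nt.PC1

/-!
The case `p = 4r+3`.
-/

namespace Pool.Agent.Lib.MP_ff9ca0_nt

open Finset Polynomial

/-- `(-1)^j C(n+j,j) = C(n,j)` modulo `p = 2n+1` -/
private theorem PC2_choose {p n : ℕ} [hp : Fact p.Prime] (hn : p = 2 * n + 1) (j : ℕ) (hj : j ≤ n) :
    (-1 : ZMod p) ^ j * ((n + j).choose j : ZMod p) = (n.choose j : ZMod p) := by
  have hf : (j.factorial : ZMod p) ≠ 0 := by
    rw [Ne, ZMod.natCast_eq_zero_iff, hp.out.dvd_factorial]
    omega
  have key : ∀ i : ℕ, i ≤ n → (n.descFactorial i : ZMod p) =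
      (-1) ^ i * ((n + i).descFactorial i : ZMod p) := by
    intro i
    induction i with
    | zero => intro _; simp
    | succ i ih =>
      intro hi
      have ih' := ih (by omega)
      rw [Nat.descFactorial_succ, ← add_assoc, Nat.succ_descFactorial_succ]
      push_cast
      rw [ih', Nat.cast_sub (by omega)]
      have h2 := congrArg (Nat.cast : ℕ → ZMod p) hn
      rw [ZMod.natCast_self] at h2
      push_cast at h2
      rw [pow_succ]
      linear_combination (-(-1 : ZMod p) ^ i * ((n + i).descFactorial i : ZMod p)) * h2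
  have h1 := key j hj
  rw [Nat.descFactorial_eq_factorial_mul_choose, Nat.descFactorial_eq_factorial_mul_choose] at h1
  push_cast at h1
  apply mul_left_cancel₀ hf
  linear_combination -h1

/-- Proof.  `ct r n j = C(n,j) C(r,n-j)` modulo `p` (`(-1)^j C(n+j,j) = C(-n-1,j)`, `-n-1 = n`), and
`∑_j C(n,j) C(r,n-j) 81^j = [X^n] (1+81X)^n (1+X)^r`; replace `X` by `-X/81`. -/
theorem partC {p r : ℕ} [hp : Fact p.Prime] (hr : p = 4 * r + 3) (h7 : 7 ≤ p) :
    ∑ j ∈ range (2 * r + 2), (ct r (2 * r + 1) j : ZMod p) * 81 ^ j = 0 := by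
  have h0 := PC_coeff hr h7
  have e1 : p - 1 = (2 * r + 1) + (2 * r + 1) := by omega
  rw [mul_assoc, e1, coeff_X_pow_mul, coeff_mul,
    Finset.Nat.sum_antidiagonal_eq_sum_range_succ_mk] at h0
  have h81 : (81 : ZMod p) ≠ 0 := by
    have : ((81 : ℕ) : ZMod p) ≠ 0 := by
      rw [Ne, ZMod.natCast_eq_zero_iff]
      intro hd
      have hd' : p ∣ 3 ^ 4 := by
        have : (81 : ℕ) = 3 ^ 4 := by norm_num
        rwa [this] at hd
      have := Nat.le_of_dvd (by norm_num) (hp.out.dvd_of_dvd_pow hd')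
      omega
    exact_mod_cast this
  have h2 : (-81 : ZMod p) ^ r * ∑ j ∈ range (2 * r + 2), (ct r (2 * r + 1) j : ZMod p) * 81 ^ j = 0 := by
    rw [← mul_zero ((81 : ZMod p) ^ (2 * r + 1)), ← h0, Finset.mul_sum, Finset.mul_sum]
    refine Finset.sum_congr (by rfl) fun i hi => ?_
    have hi' : i ≤ 2 * r + 1 := by
      have := Finset.mem_range.mp hi
      omega
    unfold ct
    rw [PC2_choose (n := 2 * r + 1) (by omega) i hi']
    have e2 : (X - 1 : (ZMod p)[X]) = X + C (-1) := by rw [map_neg, map_one, sub_eq_add_neg]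
    have e2' : (X - C 81 : (ZMod p)[X]) = X + C (-81) := by rw [map_neg, sub_eq_add_neg]
    simp only
    rw [e2, e2', coeff_X_add_C_pow, coeff_X_add_C_pow]
    by_cases hle : 2 * r + 1 - i ≤ r
    · obtain ⟨j, hj⟩ : ∃ j, j = 2 * r + 1 - i := ⟨_, rfl⟩
      rw [← hj]
      rw [← hj] at hle
      have hi2 : 2 * r + 1 = i + j := by omega
      have e3 : (-81 : ZMod p) ^ r = (-1) ^ j * 81 ^ j * (-81) ^ (r - j) := by
        rw [← mul_pow, neg_one_mul, ← pow_add]
        congr 1
        omega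
      have e4 : (81 : ZMod p) ^ (2 * r + 1) = 81 ^ i * 81 ^ j := by
        rw [← pow_add, hi2]
      rw [e3, e4]
      ring
    · rw [Nat.choose_eq_zero_of_lt (by omega : r < 2 * r + 1 - i)]
      simp
  rcases mul_eq_zero.mp h2 with h | h
  · exact absurd (eq_zero_of_pow_eq_zero h) (neg_ne_zero.mpr h81)
  · exact h

end Pool.Agent.Lib.MP_ff9ca0_nt
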