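import Pool.Agent.Lib.MP_ff9ca0_nt.Basic

/-!
A binomial coefficient modulo `p^2`.
-/

namespace Pool.Agent.Lib.MP_ff9ca0_nt

open Finset Polynomial

private theorem fact_two_mul (N : ℕ) :
    (2 * N).factorial = 2 ^ N * N.factorial * ∏ i ∈ range N, (2 * i + 1) := by
  induction N with
  | zero => simp
  | succ n ih =>
    have : 2 * (n + 1) = (2 * n + 1) + 1 := by ring
    rw [this, Nat.factorial_succ, Nat.factorial_succ, ih, Finset.prod_range_succ,
      Nat.factorial_succ n]
    ring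

private theorem fact_mul_choose (N : ℕ) :
    (2 * N).factorial * (2 * N).choose N = 4 ^ N * (∏ i ∈ range N, (2 * i + 1)) ^ 2 := by
  have h1 := fact_two_mul N
  have h2 := Nat.choose_mul_factorial_mul_factorial (n := 2 * N) (k := N) (by omega)
  have h3 : 2 * N - N = N := by omega
  rw [h3] at h2
  have hpos : 0 < N.factorial * N.factorial := Nat.mul_pos N.factorial_pos N.factorial_pos
  apply Nat.eq_of_mul_eq_mul_right hpos
  have h4 : (4 : ℕ) ^ N = 2 ^ N * 2 ^ N := by rw [← mul_pow]; norm_num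
  calc (2 * N).factorial * (2 * N).choose N * (N.factorial * N.factorial)
      = (2 * N).factorial * ((2 * N).choose N * N.factorial * N.factorial) := by ring
    _ = (2 * N).factorial * (2 * N).factorial := by rw [h2]
    _ = (2 ^ N * N.factorial * ∏ i ∈ range N, (2 * i + 1))
        * (2 ^ N * N.factorial * ∏ i ∈ range N, (2 * i + 1)) := by rw [h1]
    _ = 4 ^ N * (∏ i ∈ range N, (2 * i + 1)) ^ 2 * (N.factorial * N.factorial) := by
      rw [h4]; ring

private theorem prod_pair {p N : ℕ} (hN : p = 4 * N + 1) :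
    ∏ i ∈ range (2 * N), (4 * (i : RR p) + 3)
      = (-4) ^ N * (∏ i ∈ range N, (2 * (i : RR p) + 1)) ^ 2 := by
  have h4 : 4 * (N : RR p) = (p : RR p) - 1 := by
    have := congrArg (Nat.cast : ℕ → RR p) hN
    push_cast at this
    rw [this]; ring
  rw [two_mul, Finset.prod_range_add, ← Finset.prod_range_reflect, ← Finset.prod_mul_distrib,
    ← Finset.prod_pow]
  have hc : ((-4 : RR p)) ^ N = ∏ _i ∈ range N, (-4 : RR p) := by simp
  rw [hc, ← Finset.prod_mul_distrib]
  refine Finset.prod_congr rfl fun i hi => ?_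
  have hi' := Finset.mem_range.mp hi
  have e1 : ((N - 1 - i : ℕ) : RR p) = (N : RR p) - 1 - i := by
    rw [Nat.cast_sub (by omega), Nat.cast_sub (by omega), Nat.cast_one]
  rw [e1, Nat.cast_add]
  have e2 : 4 * ((N : RR p) - 1 - i) + 3 = (p : RR p) - 2 * (2 * i + 1) := by
    linear_combination h4
  have e3 : 4 * ((N : RR p) + i) + 3 = (p : RR p) + 2 * (2 * i + 1) := by
    linear_combination h4
  rw [e2, e3]
  linear_combination pp p

/-- Proof.  `4^n n! C(e,n) = ∏_{i<n} (4e-4i) = ∏_{i<n}(4n-1-4i) = ∏_{i<2N} (4i+3)` in `RR p`, and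
pairing `4i+3 = p - 2(2(N-i)-1)`, `4(2N-1-i)+3 = p + 2(2(N-i)-1)` (`i < N`) this is
`(-4)^N ∏_{j=1}^N (2j-1)^2`, with `(2N)! = 2^N N! ∏ (2j-1)`. -/
theorem ct_zero_eq {p N e : ℕ} (hp : p.Prime) (hN : p = 4 * N + 1)
    (he : 4 * (e : RR p) = 4 * ((2 * N : ℕ) : RR p) - 1) :
    (e.choose (2 * N) : RR p) * 16 ^ N = (-1) ^ N * ((2 * N).choose N : RR p) := by
  have h1 : ((2 * N).factorial : RR p) * (e.choose (2 * N) : RR p)
      = ∏ i ∈ range (2 * N), ((e : RR p) - i) := by
    rw [← descPochhammer_eval_eq_prod_range, descPochhammer_eval_eq_descFactorial,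
      Nat.descFactorial_eq_factorial_mul_choose, Nat.cast_mul]
  have h2 : (4 : RR p) ^ (2 * N) * ∏ i ∈ range (2 * N), ((e : RR p) - i)
      = ∏ i ∈ range (2 * N), (4 * (i : RR p) + 3) := by
    have hc : (4 : RR p) ^ (2 * N) = ∏ _i ∈ range (2 * N), (4 : RR p) := by simp
    rw [hc, ← Finset.prod_mul_distrib, ← Finset.prod_range_reflect]
    refine Finset.prod_congr rfl fun i hi => ?_
    have hi' := Finset.mem_range.mp hi
    have e1 : ((2 * N - 1 - i : ℕ) : RR p) = ((2 * N : ℕ) : RR p) - 1 - i := by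
      rw [Nat.cast_sub (by omega), Nat.cast_sub (by omega), Nat.cast_one]
    rw [e1]
    linear_combination he
  have h3 : ((2 * N).factorial : RR p) * ((2 * N).choose N : RR p)
      = 4 ^ N * (∏ i ∈ range N, (2 * (i : RR p) + 1)) ^ 2 := by
    have := congrArg (Nat.cast : ℕ → RR p) (fact_mul_choose N)
    push_cast at this
    exact this
  have hu : IsUnit ((2 * N).factorial : RR p) := by
    apply isUnit_nat hp
    rw [hp.dvd_factorial]
    omega
  apply hu.mul_left_cancel
  have h4 : (4 : RR p) ^ (2 * N) = 16 ^ N := by rw [pow_mul]; norm_num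
  have h5 : ((-4 : RR p)) ^ N = (-1) ^ N * 4 ^ N := by rw [← mul_pow]; norm_num
  rw [← h1, h4, prod_pair hN, h5] at h2
  linear_combination h2 - (-1) ^ N * h3

end Pool.Agent.Lib.MP_ff9ca0_nt
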