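import Mathlib

/-!
The quartic character of `5`.  With `I = y / x` (a square root of `-1` modulo `p`) and the Gauss sum
`G = ζ + I ζ² - ζ⁴ - I ζ³` of the quartic character modulo `5` one has `G⁴ = 5 (1 + 2 I)²` and
`G^p = c G`, where `c` is a fourth root of unity depending on `p` modulo `5`.  The quadratic symbol of
`1 + 2 I = (x + 2 y) / x` is `J(x + 2 y | 5)` by quadratic reciprocity.
-/

namespace Pool.Agent.Lib.MP_ff9ca0_nt

private theorem quart_gauss_sq {K : Type*} [Field K] {z I : K} (hI : I ^ 2 = -1) (h5 : z ^ 5 = 1) :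
    (z + I * z ^ 2 - z ^ 4 - I * z ^ 3) ^ 2 = -(1 + 2 * I) * (z + z ^ 4 - z ^ 2 - z ^ 3) := by
  linear_combination (z ^ 2 - z ^ 3) ^ 2 * hI + (z ^ 3 - z + 2 * I * (z ^ 2 - z)) * h5

private theorem quart_sq {K : Type*} [Field K] {z : K} (h5 : z ^ 5 = 1)
    (hs : 1 + z + z ^ 2 + z ^ 3 + z ^ 4 = 0) :
    (z + z ^ 4 - z ^ 2 - z ^ 3) ^ 2 = 5 := by
  linear_combination (z ^ 3 - 2 * z ^ 2 - z + 4) * h5 - hs

private theorem quart_gauss_four {K : Type*} [Field K] {z I : K} (hI : I ^ 2 = -1) (h5 : z ^ 5 = 1)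
    (hs : 1 + z + z ^ 2 + z ^ 3 + z ^ 4 = 0) :
    (z + I * z ^ 2 - z ^ 4 - I * z ^ 3) ^ 4 = 5 * (1 + 2 * I) ^ 2 := by
  have h1 := quart_gauss_sq hI h5
  have h2 := quart_sq h5 hs
  calc (z + I * z ^ 2 - z ^ 4 - I * z ^ 3) ^ 4
      = ((z + I * z ^ 2 - z ^ 4 - I * z ^ 3) ^ 2) ^ 2 := by ring
    _ = (1 + 2 * I) ^ 2 * (z + z ^ 4 - z ^ 2 - z ^ 3) ^ 2 := by rw [h1]; ring
    _ = 5 * (1 + 2 * I) ^ 2 := by rw [h2]; ring

private theorem quart_five_ne {p : ℕ} [hp : Fact p.Prime] (hp5 : p ≠ 5) : (5 : ZMod p) ≠ 0 := by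
  intro h
  have h1 : ((5 : ℕ) : ZMod p) = 0 := by exact_mod_cast h
  rw [ZMod.natCast_eq_zero_iff] at h1
  exact hp5 ((Nat.prime_dvd_prime_iff_eq hp.out (by norm_num)).1 h1)

private theorem quart_abs {K : Type*} [Field K] {p N : ℕ} [Fact p.Prime] [CharP K p]
    (hN : p = 4 * N + 1) {z J c : K} (hJ : J ^ 2 = -1) (h5 : z ^ 5 = 1)
    (hs : 1 + z + z ^ 2 + z ^ 3 + z ^ 4 = 0) (hJp : J ^ p = J) (h5K : (5 : K) ≠ 0)
    (h2J : 1 + 2 * J ≠ 0)
    (hc : (p % 5 = 1 ∧ c = 1) ∨ (p % 5 = 4 ∧ c = -1) ∨ (p % 5 = 2 ∧ c = -J) ∨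
      (p % 5 = 3 ∧ c = J)) :
    (5 * (1 + 2 * J) ^ 2) ^ N = c := by
  have hG4 := quart_gauss_four hJ h5 hs
  set G : K := z + J * z ^ 2 - z ^ 4 - J * z ^ 3 with hGdef
  have hG : G ≠ 0 := by
    intro h
    rw [h] at hG4
    have : (5 : K) * (1 + 2 * J) ^ 2 ≠ 0 := mul_ne_zero h5K (pow_ne_zero _ h2J)
    apply this
    rw [← hG4]
    norm_num
  have hGp : G ^ p = z ^ p + J * (z ^ p) ^ 2 - (z ^ p) ^ 4 - J * (z ^ p) ^ 3 := by
    rw [hGdef]
    have h : (frobenius K p) (z + J * z ^ 2 - z ^ 4 - J * z ^ 3) =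
        (frobenius K p) z + (frobenius K p) J * (frobenius K p) z ^ 2 - (frobenius K p) z ^ 4 -
          (frobenius K p) J * (frobenius K p) z ^ 3 := by
      simp only [map_sub, map_add, map_mul, map_pow]
    simp only [frobenius_def, hJp] at h
    exact h
  have hzp : z ^ p = z ^ (p % 5) := by
    have h : ∀ n : ℕ, z ^ n = z ^ (n % 5) := by
      intro n
      conv_lhs => rw [← Nat.div_add_mod n 5, pow_add, pow_mul, h5, one_pow, one_mul]
    exact h p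
  have hGc : G ^ p = c * G := by
    rw [hGp, hzp, hGdef]
    rcases hc with ⟨h, hc⟩ | ⟨h, hc⟩ | ⟨h, hc⟩ | ⟨h, hc⟩
    · rw [h, hc]; ring
    · rw [h, hc]
      linear_combination (J * z ^ 3 - z - z ^ 6 - z ^ 11 - J * z ^ 2 - J * z ^ 7) * h5
    · rw [h, hc]
      linear_combination (-z ^ 3 - J * z) * h5 + (z ^ 2 - z ^ 3) * hJ
    · rw [h, hc]
      linear_combination (J * z - z ^ 7 - z ^ 2 - J * z ^ 4) * h5 + (-z ^ 2 + z ^ 3) * hJ
  have h1 : G ^ p = G ^ (4 * N) * G := by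
    have : ∀ n : ℕ, n = 4 * N + 1 → G ^ n = G ^ (4 * N) * G := by
      rintro n rfl
      rw [pow_succ]
    exact this p hN
  rw [h1] at hGc
  have h2 := mul_right_cancel₀ hG hGc
  rw [← h2, pow_mul, hG4]

private theorem quart_main {p N : ℕ} [hp : Fact p.Prime] (hN : p = 4 * N + 1) (hp5 : p ≠ 5)
    {I : ZMod p} (hI : I ^ 2 = -1) (h2I : 1 + 2 * I ≠ 0) {c : ZMod p}
    (hc : (p % 5 = 1 ∧ c = 1) ∨ (p % 5 = 4 ∧ c = -1) ∨ (p % 5 = 2 ∧ c = -I) ∨
      (p % 5 = 3 ∧ c = I)) :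
    5 ^ N * (1 + 2 * I) ^ (2 * N) = c := by
  have h5ne := quart_five_ne (p := p) hp5
  have : NeZero ((5 : ℕ) : ZMod p) := ⟨by exact_mod_cast h5ne⟩
  have : CharP (CyclotomicField 5 (ZMod p)) p :=
    charP_of_injective_algebraMap (algebraMap (ZMod p) (CyclotomicField 5 (ZMod p))).injective p
  have hz : IsPrimitiveRoot (IsCyclotomicExtension.zeta 5 (ZMod p) (CyclotomicField 5 (ZMod p))) 5 :=
    IsCyclotomicExtension.zeta_spec 5 (ZMod p) (CyclotomicField 5 (ZMod p))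
  generalize IsCyclotomicExtension.zeta 5 (ZMod p) (CyclotomicField 5 (ZMod p)) = z at hz
  have h5 : z ^ 5 = 1 := hz.pow_eq_one
  have hs : 1 + z + z ^ 2 + z ^ 3 + z ^ 4 = 0 := by
    have h := hz.geom_sum_eq_zero (by norm_num)
    simp only [Finset.sum_range_succ, Finset.sum_range_zero, pow_zero, pow_one, zero_add] at h
    exact h
  let φ := algebraMap (ZMod p) (CyclotomicField 5 (ZMod p))
  have hφ2 : φ 2 = 2 := map_ofNat φ 2
  have hφ5 : φ 5 = 5 := map_ofNat φ 5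
  have h6 : (5 * (1 + 2 * φ I) ^ 2) ^ N = φ c := by
    apply quart_abs hN (z := z) _ h5 hs _ _ _ _
    · rw [← map_pow, hI, map_neg, map_one]
    · rw [← map_pow, ZMod.pow_card]
    · rw [← hφ5]; exact (map_ne_zero φ).2 h5ne
    · have h : 1 + 2 * φ I = φ (1 + 2 * I) := by rw [map_add, map_mul, hφ2, map_one]
      rw [h]
      exact (map_ne_zero φ).2 h2I
    · rcases hc with ⟨h, hc⟩ | ⟨h, hc⟩ | ⟨h, hc⟩ | ⟨h, hc⟩
      · left; exact ⟨h, by rw [hc, map_one]⟩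
      · right; left; exact ⟨h, by rw [hc, map_neg, map_one]⟩
      · right; right; left; exact ⟨h, by rw [hc, map_neg]⟩
      · right; right; right; exact ⟨h, by rw [hc]⟩
  apply φ.injective
  rw [← h6, pow_mul, mul_pow, map_mul, map_pow, map_pow, map_pow, map_add, map_mul, hφ2, hφ5,
    map_one]

/-- the quadratic symbol of `x + v y` -/
private theorem quart_sym {p N : ℕ} [hp : Fact p.Prime] (hN : p = 4 * N + 1) {x y : ℤ}
    (h : x ^ 2 + y ^ 2 = p) {u v : ℤ} {a : ℤ} (hu : u = x + v * y)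
    (hav : a = 1 + v ^ 2) (huo : Odd u) :
    jacobiSym u p = jacobiSym a u.natAbs := by
  have hp4 : p % 4 = 1 := by omega
  have hpo : Odd p := by rw [Nat.odd_iff]; omega
  have huo' : Odd u.natAbs := Int.natAbs_odd.2 huo
  have hcop : y.gcd (u.natAbs : ℤ) = 1 := by
    have hsq : Squarefree (p : ℤ) := Int.squarefree_natCast.2 hp.out.squarefree
    have hdy : ((y.gcd (u.natAbs : ℤ) : ℕ) : ℤ) ∣ y := Int.gcd_dvd_left _ _
    have hdu : ((y.gcd (u.natAbs : ℤ) : ℕ) : ℤ) ∣ u :=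
      (Int.gcd_dvd_right y (u.natAbs : ℤ)).trans (by rw [Int.natAbs_dvd])
    have hdx : ((y.gcd (u.natAbs : ℤ) : ℕ) : ℤ) ∣ x := by
      have : x = u - v * y := by rw [hu]; ring
      rw [this]
      exact dvd_sub hdu (Dvd.dvd.mul_left hdy v)
    have hd : ((y.gcd (u.natAbs : ℤ) : ℕ) : ℤ) * ((y.gcd (u.natAbs : ℤ) : ℕ) : ℤ) ∣ (p : ℤ) := by
      rw [← h, sq, sq]
      exact dvd_add (mul_dvd_mul hdx hdx) (mul_dvd_mul hdy hdy)
    have h1 := hsq _ hd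
    rw [Int.isUnit_iff] at h1
    omega
  have h1 : jacobiSym u p = jacobiSym (u.natAbs : ℤ) p := by
    rcases Int.natAbs_eq u with h2 | h2
    · rw [← h2]
    · conv_lhs => rw [h2]
      rw [jacobiSym.neg _ hpo, ZMod.χ₄_nat_one_mod_four hp4, one_mul]
  rw [h1, jacobiSym.quadratic_reciprocity_one_mod_four' huo' hp4]
  have h2 : jacobiSym (p : ℤ) u.natAbs = jacobiSym (a * y ^ 2) u.natAbs := by
    apply jacobiSym.mod_left'
    apply Int.ModEq.eq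
    apply (Int.modEq_iff_dvd.2 _)
    rw [Int.natAbs_dvd]
    refine ⟨2 * v * y - u, ?_⟩
    rw [← h, hav, hu]
    ring
  rw [h2, jacobiSym.mul_left, jacobiSym.sq_one' hcop, mul_one]

private theorem quart_eval {p N : ℕ} [hp : Fact p.Prime] (hN : p = 4 * N + 1) {x y : ℤ}
    (h : x ^ 2 + y ^ 2 = p) (hx : Odd x) (hp5 : p ≠ 5) {c : ZMod p}
    (hc : (p % 5 = 1 ∧ c = 1) ∨ (p % 5 = 4 ∧ c = -1) ∨ (p % 5 = 2 ∧ c = -((y : ZMod p) / x)) ∨
      (p % 5 = 3 ∧ c = (y : ZMod p) / x)) :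
    (x : ZMod p) ≠ 0 ∧ 5 ^ N * ((jacobiSym (x + 2 * y) 5 : ℤ) : ZMod p) = c := by
  have hpo : Odd (p : ℤ) := by
    have : Odd p := by rw [Nat.odd_iff]; omega
    exact_mod_cast this
  have hy : Even y := by
    have h1 : Odd (x ^ 2) := hx.pow
    have h2 : y ^ 2 = p - x ^ 2 := by rw [← h]; ring
    have h3 : Even (y ^ 2) := by rw [h2]; exact hpo.sub_odd h1
    exact (Int.even_pow.1 h3).1
  have hsum : (x : ZMod p) ^ 2 + (y : ZMod p) ^ 2 = 0 := by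
    have h1 : ((x ^ 2 + y ^ 2 : ℤ) : ZMod p) = ((p : ℤ) : ZMod p) := by rw [h]
    push_cast at h1
    rw [h1]
    exact_mod_cast ZMod.natCast_self p
  have hxo : Odd (x + 2 * y) := by
    obtain ⟨k, hk⟩ := hx
    exact ⟨k + y, by rw [hk]; ring⟩
  have hcop : ∀ u : ℤ, (jacobiSym u p) ≠ 0 → (u : ZMod p) ≠ 0 := by
    intro u hu h0
    apply hu
    rw [← jacobiSym.legendreSym.to_jacobiSym, legendreSym.eq_zero_iff]
    exact h0
  have hjx : jacobiSym x p = 1 := by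
    rw [quart_sym hN h (u := x) (v := 0) (a := 1) (by ring) (by ring) hx, jacobiSym.one_left]
  have hx0 : (x : ZMod p) ≠ 0 := hcop x (by rw [hjx]; norm_num)
  have hM : jacobiSym (x + 2 * y) p = jacobiSym 5 (x + 2 * y).natAbs :=
    quart_sym hN h (u := x + 2 * y) (v := 2) (a := 5) (by ring) (by ring) hxo
  have hM5 : jacobiSym (x + 2 * y) p = jacobiSym (x + 2 * y) 5 := by
    rw [hM]
    have h1 := jacobiSym.quadratic_reciprocity_one_mod_four (a := 5) (b := (x + 2 * y).natAbs)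
      (by norm_num) (Int.natAbs_odd.2 hxo)
    have h2 : jacobiSym (x + 2 * y) 5 = jacobiSym ((x + 2 * y).natAbs : ℤ) 5 := by
      rcases Int.natAbs_eq (x + 2 * y) with h2 | h2
      · rw [← h2]
      · conv_lhs => rw [h2]
        rw [jacobiSym.neg _ (by decide), ZMod.χ₄_nat_one_mod_four (by norm_num), one_mul]
    rw [h2, ← h1]
    norm_num
  have hI : ((y : ZMod p) / x) ^ 2 = -1 := by
    rw [div_pow, div_eq_iff (pow_ne_zero _ hx0)]
    linear_combination hsum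
  have h5ne := quart_five_ne (p := p) hp5
  have hxy0 : (x : ZMod p) + 2 * y ≠ 0 := by
    intro h0
    apply h5ne
    have h1 : (5 : ZMod p) * (y : ZMod p) ^ 2 = 0 := by
      linear_combination hsum - (x - 2 * y) * h0
    rcases mul_eq_zero.1 h1 with h2 | h2
    · exact h2
    · exfalso
      have h3 : (y : ZMod p) = 0 := by simpa using h2
      rw [h3] at h0
      apply hx0
      linear_combination h0
  have h2I : 1 + 2 * ((y : ZMod p) / x) = ((x : ZMod p) + 2 * y) / x := by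
    field_simp
  have hmain := quart_main hN hp5 hI (by rw [h2I]; exact div_ne_zero hxy0 hx0) hc
  refine ⟨hx0, ?_⟩
  rw [← hmain, h2I]
  have hp2 : p / 2 = 2 * N := by omega
  have e1 := legendreSym.eq_pow p (x + 2 * y)
  have e2 := legendreSym.eq_pow p x
  rw [hp2, jacobiSym.legendreSym.to_jacobiSym] at e1 e2
  rw [hjx] at e2
  rw [hM5] at e1
  rw [div_pow, ← e2]
  push_cast at e1 ⊢
  rw [← e1, div_one]

private theorem quart_j5 (x : ℤ) : (x % 5 = 0 ∧ jacobiSym x 5 = 0) ∨ (x % 5 = 1 ∧ jacobiSym x 5 = 1) ∨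
    (x % 5 = 2 ∧ jacobiSym x 5 = -1) ∨ (x % 5 = 3 ∧ jacobiSym x 5 = -1) ∨
    (x % 5 = 4 ∧ jacobiSym x 5 = 1) := by
  have h : jacobiSym x 5 = jacobiSym (x % 5) 5 := by
    have := jacobiSym.mod_left x 5
    exact_mod_cast this
  rw [h]
  have h1 : x % 5 = 0 ∨ x % 5 = 1 ∨ x % 5 = 2 ∨ x % 5 = 3 ∨ x % 5 = 4 := by omega
  rcases h1 with h1 | h1 | h1 | h1 | h1
  · rw [h1]; left; exact ⟨rfl, by norm_num⟩
  · rw [h1]; right; left; exact ⟨rfl, by norm_num⟩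
  · rw [h1]; right; right; left; exact ⟨rfl, by norm_num⟩
  · rw [h1]; right; right; right; left; exact ⟨rfl, by norm_num⟩
  · rw [h1]; right; right; right; right; exact ⟨rfl, by norm_num⟩

private theorem quart_mod {p : ℕ} {x y : ℤ} (h : x ^ 2 + y ^ 2 = p) :
    (p : ℤ) % 5 = ((x % 5) ^ 2 + (y % 5) ^ 2) % 5 := by
  rw [← h]
  simp [Int.add_emod, pow_two, Int.mul_emod]

theorem quartic_y {p N : ℕ} [hp : Fact p.Prime] (hN : p = 4 * N + 1) {x y : ℤ}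
    (h : x ^ 2 + y ^ 2 = p) (hx : Odd x) (h5 : 5 ∣ y) (hp5 : p ≠ 5) : (5 : ZMod p) ^ N = 1 := by
  have hmod := quart_mod h
  have hy5 : y % 5 = 0 := Int.emod_eq_zero_of_dvd h5
  rw [hy5] at hmod
  rcases quart_j5 x with ⟨hx5, -⟩ | ⟨hx5, -⟩ | ⟨hx5, -⟩ | ⟨hx5, -⟩ | ⟨hx5, -⟩
  · exfalso
    rw [hx5] at hmod
    norm_num at hmod
    have h2 : (5 : ℕ) ∣ p := by omega
    exact hp5 ((Nat.prime_dvd_prime_iff_eq (by norm_num) hp.out).1 h2).symm
  · rw [hx5] at hmod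
    norm_num at hmod
    have h1 := (quart_eval hN h hx hp5 (c := 1) (Or.inl ⟨by omega, rfl⟩)).2
    rcases quart_j5 (x + 2 * y) with ⟨hz, hj⟩ | ⟨hz, hj⟩ | ⟨hz, hj⟩ | ⟨hz, hj⟩ | ⟨hz, hj⟩ <;>
      first
      | omega
      | (rw [hj] at h1; push_cast at h1; linear_combination h1)
  · rw [hx5] at hmod
    norm_num at hmod
    have h1 := (quart_eval hN h hx hp5 (c := -1) (Or.inr (Or.inl ⟨by omega, rfl⟩))).2
    rcases quart_j5 (x + 2 * y) with ⟨hz, hj⟩ | ⟨hz, hj⟩ | ⟨hz, hj⟩ | ⟨hz, hj⟩ | ⟨hz, hj⟩ <;>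
      first
      | omega
      | (rw [hj] at h1; push_cast at h1; linear_combination -h1)
  · rw [hx5] at hmod
    norm_num at hmod
    have h1 := (quart_eval hN h hx hp5 (c := -1) (Or.inr (Or.inl ⟨by omega, rfl⟩))).2
    rcases quart_j5 (x + 2 * y) with ⟨hz, hj⟩ | ⟨hz, hj⟩ | ⟨hz, hj⟩ | ⟨hz, hj⟩ | ⟨hz, hj⟩ <;>
      first
      | omega
      | (rw [hj] at h1; push_cast at h1; linear_combination -h1)
  · rw [hx5] at hmod
    norm_num at hmod
    have h1 := (quart_eval hN h hx hp5 (c := 1) (Or.inl ⟨by omega, rfl⟩)).2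
    rcases quart_j5 (x + 2 * y) with ⟨hz, hj⟩ | ⟨hz, hj⟩ | ⟨hz, hj⟩ | ⟨hz, hj⟩ | ⟨hz, hj⟩ <;>
      first
      | omega
      | (rw [hj] at h1; push_cast at h1; linear_combination h1)

theorem quartic_x {p N : ℕ} [hp : Fact p.Prime] (hN : p = 4 * N + 1) {x y : ℤ}
    (h : x ^ 2 + y ^ 2 = p) (hx : Odd x) (h5 : 5 ∣ x) (hp5 : p ≠ 5) : (5 : ZMod p) ^ N = -1 := by
  have hmod := quart_mod h
  have hx5 : x % 5 = 0 := Int.emod_eq_zero_of_dvd h5
  rw [hx5] at hmod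
  rcases quart_j5 y with ⟨hy5, -⟩ | ⟨hy5, -⟩ | ⟨hy5, -⟩ | ⟨hy5, -⟩ | ⟨hy5, -⟩
  · exfalso
    rw [hy5] at hmod
    norm_num at hmod
    have h2 : (5 : ℕ) ∣ p := by omega
    exact hp5 ((Nat.prime_dvd_prime_iff_eq (by norm_num) hp.out).1 h2).symm
  · rw [hy5] at hmod
    norm_num at hmod
    have h1 := (quart_eval hN h hx hp5 (c := 1) (Or.inl ⟨by omega, rfl⟩)).2
    rcases quart_j5 (x + 2 * y) with ⟨hz, hj⟩ | ⟨hz, hj⟩ | ⟨hz, hj⟩ | ⟨hz, hj⟩ | ⟨hz, hj⟩ <;>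
      first
      | omega
      | (rw [hj] at h1; push_cast at h1; linear_combination -h1)
  · rw [hy5] at hmod
    norm_num at hmod
    have h1 := (quart_eval hN h hx hp5 (c := -1) (Or.inr (Or.inl ⟨by omega, rfl⟩))).2
    rcases quart_j5 (x + 2 * y) with ⟨hz, hj⟩ | ⟨hz, hj⟩ | ⟨hz, hj⟩ | ⟨hz, hj⟩ | ⟨hz, hj⟩ <;>
      first
      | omega
      | (rw [hj] at h1; push_cast at h1; linear_combination h1)
  · rw [hy5] at hmod
    norm_num at hmod
    have h1 := (quart_eval hN h hx hp5 (c := -1) (Or.inr (Or.inl ⟨by omega, rfl⟩))).2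
    rcases quart_j5 (x + 2 * y) with ⟨hz, hj⟩ | ⟨hz, hj⟩ | ⟨hz, hj⟩ | ⟨hz, hj⟩ | ⟨hz, hj⟩ <;>
      first
      | omega
      | (rw [hj] at h1; push_cast at h1; linear_combination h1)
  · rw [hy5] at hmod
    norm_num at hmod
    have h1 := (quart_eval hN h hx hp5 (c := 1) (Or.inl ⟨by omega, rfl⟩)).2
    rcases quart_j5 (x + 2 * y) with ⟨hz, hj⟩ | ⟨hz, hj⟩ | ⟨hz, hj⟩ | ⟨hz, hj⟩ | ⟨hz, hj⟩ <;>
      first
      | omega
      | (rw [hj] at h1; push_cast at h1; linear_combination -h1)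

/-- `x y = 1` modulo `5` -/
theorem quartic_xy {p N : ℕ} [hp : Fact p.Prime] (hN : p = 4 * N + 1) {x y : ℤ}
    (h : x ^ 2 + y ^ 2 = p) (hx : Odd x) (h5 : (5 : ℤ) ∣ x * y - 1) :
    (x : ZMod p) + y * ((jacobiSym x 5 : ℤ) : ZMod p) * 5 ^ N = 0 := by
  have hmod := quart_mod h
  have hxy : ((x % 5) * (y % 5)) % 5 = 1 := by
    rw [← Int.mul_emod]; omega
  have hsum : (x : ZMod p) ^ 2 + (y : ZMod p) ^ 2 = 0 := by
    have h1 : ((x ^ 2 + y ^ 2 : ℤ) : ZMod p) = ((p : ℤ) : ZMod p) := by rw [h]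
    push_cast at h1
    rw [h1]
    exact_mod_cast ZMod.natCast_self p
  rcases quart_j5 x with ⟨hx5, hjx⟩ | ⟨hx5, hjx⟩ | ⟨hx5, hjx⟩ | ⟨hx5, hjx⟩ | ⟨hx5, hjx⟩
  · rw [hx5] at hxy; norm_num at hxy
  · rw [hx5] at hxy hmod
    have hy5 : y % 5 = 1 := by omega
    rw [hy5] at hmod
    norm_num at hmod
    have hp5 : p ≠ 5 := by rintro rfl; norm_num at hmod
    obtain ⟨hx0, h1⟩ := quart_eval hN h hx hp5 (c := -((y : ZMod p) / x))
      (Or.inr (Or.inr (Or.inl ⟨by omega, rfl⟩)))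
    rcases quart_j5 (x + 2 * y) with ⟨hz, hj⟩ | ⟨hz, hj⟩ | ⟨hz, hj⟩ | ⟨hz, hj⟩ | ⟨hz, hj⟩ <;>
      first
      | omega
      | skip
    rw [hj] at h1
    rw [hjx]
    push_cast at h1 ⊢
    have h2 : (5 : ZMod p) ^ N = y / x := by linear_combination -h1
    rw [h2]
    field_simp
    linear_combination hsum
  · rw [hx5] at hxy hmod
    have hy5 : y % 5 = 3 := by omega
    rw [hy5] at hmod
    norm_num at hmod
    have hp5 : p ≠ 5 := by rintro rfl; norm_num at hmod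
    obtain ⟨hx0, h1⟩ := quart_eval hN h hx hp5 (c := ((y : ZMod p) / x))
      (Or.inr (Or.inr (Or.inr ⟨by omega, rfl⟩)))
    rcases quart_j5 (x + 2 * y) with ⟨hz, hj⟩ | ⟨hz, hj⟩ | ⟨hz, hj⟩ | ⟨hz, hj⟩ | ⟨hz, hj⟩ <;>
      first
      | omega
      | skip
    rw [hj] at h1
    rw [hjx]
    push_cast at h1 ⊢
    have h2 : (5 : ZMod p) ^ N = -(y / x) := by linear_combination -h1
    rw [h2]
    field_simp
    linear_combination hsum
  · rw [hx5] at hxy hmod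
    have hy5 : y % 5 = 2 := by omega
    rw [hy5] at hmod
    norm_num at hmod
    have hp5 : p ≠ 5 := by rintro rfl; norm_num at hmod
    obtain ⟨hx0, h1⟩ := quart_eval hN h hx hp5 (c := ((y : ZMod p) / x))
      (Or.inr (Or.inr (Or.inr ⟨by omega, rfl⟩)))
    rcases quart_j5 (x + 2 * y) with ⟨hz, hj⟩ | ⟨hz, hj⟩ | ⟨hz, hj⟩ | ⟨hz, hj⟩ | ⟨hz, hj⟩ <;>
      first
      | omega
      | skip
    rw [hj] at h1
    rw [hjx]
    push_cast at h1 ⊢
    have h2 : (5 : ZMod p) ^ N = -(y / x) := by linear_combination -h1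
    rw [h2]
    field_simp
    linear_combination hsum
  · rw [hx5] at hxy hmod
    have hy5 : y % 5 = 4 := by omega
    rw [hy5] at hmod
    norm_num at hmod
    have hp5 : p ≠ 5 := by rintro rfl; norm_num at hmod
    obtain ⟨hx0, h1⟩ := quart_eval hN h hx hp5 (c := -((y : ZMod p) / x))
      (Or.inr (Or.inr (Or.inl ⟨by omega, rfl⟩)))
    rcases quart_j5 (x + 2 * y) with ⟨hz, hj⟩ | ⟨hz, hj⟩ | ⟨hz, hj⟩ | ⟨hz, hj⟩ | ⟨hz, hj⟩ <;>
      first
      | omega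
      | skip
    rw [hj] at h1
    rw [hjx]
    push_cast at h1 ⊢
    have h2 : (5 : ZMod p) ^ N = y / x := by linear_combination -h1
    rw [h2]
    field_simp
    linear_combination hsum

end Pool.Agent.Lib.MP_ff9ca0_nt
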