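import Pool.Agent.Lib.MP_ff9ca0_nt.Sig1
import Pool.Agent.Lib.MP_ff9ca0_nt.Sig2

/-!
The case `p = 4r+3`.
-/

namespace Pool.Agent.Lib.MP_ff9ca0_nt

open Finset Polynomial

private theorem Sig4_central {A : Type*} [CommRing A] {q4 : A} (h4 : 4 * q4 = 1) (m : ℕ) :
    ∑ j ∈ range m, ((2 * j).choose j : A) * q4 ^ j =
      2 * m * ((2 * m).choose m : A) * q4 ^ m := by
  induction m with
  | zero => simp
  | succ m ih =>
    rw [sum_range_succ, ih]
    have h := Nat.succ_mul_centralBinom_succ m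
    rw [Nat.centralBinom_eq_two_mul_choose, Nat.centralBinom_eq_two_mul_choose] at h
    have h' := congrArg (Nat.cast : ℕ → A) h
    push_cast at h'
    rw [pow_succ]
    push_cast
    linear_combination (-(2 * q4 ^ m * q4)) * h' -
      ((2 * m + 1) * ((2 * m).choose m : A) * q4 ^ m) * h4

private theorem Sig4_zero {p : ℕ} {q4 : RR p} (h4 : 4 * q4 = 1) :
    ∃ y : RR p, Sg q4 p 0 = p * y := by
  refine ⟨2 * ((2 * p).choose p : RR p) * q4 ^ p, ?_⟩
  have h := Sig4_central h4 p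
  unfold Sg Fq
  simp only [mul_zero, add_zero, Nat.choose_zero_right, Nat.cast_one, mul_one]
  rw [h]
  ring

private theorem Sig4_hi {p : ℕ} (hp : p.Prime) (q4 : RR p) :
    ∃ y : RR p, Sg q4 p (p + 0) = p * y := by
  apply eq_of_red_zero
  unfold Sg Fq
  rw [map_sum]
  apply Finset.sum_eq_zero
  intro j hj
  rw [mem_range] at hj
  rw [map_mul, map_mul, red_nat, red_nat]
  by_cases h : 2 * j < p
  · rw [Nat.choose_eq_zero_of_lt (show 2 * j + (p + 0) < 2 * (p + 0) by omega)]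
    simp
  · have hd : p ∣ (2 * j).choose j := by
      have := hp.dvd_choose_add (a := j) (b := j) hj hj (by omega)
      rwa [← two_mul] at this
    rw [(ZMod.natCast_eq_zero_iff _ _).mpr hd]
    simp

private theorem Sig4_chain {p n : ℕ} (hp : p.Prime) (σ : ℕ → ZMod p) (hσ0 : σ 0 = 1)
    (hu : ∀ k < n, (4 * (k : ZMod p) + 5) ≠ 0)
    (hσ : ∀ k < n, (4 * (k : ZMod p) + 5) * σ (k + 1) = -((k + 1) * σ k))
    (S : ℕ → RR p) (h0 : ∃ y, S 0 = p * y)
    (hstep : ∀ k < n, ∃ c d : RR p, c * S (k + 1) = -(d * S k) ∧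
      red p c = 4 * (k : ZMod p) + 5 ∧ red p d = (k : ZMod p) + 1) :
    ∃ u : ZMod p, ∀ k ≤ n, ∃ s : RR p, S k = p * s ∧ red p s = u * σ k := by
  have : Fact p.Prime := ⟨hp⟩
  obtain ⟨y, hy⟩ := h0
  refine ⟨red p y, ?_⟩
  intro k
  induction k with
  | zero => intro _; exact ⟨y, hy, by rw [hσ0, mul_one]⟩
  | succ k ih =>
    intro hk
    obtain ⟨s, hs, hrs⟩ := ih (by omega)
    obtain ⟨c, d, hcd, hc, hd⟩ := hstep k (by omega)
    have hcu : IsUnit c := isUnit_red hp (by rw [hc]; exact hu k (by omega))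
    obtain ⟨c', hc'⟩ := hcu.exists_left_inv
    refine ⟨-(c' * d * s), ?_, ?_⟩
    · calc S (k + 1) = (c' * c) * S (k + 1) := by rw [hc', one_mul]
        _ = c' * (c * S (k + 1)) := by ring
        _ = p * -(c' * d * s) := by rw [hcd, hs]; ring
    · have h1 : red p c' * (4 * (k : ZMod p) + 5) = 1 := by
        rw [← hc, ← map_mul, hc', map_one]
      have h2 := hσ k (by omega)
      rw [map_neg, map_mul, map_mul, hd, hrs]
      linear_combination (-(red p c' * red p y)) * h2 + (red p y * σ (k + 1)) * h1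

private theorem Sig4_lucas {p n a : ℕ} (hp : p.Prime) (hn : p = 2 * n + 1) (ha : a ≤ n) :
    ((2 * (p + a)).choose (p + a) : ZMod p) = 2 * ((2 * a).choose a : ZMod p) := by
  have : Fact p.Prime := ⟨hp⟩
  have h := Choose.choose_modEq_choose_mod_mul_choose_div_nat (p := p) (n := 2 * (p + a))
    (k := p + a)
  have e1 : 2 * (p + a) % p = 2 * a := by
    rw [show 2 * (p + a) = 2 * a + p * 2 by ring, Nat.add_mul_mod_self_left]
    exact Nat.mod_eq_of_lt (by omega)
  have e2 : 2 * (p + a) / p = 2 := by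
    rw [show 2 * (p + a) = 2 * a + p * 2 by ring, Nat.add_mul_div_left _ _ hp.pos,
      Nat.div_eq_of_lt (by omega)]
  have e3 : (p + a) % p = a := by
    rw [Nat.add_mod_left]
    exact Nat.mod_eq_of_lt (by omega)
  have e4 : (p + a) / p = 1 := by
    rw [Nat.add_div_left _ hp.pos, Nat.div_eq_of_lt (by omega)]
  rw [e1, e2, e3, e4] at h
  have h' := (ZMod.natCast_eq_natCast_iff _ _ _).mpr h
  rw [h']
  push_cast
  simp
  ring

/-- for `p = 4r+3`: everything is a multiple of `p`, and the condition is a congruence modulo `p`.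

Proof.  `Sg q4 p 0 = p u₀` with `u₀` a unit (`∑_{j<p} C(2j,j) 4^(-j) = 2 p C(2p,p)/4^p`), so by
`Sg_step_lo` (for `k < n` the number `4k+5 ≤ 4n+1 = 2p-1` is `1` modulo `4`, so prime to `p`) all
`Sg q4 p k`, `k ≤ n` are `p * (u₀ σ_k)` modulo `p^2` with `σ` as in the statement.  Every term of
`Sg q4 p (p+a)` has `2j ≥ p + a`, so `p ∣ C(2j,j)`: `Sg q4 p (p+a) = p τ_a`, and `Sg_step_hi` gives
the same recurrence modulo `p` for `τ`, hence `τ_a = τ_0 σ_a` modulo `p`; and
`C(2(p+a),p+a) = 2 C(2a,a)` modulo `p` (Lucas). -/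
theorem S_three {p r : ℕ} (hp : p.Prime) (hr : p = 4 * r + 3) {q4 : RR p} (h4 : 4 * q4 = 1) :
    ∃ σ : ℕ → ZMod p, σ 0 = 1 ∧
      (∀ k < 2 * r + 1, (4 * (k : ZMod p) + 5) * σ (k + 1) = -((k + 1) * σ k)) ∧
      ∀ z : ℤ, (∑ k ∈ range (2 * r + 2), ((2 * k).choose k : ZMod p) ^ 2 * (z : ZMod p) ^ k * σ k = 0) →
        ∑ j ∈ range p, ((2 * j).choose j : RR p) * q4 ^ j *
          (∑ k ∈ range (2 * j + 1), ((2 * j + k).choose (2 * k) : RR p) *
            ((2 * k).choose k : RR p) ^ 2 * (z : RR p) ^ k) = 0 := by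
  have : Fact p.Prime := ⟨hp⟩
  have hn : p = 2 * (2 * r + 1) + 1 := by omega
  have hu : ∀ k < 2 * r + 1, (4 * (k : ZMod p) + 5) ≠ 0 := by
    intro k hk h0
    have h1 : (((4 * k + 5 : ℕ)) : ZMod p) = 0 := by push_cast; exact h0
    rw [ZMod.natCast_eq_zero_iff] at h1
    obtain ⟨c, hc⟩ := h1
    have hc2 : c < 2 := by
      by_contra hcc
      have : p * 2 ≤ p * c := Nat.mul_le_mul_left _ (by omega)
      omega
    interval_cases c <;> omega
  let σ : ℕ → ZMod p := fun k =>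
    Nat.rec (motive := fun _ => ZMod p) 1 (fun k s => -((k + 1) * s) / (4 * (k : ZMod p) + 5)) k
  have hσ0 : σ 0 = 1 := rfl
  have hσ : ∀ k < 2 * r + 1, (4 * (k : ZMod p) + 5) * σ (k + 1) = -((k + 1) * σ k) := by
    intro k hk
    have : σ (k + 1) = -((k + 1) * σ k) / (4 * (k : ZMod p) + 5) := rfl
    rw [this]
    field_simp [hu k hk]
  refine ⟨σ, hσ0, hσ, ?_⟩
  intro z hz
  rw [S_split hp hn q4 (z : RR p)]
  obtain ⟨u, hlo⟩ := Sig4_chain hp σ hσ0 hu hσ (fun k => Sg q4 p k) (Sig4_zero h4) (by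
    intro k hk
    refine ⟨4 * (k : RR p) + 5, (k : RR p) + 1, Sg_step_lo hp hn h4 hk, ?_, ?_⟩
    · rw [map_add, map_mul, red_nat, map_ofNat, map_ofNat]
    · rw [map_add, red_nat, map_one])
  obtain ⟨v, hhi⟩ := Sig4_chain hp σ hσ0 hu hσ (fun a => Sg q4 p (p + a)) (Sig4_hi hp q4) (by
    intro k hk
    have h := Sg_step_hi hp hn h4 (k := p + k) (by omega) (by omega)
    refine ⟨4 * ((p + k : ℕ) : RR p) + 5, ((p + k : ℕ) : RR p) + 1, h, ?_, ?_⟩
    · rw [map_add, map_mul, red_nat, map_ofNat, map_ofNat, Nat.cast_add, ZMod.natCast_self,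
        zero_add]
    · rw [map_add, red_nat, map_one, Nat.cast_add, ZMod.natCast_self, zero_add])
  choose! s hs using hlo
  choose! t ht using hhi
  have hA : (∑ k ∈ range (2 * r + 1 + 1), ((2 * k).choose k : RR p) ^ 2 * (z : RR p) ^ k *
      Sg q4 p k) = 0 := by
    have e : (∑ k ∈ range (2 * r + 1 + 1), ((2 * k).choose k : RR p) ^ 2 * (z : RR p) ^ k *
        Sg q4 p k) = p * ∑ k ∈ range (2 * r + 1 + 1), ((2 * k).choose k : RR p) ^ 2 *
          (z : RR p) ^ k * s k := by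
      rw [mul_sum]
      refine sum_congr rfl fun k hk => ?_
      rw [mem_range] at hk
      have := (hs k (by omega)).1
      rw [this]; ring
    rw [e, p_mul_eq (y := 0), mul_zero]
    rw [map_sum, map_zero]
    have e2 : ∀ k ∈ range (2 * r + 1 + 1), red p (((2 * k).choose k : RR p) ^ 2 *
        (z : RR p) ^ k * s k) = u * (((2 * k).choose k : ZMod p) ^ 2 * (z : ZMod p) ^ k * σ k) := by
      intro k hk
      rw [mem_range] at hk
      rw [map_mul, map_mul, map_pow, map_pow, red_nat, red_int, (hs k (by omega)).2]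
      ring
    rw [sum_congr rfl e2, ← mul_sum, show 2 * r + 1 + 1 = 2 * r + 2 by ring, hz, mul_zero]
  have hB : (∑ a ∈ range (2 * r + 1 + 1), ((2 * (p + a)).choose (p + a) : RR p) ^ 2 *
      (z : RR p) ^ (p + a) * Sg q4 p (p + a)) = 0 := by
    have e : (∑ a ∈ range (2 * r + 1 + 1), ((2 * (p + a)).choose (p + a) : RR p) ^ 2 *
        (z : RR p) ^ (p + a) * Sg q4 p (p + a)) = p * ∑ a ∈ range (2 * r + 1 + 1),
          ((2 * (p + a)).choose (p + a) : RR p) ^ 2 * (z : RR p) ^ (p + a) * t a := by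
      rw [mul_sum]
      refine sum_congr rfl fun k hk => ?_
      rw [mem_range] at hk
      have := (ht k (by omega)).1
      rw [this]; ring
    rw [e, p_mul_eq (y := 0), mul_zero]
    rw [map_sum, map_zero]
    have e2 : ∀ k ∈ range (2 * r + 1 + 1), red p (((2 * (p + k)).choose (p + k) : RR p) ^ 2 *
        (z : RR p) ^ (p + k) * t k) = (4 * (z : ZMod p) ^ p * v) *
          (((2 * k).choose k : ZMod p) ^ 2 * (z : ZMod p) ^ k * σ k) := by
      intro k hk
      rw [mem_range] at hk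
      rw [map_mul, map_mul, map_pow, map_pow, red_nat, red_int, (ht k (by omega)).2,
        Sig4_lucas hp hn (by omega)]
      ring
    rw [sum_congr rfl e2, ← mul_sum, show 2 * r + 1 + 1 = 2 * r + 2 by ring, hz, mul_zero]
  rw [hA, hB, add_zero]

end Pool.Agent.Lib.MP_ff9ca0_nt
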