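import Pool.Agent.Lib.MP_ff9ca0_nt.TT1
import Pool.Agent.Lib.MP_ff9ca0_nt.Prod4

/-!
The residue identity.
-/

namespace Pool.Agent.Lib.MP_ff9ca0_nt

open Finset Polynomial

/-- `M = (81-X)(6-X)^4` -/
private noncomputable def MM (A : Type*) [CommRing A] : A[X] := (C 81 - X) * (C 6 - X) ^ 4

/-- `L (m+1)` -/
private noncomputable def LL (A : Type*) [CommRing A] (m : ℕ) : A[X] :=
  -3 * qq2 A * (C 81 - X) ^ m * (C 6 - X) ^ (4 * m + 3)

private theorem MM_sub (A : Type*) [CommRing A] :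
    MM A - C 50000 * X ^ 2 = (1 - X) * qq2 A ^ 2 := by
  rw [MM, qq2]
  simp only [map_ofNat]
  ring

private theorem MM_pow_mul_LL (A : Type*) [CommRing A] (j m : ℕ) :
    MM A ^ j * LL A m = LL A (m + j) := by
  rw [MM, LL, LL, mul_pow, ← pow_mul]
  have : 4 * (m + j) + 3 = 4 * j + (4 * m + 3) := by ring
  rw [this, pow_add, pow_add]
  ring

private theorem MM_deriv (A : Type*) [CommRing A] (m : ℕ) :
    C (2 * (m + 1 : A)) * MM A ^ (m + 1) - X * derivative (MM A ^ (m + 1))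
      = C (m + 1 : A) * LL A m := by
  have hd : derivative (MM A) = -((C 6 - X) ^ 4) - 4 * (C 81 - X) * (C 6 - X) ^ 3 := by
    rw [MM, derivative_mul, derivative_pow]
    simp only [derivative_sub, derivative_C, derivative_X, zero_sub]
    simp only [map_ofNat, Nat.cast_ofNat]
    ring
  rw [derivative_pow, hd]
  simp only [Nat.add_sub_cancel, Nat.cast_add, Nat.cast_one, map_add, map_mul, map_one, map_ofNat,
    map_natCast]
  rw [MM, LL, qq2, pow_succ (a := (C 81 - X) * (C 6 - X) ^ 4), mul_pow, ← pow_mul]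
  simp only [map_ofNat]
  have : 4 * m + 3 = 4 * m + 2 + 1 := by ring
  rw [this, pow_succ, pow_add]
  ring

private theorem LL_coeff {p i : ℕ} (hp : p.Prime) (hi : 0 < i) (hip : i < p) :
    (LL (RR p) (p ^ 2 + i - 1)).coeff (2 * i) = 0 := by
  have hm : p ^ 2 + i - 1 + 1 = p ^ 2 + i := by omega
  have h := congrArg (fun P => coeff P (2 * i)) (MM_deriv (RR p) (p ^ 2 + i - 1))
  have hc : (((p ^ 2 + i - 1 : ℕ) : RR p) + 1) = (i : RR p) := by
    have : (((p ^ 2 + i - 1 + 1 : ℕ)) : RR p) = ((p ^ 2 + i : ℕ) : RR p) := by rw [hm]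
    push_cast at this
    rw [this, pp, zero_add]
  simp only [hc, coeff_sub, coeff_C_mul] at h
  obtain ⟨j, hj⟩ : ∃ j, 2 * i = j + 1 := ⟨2 * i - 1, by omega⟩
  rw [hj, coeff_X_mul, coeff_derivative] at h
  have hj' : (j : RR p) + 1 = 2 * i := by
    have := congrArg (Nat.cast : ℕ → RR p) hj
    push_cast at this
    rw [this]
  rw [hj'] at h
  have hu : IsUnit (i : RR p) := isUnit_nat hp (fun hd => by
    have := Nat.le_of_dvd hi hd
    omega)
  rw [hj]
  have h0 : (i : RR p) * (LL (RR p) (p ^ 2 + i - 1)).coeff (j + 1) = 0 := by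
    rw [← h]; ring
  exact (hu.mul_right_eq_zero).mp h0

private theorem expand (A : Type*) [CommRing A] (b m : ℕ) :
    LL A m * ((1 - X) * qq2 A ^ 2) ^ b = ∑ k ∈ range (b + 1),
      C ((b.choose k : A) * (-50000) ^ k) * (X ^ (2 * k) * LL A (m + (b - k))) := by
  rw [← MM_sub, sub_eq_add_neg, add_comm, add_pow, Finset.mul_sum]
  refine Finset.sum_congr rfl fun k hk => ?_
  rw [← MM_pow_mul_LL]
  simp only [map_mul, map_pow, map_neg, map_ofNat, map_natCast]
  rw [pow_mul, ← neg_mul, mul_pow]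
  ring

private theorem coeff_congr {A : Type*} [CommRing A] {n p : ℕ} (hn : n < p) {P Q : A[X]}
    (h : X ^ p ∣ P - Q) : P.coeff n = Q.coeff n := by
  obtain ⟨R, hR⟩ := h
  have : P = Q + X ^ p * R := by rw [← hR]; ring
  rw [this, coeff_add, coeff_X_pow_mul', if_neg (by omega), add_zero]

private theorem const_aux (A : Type*) [CommRing A] (n : ℕ) (hn : 1 ≤ n) :
    (-3 * (0 ^ 2 - 52 * 0 - 324) * (81 - 0) ^ (n - 1) * (6 - 0) ^ (4 * (n - 1) + 3) : A)
      = 2 * 104976 ^ n := by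
  obtain ⟨s, rfl⟩ : ∃ s, n = s + 1 := ⟨n - 1, by omega⟩
  rw [Nat.add_sub_cancel, pow_add, pow_mul, pow_succ]
  have h5 : (104976 : A) = 81 * 6 ^ 4 := by norm_num
  rw [h5, mul_pow]
  ring

/-- Proof.  Let `M = (81-X)(6-X)^4`, so `M - 50000 X^2 = (1-X) q^2`, and let
`L m = -3 q (81-X)^(m-1) (6-X)^(4m-1)` (`= M^m λ`).  For every `m ≥ 1` one has the identity
`2 m M^m - X (M^m)' = m L m`, so in `RR p`, for `m = p^2 + i`, `0 < i < p`,
`m [X^(2i)] L m = 2(m - i) [X^(2i)] M^m = 0`, i.e. `[X^(2i)] L m = 0`.  Expand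
`L (p^2+N-b) ((1-X) q^2)^b = ∑_k C(b,k) (-50000)^k X^(2k) L(p^2+N-k)` (because
`M^(b-k) L(p^2+N-b) = L(p^2+N-k)`), take `[X^(2N)]`: only `k = N` survives, giving
`C(b,N) (-50000)^N [X^0] L(p^2) = C(b,N)(-50000)^N * 2 * 104976^(p^2)`.
As `p^2+N-b-1 = N+b` and `4(p^2+N-b)-1 = 2p^2+p` and `2b+1 = p^2` the left side is
`-3 (81-X)^(N+b) (6-X)^(2p^2+p) (1-X)^b q^(p^2)`, and by `pow_p2` `(6-X)^(2p^2) = 6^(2p^2)`,
`q^(p^2) = (-324)^(p^2)` modulo `X^p`.  Finally `104976 = 36 * 324 * 9`, `9^(p^2) = 9^p` in `RR p`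
and `choose_half`. -/
theorem E1 {p N b : ℕ} (hp : p.Prime) (hN : p = 4 * N + 1) (h7 : 7 ≤ p) (hb : p ^ 2 = 2 * b + 1) :
    3 * (WW p N b).coeff (2 * N) * 4 ^ N = 2 * 9 ^ p * ((2 * N).choose N : RR p) * 50000 ^ N := by
  have hN1 : 1 ≤ N := by omega
  have hNb : N ≤ b := by nlinarith
  have hpp : p ≤ p ^ 2 := by nlinarith
  -- the left side
  have hL : (LL (RR p) (N + b) * ((1 - X) * qq2 (RR p) ^ 2) ^ b).coeff (2 * N)
      = 3 * (36 * 324) ^ (p ^ 2) * (WW p N b).coeff (2 * N) := by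
    have e1 : LL (RR p) (N + b) * ((1 - X) * qq2 (RR p) ^ 2) ^ b
        = -3 * (((C 6 - X) ^ 2 * qq2 (RR p)) ^ (p ^ 2) * WW p N b) := by
      have ha : 4 * (N + b) + 3 = 2 * p ^ 2 + p := by omega
      rw [LL, WW, ha, mul_pow, mul_pow, ← pow_mul, ← pow_mul]
      have hq : qq2 (RR p) ^ (p ^ 2) = qq2 (RR p) * qq2 (RR p) ^ (2 * b) :=
        (congrArg (fun n => qq2 (RR p) ^ n) hb).trans (pow_succ' (qq2 (RR p)) (2 * b))
      rw [hq, pow_add]
      ring
    have e2 := pow_p2 hp ((C 6 - X) ^ 2 * qq2 (RR p))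
    have e3 : ((C 6 - X) ^ 2 * qq2 (RR p)).coeff 0 = -(36 * 324) := by
      rw [qq2]
      simp only [coeff_zero_eq_eval_zero, eval_mul, eval_pow, eval_sub, eval_C, eval_X]
      ring
    have hodd : Odd (p ^ 2) := ⟨b, hb⟩
    rw [e3, hodd.neg_pow] at e2
    have e4 : X ^ p ∣ (-3 * (((C 6 - X) ^ 2 * qq2 (RR p)) ^ (p ^ 2) * WW p N b))
        - (-3 * (C (-(36 * 324) ^ (p ^ 2)) * WW p N b)) := by
      obtain ⟨R, hR⟩ := e2
      refine ⟨R * (-3 * WW p N b), ?_⟩
      linear_combination (-3 * WW p N b) * hR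
    rw [e1, coeff_congr (by omega) e4]
    have : (-3 : (RR p)[X]) = C (-3) := by rw [map_neg, map_ofNat]
    rw [this, coeff_C_mul, coeff_C_mul]
    ring
  -- the right side
  have hR : (LL (RR p) (N + b) * ((1 - X) * qq2 (RR p) ^ 2) ^ b).coeff (2 * N)
      = (b.choose N : RR p) * (-50000) ^ N * (2 * 104976 ^ (p ^ 2)) := by
    rw [expand, finsetSum_coeff, Finset.sum_eq_single N]
    · rw [coeff_C_mul, coeff_X_pow_mul', if_pos le_rfl, Nat.sub_self]
      congr 1
      have : N + b + (b - N) = p ^ 2 - 1 := by omega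
      rw [this, LL, qq2]
      simp only [coeff_zero_eq_eval_zero, eval_mul, eval_pow, eval_sub, eval_C, eval_X, eval_neg,
        eval_ofNat]
      exact const_aux (RR p) (p ^ 2) (by omega)
    · intro k hk hkN
      rw [coeff_C_mul, coeff_X_pow_mul']
      split_ifs with hle
      · have hkN' : k < N := by omega
        have : N + b + (b - k) = p ^ 2 + (N - k) - 1 := by omega
        rw [this]
        have h2 : 2 * N - 2 * k = 2 * (N - k) := by omega
        rw [h2, LL_coeff hp (by omega) (by omega), mul_zero]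
      · rw [mul_zero]
    · intro hN'
      exact absurd (Finset.mem_range.mpr (by omega)) hN'
  rw [hL] at hR
  -- cancel the unit
  have hu : IsUnit ((36 * 324 : RR p)) := by
    have : ((36 * 324 : ℕ) : RR p) = 36 * 324 := by push_cast; norm_num
    rw [← this]
    apply isUnit_nat hp
    intro hd
    have h6 : p ∣ 2 ^ 4 * 3 ^ 6 := by
      have : 36 * 324 = 2 ^ 4 * 3 ^ 6 := by norm_num
      rwa [← this]
    rcases (hp.dvd_mul).mp h6 with h | h
    · have := (Nat.prime_dvd_prime_iff_eq hp Nat.prime_two).mp (hp.dvd_of_dvd_pow h)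
      omega
    · have := (Nat.prime_dvd_prime_iff_eq hp Nat.prime_three).mp (hp.dvd_of_dvd_pow h)
      omega
  have h9 : (9 : RR p) ^ (p ^ 2) = 9 ^ p := by
    have h9u : IsUnit (9 : RR p) := by
      have : ((9 : ℕ) : RR p) = 9 := by push_cast; rfl
      rw [← this]
      apply isUnit_nat hp
      intro hd
      have h' : p ∣ 3 ^ 2 := by norm_num; exact hd
      have := (Nat.prime_dvd_prime_iff_eq hp Nat.prime_three).mp (hp.dvd_of_dvd_pow h')
      omega
    obtain ⟨u, hu9⟩ := h9u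
    rw [← hu9]
    have hphi := ZMod.pow_totient u
    rw [Nat.totient_prime_pow hp (by norm_num)] at hphi
    have hexp : p ^ 2 = p ^ (2 - 1) * (p - 1) + p := by
      obtain ⟨s, hs⟩ : ∃ s, p = s + 1 := ⟨p - 1, by omega⟩
      rw [hs]; simp; ring
    have hval : (u : RR p) ^ (p ^ (2 - 1) * (p - 1)) = 1 := by
      rw [← Units.val_pow_eq_pow_val, hphi, Units.val_one]
    calc (u : RR p) ^ (p ^ 2) = (u : RR p) ^ (p ^ (2 - 1) * (p - 1) + p) := by rw [← hexp]
      _ = (u : RR p) ^ p := by rw [pow_add, hval, one_mul]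
  have h104 : (104976 : RR p) ^ (p ^ 2) = (36 * 324) ^ (p ^ 2) * 9 ^ p := by
    rw [← h9, ← mul_pow]
    norm_num
  rw [h104] at hR
  have hch := choose_half hp hN hb
  have hup := hu.pow (p ^ 2)
  have key : (36 * 324 : RR p) ^ (p ^ 2) * (3 * (WW p N b).coeff (2 * N))
      = (36 * 324 : RR p) ^ (p ^ 2) * ((b.choose N : RR p) * (-50000) ^ N * (2 * 9 ^ p)) := by
    linear_combination hR
  have key2 := hup.mul_left_cancel key
  rw [key2]
  have h1 : ((-1 : RR p) ^ N) * (-1) ^ N = 1 := by rw [← mul_pow]; simp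
  have h5 : ((-50000 : RR p)) ^ N = (-1) ^ N * 50000 ^ N := by rw [← mul_pow]; norm_num
  rw [h5]
  linear_combination ((-1) ^ N * 50000 ^ N * (2 * 9 ^ p)) * hch
    + (2 * 9 ^ p * ((2 * N).choose N : RR p) * 50000 ^ N) * h1

end Pool.Agent.Lib.MP_ff9ca0_nt
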