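import Pool.Agent.Lib.MP_ff9ca0_nt.TT1

/-!
Comparison of the two products.
-/

namespace Pool.Agent.Lib.MP_ff9ca0_nt

open Finset Polynomial

private theorem TT4_b {p N b : ℕ} (hN : p = 4 * N + 1) (hb : p ^ 2 = 2 * b + 1) :
    b = 2 * N * p + 2 * N := by
  subst hN
  have h : (4 * N + 1) ^ 2 = 2 * (2 * N * (4 * N + 1) + 2 * N) + 1 := by ring
  omega

private theorem TT4_e1 {p N b : ℕ} (hN : p = 4 * N + 1) (hb : p ^ 2 = 2 * b + 1) :
    p ^ 2 - 2 * N - 1 = b + 2 * N * p := by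
  have h := TT4_b hN hb
  omega

private theorem TT4_e2 {p N b e : ℕ} (hN : p = 4 * N + 1) (hb : p ^ 2 = 2 * b + 1)
    (he : e + p * N = N + b) : e = 3 * N + N * p := by
  have h := TT4_b hN hb
  have h1 : p * N = N * p := mul_comm _ _
  have h2 : 2 * N * p = N * p + N * p := by ring
  omega

/-- exact identity between the two products -/
theorem WW_rel {p N b e : ℕ} (hN : p = 4 * N + 1) (hb : p ^ 2 = 2 * b + 1)
    (he : e + p * N = N + b) :
    (((C 81 - X) ^ e * (1 - X) ^ (p ^ 2 - 2 * N - 1) : (RR p)[X])) * ((C 81 - X) ^ p) ^ N *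
      (C 6 - X) ^ p = WW p N b * ((1 - X) ^ p) ^ (2 * N) := by
  unfold WW
  rw [TT4_e1 hN hb, ← he]
  rw [← pow_mul, ← pow_mul, pow_add, pow_add, mul_comm p (2 * N)]
  ring

private theorem TT4_coeff {p : ℕ} {F G : (ZMod p)[X]}
    (h : Ideal.Quotient.mk (Ideal.span {(X ^ p : (ZMod p)[X])}) F =
      Ideal.Quotient.mk (Ideal.span {(X ^ p : (ZMod p)[X])}) G) {i : ℕ} (hi : i < p) :
    F.coeff i = G.coeff i := by
  rw [Ideal.Quotient.eq, Ideal.mem_span_singleton] at h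
  obtain ⟨u, hu⟩ := h
  have h2 : (F - G).coeff i = 0 := by
    rw [hu, coeff_X_pow_mul', if_neg (by omega)]
  rw [coeff_sub, sub_eq_zero] at h2
  exact h2

private theorem TT4_mk {p : ℕ} [hp : Fact p.Prime] (a : ZMod p) :
    Ideal.Quotient.mk (Ideal.span {(X ^ p : (ZMod p)[X])}) ((C a - X) ^ p) =
      Ideal.Quotient.mk (Ideal.span {(X ^ p : (ZMod p)[X])}) (C a) := by
  rw [Ideal.Quotient.eq, Ideal.mem_span_singleton]
  rw [sub_pow_char, ← C_pow, ZMod.pow_card]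
  exact ⟨-1, by ring⟩

private theorem TT4_mk1 {p : ℕ} [hp : Fact p.Prime] :
    Ideal.Quotient.mk (Ideal.span {(X ^ p : (ZMod p)[X])}) ((1 - X) ^ p) = 1 := by
  have h := TT4_mk (p := p) 1
  rw [C_1] at h
  rw [h, map_one]

private theorem TT4_ell {p : ℕ} (c : ℕ) :
    (ellc p (RR p) c).map (red p) = ellc p (ZMod p) c := by
  unfold ellc
  rw [Polynomial.map_sum]
  apply Finset.sum_congr rfl
  intro j _
  rw [Polynomial.map_mul, Polynomial.map_pow, Polynomial.map_X, Polynomial.map_C]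
  congr 2
  rw [map_mul, map_mul, map_pow, map_pow, map_neg, map_one, map_natCast, map_natCast]

private theorem TT4_kl {p N : ℕ} [hp : Fact p.Prime] (hN : p = 4 * N + 1) (c : ℕ) :
    kl p N c = (((1 - X) ^ (2 * N) * (C 81 - X) ^ (3 * N)) * ellc p (ZMod p) c).coeff (2 * N) := by
  unfold kl P0
  have h1 : p - 1 = 2 * N + 2 * N := by omega
  have h2 : X ^ (2 * N) * (1 - X) ^ (2 * N) * (C 81 - X) ^ (3 * N) * ellc p (ZMod p) c =
      X ^ (2 * N) * (((1 - X) ^ (2 * N) * (C 81 - X) ^ (3 * N)) * ellc p (ZMod p) c) := by ring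
  rw [h1, h2, coeff_X_pow_mul]

private theorem TT4_81 {p N : ℕ} [hp : Fact p.Prime] (hN : p = 4 * N + 1) (h7 : 7 ≤ p) :
    (81 : ZMod p) ^ (2 * N) = 1 := by
  have h9 : (9 : ZMod p) ≠ 0 := by
    intro h
    have h2 : ((9 : ℕ) : ZMod p) = 0 := by exact_mod_cast h
    rw [ZMod.natCast_eq_zero_iff] at h2
    have h3 : p ∣ 3 := by
      have : p ∣ 3 * 3 := by simpa using h2
      rcases (Nat.Prime.dvd_mul hp.out).1 this with h | h <;> exact h
    have := Nat.le_of_dvd (by norm_num) h3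
    omega
  have h3 : (81 : ZMod p) ^ (2 * N) = 9 ^ (p - 1) := by
    have e : (81 : ZMod p) = 9 ^ 2 := by norm_num
    rw [e, ← pow_mul]
    congr 1
    omega
  rw [h3]
  exact ZMod.pow_card_sub_one_eq_one h9

private theorem TT4_pow {p : ℕ} [hp : Fact p.Prime] (a : ZMod p) (r m : ℕ) :
    Ideal.Quotient.mk (Ideal.span {(X ^ p : (ZMod p)[X])}) ((C a - X) ^ (r + p * m)) =
      Ideal.Quotient.mk (Ideal.span {(X ^ p : (ZMod p)[X])}) ((C a - X) ^ r * C (a ^ m)) := by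
  rw [pow_add, pow_mul, map_mul, map_pow _ ((C a - X) ^ p) m, TT4_mk, ← map_pow, ← map_mul, C_pow]

/-- reduction modulo `p` of `[X^(2N)] (W ell_c)` and `[X^(2N)] (W' ell_c)`.

Proof: modulo `p` and `X^p`, `(c-X)^p = c`, so with `V = (81-X)^(3N) (1-X)^(2N)` (`P₀ = X^(2N) V`),
`W = 6 V` (`N+b = 3N + 2Np`, `b = 2N + 2Np`, `81^(2N) = 1`) and
`(81-X)^e (1-X)^(p^2-2N-1) = 81^N V` (`e = 3N + Np`, `p^2-2N-1 = 2N + (p-1)p`). -/
theorem WW_red {p N b : ℕ} [hp : Fact p.Prime] (hN : p = 4 * N + 1) (h7 : 7 ≤ p)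
    (hb : p ^ 2 = 2 * b + 1) (c : ℕ) :
    red p ((WW p N b * ellc p (RR p) c).coeff (2 * N)) = 6 * kl p N c := by
  have hbb := TT4_b hN hb
  rw [← Polynomial.coeff_map, Polynomial.map_mul, TT4_ell, TT4_kl hN, ← coeff_C_mul]
  apply TT4_coeff _ (by omega)
  have h1 : N + b = 3 * N + p * (2 * N) := by rw [hbb]; ring
  have h2 : b = 2 * N + p * (2 * N) := by rw [hbb]; ring
  have hW : (WW p N b).map (red p) =
      (C 81 - X) ^ (3 * N + p * (2 * N)) * (C 6 - X) ^ (0 + p * 1) *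
        (C 1 - X) ^ (2 * N + p * (2 * N)) := by
    unfold WW
    rw [← h1, ← h2, Polynomial.map_mul, Polynomial.map_mul, Polynomial.map_pow, Polynomial.map_pow,
      Polynomial.map_pow, Polynomial.map_sub, Polynomial.map_sub, Polynomial.map_sub,
      Polynomial.map_X, Polynomial.map_C, Polynomial.map_C, Polynomial.map_one, C_1, zero_add,
      mul_one, map_ofNat (red p) 81, map_ofNat (red p) 6]
  rw [hW, map_mul, map_mul, map_mul, TT4_pow, TT4_pow, TT4_pow, TT4_81 hN h7, ← map_mul, ← map_mul,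
    ← map_mul]
  congr 1
  rw [one_pow, pow_one, C_1]
  ring

theorem WT_red {p N b e : ℕ} [hp : Fact p.Prime] (hN : p = 4 * N + 1) (h7 : 7 ≤ p)
    (hb : p ^ 2 = 2 * b + 1) (he : e + p * N = N + b) (c : ℕ) :
    red p ((((C 81 - X) ^ e * (1 - X) ^ (p ^ 2 - 2 * N - 1) : (RR p)[X]) *
      ellc p (RR p) c).coeff (2 * N)) = 81 ^ N * kl p N c := by
  have hbb := TT4_b hN hb
  have h1 : e = 3 * N + p * N := by rw [TT4_e2 hN hb he]; ring
  have h2 : p ^ 2 - 2 * N - 1 = 2 * N + p * (4 * N) := by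
    rw [TT4_e1 hN hb, hbb]; ring
  rw [← Polynomial.coeff_map, Polynomial.map_mul, TT4_ell, TT4_kl hN, ← coeff_C_mul]
  apply TT4_coeff _ (by omega)
  have hW : ((C 81 - X) ^ e * (1 - X) ^ (p ^ 2 - 2 * N - 1) : (RR p)[X]).map (red p) =
      (C 81 - X) ^ (3 * N + p * N) * (C 1 - X) ^ (2 * N + p * (4 * N)) := by
    rw [← h1, ← h2, Polynomial.map_mul, Polynomial.map_pow, Polynomial.map_pow,
      Polynomial.map_sub, Polynomial.map_sub, Polynomial.map_X, Polynomial.map_C,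
      Polynomial.map_one, C_1, map_ofNat (red p) 81]
  rw [hW, map_mul, map_mul, TT4_pow, TT4_pow, ← map_mul, ← map_mul]
  congr 1
  rw [one_pow, C_1]
  ring

end Pool.Agent.Lib.MP_ff9ca0_nt
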