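import Pool.Agent.Lib.MP_ff9ca0_nt.TT2
import Pool.Agent.Lib.MP_ff9ca0_nt.TT3
import Pool.Agent.Lib.MP_ff9ca0_nt.TT4
import Pool.Agent.Lib.MP_ff9ca0_nt.KC5

/-!
The value of `∑_j ct e n j 81^j` modulo `p^2`, `p = 4N+1`.
-/

namespace Pool.Agent.Lib.MP_ff9ca0_nt

open Finset Polynomial

private theorem that_pow_add {A : Type*} [CommRing A] {π : A} (h : π ^ 2 = 0) (a l : A) (m : ℕ) :
    (a + π * l) ^ (m + 1) = a ^ (m + 1) + (m + 1 : ℕ) * (π * (a ^ m * l)) := by
  induction m with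
  | zero => simp
  | succ m ih =>
    rw [pow_succ, ih]
    push_cast
    linear_combination ((m + 1 : A) * a ^ m * l ^ 2) * h

private theorem that_dvd_pow {A : Type*} [CommRing A] {x a b : A} (h : x ∣ a - b) (m : ℕ) :
    x ∣ a ^ m - b ^ m := h.trans (sub_dvd_pow_sub_pow a b m)

/-- expansion of the relation modulo `X^p` -/
private theorem that_coeff {p N : ℕ} (hp : p.Prime) (hN : p = 4 * N + 1) (h7 : 7 ≤ p)
    (WT W : (RR p)[X])
    (h : WT * ((C 81 - X) ^ p) ^ N * (C 6 - X) ^ p = W * ((1 - X) ^ p) ^ (2 * N)) :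
    (81 : RR p) ^ (p * N) * 6 ^ p * WT.coeff (2 * N) +
      p * (N * (81 ^ (p * (N - 1)) * 6 ^ p) * (WT * ellc p (RR p) 81).coeff (2 * N) +
        81 ^ (p * N) * (WT * ellc p (RR p) 6).coeff (2 * N)) =
      W.coeff (2 * N) + p * ((2 * N : ℕ) * (W * ellc p (RR p) 1).coeff (2 * N)) := by
  have h2 : p ≠ 2 := by omega
  obtain ⟨M, rfl⟩ : ∃ M, N = M + 1 := ⟨N - 1, by omega⟩
  have hpp : (C (p : RR p) : (RR p)[X]) ^ 2 = 0 := by
    rw [← C_pow, pp, C_0]
  have e81 : (C 81 - X : (RR p)[X]) ^ p = C ((81 : RR p) ^ p) + C (p : RR p) * ellc p (RR p) 81 - X ^ p := by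
    have := sub_X_pow hp h2 (RR p) 81
    exact_mod_cast this
  have e6 : (C 6 - X : (RR p)[X]) ^ p = C ((6 : RR p) ^ p) + C (p : RR p) * ellc p (RR p) 6 - X ^ p := by
    have := sub_X_pow hp h2 (RR p) 6
    exact_mod_cast this
  have e1 : (1 - X : (RR p)[X]) ^ p = C ((1 : RR p) ^ p) + C (p : RR p) * ellc p (RR p) 1 - X ^ p := by
    have := sub_X_pow hp h2 (RR p) 1
    simpa using this
  have d81 : (X : (RR p)[X]) ^ p ∣ ((C 81 - X : (RR p)[X]) ^ p) ^ (M + 1) -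
      (C ((81 : RR p) ^ p) + C (p : RR p) * ellc p (RR p) 81) ^ (M + 1) := by
    apply that_dvd_pow
    rw [e81]
    exact ⟨-1, by ring⟩
  have d6 : (X : (RR p)[X]) ^ p ∣ (C 6 - X : (RR p)[X]) ^ p -
      (C ((6 : RR p) ^ p) + C (p : RR p) * ellc p (RR p) 6) := by
    rw [e6]
    exact ⟨-1, by ring⟩
  have d1 : (X : (RR p)[X]) ^ p ∣ ((1 - X : (RR p)[X]) ^ p) ^ (2 * (M + 1)) -
      (C ((1 : RR p) ^ p) + C (p : RR p) * ellc p (RR p) 1) ^ (2 * (M + 1)) := by
    apply that_dvd_pow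
    rw [e1]
    exact ⟨-1, by ring⟩
  obtain ⟨u81, hu81⟩ := d81
  obtain ⟨u6, hu6⟩ := d6
  obtain ⟨u1, hu1⟩ := d1
  rw [that_pow_add hpp] at hu81
  rw [show 2 * (M + 1) = (2 * M + 1) + 1 by ring, that_pow_add hpp] at hu1
  have hD : (X : (RR p)[X]) ^ p ∣
      (WT * (C ((81 : RR p) ^ p) ^ (M + 1) + ((M + 1 : ℕ) : (RR p)[X]) * (C (p : RR p) *
        (C ((81 : RR p) ^ p) ^ M * ellc p (RR p) 81))) *
        (C ((6 : RR p) ^ p) + C (p : RR p) * ellc p (RR p) 6)) -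
      (W * (C ((1 : RR p) ^ p) ^ (2 * M + 1 + 1) + ((2 * M + 1 + 1 : ℕ) : (RR p)[X]) *
        (C (p : RR p) * (C ((1 : RR p) ^ p) ^ (2 * M + 1) * ellc p (RR p) 1)))) := by
    refine ⟨-(WT * u81 * (C ((6 : RR p) ^ p) + C (p : RR p) * ellc p (RR p) 6)) -
      WT * ((C 81 - X : (RR p)[X]) ^ p) ^ (M + 1) * u6 + W * u1, ?_⟩
    rw [show 2 * (M + 1) = (2 * M + 1) + 1 by ring] at h
    linear_combination h - (WT * (C ((6 : RR p) ^ p) + C (p : RR p) * ellc p (RR p) 6)) * hu81 -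
      WT * ((C 81 - X : (RR p)[X]) ^ p) ^ (M + 1) * hu6 + W * hu1
  have hc := (X_pow_dvd_iff.mp hD) (2 * (M + 1)) (by omega)
  have hL : (WT * (C ((81 : RR p) ^ p) ^ (M + 1) + ((M + 1 : ℕ) : (RR p)[X]) * (C (p : RR p) *
        (C ((81 : RR p) ^ p) ^ M * ellc p (RR p) 81))) *
        (C ((6 : RR p) ^ p) + C (p : RR p) * ellc p (RR p) 6)) =
      C ((81 : RR p) ^ (p * (M + 1)) * 6 ^ p) * WT +
        C ((p : RR p) * (((M + 1 : ℕ) : RR p) * (81 ^ (p * M) * 6 ^ p))) * (WT * ellc p (RR p) 81) +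
        C ((p : RR p) * 81 ^ (p * (M + 1))) * (WT * ellc p (RR p) 6) := by
    simp only [C_mul, C_pow, pow_mul, C_eq_natCast]
    simp only [C_eq_natCast] at hpp
    linear_combination (WT * ((M + 1 : ℕ) : (RR p)[X]) * ((C (81 : RR p) ^ p) ^ M *
      ellc p (RR p) 81) * ellc p (RR p) 6) * hpp
  have hR : (W * (C ((1 : RR p) ^ p) ^ (2 * M + 1 + 1) + ((2 * M + 1 + 1 : ℕ) : (RR p)[X]) *
        (C (p : RR p) * (C ((1 : RR p) ^ p) ^ (2 * M + 1) * ellc p (RR p) 1)))) =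
      W + C ((p : RR p) * ((2 * (M + 1) : ℕ) : RR p)) * (W * ellc p (RR p) 1) := by
    simp only [one_pow, C_1, C_mul, C_eq_natCast]
    rw [show 2 * (M + 1) = (2 * M + 1) + 1 by ring]
    ring
  rw [hL, hR] at hc
  simp only [coeff_sub, coeff_add, coeff_C_mul] at hc
  rw [Nat.add_sub_cancel]
  linear_combination hc

/-- Proof.  Write `(c-X)^p = c^p + p ell_c` modulo `X^p` (`sub_X_pow`), expand `WW_rel` modulo `X^p`
(using `p^2 = 0`) and take the coefficient of `X^(2N)`; with `ct_coeff`, `WW_red`, `WT_red`,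
`kl_main` and `E1` (see the notes, section `That`). -/
theorem That_eq {p N e : ℕ} [hp : Fact p.Prime] (hN : p = 4 * N + 1) (h7 : 7 ≤ p)
    (he : 4 * e = 8 * N + p ^ 2 - 1) {J : RR p}
    (hJ : 4 * red p J + 2 * (qf p 2 : ZMod p) + 5 * (qf p 5 : ZMod p) = 0) :
    (∑ j ∈ range (2 * N + 1), (ct e (2 * N) j : RR p) * 81 ^ j) * 4 ^ N =
      5 ^ (5 * N) * ((2 * N).choose N : RR p) * (1 + p * J) := by
  have hpr := hp.out
  have hp2 : p ^ 2 = 16 * N ^ 2 + 8 * N + 1 := by rw [hN]; ring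
  obtain ⟨b, hb⟩ : ∃ b, p ^ 2 = 2 * b + 1 := ⟨8 * N ^ 2 + 4 * N, by rw [hp2]; ring⟩
  have hbv : b = 8 * N ^ 2 + 4 * N := by omega
  have hev : e = 4 * N ^ 2 + 4 * N := by omega
  have he' : e + p * N = N + b := by
    rw [hev, hbv, hN]; ring
  have hrel := WW_rel (p := p) hN hb he'
  set WT : (RR p)[X] := (C 81 - X) ^ e * (1 - X) ^ (p ^ 2 - 2 * N - 1) with hWT
  have hco := that_coeff hpr hN h7 WT (WW p N b) hrel
  have hct := ct_coeff (p := p) (n := 2 * N) (e := e) hpr (even_two_mul N) (by omega) (by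
    rw [hev]; nlinarith)
  rw [← hWT] at hct
  set τ : RR p := ∑ j ∈ range (2 * N + 1), (ct e (2 * N) j : RR p) * 81 ^ j with hτ
  have hE1 := E1 hpr hN h7 hb
  set w : RR p := (WW p N b).coeff (2 * N) with hw
  -- reductions
  have r81 := WT_red hN h7 hb he' 81
  have r6 := WT_red hN h7 hb he' 6
  have r1 := WW_red hN h7 hb 1
  rw [← hWT] at r81 r6
  have hkm := kl_main h7 hN
  have hN4 : (4 : ZMod p) * N = -1 := by
    have := congrArg (Nat.cast : ℕ → ZMod p) hN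
    push_cast at this
    rw [ZMod.natCast_self] at this
    linear_combination -this
  have hne : ∀ m : ℕ, 0 < m → m < 7 → (m : ZMod p) ≠ 0 := by
    intro m hm0 hm h0
    rw [ZMod.natCast_eq_zero_iff] at h0
    have := Nat.le_of_dvd hm0 h0
    omega
  have h3 : (3 : ZMod p) ≠ 0 := by exact_mod_cast hne 3 (by norm_num) (by norm_num)
  have h2' : (2 : ZMod p) ≠ 0 := by exact_mod_cast hne 2 (by norm_num) (by norm_num)
  have hfer : ∀ x : ZMod p, x ^ p = x := fun x => ZMod.pow_card x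
  have hN1 : 1 ≤ N := by omega
  have h81sq : (81 : ZMod p) ^ (2 * N) = 1 := by
    have h3p : (3 : ZMod p) ^ (p - 1) = 1 := ZMod.pow_card_sub_one_eq_one h3
    rw [show (81 : ZMod p) = 3 ^ 4 by norm_num, ← pow_mul, show 4 * (2 * N) = (p - 1) * 2 by omega,
      pow_mul, h3p, one_pow]
  -- the combination modulo p
  set A : RR p := N * (81 ^ (p * (N - 1)) * 6 ^ p) * (WT * ellc p (RR p) 81).coeff (2 * N) +
        81 ^ (p * N) * (WT * ellc p (RR p) 6).coeff (2 * N) -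
        (2 * N : ℕ) * (WW p N b * ellc p (RR p) 1).coeff (2 * N) with hA
  have hco' : (81 : RR p) ^ (p * N) * 6 ^ p * WT.coeff (2 * N) + p * A = w := by
    rw [hA]
    linear_combination hco
  set A0' : RR p := 50000 ^ N * ((-1) ^ N * ((2 * N).choose N : RR p)) with hA0'
  have hredA0 : red p A0' = A0 p N := by
    rw [hA0', A0]
    simp only [map_mul, map_pow, map_neg, map_one, map_ofNat, red_nat]
  have hredA : red p (162 * A) = red p (-(972 * (A0' * J))) := by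
    have t1 : red p (162 * A) = 162 * (N * (81 ^ (N - 1) * 6) * (81 ^ N * kl p N 81) +
        81 ^ N * (81 ^ N * kl p N 6) - 2 * N * (6 * kl p N 1)) := by
      rw [hA]
      simp only [map_mul, map_sub, map_add, map_pow, map_ofNat, red_nat, r81, r6, r1, pow_mul, hfer]
      push_cast
      ring
    have t2 : red p (-(972 * (A0' * J))) = -(972 * (A0 p N * red p J)) := by
      simp only [map_neg, map_mul, map_ofNat, hredA0]
    rw [t1, t2]
    obtain ⟨M, rfl⟩ : ∃ M, N = M + 1 := ⟨N - 1, by omega⟩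
    rw [Nat.add_sub_cancel]
    have hq : (81 : ZMod p) ^ M * 81 ^ (M + 1) * 81 = 1 := by
      rw [← h81sq]; ring
    have hq' : (81 : ZMod p) ^ (M + 1) * 81 ^ (M + 1) = 1 := by
      rw [← h81sq]; ring
    linear_combination (12 * ((M + 1 : ℕ) : ZMod p) * kl p (M + 1) 81) * hq +
      162 * kl p (M + 1) 6 * hq' + (3 * kl p (M + 1) 81 - 486 * kl p (M + 1) 1) * hN4 - hkm +
      243 * A0 p (M + 1) * hJ
  have hpA : (p : RR p) * (162 * A) = p * (-(972 * (A0' * J))) := p_mul_eq hredA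
  -- powers of 3
  have h3u : Nat.Coprime 3 (p ^ 2) := by
    apply Nat.Coprime.pow_right
    rw [Nat.coprime_primes Nat.prime_three hpr]
    omega
  have h3pow : (3 : RR p) ^ (p * (p - 1)) = 1 := by
    have := ZMod.pow_totient (ZMod.unitOfCoprime 3 h3u)
    rw [Nat.totient_prime_pow hpr (by norm_num : 0 < 2)] at this
    have h' := congrArg (Units.val) this
    simp only [Units.val_pow_eq_pow_val, ZMod.coe_unitOfCoprime, Units.val_one] at h'
    have : p ^ (2 - 1) * (p - 1) = p * (p - 1) := by simp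
    rw [this] at h'
    exact_mod_cast h'
  have hexp : (81 : RR p) ^ (p * N) * 81 ^ (e - 2 * N) = 3 ^ (p - 1) := by
    rw [← pow_add, show (81 : RR p) = 3 ^ 4 by norm_num, ← pow_mul]
    have hee : 4 * (p * N + (e - 2 * N)) = p * (p - 1) * 2 + (p - 1) := by
      have h1 : p - 1 = 4 * N := by omega
      have h2 : e - 2 * N = 4 * N ^ 2 + 2 * N := by omega
      rw [h1, h2, hN]; ring
    rw [hee, pow_add, pow_mul, h3pow, one_pow, one_mul]
  -- p * 4^N * A0'
  have hpA0 : (p : RR p) * (4 ^ N * A0') = p * (50000 ^ N * ((2 * N).choose N : RR p)) := by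
    apply p_mul_eq
    rw [hA0']
    simp only [map_mul, map_pow, map_neg, map_one, map_ofNat, red_nat]
    have := neg_four_pow hpr hN
    have h4 : (4 : ZMod p) ^ N * (-1) ^ N = 1 := by
      rw [← mul_pow, show (4 : ZMod p) * (-1) = -4 by ring]; exact this
    linear_combination ((50000 : ZMod p) ^ N * ((2 * N).choose N : ZMod p)) * h4
  have hp9 : (p : RR p) * 9 ^ p = p * 9 := by
    apply p_mul_eq
    simp only [map_pow, map_ofNat, hfer]
  -- final combination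
  have hfin : 162 * 9 ^ p * 2 ^ p * (τ * 4 ^ N) =
      162 * 9 ^ p * 2 ^ p * (5 ^ (5 * N) * ((2 * N).choose N : RR p) * (1 + p * J)) := by
    have h50 : (50000 : RR p) ^ N * 2 = 2 ^ p * 5 ^ (5 * N) := by
      rw [show (50000 : RR p) = 2 ^ 4 * 5 ^ 5 by norm_num, mul_pow, ← pow_mul, ← pow_mul]
      have : (2 : RR p) ^ p = 2 ^ (4 * N) * 2 := by
        rw [← pow_succ]; congr 1
      rw [this]; ring
    have h3p : (3 : RR p) ^ p = 3 ^ (p - 1) * 3 := by
      rw [← pow_succ]; congr 1; omega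
    have h18 : (6 : RR p) ^ p * 3 ^ p = 2 ^ p * 9 ^ p := by
      rw [← mul_pow, ← mul_pow]; norm_num
    have hmain : (81 : RR p) ^ (p * N) * 6 ^ p * (81 ^ (e - 2 * N) * τ) + p * A = w := by
      rw [hct]; exact hco'
    -- 3^(p-1) * 6^p * τ + p A = w
    have hm2 : (3 : RR p) ^ (p - 1) * 6 ^ p * τ + p * A = w := by
      rw [← hexp]; linear_combination hmain
    -- multiply by 3 * 162 * 4^N
    have hm3 : 2 ^ p * 9 ^ p * (162 * (τ * 4 ^ N)) =
        162 * (3 * w * 4 ^ N) + 3 * 4 ^ N * (972 * (p * (A0' * J))) := by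
      rw [← h18, h3p]
      linear_combination (3 * 162 * 4 ^ N) * hm2 - (3 * 4 ^ N) * hpA
    have hE1' : 3 * w * 4 ^ N = 2 * 9 ^ p * ((2 * N).choose N : RR p) * 50000 ^ N := hE1
    linear_combination hm3 + 162 * hE1' + (2916 * J) * hpA0 -
      (324 * J * (50000 ^ N * ((2 * N).choose N : RR p))) * hp9 +
      (162 * 9 ^ p * ((2 * N).choose N : RR p) * (1 + p * J)) * h50
  have hunit : IsUnit ((162 : RR p) * 9 ^ p * 2 ^ p) := by
    apply isUnit_red hpr
    simp only [map_mul, map_pow, map_ofNat, hfer]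
    rw [show (162 : ZMod p) * 9 * 2 = 2 ^ 2 * 3 ^ 6 by norm_num]
    exact mul_ne_zero (pow_ne_zero _ h2') (pow_ne_zero _ h3)
  exact hunit.mul_left_cancel hfin

end Pool.Agent.Lib.MP_ff9ca0_nt
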