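import Pool.Agent.Lib.MP_ff9ca0_nt.CZero
import Pool.Agent.Lib.MP_ff9ca0_nt.Ode1
import Pool.Agent.Lib.MP_ff9ca0_nt.Ode2
import Pool.Agent.Lib.MP_ff9ca0_nt.Sig4
import Pool.Agent.Lib.MP_ff9ca0_nt.Prod3
import Pool.Agent.Lib.MP_ff9ca0_nt.That
import Pool.Agent.Lib.MP_ff9ca0_nt.PC2
import Pool.Agent.Lib.MP_ff9ca0_nt.Lemn
import Pool.Agent.Lib.MP_ff9ca0_nt.Quart

/-!
Assembly.
-/

namespace Pool.Agent.Lib.MP_ff9ca0_nt

open Finset Polynomial

/-- `T_n(b,c)`: the coefficient of `x^n` in `(x^2+bx+c)^n` -/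
noncomputable def T (b c : ℤ) (n : ℕ) : ℤ := ((X ^ 2 + C b * X + C c : ℤ[X]) ^ n).coeff n

/-- `S(p)` -/
noncomputable def S (p : ℕ) : ℚ :=
  ∑ j ∈ range p, ((2 * j).choose j : ℚ) * (T 9 20 (2 * j) : ℚ) ^ 2 / 4 ^ j

/-- `a ≡ b` modulo `p^2` in the ring of rationals whose denominator is prime to `p` -/
def CongSq (p : ℕ) (a b : ℚ) : Prop := ∃ r : ℚ, ¬ p ∣ r.den ∧ a - b = (p : ℚ) ^ 2 * r

/-- the sum in `RR p` -/
noncomputable def SR (p : ℕ) (q4 : RR p) : RR p :=
  ∑ j ∈ range p, ((2 * j).choose j : RR p) * q4 ^ j * (T 9 20 (2 * j) : RR p) ^ 2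

theorem congSq_of {p : ℕ} (hp : p.Prime) (h2 : p ≠ 2) {q4 : RR p} (h4 : 4 * q4 = 1) {b : ℤ}
    (h : SR p q4 = b) : CongSq p (S p) b := by
  -- `m = 4^p (S - b)` is an integer divisible by `p^2`
  set m : ℤ := ∑ j ∈ range p, ((2 * j).choose j : ℤ) * 4 ^ (p - j) * (T 9 20 (2 * j)) ^ 2 -
    4 ^ p * b with hm
  have h1 : (m : ℚ) = 4 ^ p * (S p - b) := by
    rw [hm]
    push_cast
    rw [S, mul_sub, mul_sum]
    congr 1
    apply sum_congr rfl
    intro j hj
    rw [mem_range] at hj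
    have : (4 : ℚ) ^ p = 4 ^ (p - j) * 4 ^ j := by rw [← pow_add]; congr 1; omega
    rw [this]
    field_simp
  have h3 : (m : RR p) = 0 := by
    rw [hm]
    push_cast
    rw [← h, SR, mul_sum, ← sum_sub_distrib]
    apply sum_eq_zero
    intro j hj
    rw [mem_range] at hj
    have e : (4 : RR p) ^ p = 4 ^ (p - j) * 4 ^ j := by rw [← pow_add]; congr 1; omega
    have e2 : (4 : RR p) ^ j * q4 ^ j = 1 := by rw [← mul_pow, h4, one_pow]
    rw [e]
    linear_combination (-(((2 * j).choose j : RR p) * 4 ^ (p - j) * (T 9 20 (2 * j) : RR p) ^ 2)) * e2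
  rw [int_eq_zero_iff] at h3
  obtain ⟨c, hc⟩ := h3
  refine ⟨(c : ℚ) / 4 ^ p, ?_, ?_⟩
  · intro hd
    have h5 : ((c : ℚ) / 4 ^ p).den ∣ 4 ^ p := by
      have := Rat.den_dvd c (4 ^ p)
      push_cast at this
      exact_mod_cast this
    have h6 : p ∣ 4 ^ p := hd.trans h5
    have h7 := hp.dvd_of_dvd_pow h6
    have h8 : p ∣ 2 ^ 2 := by norm_num; exact h7
    have h9 := hp.dvd_of_dvd_pow h8
    exact h2 ((Nat.prime_dvd_prime_iff_eq hp Nat.prime_two).mp h9)
  · have h5 : (4 : ℚ) ^ p ≠ 0 := by positivity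
    rw [hc] at h1
    push_cast at h1
    field_simp
    linarith

theorem exists_q4 {p : ℕ} (hp : p.Prime) (h2 : p ≠ 2) : ∃ q4 : RR p, 4 * q4 = 1 := by
  have h : ¬ p ∣ 4 := by
    intro hd
    have h8 : p ∣ 2 ^ 2 := by norm_num; exact hd
    exact h2 ((Nat.prime_dvd_prime_iff_eq hp Nat.prime_two).mp (hp.dvd_of_dvd_pow h8))
  obtain ⟨v, hv⟩ := isUnit_iff_exists_inv.mp (isUnit_nat hp h)
  exact ⟨v, by exact_mod_cast hv⟩

theorem SR_eq {p : ℕ} (q4 : RR p) : SR p q4 = ∑ j ∈ range p, ((2 * j).choose j : RR p) * q4 ^ j *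
      (∑ k ∈ range (2 * j + 1), ((2 * j + k).choose (2 * k) : RR p) *
        ((2 * k).choose k : RR p) ^ 2 * ((20 : ℤ) : RR p) ^ k) := by
  unfold SR T
  apply sum_congr rfl
  intro j _
  have := congrArg (Int.cast : ℤ → RR p) (T_sq (2 * j))
  push_cast at this ⊢
  rw [this]

/-- the recurrence for the coefficients -/
theorem u_rec {A : Type*} [CommRing A] {k : ℕ} {s s' : A} (hk : IsUnit ((k : A) + 1))
    (h : (4 * (k : A) + 5) * s' = -((k + 1) * s)) :
    ((k : A) + 1) * (4 * k + 5) * (((2 * (k + 1)).choose (k + 1) : A) ^ 2 * s') =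
      -(4 * (2 * k + 1) ^ 2 * (((2 * k).choose k : A) ^ 2 * s)) := by
  have h1 : ((k : A) + 1) * ((2 * (k + 1)).choose (k + 1) : A) =
      2 * (2 * k + 1) * ((2 * k).choose k : A) := by
    have := Nat.succ_mul_centralBinom_succ k
    unfold Nat.centralBinom at this
    have e := congrArg (Nat.cast : ℕ → A) this
    push_cast at e
    exact e
  apply hk.mul_left_cancel
  linear_combination ((2 * (k + 1)).choose (k + 1) : A) ^ 2 * ((k : A) + 1) ^ 2 * h -
    (((k : A) + 1) * ((2 * (k + 1)).choose (k + 1) : A) + 2 * (2 * k + 1) * ((2 * k).choose k : A)) *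
      ((k : A) + 1) * s * h1

theorem main_three {p r : ℕ} (hp : p.Prime) (hr : p = 4 * r + 3) (h7 : 7 ≤ p) {q4 : RR p}
    (h4 : 4 * q4 = 1) : SR p q4 = 0 := by
  haveI : Fact p.Prime := ⟨hp⟩
  obtain ⟨σ, h0, hrec, hmain⟩ := S_three hp hr h4
  rw [SR_eq]
  apply hmain
  have hpz : (p : ZMod p) = 0 := ZMod.natCast_self p
  have h4' : (4 : ZMod p) * red p q4 = 1 := by
    have := congrArg (red p) h4
    rwa [map_mul, map_ofNat, map_one] at this
  have hunit : ∀ a : ℕ, 0 < a → a < p → IsUnit (a : ZMod p) := by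
    intro a h1 h2
    rw [isUnit_iff_ne_zero]
    intro h
    rw [ZMod.natCast_eq_zero_iff] at h
    exact absurd (Nat.le_of_dvd h1 h) (by omega)
  have hrz : (p : ZMod p) = 4 * (r : ZMod p) + 3 := by
    have := congrArg (Nat.cast : ℕ → ZMod p) hr
    push_cast at this
    exact this
  have hp2 : (2 * ((2 * r + 1 : ℕ) : ZMod p) + 1) = 0 := by
    push_cast
    linear_combination hpz - hrz
  obtain ⟨c, hc1, hc2⟩ := expand_w (A := ZMod p) h4' (2 * r + 1)
    (fun k => ((2 * k).choose k : ZMod p) ^ 2 * σ k)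
    (fun k hk => by
      refine u_rec ?_ (hrec k hk)
      have := hunit (k + 1) (by omega) (by omega)
      push_cast at this
      exact this)
    (by rw [hp2]; ring)
  have he : 4 * ((r : ℕ) : ZMod p) = 4 * ((2 * r + 1 : ℕ) : ZMod p) - 1 := by
    have e : (4 * (r : ZMod p) + 3) = 0 := by rw [← hrz, hpz]
    have e2 := hp2
    push_cast at e2 ⊢
    linear_combination e - 2 * e2
  have hct := fun j hj => ct_rec (A := ZMod p) (e := r) (n := 2 * r + 1) he (by rw [hp2]; ring) j hj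
  have hcmp := compare_down hc2 hct (fun j hj => by
    apply IsUnit.pow
    have := hunit (2 * j + 1) (by omega) (by omega)
    push_cast at this
    exact this)
  have hC : IsUnit (ct r (2 * r + 1) (2 * r + 1) : ZMod p) := by
    unfold ct
    rw [Nat.sub_self, Nat.choose_zero_right, Nat.cast_one, mul_one]
    apply IsUnit.mul
    · exact (isUnit_one.neg).pow _
    · rw [isUnit_iff_ne_zero]
      intro h
      rw [ZMod.natCast_eq_zero_iff] at h
      exact not_dvd_choose hp (by omega) (by omega) h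
  have hT := partC hr h7
  have hsum := hc1 20
  have hkey : (∑ k ∈ range (2 * r + 1 + 1), ((2 * k).choose k : ZMod p) ^ 2 * σ k * 20 ^ k) *
      ct r (2 * r + 1) (2 * r + 1) = 0 := by
    rw [hsum, sum_mul]
    have : ∀ j ∈ range (2 * r + 1 + 1), c j * (1 + 4 * 20) ^ j * ct r (2 * r + 1) (2 * r + 1) =
        c (2 * r + 1) * (ct r (2 * r + 1) j * 81 ^ j) := by
      intro j hj
      rw [mem_range] at hj
      have := hcmp j (by omega)
      rw [show (1 + 4 * 20 : ZMod p) = 81 by norm_num]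
      linear_combination 81 ^ j * this
    rw [sum_congr rfl this, ← mul_sum, hT, mul_zero]
  have := hC.mul_left_eq_zero.mp hkey
  rw [← this]
  apply sum_congr rfl
  intro k _
  push_cast
  ring

theorem main_one {p N m n : ℕ} (hp : p.Prime) (hN : p = 4 * N + 1) (h7 : 7 ≤ p) {q4 : RR p}
    (h4 : 4 * q4 = 1) (h : m ^ 2 + n ^ 2 = p) (hm : Odd m) :
    ∃ ζ : RR p, ζ ^ 4 = 1 ∧ red p ζ = 5 ^ N ∧
      SR p q4 = ζ * (4 * (m : RR p) ^ 2 - 2 * p) := by
  have hF : Fact p.Prime := ⟨hp⟩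
  have hnd : ∀ a : ℕ, 0 < a → a < p → ¬ p ∣ a := fun a h1 h2 => Nat.not_dvd_of_pos_of_lt h1 h2
  have hpz : (p : ZMod p) = 0 := ZMod.natCast_self p
  -- the exponent `e`
  obtain ⟨b, hb⟩ : ∃ b, p ^ 2 = 2 * b + 1 := ⟨2 * (4 * N ^ 2 + 2 * N), by rw [hN]; ring⟩
  obtain ⟨e, he⟩ : ∃ e, 4 * e = 8 * N + p ^ 2 - 1 :=
    ⟨2 * N + (4 * N ^ 2 + 2 * N), by
      have : p ^ 2 = 4 * (4 * N ^ 2 + 2 * N) + 1 := by rw [hN]; ring
      omega⟩
  have heR : 4 * (e : RR p) = 4 * ((2 * N : ℕ) : RR p) - 1 := by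
    have h1 : 4 * e + 1 = 8 * N + p ^ 2 := by
      have : 1 ≤ p ^ 2 := Nat.one_le_pow _ _ hp.pos
      omega
    have h2 := congrArg (Nat.cast : ℕ → RR p) h1
    push_cast at h2 ⊢
    linear_combination h2 + pp p
  have hNR : 4 * (N : RR p) + 1 = p := by
    have := congrArg (Nat.cast : ℕ → RR p) hN
    push_cast at this
    exact this.symm
  have hnsq : (2 * ((2 * N : ℕ) : RR p) + 1) ^ 2 = 0 := by
    push_cast
    rw [show 2 * (2 * (N : RR p)) + 1 = p by rw [← hNR]; ring]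
    exact pp p
  -- the number `J`
  obtain ⟨J, hJ⟩ : ∃ J : RR p, 4 * J = -(2 * (qf p 2 : RR p) + 5 * (qf p 5 : RR p)) :=
    ⟨-(2 * (qf p 2 : RR p) + 5 * (qf p 5 : RR p)) * q4, by
      linear_combination (-(2 * (qf p 2 : RR p) + 5 * (qf p 5 : RR p))) * h4⟩
  have hJr : 4 * red p J + 2 * (qf p 2 : ZMod p) + 5 * (qf p 5 : ZMod p) = 0 := by
    have := congrArg (red p) hJ
    simp only [map_mul, map_neg, map_add, map_ofNat, red_int] at this
    linear_combination this
  have hThat := That_eq hN h7 he hJr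
  have hC0 := ct_zero_eq hp hN heR
  have hc0 := c_zero_eq hp hN h4
  have hcde := cde hp hN h hm
  -- the expansion
  obtain ⟨c, hc1, hc2⟩ := expand_w h4 (2 * N)
    (fun k => ((2 * k).choose k : RR p) ^ 2 * Sg q4 p k)
    (fun k hk => by
      refine u_rec ?_ (Sg_step_lo hp (n := 2 * N) (by omega) h4 hk)
      have := isUnit_nat hp (hnd (k + 1) (by omega) (by omega))
      push_cast at this
      exact this)
    (by rw [hnsq, zero_mul])
  have hct := fun j hj => ct_rec (A := RR p) (e := e) (n := 2 * N) heR hnsq j hj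
  have hcmp := compare_up hc2 hct (fun j hj => by
    have h1 := isUnit_nat hp (hnd (j + 1) (by omega) (by omega))
    have h2 : ¬ p ∣ 4 * j + 3 := by
      rintro ⟨d, hd⟩
      rcases d with _ | _ | d
      · omega
      · omega
      · have : p * (d + 1 + 1) = p * d + 2 * p := by ring
        omega
    have h3 := isUnit_nat hp h2
    push_cast at h1 h3
    exact h1.mul h3)
  set C0 : RR p := ((2 * N).choose N : RR p) with hC0def
  have hCu : IsUnit C0 := isUnit_nat hp (not_dvd_choose hp (by omega) (by omega))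
  have hu4 : IsUnit (4 : RR p) := IsUnit.of_mul_eq_one _ h4
  have hu5 : IsUnit (5 : RR p) := by
    have := isUnit_nat hp (hnd 5 (by omega) (by omega))
    exact_mod_cast this
  set τ : RR p := ∑ j ∈ range (2 * N + 1), (ct e (2 * N) j : RR p) * 81 ^ j with hτ
  -- value at `20`
  have hSR : SR p q4 = ∑ j ∈ range (2 * N + 1), c j * 81 ^ j := by
    rw [SR_eq, S_one hp hN h4]
    have := hc1 20
    rw [show (1 + 4 * 20 : RR p) = 81 by norm_num] at this
    rw [← this]
    apply sum_congr rfl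
    intro k _
    push_cast
    ring
  have hz := hc1 (-q4)
  have hz2 : ∑ j ∈ range (2 * N + 1), c j * (1 + 4 * -q4) ^ j = c 0 := by
    rw [show (1 + 4 * -q4 : RR p) = 0 by linear_combination -h4, sum_range_succ', sum_eq_zero]
    · simp
    · intro i _
      rw [zero_pow (by omega), mul_zero]
  rw [hz2] at hz
  have hc00 : c 0 * 16 ^ N = C0 ^ 2 := by
    rw [← hz, ← hc0]
    congr 1
    apply sum_congr rfl
    intro k _
    ring
  have hct0 : (ct e (2 * N) 0 : RR p) * 16 ^ N = (-1) ^ N * C0 := by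
    rw [← hC0]
    unfold ct
    simp
  have hprod : SR p q4 * ct e (2 * N) 0 = c 0 * τ := by
    rw [hSR, hτ, sum_mul, mul_sum]
    apply sum_congr rfl
    intro j hj
    rw [mem_range] at hj
    have := hcmp j (by omega)
    linear_combination 81 ^ j * this
  have hSR2 : SR p q4 * (-1) ^ N = C0 * τ := by
    apply hCu.mul_left_cancel
    linear_combination 16 ^ N * hprod - SR p q4 * hct0 + τ * hc00
  have h44 : ((-1 : RR p) ^ N) * (-1) ^ N = 1 := by rw [← mul_pow]; norm_num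
  have h16 : (16 : RR p) ^ N = 4 ^ N * 4 ^ N := by rw [← mul_pow]; norm_num
  have hm4 : (-4 : RR p) ^ N = (-1) ^ N * 4 ^ N := by rw [← mul_pow]; norm_num
  refine ⟨(-4) ^ N * 5 ^ (5 * N) * (1 + p * J), ?_, ?_, ?_⟩
  · -- fourth power
    have e2 := qf_RR hp (hnd 2 (by omega) (by omega))
    have e5 := qf_RR hp (hnd 5 (by omega) (by omega))
    push_cast at e2 e5
    have hp1 : p - 1 = 4 * N := by omega
    rw [hp1] at e2 e5
    have a1 : ((-4 : RR p) ^ N) ^ 4 = (2 ^ (4 * N)) ^ 2 := by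
      rw [← pow_mul, ← pow_mul, mul_comm N 4, pow_mul, show 4 * N * 2 = 8 * N by ring, pow_mul]
      norm_num
    have a2 : ((5 : RR p) ^ (5 * N)) ^ 4 = (5 ^ (4 * N)) ^ 5 := by
      rw [← pow_mul, ← pow_mul]; congr 1; ring
    rw [mul_pow, mul_pow, a1, a2, e2, e5]
    have hp2 := pp p
    have hp3 : ∀ x y : RR p, (1 + p * x) * (1 + p * y) = 1 + p * (x + y) := by
      intro x y; linear_combination x * y * hp2
    have hp4 : ∀ (x : RR p) (k : ℕ), (1 + p * x) ^ k = 1 + p * (k * x) := by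
      intro x k
      induction k with
      | zero => simp
      | succ k ih => rw [pow_succ, ih, hp3]; push_cast; ring
    rw [hp4, hp4, hp4, hp3, hp3]
    push_cast
    linear_combination (p : RR p) * hJ
  · -- reduction
    have hfermat : (5 : ZMod p) ^ (4 * N) = 1 := by
      have h5 : (5 : ZMod p) ≠ 0 := by
        have := hnd 5 (by omega) (by omega)
        rw [← ZMod.natCast_eq_zero_iff] at this
        exact_mod_cast this
      have := ZMod.pow_card_sub_one_eq_one h5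
      rwa [show p - 1 = 4 * N by omega] at this
    have hneg := neg_four_pow hp hN
    simp only [map_mul, map_add, map_pow, map_neg, map_ofNat, map_one]
    rw [hneg, show (red p) (p : RR p) = 0 by rw [red_nat, hpz], zero_mul, add_zero, one_mul, mul_one,
      show 5 * N = N + 4 * N by ring, pow_add, hfermat, mul_one]
  · -- value
    apply (hu4.pow N).mul_left_cancel
    have : SR p q4 * 4 ^ N = (-1) ^ N * C0 * (τ * 4 ^ N) := by
      linear_combination 4 ^ N * (-1) ^ N * hSR2 - SR p q4 * 4 ^ N * h44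
    rw [hm4]
    linear_combination this + (-1) ^ N * C0 * hThat +
      (-1) ^ N * 5 ^ (5 * N) * (1 + p * J) * hcde +
      (-1) ^ N * 5 ^ (5 * N) * (1 + p * J) * (4 * (m : RR p) ^ 2 - 2 * p) * h16

end Pool.Agent.Lib.MP_ff9ca0_nt
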