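import Pool.Agent.Lib.MP_ff9ca0_nt.KDef

/-!
The case `p = 4r+3`: vanishing of a coefficient.
-/

namespace Pool.Agent.Lib.MP_ff9ca0_nt

open Finset Polynomial

private theorem PC1_id (p : ℕ) : (C 50000 * X ^ 2 + (X - C 6) ^ 4 * (X - C 81) : (ZMod p)[X]) =
    (X - 1) * (qq2 (ZMod p)) ^ 2 := by
  unfold qq2
  simp only [map_ofNat]
  ring

private theorem PC1_deriv {p : ℕ} (a m : ℕ) (h : (a + 1) + 2 * (m + 1) = 2 * p) :
    derivative (X ^ (a + 1) * (X - C 6) ^ (4 * (m + 1)) * (X - C 81) ^ (m + 1) : (ZMod p)[X]) =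
      C ((m + 1 : ℕ) : ZMod p) * (3 * qq2 (ZMod p) *
        (X ^ a * (X - C 6) ^ (4 * m + 3) * (X - C 81) ^ m)) := by
  have hc : ((a + 1 : ℕ) : ZMod p) = -2 * ((m + 1 : ℕ) : ZMod p) := by
    have := congrArg (Nat.cast : ℕ → ZMod p) h
    push_cast at this ⊢
    rw [ZMod.natCast_self] at this
    linear_combination this
  have hc' : (C ((a + 1 : ℕ) : ZMod p) : (ZMod p)[X]) = -2 * C ((m + 1 : ℕ) : ZMod p) := by
    rw [hc, map_mul, map_neg, map_ofNat]
  rw [derivative_mul, derivative_mul, derivative_X_pow, derivative_X_sub_C_pow,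
    derivative_X_sub_C_pow, hc']
  have e1 : 4 * (m + 1) - 1 = 4 * m + 3 := by omega
  have e2 : 4 * (m + 1) = 4 * m + 3 + 1 := by omega
  rw [e1, e2, Nat.add_sub_cancel, Nat.add_sub_cancel]
  have e3 : (C ((4 * m + 3 + 1 : ℕ) : ZMod p) : (ZMod p)[X]) = 4 * C ((m + 1 : ℕ) : ZMod p) := by
    rw [← map_ofNat C 4, ← map_mul]
    congr 1
    push_cast
    ring
  rw [e3]
  unfold qq2
  simp only [map_ofNat]
  ring

/-- Let `n = 2r+1`, `P = X^n (X-1)^n (X-81)^r`.  Then `[X^(p-1)] P = 0`.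

Proof.  Let `Z_m = (50000)^(3r+2-m) (-1)^m X^(2p-2m) (X-6)^(4m) (X-81)^m` and
`S = ∑_{j ≤ n} C(n,j) (-1)^j/(r+j+1) Z_(r+j+1)`.  As in `Yj_deriv`,
`Z_m' = m 3q 50000^(3r+2-m) (-1)^m X^(2p-2m-1) (X-6)^(4m-1) (X-81)^(m-1)`, so
`S' = const * 3 q X^(..) (X-81)^r (X-6)^(4r+3) (50000 X^2 + (X-6)^4 (X-81))^n = const * 3 q^p (X-6)^p P`
(`50000 X^2 + (X-6)^4 (X-81) = (X-1) q^2`, `2n+1 = p`).  The coefficient of `X^(p-1)` of a derivative is
zero, and `q^p (X-6)^p = q(X^p) (X^p-6)`, so `(-324)(-6) [X^(p-1)] P = 0`. -/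
theorem PC_coeff {p r : ℕ} [hp : Fact p.Prime] (hr : p = 4 * r + 3) (h7 : 7 ≤ p) :
    ((X ^ (2 * r + 1) * (X - 1) ^ (2 * r + 1) * (X - C 81) ^ r : (ZMod p)[X])).coeff (p - 1) = 0 := by
  set P : (ZMod p)[X] := X ^ (2 * r + 1) * (X - 1) ^ (2 * r + 1) * (X - C 81) ^ r with hP
  -- the antiderivative
  set S : (ZMod p)[X] := ∑ j ∈ range (2 * r + 1 + 1),
    C (((2 * r + 1).choose j : ZMod p) * 50000 ^ (2 * r + 1 - j) / ((r + j + 1 : ℕ) : ZMod p)) *
      (X ^ (2 * r + 1 + 2 * (2 * r + 1 - j) + 1) * (X - C 6) ^ (4 * (r + j + 1)) *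
        (X - C 81) ^ (r + j + 1)) with hS
  have hder : derivative S = 3 * (qq2 (ZMod p) ^ p * (X - C 6) ^ p * P) := by
    have e : derivative S = ∑ j ∈ range (2 * r + 1 + 1), 3 * qq2 (ZMod p) *
        (X ^ (2 * r + 1) * (X - C 6) ^ (4 * r + 3) * (X - C 81) ^ r) *
        (((X - C 6) ^ 4 * (X - C 81)) ^ j * (C 50000 * X ^ 2) ^ (2 * r + 1 - j) *
          ((2 * r + 1).choose j : (ZMod p)[X])) := by
      rw [hS, derivative_sum]
      refine Finset.sum_congr rfl fun j hj => ?_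
      have hj' : j ≤ 2 * r + 1 := by
        have := Finset.mem_range.mp hj
        omega
      rw [derivative_C_mul, PC1_deriv (2 * r + 1 + 2 * (2 * r + 1 - j)) (r + j) (by omega)]
      have hne : ((r + j + 1 : ℕ) : ZMod p) ≠ 0 := by
        rw [Ne, ZMod.natCast_eq_zero_iff]
        intro hd
        have := Nat.le_of_dvd (by omega) hd
        omega
      have hC : (C (((2 * r + 1).choose j : ZMod p) * 50000 ^ (2 * r + 1 - j) /
          ((r + j + 1 : ℕ) : ZMod p)) : (ZMod p)[X]) * C ((r + j + 1 : ℕ) : ZMod p) =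
          ((2 * r + 1).choose j : (ZMod p)[X]) * (C 50000) ^ (2 * r + 1 - j) := by
        rw [← map_mul, div_mul_cancel₀ _ hne, map_mul, map_pow, map_natCast]
      rw [← mul_assoc, hC]
      rw [mul_pow, mul_pow, ← pow_mul, ← pow_mul]
      have e1 : 4 * (r + j) + 3 = 4 * r + 3 + 4 * j := by ring
      rw [e1]
      simp only [pow_add]
      ring
    rw [e, ← Finset.mul_sum, ← add_pow, add_comm ((X - C 6) ^ 4 * (X - C 81)), PC1_id, mul_pow,
      ← pow_mul, hP]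
    have e2 : (qq2 (ZMod p)) ^ p = qq2 (ZMod p) * (qq2 (ZMod p)) ^ (2 * (2 * r + 1)) := by
      rw [← pow_succ']
      congr 1
      omega
    have e3 : ((X - C 6 : (ZMod p)[X])) ^ p = (X - C 6) ^ (4 * r + 3) := by
      congr 1
    rw [e2, e3]
    ring
  have hco : (derivative S).coeff (p - 1) = 0 := by
    rw [coeff_derivative]
    have : ((p - 1 : ℕ) : ZMod p) + 1 = 0 := by
      have h1 : p - 1 + 1 = p := by omega
      have := congrArg (Nat.cast : ℕ → ZMod p) h1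
      push_cast at this
      rw [ZMod.natCast_self] at this
      exact this
    rw [this, mul_zero]
  have hfrob : qq2 (ZMod p) ^ p * (X - C 6) ^ p * P =
      C 1944 * P + X ^ p * (((X ^ p) ^ 2 - C 58 * X ^ p - C 12) * P) := by
    have h1 : ((X - C 6 : (ZMod p)[X])) ^ p = X ^ p - C 6 := by
      rw [sub_pow_char, ← map_pow, ZMod.pow_card]
    have h2 : qq2 (ZMod p) ^ p = X ^ (2 * p) - C 52 * X ^ p - C 324 := by
      unfold qq2
      rw [sub_pow_char, sub_pow_char, mul_pow, ← map_pow, ← map_pow, ZMod.pow_card, ZMod.pow_card,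
        ← pow_mul]
    rw [h1, h2]
    simp only [map_ofNat]
    ring
  rw [hder, hfrob, ← map_ofNat C 3, coeff_C_mul, coeff_add, coeff_C_mul, coeff_X_pow_mul',
    if_neg (by omega), add_zero] at hco
  have h3 : (3 : ZMod p) ≠ 0 := by
    have : ((3 : ℕ) : ZMod p) ≠ 0 := by
      rw [Ne, ZMod.natCast_eq_zero_iff]
      intro hd
      have := Nat.le_of_dvd (by norm_num) hd
      omega
    exact_mod_cast this
  have h1944 : (1944 : ZMod p) ≠ 0 := by
    have : ((1944 : ℕ) : ZMod p) ≠ 0 := by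
      rw [Ne, ZMod.natCast_eq_zero_iff]
      intro hd
      have hd' : p ∣ 2 ^ 3 * 3 ^ 5 := by
        have : (1944 : ℕ) = 2 ^ 3 * 3 ^ 5 := by norm_num
        rwa [this] at hd
      rcases (Nat.Prime.dvd_mul hp.out).mp hd' with h | h
      · have := Nat.le_of_dvd (by norm_num) (hp.out.dvd_of_dvd_pow h)
        omega
      · have := Nat.le_of_dvd (by norm_num) (hp.out.dvd_of_dvd_pow h)
        omega
    exact_mod_cast this
  rcases mul_eq_zero.mp hco with h | h
  · exact absurd h h3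
  · rcases mul_eq_zero.mp h with h | h
    · exact absurd h h1944
    · exact h

end Pool.Agent.Lib.MP_ff9ca0_nt
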