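import Pool.Agent.Lib.MP_ff9ca0_nt.Basic

/-!
Exact recurrence for the sums `Sg` and its consequences modulo `p^2`.
-/

namespace Pool.Agent.Lib.MP_ff9ca0_nt

open Finset Polynomial

/-- `C(m+2, l+2) (l+2)(l+1) = (m+2)(m+1) C(m,l)`. -/
private theorem Sig1_cc (m l : ℕ) :
    (m + 2).choose (l + 2) * ((l + 2) * (l + 1)) = (m + 2) * (m + 1) * m.choose l := by
  have h1 := Nat.add_one_mul_choose_eq (m + 1) (l + 1)
  have h2 := Nat.add_one_mul_choose_eq m l
  calc (m + 2).choose (l + 2) * ((l + 2) * (l + 1))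
      = ((m + 1 + 1).choose (l + 1 + 1) * (l + 1 + 1)) * (l + 1) := by ring
    _ = (m + 1 + 1) * ((m + 1).choose (l + 1) * (l + 1)) := by rw [← h1]; ring
    _ = (m + 2) * (m + 1) * m.choose l := by rw [← h2]; ring

/-- `C(m+1, l+1) (l+1) = (m+1) C(m,l)` and `C(m+1,l) (m+1-l) = (m+1) C(m,l)` in integers. -/
private theorem Sig1_up (m l : ℕ) :
    ((m + 1).choose l : ℤ) * ((m : ℤ) + 1 - l) = (m + 1) * (m.choose l : ℤ) := by
  rcases le_or_gt l (m + 1) with h | h
  · have h1 := Nat.choose_mul_succ_eq m l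
    have h2 : (((m.choose l) * (m + 1) : ℕ) : ℤ) = (((m + 1).choose l * (m + 1 - l) : ℕ) : ℤ) := by
      rw [h1]
    push_cast [Nat.cast_sub h] at h2
    linear_combination -h2
  · rw [Nat.choose_eq_zero_of_lt h, Nat.choose_eq_zero_of_lt (by omega)]
    simp

/-- `C(2j+k+1, 2k+2) (2k+2)(2k+1) = (2j+k+1)(2j-k) C(2j+k,2k)` -/
private theorem Sig1_a (j k : ℕ) :
    ((2 * j + (k + 1)).choose (2 * (k + 1)) : ℤ) * ((2 * k + 2) * (2 * k + 1)) =
      (2 * j + k + 1) * (2 * j - k) * ((2 * j + k).choose (2 * k) : ℤ) := by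
  have h1 := Nat.add_one_mul_choose_eq (2 * j + k) (2 * k + 1)
  have h2 := Nat.choose_succ_right_eq (2 * j + k) (2 * k)
  have e1 : (((2 * j + k + 1) * (2 * j + k).choose (2 * k + 1) : ℕ) : ℤ) =
      (((2 * j + k + 1).choose (2 * k + 1 + 1) * (2 * k + 1 + 1) : ℕ) : ℤ) := by rw [h1]
  have e2 : ((2 * j + k).choose (2 * k + 1) : ℤ) * (2 * k + 1) =
      (2 * j - k) * ((2 * j + k).choose (2 * k) : ℤ) := by
    rcases le_or_gt (2 * k) (2 * j + k) with h | h
    · have h3 : (((2 * j + k).choose (2 * k + 1) * (2 * k + 1) : ℕ) : ℤ) =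
          (((2 * j + k).choose (2 * k) * (2 * j + k - 2 * k) : ℕ) : ℤ) := by rw [h2]
      push_cast [Nat.cast_sub h] at h3
      linear_combination h3
    · rw [Nat.choose_eq_zero_of_lt h, Nat.choose_eq_zero_of_lt (by omega)]
      simp
  push_cast at e1
  have e3 : ((2 * j + (k + 1)).choose (2 * (k + 1)) : ℤ) =
      ((2 * j + k + 1).choose (2 * k + 1 + 1) : ℤ) := by
    congr 1
  rw [e3]
  linear_combination (2 * (k : ℤ) + 1) * (-e1) + (2 * (j : ℤ) + k + 1) * e2

/-- `C(2j+2+k,2k)(2j+2-k)(2j+1-k) = (2j+k+2)(2j+k+1) C(2j+k,2k)` -/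
private theorem Sig1_b (j k : ℕ) :
    ((2 * (j + 1) + k).choose (2 * k) : ℤ) * ((2 * j + 2 - k) * (2 * j + 1 - k)) =
      (2 * j + k + 2) * (2 * j + k + 1) * ((2 * j + k).choose (2 * k) : ℤ) := by
  have h1 := Sig1_up (2 * j + k) (2 * k)
  have h2 := Sig1_up (2 * j + k + 1) (2 * k)
  have e3 : ((2 * (j + 1) + k).choose (2 * k) : ℤ) =
      ((2 * j + k + 1 + 1).choose (2 * k) : ℤ) := by
    congr 2
    ring
  rw [e3]
  push_cast at h1 h2
  linear_combination (2 * (j : ℤ) + 1 - k) * h2 + (2 * (j : ℤ) + k + 2) * h1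

/-- `(j+1) C(2j+2,j+1) = 2(2j+1) C(2j,j)` -/
private theorem Sig1_c (j : ℕ) :
    ((j : ℤ) + 1) * ((2 * (j + 1)).choose (j + 1) : ℤ) = 2 * (2 * j + 1) * ((2 * j).choose j : ℤ) := by
  have h := Nat.succ_mul_centralBinom_succ j
  rw [Nat.centralBinom_eq_two_mul_choose, Nat.centralBinom_eq_two_mul_choose] at h
  exact_mod_cast h

private theorem Sig1_step {A : Type*} [CommRing A] {q4 : A} (h4 : 4 * q4 = 1) (j k : ℕ) :
    (2 * (k : A) + 1) * (k + 1) * ((4 * k + 5) * Fq q4 j (k + 1) + (k + 1) * Fq q4 j k) =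
      ((j + 1 : ℕ) : A) * ((2 * ((j + 1 : ℕ) : A) - k) * (2 * ((j + 1 : ℕ) : A) - k - 1)) *
        Fq q4 (j + 1) k - (j : A) * ((2 * (j : A) - k) * (2 * (j : A) - k - 1)) * Fq q4 j k := by
  have ha := congrArg (Int.cast : ℤ → A) (Sig1_a j k)
  have hb := congrArg (Int.cast : ℤ → A) (Sig1_b j k)
  have hc := congrArg (Int.cast : ℤ → A) (Sig1_c j)
  push_cast at ha hb hc
  have key : 4 * ((2 * (k : A) + 1) * (k + 1) * ((4 * k + 5) * Fq q4 j (k + 1) +
      (k + 1) * Fq q4 j k)) =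
      4 * (((j + 1 : ℕ) : A) * ((2 * ((j + 1 : ℕ) : A) - k) * (2 * ((j + 1 : ℕ) : A) - k - 1)) *
        Fq q4 (j + 1) k - (j : A) * ((2 * (j : A) - k) * (2 * (j : A) - k - 1)) * Fq q4 j k) := by
    unfold Fq
    push_cast
    rw [pow_succ]
    set a := ((2 * j + (k + 1)).choose (2 * (k + 1)) : A) with hadef
    set b := ((2 * (j + 1) + k).choose (2 * k) : A)
    set c := ((2 * (j + 1)).choose (j + 1) : A)
    set d := ((2 * j).choose j : A)
    set e := ((2 * j + k).choose (2 * k) : A)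
    have h5 : (4 : A) * ((j : A) + 1) * ((2 * ((j : A) + 1) - k) * (2 * ((j : A) + 1) - k - 1)) *
        (c * (q4 ^ j * q4) * b) = q4 ^ j * (2 * (2 * j + 1) * d) *
          ((2 * j + k + 2) * (2 * j + k + 1) * e) := by
      rw [← hb, ← hc]
      linear_combination ((j : A) + 1) * ((2 * ((j : A) + 1) - k) * (2 * ((j : A) + 1) - k - 1)) *
        c * b * q4 ^ j * h4
    linear_combination (2 * (4 * (k : A) + 5) * d * q4 ^ j) * ha - h5
  have h6 : ∀ x y : A, 4 * x = 4 * y → x = y := by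
    intro x y hxy
    linear_combination q4 * hxy + (y - x) * h4
  exact h6 _ _ key

/-- Exact recurrence, in any commutative ring with `4 * q4 = 1`.

Proof.  With `G j = j (2j-k) (2j-k-1) Fq q4 j k` one has for all `j`
`(2k+1)(k+1) ((4k+5) Fq q4 j (k+1) + (k+1) Fq q4 j k) = G (j+1) - G j`
(use `C(2j+k+1,2k+2) (2k+2)(2k+1) = (2j+k+1)(2j-k) C(2j+k,2k)`,
`C(2j+2+k,2k)(2j+2-k)(2j+1-k) = (2j+k+2)(2j+k+1) C(2j+k,2k)`,
`(j+1) C(2j+2,j+1) = 2(2j+1) C(2j,j)`; cancel: do the identity in `ℤ`, multiplied by `4`),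
and sum over `j < p`. -/
theorem Sg_rec {A : Type*} [CommRing A] {q4 : A} (h4 : 4 * q4 = 1) (p k : ℕ) :
    (2 * (k : A) + 1) * (k + 1) * ((4 * k + 5) * Sg q4 p (k + 1) + (k + 1) * Sg q4 p k) =
      p * ((2 * p - k) * (2 * p - k - 1)) * ((2 * p).choose p : A) * q4 ^ p *
        ((2 * p + k).choose (2 * k) : A) := by
  have h1 : (2 * (k : A) + 1) * (k + 1) * ((4 * k + 5) * Sg q4 p (k + 1) + (k + 1) * Sg q4 p k) =
      ∑ j ∈ range p, (2 * (k : A) + 1) * (k + 1) *
        ((4 * k + 5) * Fq q4 j (k + 1) + (k + 1) * Fq q4 j k) := by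
    unfold Sg
    rw [← Finset.mul_sum, Finset.sum_add_distrib, ← Finset.mul_sum, ← Finset.mul_sum]
  rw [h1, Finset.sum_congr rfl (fun j _ => Sig1_step h4 j k)]
  have h2 := Finset.sum_range_sub (fun j : ℕ => (j : A) * ((2 * (j : A) - k) * (2 * (j : A) - k - 1)) *
    Fq q4 j k) p
  rw [h2]
  unfold Fq
  push_cast
  ring

private theorem Sig1_of_zero {p : ℕ} (hp : p.Prime) {q4 : RR p} (h4 : 4 * q4 = 1) {k : ℕ}
    (h1 : ¬ p ∣ 2 * k + 1) (h2 : ¬ p ∣ k + 1)
    (h3 : (p : RR p) * ((2 * p - k) * (2 * p - k - 1)) * ((2 * p).choose p : RR p) * q4 ^ p *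
        ((2 * p + k).choose (2 * k) : RR p) = 0) :
    (4 * (k : RR p) + 5) * Sg q4 p (k + 1) = -((k + 1) * Sg q4 p k) := by
  have h := Sg_rec h4 p k
  rw [h3] at h
  have u1 := isUnit_nat hp h1
  have u2 := isUnit_nat hp h2
  push_cast at u1 u2
  have h5 := (u1.mul u2).mul_right_eq_zero.1 h
  linear_combination h5

/-- for `k < n`, `p = 2n+1` -/
theorem Sg_step_lo {p n : ℕ} (hp : p.Prime) (hn : p = 2 * n + 1) {q4 : RR p} (h4 : 4 * q4 = 1)
    {k : ℕ} (hk : k < n) :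
    (4 * (k : RR p) + 5) * Sg q4 p (k + 1) = -((k + 1) * Sg q4 p k) := by
  refine Sig1_of_zero hp h4 (fun h => ?_) (fun h => ?_) ?_
  · have := Nat.le_of_dvd (by omega) h
    omega
  · have := Nat.le_of_dvd (by omega) h
    omega
  · rcases Nat.eq_zero_or_pos k with rfl | hk0
    · push_cast
      linear_combination 2 * (2 * (p : RR p) - 1) * ((2 * p).choose p : RR p) * q4 ^ p *
        ((2 * p + 0).choose (2 * 0) : RR p) * pp p
    · have := Fact.mk hp
      have h5 : ((2 * p + k).choose (2 * k)) ≡ 0 [MOD p] := by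
        have h6 := Choose.choose_modEq_choose_mod_mul_choose_div_nat (n := 2 * p + k)
          (k := 2 * k) (p := p)
        have e1 : (2 * p + k) % p = k := by
          rw [add_comm, Nat.add_mul_mod_self_right, Nat.mod_eq_of_lt (by omega)]
        have e2 : (2 * k) % p = 2 * k := Nat.mod_eq_of_lt (by omega)
        rw [e1, e2, Nat.choose_eq_zero_of_lt (show k < 2 * k by omega), zero_mul] at h6
        exact h6
      obtain ⟨c, hc⟩ := (Nat.modEq_zero_iff_dvd.1 h5)
      rw [hc]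
      push_cast
      linear_combination ((2 * (p : RR p) - k) * (2 * p - k - 1)) * ((2 * p).choose p : RR p) *
        q4 ^ p * c * pp p

/-- for `p ≤ k < p + n`, `p = 2n+1` -/
theorem Sg_step_hi {p n : ℕ} (hp : p.Prime) (hn : p = 2 * n + 1) {q4 : RR p} (h4 : 4 * q4 = 1)
    {k : ℕ} (hk : p ≤ k) (hk2 : k < p + n) :
    (4 * (k : RR p) + 5) * Sg q4 p (k + 1) = -((k + 1) * Sg q4 p k) := by
  obtain ⟨a, rfl⟩ := Nat.exists_eq_add_of_le hk
  refine Sig1_of_zero hp h4 (fun h => ?_) (fun h => ?_) ?_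
  · have h7 : p ∣ 2 * a + 1 := by
      have : 2 * (p + a) + 1 = p * 2 + (2 * a + 1) := by ring
      rw [this] at h
      exact (Nat.dvd_add_right (Dvd.intro _ rfl)).1 h
    have := Nat.le_of_dvd (by omega) h7
    omega
  · have h7 : p ∣ a + 1 := by
      rw [add_assoc] at h
      exact (Nat.dvd_add_right (dvd_refl p)).1 h
    have := Nat.le_of_dvd (by omega) h7
    omega
  · rcases Nat.eq_zero_or_pos a with rfl | ha0
    · push_cast
      linear_combination ((2 * (p : RR p) - (p + 0) - 1)) * ((2 * p).choose p : RR p) * q4 ^ p *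
        ((2 * p + (p + 0)).choose (2 * (p + 0)) : RR p) * pp p
    · have := Fact.mk hp
      have h5 : ((2 * p + (p + a)).choose (2 * (p + a))) ≡ 0 [MOD p] := by
        have h6 := Choose.choose_modEq_choose_mod_mul_choose_div_nat (n := 2 * p + (p + a))
          (k := 2 * (p + a)) (p := p)
        have e1 : (2 * p + (p + a)) % p = a := by
          have : 2 * p + (p + a) = a + 3 * p := by ring
          rw [this, Nat.add_mul_mod_self_right, Nat.mod_eq_of_lt (by omega)]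
        have e2 : (2 * (p + a)) % p = 2 * a := by
          have : 2 * (p + a) = 2 * a + 2 * p := by ring
          rw [this, Nat.add_mul_mod_self_right, Nat.mod_eq_of_lt (by omega)]
        rw [e1, e2, Nat.choose_eq_zero_of_lt (show a < 2 * a by omega), zero_mul] at h6
        exact h6
      obtain ⟨c, hc⟩ := (Nat.modEq_zero_iff_dvd.1 h5)
      rw [hc]
      push_cast
      linear_combination ((2 * (p : RR p) - (p + a)) * (2 * p - (p + a) - 1)) *
        ((2 * p).choose p : RR p) * q4 ^ p * c * pp p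

end Pool.Agent.Lib.MP_ff9ca0_nt
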