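import Pool.Agent.Lib.MP_ff9ca0_nt.Basic
import Pool.Agent.Lib.MP_945b72_nt.P3

/-!
The squares of the central coefficients `T_m(9,20)` (Clausen formula) and of `P_{2j}(0)`.
-/

namespace Pool.Agent.Lib.MP_ff9ca0_nt

open Finset Polynomial

private theorem td_choose (m i : ℕ) :
    m.choose i * (m + i).choose m = (m + i).choose (2 * i) * (2 * i).choose i := by
  rcases Nat.lt_or_ge m i with h | h
  · rw [Nat.choose_eq_zero_of_lt h, Nat.choose_eq_zero_of_lt (show m + i < 2 * i by omega)]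
    simp
  · have h1 := Nat.choose_mul (n := m + i) (k := 2 * i) (s := i) (by omega)
    rw [h1, show m + i - i = m by omega, show 2 * i - i = i by omega, mul_comm]
    congr 1
    rw [← Nat.choose_symm_of_eq_add (show m + i = m + i from rfl)]

private theorem td_coeff (m : ℕ) : ((((X : ℤ[X]) ^ 2 + C 9 * X + C 20) ^ m).coeff m) =
    ∑ i ∈ range (m + 1), MP_945b72_nt.tt m i * 4 ^ i := by
  have e1 : ((X : ℤ[X]) ^ 2 + C 9 * X + C 20) = (X + C 4) * ((X + C 4) + 1) := by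
    have h9 : (C 9 : ℤ[X]) = 9 := by simp
    have h20 : (C 20 : ℤ[X]) = 20 := by simp
    have h4 : (C 4 : ℤ[X]) = 4 := by simp
    rw [h9, h20, h4]; ring
  rw [e1, mul_pow, add_pow (X + C (4 : ℤ)) 1 m, mul_sum, finsetSum_coeff]
  apply sum_congr rfl
  intro i hi
  rw [mem_range] at hi
  have e2 : (X + C (4 : ℤ)) ^ m * ((X + C 4) ^ i * 1 ^ (m - i) * ((m.choose i : ℕ) : ℤ[X])) =
      (X + C 4) ^ (m + i) * C ((m.choose i : ℕ) : ℤ) := by
    rw [one_pow, mul_one, pow_add]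
    simp only [map_natCast]
    ring
  rw [e2, coeff_mul_C, coeff_X_add_C_pow, show m + i - m = i by omega]
  have h := td_choose m i
  have h' : ((m.choose i : ℕ) : ℤ) * (((m + i).choose m : ℕ) : ℤ) =
      (((m + i).choose (2 * i) : ℕ) : ℤ) * (((2 * i).choose i : ℕ) : ℤ) := by
    exact_mod_cast h
  unfold MP_945b72_nt.tt
  linear_combination (4 : ℤ) ^ i * h'

/-- `T_m(9,20)^2 = ∑_k C(m+k,2k) C(2k,k)^2 20^k`.

Proof.  `(X^2+9X+20)^m = (X+4)^m ((X+4)+1)^m = ∑_i C(m,i) (X+4)^(m+i)`, so its coefficient of `X^m`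
is `D = ∑_i C(m,i) C(m+i,m) 4^i = ∑_i C(m+i,2i) C(2i,i) 4^i = yy 4 m (m+1)` (over `ℚ`), and
`yy_sq (4 : ℚ) m` of the library `MP_945b72_nt` (`P3.lean`, with `tt m k = C(m+k,2k) C(2k,k)`)
is the claim, `4 + 4^2 = 20`. -/
theorem T_sq (m : ℕ) : ((((X : ℤ[X]) ^ 2 + C 9 * X + C 20) ^ m).coeff m) ^ 2 =
    ∑ k ∈ range (m + 1), ((m + k).choose (2 * k) : ℤ) * ((2 * k).choose k : ℤ) ^ 2 * 20 ^ k := by
  rw [td_coeff]
  have h := MP_945b72_nt.yy_sq (4 : ℚ) m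
  unfold MP_945b72_nt.yy at h
  have h2 : (((∑ i ∈ range (m + 1), MP_945b72_nt.tt m i * 4 ^ i) ^ 2 : ℤ) : ℚ) =
      ((∑ k ∈ range (m + 1), ((m + k).choose (2 * k) : ℤ) * ((2 * k).choose k : ℤ) ^ 2 * 20 ^ k : ℤ)
        : ℚ) := by
    push_cast
    rw [h]
    apply sum_congr rfl
    intro k _
    unfold MP_945b72_nt.tt
    push_cast
    norm_num
    ring
  exact_mod_cast h2

private theorem td_yy (j : ℕ) : (4 : ℚ) ^ j * MP_945b72_nt.yy (-1 / 2 : ℚ) (2 * j) (2 * j + 1) =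
    (-1) ^ j * ((2 * j).choose j : ℚ) := by
  induction j with
  | zero => simp [MP_945b72_nt.yy, MP_945b72_nt.tt]
  | succ j ih =>
    have h := MP_945b72_nt.yy_rec (-1 / 2 : ℚ) (2 * j)
    have hc := MP_945b72_nt.central_rec j
    have hc' : ((j : ℚ) + 1) * ((2 * (j + 1)).choose (j + 1) : ℚ) =
        2 * (2 * j + 1) * ((2 * j).choose j : ℚ) := by exact_mod_cast hc
    have e : 2 * (j + 1) = 2 * j + 2 := by ring
    rw [e] at hc' ⊢
    have hj : (2 * ((j : ℚ) + 1)) ≠ 0 := by positivity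
    apply mul_left_cancel₀ hj
    rw [show 2 * j + 2 + 1 = 2 * j + 3 by ring]
    push_cast at h
    rw [pow_succ, pow_succ]
    linear_combination (4 : ℚ) ^ j * 4 * h - 4 * (2 * (j : ℚ) + 1) * ih + 2 * (-1) ^ j * hc'

/-- Proof.  `yy_sq (-1/2 : ℚ) (2j)`, and `yy (-1/2) (2j) (2j+1) = (-1)^j C(2j,j)/4^j` by `yy_rec`
(with `1 + 2z = 0`). -/
theorem P0_sq (j : ℕ) : ∑ k ∈ range (2 * j + 1), ((2 * j + k).choose (2 * k) : ℤ) *
    ((2 * k).choose k : ℤ) ^ 2 * ((-1) ^ k * 4 ^ (2 * j - k)) = ((2 * j).choose j : ℤ) ^ 2 := by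
  have h := MP_945b72_nt.yy_sq (-1 / 2 : ℚ) (2 * j)
  have h1 := td_yy j
  have h3 : ((2 * j).choose j : ℚ) ^ 2 = (4 : ℚ) ^ (2 * j) *
      (MP_945b72_nt.yy (-1 / 2 : ℚ) (2 * j) (2 * j + 1)) ^ 2 := by
    have h4 : ((-1 : ℚ) ^ j) ^ 2 = 1 := by rw [← pow_mul, mul_comm, pow_mul]; norm_num
    have h5 : ((2 * j).choose j : ℚ) ^ 2 = ((-1) ^ j * ((2 * j).choose j : ℚ)) ^ 2 := by
      rw [mul_pow, h4, one_mul]
    rw [h5, ← h1, mul_pow, ← pow_mul, mul_comm j 2]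
  have h2 : ((∑ k ∈ range (2 * j + 1), ((2 * j + k).choose (2 * k) : ℤ) *
    ((2 * k).choose k : ℤ) ^ 2 * ((-1) ^ k * 4 ^ (2 * j - k)) : ℤ) : ℚ) =
      ((((2 * j).choose j : ℤ) ^ 2 : ℤ) : ℚ) := by
    push_cast
    rw [h3, h, mul_sum]
    apply sum_congr rfl
    intro k hk
    rw [mem_range] at hk
    have e1 : (-1 / 2 + (-1 / 2) ^ 2 : ℚ) = (-1) * (1 / 4) := by norm_num
    have e2 : (4 : ℚ) ^ (2 * j) = 4 ^ (2 * j - k) * 4 ^ k := by
      rw [← pow_add]; congr 1; omega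
    have e3 : (4 : ℚ) ^ k * (1 / 4) ^ k = 1 := by rw [← mul_pow]; norm_num
    rw [e1, mul_pow, e2]
    unfold MP_945b72_nt.tt
    push_cast
    linear_combination (-(((2 * j + k).choose (2 * k) : ℚ) *
      ((2 * k).choose k : ℚ) ^ 2 * ((-1) ^ k * 4 ^ (2 * j - k)))) * e3
  exact_mod_cast h2

end Pool.Agent.Lib.MP_ff9ca0_nt
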