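import Pool.Agent.Lib.MP_ff9ca0_nt.KDef

/-!
Powers of polynomials modulo `p^2` and `X^p`.
-/

namespace Pool.Agent.Lib.MP_ff9ca0_nt

open Finset Polynomial

/-- `(c-X)^p = c^p + p ell_c - X^p`, `p` odd -/
theorem sub_X_pow {p : ℕ} (hp : p.Prime) (h2 : p ≠ 2) (A : Type*) [CommRing A] (c : ℕ) :
    (C (c : A) - X) ^ p = C ((c : A) ^ p) + C (p : A) * ellc p A c - X ^ p := by
  have hodd : Odd p := hp.odd_of_ne_two h2
  have hIoo : Ioo 0 p = Ico 1 p := by
    ext i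
    simp only [mem_Ioo, mem_Ico]
    omega
  have h1 : (C (c : A) - X) ^ p = ∑ m ∈ range (p + 1),
      (-X) ^ m * (C (c : A)) ^ (p - m) * ((p.choose m : ℕ) : A[X]) := by
    rw [← add_pow]
    congr 1
    ring
  rw [h1, Finset.sum_range_succ, Finset.range_eq_Ico, Finset.sum_eq_sum_Ico_succ_bot hp.pos]
  unfold ellc
  rw [hIoo, Finset.mul_sum]
  have h3 : ∀ m ∈ Ico 1 p, (-X) ^ m * (C (c : A)) ^ (p - m) * ((p.choose m : ℕ) : A[X]) =
      C (p : A) * (C (((p.choose m / p : ℕ) : A) * (-1) ^ m * (c : A) ^ (p - m)) * X ^ m) := by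
    intro m hm
    rw [mem_Ico] at hm
    have hd : p ∣ p.choose m := hp.dvd_choose_self (by omega) hm.2
    have h4 : ((p.choose m : ℕ) : A[X]) = C (p : A) * C ((p.choose m / p : ℕ) : A) := by
      rw [← C_mul, ← Nat.cast_mul, Nat.mul_div_cancel' hd, C_eq_natCast]
    rw [h4, neg_pow, C_mul, C_mul, C_pow, C_pow, C_neg, C_1]
    ring
  rw [zero_add, Finset.sum_congr rfl h3]
  rw [pow_zero, Nat.choose_zero_right, Nat.sub_zero, Nat.choose_self, Nat.sub_self, pow_zero,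
    neg_pow, hodd.neg_one_pow, C_pow]
  push_cast
  ring

/-- `g^(p^2) = g(0)^(p^2)` modulo `p^2` and `X^p`.

Proof: `g = g₀ + X g₁`; `g^p = g₀^p + p s + X^p t`; raise to the power `p` again. -/
theorem pow_p2 {p : ℕ} (hp : p.Prime) (g : (RR p)[X]) :
    X ^ p ∣ g ^ (p ^ 2) - C (g.coeff 0 ^ (p ^ 2)) := by
  let I : Ideal (RR p)[X] := Ideal.span {(X ^ p : (RR p)[X])}
  have hmem : ∀ F G : (RR p)[X], Ideal.Quotient.mk I F = Ideal.Quotient.mk I G → X ^ p ∣ F - G := by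
    intro F G h
    rw [Ideal.Quotient.eq, Ideal.mem_span_singleton] at h
    exact h
  apply hmem
  have hX : Ideal.Quotient.mk I (X ^ p) = 0 := by
    rw [Ideal.Quotient.eq_zero_iff_mem]
    exact Ideal.mem_span_singleton_self _
  have hpp : ((p : (RR p)[X] ⧸ I)) ^ 2 = 0 := by
    have h1 : ((p : (RR p)[X])) ^ 2 = 0 := by
      rw [← C_eq_natCast, ← C_pow, pp, C_0]
    have h2 := congrArg (Ideal.Quotient.mk I) h1
    rwa [map_pow, map_natCast, map_zero] at h2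
  have hppp : ((p : (RR p)[X] ⧸ I)) ^ p = 0 := by
    exact pow_eq_zero_of_le hp.two_le hpp
  have hg : g = C (g.coeff 0) + g.divX * X := by
    rw [add_comm]; exact (divX_mul_X_add g).symm
  obtain ⟨r, hr⟩ := exists_add_pow_prime_eq hp (C (g.coeff 0)) (g.divX * X)
  rw [← hg] at hr
  have h1 : Ideal.Quotient.mk I (g ^ p) = Ideal.Quotient.mk I (C (g.coeff 0) ^ p) +
      p * Ideal.Quotient.mk I (C (g.coeff 0) * (g.divX * X) * r) := by
    rw [hr, mul_pow, map_add, map_add, map_mul (Ideal.Quotient.mk I) (g.divX ^ p), hX, mul_zero,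
      add_zero]
    congr 1
    simp only [map_mul, map_natCast]
    ring
  have h2 : Ideal.Quotient.mk I (g ^ (p ^ 2)) = (Ideal.Quotient.mk I (g ^ p)) ^ p := by
    rw [← map_pow]
    congr 1
    ring
  rw [h2, h1]
  obtain ⟨r', hr'⟩ := exists_add_pow_prime_eq hp (Ideal.Quotient.mk I (C (g.coeff 0) ^ p))
    (p * Ideal.Quotient.mk I (C (g.coeff 0) * (g.divX * X) * r))
  rw [hr', mul_pow, hppp, zero_mul, add_zero, C_pow]
  have h3 : (Ideal.Quotient.mk I (C (g.coeff 0) ^ p)) ^ p = Ideal.Quotient.mk I (C (g.coeff 0) ^ p ^ 2) := by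
    rw [← map_pow]
    congr 1
    ring
  rw [h3]
  linear_combination (Ideal.Quotient.mk I (C (g.coeff 0) ^ p) *
    Ideal.Quotient.mk I (C (g.coeff 0) * (g.divX * X) * r) * r') * hpp

end Pool.Agent.Lib.MP_ff9ca0_nt
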