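import Pool.Agent.Lib.MP_ff9ca0_nt.KDef

/-!
The sum `ct` as a coefficient.
-/

namespace Pool.Agent.Lib.MP_ff9ca0_nt

open Finset Polynomial

private theorem TT2_coeff {A : Type*} [CommRing A] (a : A) (e i : ℕ) :
    ((C a - X : A[X]) ^ e).coeff i = (-1) ^ i * a ^ (e - i) * (e.choose i : A) := by
  have h1 : (C a - X : A[X]) = C (-1) * (X + C (-a)) := by
    rw [C_neg, C_neg, C_1]
    ring
  rw [h1, mul_pow, ← C_pow, coeff_C_mul, coeff_X_add_C_pow]
  by_cases hi : i ≤ e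
  · obtain ⟨m, rfl⟩ := Nat.exists_eq_add_of_le hi
    have h2 : (-1 : A) ^ m * (-1) ^ m = 1 := by
      rw [← mul_pow]
      norm_num
    rw [Nat.add_sub_cancel_left, neg_pow a, pow_add]
    linear_combination ((-1) ^ i * a ^ m * ((i + m).choose i : A)) * h2
  · rw [Nat.choose_eq_zero_of_lt (by omega)]
    simp

private theorem TT2_prod {A : Type*} [CommRing A] (M : A) (n : ℕ) (j : ℕ) (f : ℕ → A)
    (hf : ∀ i < j, f i = -((n : A) + 1 + i)) :
    ∏ i ∈ range j, f i = (-1) ^ j * ∏ i ∈ range j, ((n : A) + 1 + i) := by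
  rw [Finset.prod_congr rfl (fun i hi => hf i (mem_range.1 hi))]
  have h : ∀ i ∈ range j, -((n : A) + 1 + i) = (-1) * ((n : A) + 1 + i) := by
    intro i _
    ring
  rw [Finset.prod_congr rfl h, Finset.prod_mul_distrib, Finset.prod_const, card_range]

private theorem TT2_choose {p n j : ℕ} (hp : p.Prime) (hn : n < p) (hj : j ≤ n) :
    ((-1) ^ j * ((p ^ 2 - n - 1).choose j : RR p)) = ((n + j).choose j : RR p) := by
  have hpp2 : p * 2 ≤ p ^ 2 := by
    rw [pow_two]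
    exact Nat.mul_le_mul_left p hp.two_le
  have hfac : IsUnit ((j.factorial : ℕ) : RR p) := by
    apply isUnit_nat hp
    rw [hp.dvd_factorial]
    omega
  apply hfac.mul_left_cancel
  have h1 : ((j.factorial : ℕ) : RR p) * ((p ^ 2 - n - 1).choose j : RR p) =
      ∏ i ∈ range j, (((p ^ 2 - n - 1 - i : ℕ)) : RR p) := by
    rw [← Nat.cast_mul, ← Nat.descFactorial_eq_factorial_mul_choose, Nat.descFactorial_eq_prod_range,
      Nat.cast_prod]
  have h2 : ((j.factorial : ℕ) : RR p) * ((n + j).choose j : RR p) =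
      ∏ i ∈ range j, ((n : RR p) + 1 + i) := by
    rw [← Nat.cast_mul]
    have h3 : j.factorial * (n + j).choose j = (n + 1).ascFactorial j := by
      rw [Nat.ascFactorial_eq_factorial_mul_choose]
    rw [h3, Nat.ascFactorial_eq_prod_range, Nat.cast_prod]
    apply Finset.prod_congr rfl
    intro i _
    push_cast
    ring
  have h4 : ∀ i < j, ((p ^ 2 - n - 1 - i : ℕ) : RR p) = -((n : RR p) + 1 + i) := by
    intro i hi
    have h5 : (p ^ 2 - n - 1 - i) + (n + 1 + i) = p ^ 2 := by omega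
    have h6 := congrArg (Nat.cast : ℕ → RR p) h5
    push_cast at h6
    rw [pp] at h6
    linear_combination h6
  have h7 := TT2_prod (0 : RR p) n j (fun i => ((p ^ 2 - n - 1 - i : ℕ) : RR p)) h4
  rw [h2]
  have h8 : (-1 : RR p) ^ j * (-1) ^ j = 1 := by
    rw [← mul_pow]
    norm_num
  calc ((j.factorial : ℕ) : RR p) * ((-1) ^ j * ((p ^ 2 - n - 1).choose j : RR p))
      = (-1) ^ j * (((j.factorial : ℕ) : RR p) * ((p ^ 2 - n - 1).choose j : RR p)) := by ring
    _ = (-1) ^ j * ((-1) ^ j * ∏ i ∈ range j, ((n : RR p) + 1 + i)) := by rw [h1, ← h7]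
    _ = ∏ i ∈ range j, ((n : RR p) + 1 + i) := by rw [← mul_assoc, h8, one_mul]

/-- `81^(e-n) ∑_j ct e n j 81^j = [X^n] (81-X)^e (1-X)^(p^2-n-1)`, `n` even, `n < p`, `n ≤ e`.

Proof: `[X^(n-j)] (81-X)^e = C(e,n-j) (-1)^(n-j) 81^(e-n+j)`, `[X^j] (1-X)^a = (-1)^j C(a,j)` and
`(-1)^j C(p^2-n-1,j) = C(n+j,j)` in `RR p` for `j < p`. -/
theorem ct_coeff {p n e : ℕ} (hp : p.Prime) (hev : Even n) (hn : n < p) (he : n ≤ e) :
    (81 : RR p) ^ (e - n) * ∑ j ∈ range (n + 1), ct e n j * 81 ^ j =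
      (((C 81 - X) ^ e * (1 - X) ^ (p ^ 2 - n - 1) : (RR p)[X])).coeff n := by
  have h1 : ((C 81 - X) ^ e * (1 - X) ^ (p ^ 2 - n - 1) : (RR p)[X]) =
      (C 1 - X) ^ (p ^ 2 - n - 1) * (C 81 - X) ^ e := by
    rw [C_1, mul_comm]
  rw [h1, coeff_mul, Finset.Nat.sum_antidiagonal_eq_sum_range_succ_mk, Finset.mul_sum]
  apply Finset.sum_congr rfl
  intro j hj
  have hj' : j ≤ n := by
    rw [mem_range] at hj
    omega
  simp only []
  rw [TT2_coeff, TT2_coeff, one_pow, mul_one, TT2_choose hp hn hj']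
  unfold ct
  obtain ⟨m, hm⟩ := Nat.exists_eq_add_of_le hj'
  have hsgn : (-1 : RR p) ^ (n - j) = (-1) ^ j := by
    have h2 : (-1 : RR p) ^ n = 1 := hev.neg_one_pow
    have h3 : n - j = m := by omega
    rw [hm, pow_add] at h2
    rw [h3]
    have h8 : (-1 : RR p) ^ j * (-1) ^ j = 1 := by
      rw [← mul_pow]
      norm_num
    linear_combination (-1) ^ j * h2 - (-1) ^ m * h8
  have h4 : e - (n - j) = (e - n) + j := by omega
  rw [hsgn, h4, pow_add]
  ring

end Pool.Agent.Lib.MP_ff9ca0_nt
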